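import Mathlib

/-!
# Recursive blow-up graphons: sub-objects and clique densities (MP_815355_co)
-/

open MeasureTheory Set

namespace Pool.Agent.H181.CG

noncomputable section

/-- A graphon on `[0,1]`. -/
structure Graphon where
  toFun : unitInterval → unitInterval → ℝ
  symm : ∀ x y, toFun x y = toFun y x
  nonneg : ∀ x y, 0 ≤ toFun x y
  le_one : ∀ x y, toFun x y ≤ 1
  measurable : Measurable (Function.uncurry toFun)

open Classical in
/-- The integrand of the induced density of the (labelled) graph `H`. -/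
def weight (W : Graphon) {n : ℕ} (H : SimpleGraph (Fin n)) (x : Fin n → unitInterval) : ℝ :=
  ∏ p ∈ Finset.univ.filter (fun p : Fin n × Fin n => p.1 < p.2),
    if H.Adj p.1 p.2 then W.toFun (x p.1) (x p.2) else 1 - W.toFun (x p.1) (x p.2)

/-- The induced density `φ(H)`. -/
def density (W : Graphon) {n : ℕ} (H : SimpleGraph (Fin n)) : ℝ := ∫ x, weight W H x

/-- `W'` and `W` represent the same limit. -/
def WeakIso (W' W : Graphon) : Prop :=
  ∀ (n : ℕ) (H : SimpleGraph (Fin n)), density W' H = density W H

/-- The induced density of `H` in `W|_f`. -/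
def subDensity (W : Graphon) (f : unitInterval → ℝ) {n : ℕ} (H : SimpleGraph (Fin n)) : ℝ :=
  (∫ x : Fin n → unitInterval, (∏ i, f (x i)) * weight W H x) / (∫ t, f t) ^ n

/-- Admissible weights `f : [0,1] → [0,1]` measurable with `∫ f > 0`. -/
def Admissible (f : unitInterval → ℝ) : Prop :=
  Measurable f ∧ (∀ t, 0 ≤ f t ∧ f t ≤ 1) ∧ 0 < ∫ t, f t

/-- The limit of `V` is a sub-object of the limit of `W`. -/
def SubObj (V W : Graphon) : Prop :=
  ∃ W' : Graphon, WeakIso W' W ∧ ∃ f, Admissible f ∧
    ∀ (n : ℕ) (H : SimpleGraph (Fin n)), density V H = subDensity W' f H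

lemma factor_mem (W : Graphon) {n : ℕ} (H : SimpleGraph (Fin n)) (x : Fin n → unitInterval)
    (p : Fin n × Fin n) [Decidable (H.Adj p.1 p.2)] :
    0 ≤ (if H.Adj p.1 p.2 then W.toFun (x p.1) (x p.2) else 1 - W.toFun (x p.1) (x p.2)) ∧
    (if H.Adj p.1 p.2 then W.toFun (x p.1) (x p.2) else 1 - W.toFun (x p.1) (x p.2)) ≤ 1 := by
  have h1 := W.nonneg (x p.1) (x p.2)
  have h2 := W.le_one (x p.1) (x p.2)
  split_ifs <;> constructor <;> linarith

lemma weight_nonneg (W : Graphon) {n : ℕ} (H : SimpleGraph (Fin n)) (x : Fin n → unitInterval) :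
    0 ≤ weight W H x := by
  classical
  unfold weight
  exact Finset.prod_nonneg fun p _ => (factor_mem W H x p).1

lemma weight_le_one (W : Graphon) {n : ℕ} (H : SimpleGraph (Fin n)) (x : Fin n → unitInterval) :
    weight W H x ≤ 1 := by
  classical
  unfold weight
  exact Finset.prod_le_one (fun p _ => (factor_mem W H x p).1) fun p _ => (factor_mem W H x p).2

lemma measurable_weight (W : Graphon) {n : ℕ} (H : SimpleGraph (Fin n)) :
    Measurable (weight W H) := by
  classical
  unfold weight
  refine Finset.measurable_prod _ fun p _ => ?_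
  have h : Measurable (fun x : Fin n → unitInterval => W.toFun (x p.1) (x p.2)) := by
    have := W.measurable.comp ((measurable_pi_apply p.1).prodMk (measurable_pi_apply p.2) :
      Measurable (fun x : Fin n → unitInterval => (x p.1, x p.2)))
    exact this
  split_ifs
  · exact h
  · exact measurable_const.sub h

lemma integrable_weight (W : Graphon) {n : ℕ} (H : SimpleGraph (Fin n)) :
    Integrable (weight W H) volume := by
  refine Integrable.of_bound (measurable_weight W H).aestronglyMeasurable 1 ?_
  refine Filter.Eventually.of_forall fun x => ?_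
  rw [Real.norm_eq_abs, abs_of_nonneg (weight_nonneg W H x)]
  exact weight_le_one W H x

lemma density_nonneg (W : Graphon) {n : ℕ} (H : SimpleGraph (Fin n)) : 0 ≤ density W H :=
  integral_nonneg fun x => weight_nonneg W H x

/-- A sub-object has densities at most exponentially larger. -/
lemma SubObj.exists_const {V W : Graphon} (h : SubObj V W) :
    ∃ C : ℝ, 0 < C ∧ ∀ (n : ℕ) (H : SimpleGraph (Fin n)), density V H ≤ C ^ n * density W H := by
  obtain ⟨W', hW', f, ⟨hfm, hf, hf0⟩, hV⟩ := h
  refine ⟨(∫ t, f t)⁻¹, inv_pos.2 hf0, fun n H => ?_⟩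
  rw [hV, ← hW' n H, subDensity, inv_pow, inv_mul_eq_div]
  apply div_le_div_of_nonneg_right _ (by positivity)
  unfold density
  apply integral_mono_of_nonneg
  · exact Filter.Eventually.of_forall fun x =>
      mul_nonneg (Finset.prod_nonneg fun i _ => (hf (x i)).1) (weight_nonneg W' H x)
  · exact integrable_weight W' H
  · refine Filter.Eventually.of_forall fun x => ?_
    exact mul_le_of_le_one_left (weight_nonneg W' H x)
      (Finset.prod_le_one (fun i _ => (hf (x i)).1) fun i _ => (hf (x i)).2)

/-! ## Dyadic cells -/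

/-- The index of the dyadic interval of length `2^{-i}` containing `x`. -/
def cell (i : ℕ) (x : unitInterval) : ℕ := ⌊(2 : ℝ) ^ i * (x : ℝ)⌋₊

lemma cell_succ (i : ℕ) (x : unitInterval) : cell i x = cell (i + 1) x / 2 := by
  unfold cell
  have h := Nat.floor_div_natCast ((2 : ℝ) ^ (i + 1) * (x : ℝ)) 2
  rw [← h]
  congr 1
  push_cast
  ring

lemma cell_mono {i j : ℕ} (hij : i ≤ j) {x y : unitInterval} (h : cell j x = cell j y) :
    cell i x = cell i y := by
  induction j, hij using Nat.le_induction with
  | base => exact h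
  | succ j _ ih =>
    apply ih
    rw [cell_succ, cell_succ j y, h]

lemma first_diff {T N : ℕ} (hTN : T ≤ N) {x y : unitInterval} (h1 : cell T x = cell T y)
    (h2 : cell N x ≠ cell N y) :
    ∃ i, T ≤ i ∧ i < N ∧ cell i x = cell i y ∧ cell (i + 1) x ≠ cell (i + 1) y := by
  induction N, hTN using Nat.le_induction with
  | base => exact absurd h1 h2
  | succ N hN ih =>
    by_cases h : cell N x = cell N y
    · exact ⟨N, hN, Nat.lt_succ_self N, h, h2⟩
    · obtain ⟨i, a, b, c, d⟩ := ih h
      exact ⟨i, a, by omega, c, d⟩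

lemma measurable_cell (i : ℕ) : Measurable (cell i) := by
  unfold cell
  exact Nat.measurable_floor.comp (measurable_const.mul measurable_subtype_coe)

lemma cell_le (i : ℕ) (x : unitInterval) : cell i x ≤ 2 ^ i := by
  unfold cell
  have h : (2 : ℝ) ^ i * (x : ℝ) ≤ (2 ^ i : ℕ) := by
    push_cast
    exact mul_le_of_le_one_right (by positivity) x.2.2
  exact Nat.floor_le_of_le h

lemma cell_shift (T a : ℕ) (x : unitInterval) : cell T x = cell (T + a) x / 2 ^ a := by
  induction a with
  | zero => simp
  | succ a ih =>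
    rw [ih, cell_succ (T + a), ← add_assoc, Nat.div_div_eq_div_mul, pow_succ, mul_comm 2]

lemma cell_eq_iff (i c : ℕ) (x : unitInterval) :
    cell i x = c ↔ (c : ℝ) / 2 ^ i ≤ x ∧ (x : ℝ) < (c + 1) / 2 ^ i := by
  unfold cell
  have h2 : (0 : ℝ) < 2 ^ i := by positivity
  rw [Nat.floor_eq_iff (mul_nonneg h2.le x.2.1), div_le_iff₀ h2, lt_div_iff₀ h2, mul_comm]

lemma volume_cell_le (i c : ℕ) :
    volume {x : unitInterval | cell i x = c} ≤ ENNReal.ofReal (((2 : ℝ) ^ i)⁻¹) := by
  rw [unitInterval.volume_apply]
  have h2 : (0 : ℝ) < 2 ^ i := by positivity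
  have hsub : Subtype.val '' {x : unitInterval | cell i x = c} ⊆
      Ico ((c : ℝ) / 2 ^ i) ((c + 1) / 2 ^ i) := by
    rintro _ ⟨x, hx, rfl⟩
    exact (cell_eq_iff i c x).1 hx
  refine (measure_mono hsub).trans ?_
  rw [Real.volume_Ico]
  apply ENNReal.ofReal_le_ofReal
  rw [← sub_div]
  simp

lemma volume_cell {i c : ℕ} (hc : c < 2 ^ i) :
    volume {x : unitInterval | cell i x = c} = ENNReal.ofReal (((2 : ℝ) ^ i)⁻¹) := by
  rw [unitInterval.volume_apply]
  have h2 : (0 : ℝ) < 2 ^ i := by positivity
  have hc' : (c : ℝ) + 1 ≤ 2 ^ i := by exact_mod_cast hc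
  have hsub : Subtype.val '' {x : unitInterval | cell i x = c} =
      Ico ((c : ℝ) / 2 ^ i) ((c + 1) / 2 ^ i) := by
    ext t
    constructor
    · rintro ⟨x, hx, rfl⟩
      exact (cell_eq_iff i c x).1 hx
    · rintro ⟨h3, h4⟩
      have h5 : (0 : ℝ) ≤ (c : ℝ) / 2 ^ i := by positivity
      have h6 : ((c : ℝ) + 1) / 2 ^ i ≤ 1 := (div_le_one h2).2 hc'
      exact ⟨⟨t, h5.trans h3, (h4.trans_le h6).le⟩, (cell_eq_iff i c _).2 ⟨h3, h4⟩, rfl⟩
  rw [hsub, Real.volume_Ico, ← sub_div]
  simp

/-! ## The recursive blow-up graphon -/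

/-- `x`, `y` first differ at a level `i` with `G i`. -/
def Joined (G : ℕ → Prop) (x y : unitInterval) : Prop :=
  ∃ i, G i ∧ cell i x = cell i y ∧ cell (i + 1) x ≠ cell (i + 1) y

open Classical in
/-- The recursive blow-up graphon of the sequence `G` (`G i` true means `K₂`). -/
def blowup (G : ℕ → Prop) : Graphon where
  toFun x y := if Joined G x y then 1 else 0
  symm x y := by
    have : Joined G x y ↔ Joined G y x :=
      ⟨fun ⟨i, a, b, c⟩ => ⟨i, a, b.symm, c.symm⟩, fun ⟨i, a, b, c⟩ => ⟨i, a, b.symm, c.symm⟩⟩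
    simp only [this]
  nonneg x y := by split_ifs <;> norm_num
  le_one x y := by split_ifs <;> norm_num
  measurable := by
    have hset : MeasurableSet {p : unitInterval × unitInterval | Joined G p.1 p.2} := by
      have : {p : unitInterval × unitInterval | Joined G p.1 p.2} =
          ⋃ i, {p | G i ∧ cell i p.1 = cell i p.2 ∧ cell (i + 1) p.1 ≠ cell (i + 1) p.2} := by
        ext p; simp [Joined]
      rw [this]
      refine MeasurableSet.iUnion fun i => ?_
      refine (MeasurableSet.const _).inter (MeasurableSet.inter ?_ ?_)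
      · exact measurableSet_eq_fun ((measurable_cell i).comp measurable_fst)
          ((measurable_cell i).comp measurable_snd)
      · exact (measurableSet_eq_fun ((measurable_cell (i + 1)).comp measurable_fst)
          ((measurable_cell (i + 1)).comp measurable_snd)).compl
    exact Measurable.ite hset measurable_const measurable_const

/-- Lower bound: if `G` is true on `[T, T + a)` and `n ≤ 2^a`, cliques are not too rare. -/
lemma clique_lower {G : ℕ → Prop} {T a n : ℕ} (hG : ∀ i, T ≤ i → i < T + a → G i) (hn : n ≤ 2 ^ a) :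
    (((2 : ℝ) ^ (T + a))⁻¹) ^ n ≤ density (blowup G) (⊤ : SimpleGraph (Fin n)) := by
  classical
  set B : Set (Fin n → unitInterval) :=
    Set.pi univ fun i : Fin n => {x : unitInterval | cell (T + a) x = i} with hB
  have hBm : MeasurableSet B := by
    refine MeasurableSet.univ_pi fun i => ?_
    exact measurable_cell (T + a) (measurableSet_singleton _)
  have hBv : volume B = ENNReal.ofReal ((((2 : ℝ) ^ (T + a))⁻¹) ^ n) := by
    rw [hB, volume_pi_pi]
    have hc : ∀ i : Fin n, volume {x : unitInterval | cell (T + a) x = (i : ℕ)} =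
        ENNReal.ofReal (((2 : ℝ) ^ (T + a))⁻¹) := by
      intro i
      apply volume_cell
      have : (i : ℕ) < n := i.2
      have h3 : 2 ^ a ≤ 2 ^ (T + a) := Nat.pow_le_pow_right (by norm_num) (by omega)
      omega
    simp only [hc]
    rw [Finset.prod_const, Finset.card_univ, Fintype.card_fin, ENNReal.ofReal_pow (by positivity)]
  have hw : ∀ x ∈ B, weight (blowup G) (⊤ : SimpleGraph (Fin n)) x = 1 := by
    intro x hx
    have hx' : ∀ i : Fin n, cell (T + a) (x i) = i := fun i => hx i (mem_univ i)
    unfold weight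
    apply Finset.prod_eq_one
    intro p hp
    rw [Finset.mem_filter] at hp
    rw [if_pos (by rw [SimpleGraph.top_adj]; exact hp.2.ne)]
    have hT : cell T (x p.1) = cell T (x p.2) := by
      rw [cell_shift T a, cell_shift T a (x p.2), hx', hx', Nat.div_eq_of_lt (p.1.2.trans_le hn),
        Nat.div_eq_of_lt (p.2.2.trans_le hn)]
    have hN : cell (T + a) (x p.1) ≠ cell (T + a) (x p.2) := by
      rw [hx', hx']
      intro h
      exact hp.2.ne (Fin.ext h)
    obtain ⟨i, h1, h2, h3, h4⟩ := first_diff (Nat.le_add_right T a) hT hN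
    show (if Joined G (x p.1) (x p.2) then (1 : ℝ) else 0) = 1
    rw [if_pos ⟨i, hG i h1 h2, h3, h4⟩]
  unfold density
  calc (((2 : ℝ) ^ (T + a))⁻¹) ^ n = ∫ x, B.indicator (fun _ => (1 : ℝ)) x := by
        rw [integral_indicator_const _ hBm, Measure.real, hBv, ENNReal.toReal_ofReal (by positivity)]
        simp
    _ ≤ _ := by
        apply integral_mono_of_nonneg
        · exact Filter.Eventually.of_forall fun x => indicator_nonneg (fun _ _ => zero_le_one) x
        · exact integrable_weight _ _
        · refine Filter.Eventually.of_forall fun x => ?_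
          by_cases hx : x ∈ B
          · simp only [indicator_of_mem hx]
            rw [hw x hx]
          · simp only [indicator_of_notMem hx]
            exact weight_nonneg _ _ _

/-- Upper bound: if `G` is false on `[T, N)` and `n > 2^T + 1`, cliques are rare. -/
lemma clique_upper {G : ℕ → Prop} {T N n : ℕ} (hG : ∀ i, T ≤ i → i < N → ¬ G i)
    (hn : 2 ^ T + 1 < n) :
    density (blowup G) (⊤ : SimpleGraph (Fin n)) ≤ n ^ 2 * (2 * ((2 : ℝ) ^ N)⁻¹) := by
  classical
  set E : Fin n × Fin n → ℕ → Set (Fin n → unitInterval) := fun p c =>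
    Set.pi univ fun i : Fin n => if i = p.1 ∨ i = p.2 then {x : unitInterval | cell N x = c} else univ with hE
  have hEm : ∀ p c, MeasurableSet (E p c) := by
    intro p c
    refine MeasurableSet.univ_pi fun i => ?_
    split_ifs
    · exact measurable_cell N (measurableSet_singleton _)
    · exact MeasurableSet.univ
  have hEv : ∀ p : Fin n × Fin n, p.1 ≠ p.2 → ∀ c,
      volume (E p c) ≤ ENNReal.ofReal (((2 : ℝ) ^ N)⁻¹ ^ 2) := by
    intro p hp c
    rw [hE]
    simp only
    rw [volume_pi_pi]
    calc ∏ i : Fin n, volume (if i = p.1 ∨ i = p.2 then {x : unitInterval | cell N x = c} else univ)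
        ≤ ∏ i : Fin n, (if i = p.1 ∨ i = p.2 then ENNReal.ofReal (((2 : ℝ) ^ N)⁻¹) else 1) := by
          apply Finset.prod_le_prod' 
          intro i _
          split_ifs
          · exact volume_cell_le N c
          · rw [measure_univ]
      _ = ENNReal.ofReal (((2 : ℝ) ^ N)⁻¹) ^ 2 := by
          rw [Finset.prod_ite, Finset.prod_const, Finset.prod_const, one_pow, mul_one]
          congr 1
          have : (Finset.univ.filter fun i : Fin n => i = p.1 ∨ i = p.2) = {p.1, p.2} := by
            ext i; simp
          rw [this, Finset.card_pair hp]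
      _ = _ := by rw [ENNReal.ofReal_pow (by positivity)]
  have hcov : ∀ x, weight (blowup G) (⊤ : SimpleGraph (Fin n)) x ≤
      ∑ p ∈ Finset.univ.filter (fun p : Fin n × Fin n => p.1 < p.2),
        ∑ c ∈ Finset.range (2 ^ N + 1), (E p c).indicator (fun _ => (1 : ℝ)) x := by
    intro x
    have hnn : 0 ≤ ∑ p ∈ Finset.univ.filter (fun p : Fin n × Fin n => p.1 < p.2),
        ∑ c ∈ Finset.range (2 ^ N + 1), (E p c).indicator (fun _ => (1 : ℝ)) x :=
      Finset.sum_nonneg fun p _ => Finset.sum_nonneg fun c _ =>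
        indicator_nonneg (fun _ _ => zero_le_one) x
    -- pigeonhole
    obtain ⟨i, hi, j, hj, hij, hcell⟩ := Finset.exists_ne_map_eq_of_card_lt_of_maps_to
      (s := (Finset.univ : Finset (Fin n))) (t := Finset.range (2 ^ T + 1))
      (f := fun i => cell T (x i)) (by simpa using hn)
      (by intro i _; simpa using Nat.lt_succ_of_le (cell_le T (x i)))
    obtain ⟨i, j, hij, hcell⟩ : ∃ i j : Fin n, i < j ∧ cell T (x i) = cell T (x j) := by
      rcases lt_or_gt_of_ne hij with h | h
      · exact ⟨i, j, h, hcell⟩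
      · exact ⟨j, i, h, hcell.symm⟩
    have hp : (i, j) ∈ Finset.univ.filter (fun p : Fin n × Fin n => p.1 < p.2) := by simp [hij]
    by_cases hJ : Joined G (x i) (x j)
    · obtain ⟨l, hl1, hl2, hl3⟩ := hJ
      have hTl : T ≤ l := by
        by_contra hc
        push Not at hc
        exact hl3 (cell_mono (show l + 1 ≤ T from hc) hcell)
      have hNl : N ≤ l := by
        by_contra hc
        push Not at hc
        exact hG l hTl hc hl1
      have hcN : cell N (x i) = cell N (x j) := cell_mono hNl hl2
      refine (weight_le_one _ _ _).trans ?_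
      have hmem : x ∈ E (i, j) (cell N (x i)) := by
        intro k _
        simp only
        split_ifs with hk
        · rcases hk with rfl | rfl
          · rfl
          · exact hcN.symm
        · exact mem_univ _
      calc (1 : ℝ) = (E (i, j) (cell N (x i))).indicator (fun _ => (1 : ℝ)) x := by
            rw [indicator_of_mem hmem]
        _ ≤ ∑ c ∈ Finset.range (2 ^ N + 1), (E (i, j) c).indicator (fun _ => (1 : ℝ)) x :=
            Finset.single_le_sum (f := fun c => (E (i, j) c).indicator (fun _ => (1 : ℝ)) x)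
              (fun c _ => indicator_nonneg (fun _ _ => zero_le_one) x)
              (by simpa using Nat.lt_succ_of_le (cell_le N (x i)))
        _ ≤ _ := Finset.single_le_sum
              (f := fun p => ∑ c ∈ Finset.range (2 ^ N + 1), (E p c).indicator (fun _ => (1 : ℝ)) x)
              (fun p _ => Finset.sum_nonneg fun c _ => indicator_nonneg (fun _ _ => zero_le_one) x) hp
    · have : weight (blowup G) (⊤ : SimpleGraph (Fin n)) x = 0 := by
        unfold weight
        apply Finset.prod_eq_zero hp
        simp only [SimpleGraph.top_adj, ne_eq, hij.ne, not_false_eq_true, if_true]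
        show (if Joined G (x i) (x j) then (1 : ℝ) else 0) = 0
        rw [if_neg hJ]
      rw [this]
      exact hnn
  have hint : ∀ p c, Integrable (fun x => (E p c).indicator (fun _ => (1 : ℝ)) x) volume := fun p c =>
    (integrable_const 1).indicator (hEm p c)
  have hval : ∀ p : Fin n × Fin n, p.1 ≠ p.2 → ∀ c,
      ∫ x, (E p c).indicator (fun _ => (1 : ℝ)) x ≤ ((2 : ℝ) ^ N)⁻¹ ^ 2 := by
    intro p hp c
    rw [integral_indicator_const _ (hEm p c), smul_eq_mul, mul_one, Measure.real]
    exact ENNReal.toReal_le_of_le_ofReal (by positivity) (hEv p hp c)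
  have hcard : ((Finset.univ.filter (fun p : Fin n × Fin n => p.1 < p.2)).card : ℝ) ≤ n ^ 2 := by
    have : (Finset.univ.filter (fun p : Fin n × Fin n => p.1 < p.2)).card ≤ n * n := by
      refine (Finset.card_filter_le _ _).trans ?_
      simp
    calc ((Finset.univ.filter (fun p : Fin n × Fin n => p.1 < p.2)).card : ℝ) ≤ ((n * n : ℕ) : ℝ) := by
          exact_mod_cast this
      _ = n ^ 2 := by push_cast; ring
  unfold density
  calc ∫ x, weight (blowup G) (⊤ : SimpleGraph (Fin n)) x
      ≤ ∫ x, ∑ p ∈ Finset.univ.filter (fun p : Fin n × Fin n => p.1 < p.2),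
        ∑ c ∈ Finset.range (2 ^ N + 1), (E p c).indicator (fun _ => (1 : ℝ)) x := by
        apply integral_mono (integrable_weight _ _) _ hcov
        exact integrable_finsetSum _ fun p _ => integrable_finsetSum _ fun c _ => hint p c
    _ = ∑ p ∈ Finset.univ.filter (fun p : Fin n × Fin n => p.1 < p.2),
        ∑ c ∈ Finset.range (2 ^ N + 1), ∫ x, (E p c).indicator (fun _ => (1 : ℝ)) x := by
        rw [integral_finsetSum _ fun p _ => integrable_finsetSum _ fun c _ => hint p c]
        apply Finset.sum_congr rfl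
        intro p _
        rw [integral_finsetSum _ fun c _ => hint p c]
    _ ≤ ∑ p ∈ Finset.univ.filter (fun p : Fin n × Fin n => p.1 < p.2),
        ∑ c ∈ Finset.range (2 ^ N + 1), ((2 : ℝ) ^ N)⁻¹ ^ 2 := by
        apply Finset.sum_le_sum
        intro p hp
        rw [Finset.mem_filter] at hp
        exact Finset.sum_le_sum fun c _ => hval p hp.2.ne c
    _ = (Finset.univ.filter (fun p : Fin n × Fin n => p.1 < p.2)).card *
        ((2 ^ N + 1) * ((2 : ℝ) ^ N)⁻¹ ^ 2) := by
        rw [Finset.sum_const, Finset.sum_const, Finset.card_range]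
        simp only [nsmul_eq_mul]
        push_cast
        ring
    _ ≤ n ^ 2 * (2 * ((2 : ℝ) ^ N)⁻¹) := by
        apply mul_le_mul hcard _ (by positivity) (by positivity)
        have h1 : (1 : ℝ) ≤ 2 ^ N := one_le_pow₀ (by norm_num)
        have h2 : (0 : ℝ) < 2 ^ N := by positivity
        rw [sq]
        calc ((2 : ℝ) ^ N + 1) * (((2 : ℝ) ^ N)⁻¹ * ((2 : ℝ) ^ N)⁻¹)
            ≤ (2 ^ N + 2 ^ N) * (((2 : ℝ) ^ N)⁻¹ * ((2 : ℝ) ^ N)⁻¹) := by
              apply mul_le_mul_of_nonneg_right _ (by positivity)
              linarith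
          _ = 2 * ((2 : ℝ) ^ N)⁻¹ := by field_simp; ring

end

end Pool.Agent.H181.CG
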