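import Mathlib
import Pool.Agent.H181.CgA

/-!
# An infinite antichain of recursive blow-ups (MP_815355_co)
-/

open MeasureTheory Set

namespace Pool.Agent.H181.CG

noncomputable section

/-- Length of the block starting at time `t` with index `s`. -/
def blen (t s : ℕ) : ℕ := (2 * t + 4 + s) * (2 ^ t + 2) + 2

/-- Block boundaries. -/
def TT : ℕ → ℕ
  | 0 => 0
  | s + 1 => TT s + blen (TT s) s

lemma TT_succ (s : ℕ) : TT (s + 1) = TT s + blen (TT s) s := rfl

lemma TT_lt (s : ℕ) : TT s < TT (s + 1) := by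
  rw [TT_succ]; unfold blen; omega

lemma TT_strictMono : StrictMono TT := strictMono_nat_of_lt_succ TT_lt

/-- The `k`-th sequence: `K₂` exactly on the blocks `s` with `(unpair s).1 = k`. -/
def GG (k : ℕ) (i : ℕ) : Prop := ∃ s, TT s ≤ i ∧ i < TT (s + 1) ∧ (Nat.unpair s).1 = k

lemma GG_iff {k s i : ℕ} (h1 : TT s ≤ i) (h2 : i < TT (s + 1)) : GG k i ↔ (Nat.unpair s).1 = k := by
  constructor
  · rintro ⟨s', h3, h4, h5⟩
    have : s = s' := by
      rcases lt_trichotomy s s' with h | h | h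
      · have := TT_strictMono.monotone (show s + 1 ≤ s' from h)
        omega
      · exact h
      · have := TT_strictMono.monotone (show s' + 1 ≤ s from h)
        omega
    rw [this]; exact h5
  · intro h
    exact ⟨s, h1, h2, h⟩

lemma not_subObj {k l : ℕ} (hkl : k ≠ l) : ¬ SubObj (blowup (GG k)) (blowup (GG l)) := by
  intro h
  obtain ⟨C, hC, hCn⟩ := h.exists_const
  obtain ⟨r, hr⟩ := exists_nat_ge C
  set s := Nat.pair k r with hs
  have hsk : (Nat.unpair s).1 = k := by rw [hs, Nat.unpair_pair]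
  have hrs : r ≤ s := Nat.right_le_pair k r
  set t := TT s with ht
  set n := 2 ^ t + 2 with hn
  set b := blen t s with hb
  have hTs : TT (s + 1) = t + b := rfl
  have hCs : C ≤ 2 ^ s := by
    calc C ≤ r := hr
      _ ≤ s := by exact_mod_cast hrs
      _ ≤ 2 ^ s := by exact_mod_cast Nat.lt_two_pow_self.le
  have h2t : t < 2 ^ t := Nat.lt_two_pow_self
  have hab : t + 2 ≤ b := by
    rw [hb]; unfold blen
    nlinarith
  have hL := clique_lower (G := GG k) (T := t) (a := t + 2) (n := n)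
    (fun i h1 h2 => (GG_iff (s := s) h1 (by rw [hTs]; omega)).2 hsk)
    (by rw [hn, pow_add]; nlinarith [Nat.one_le_two_pow (n := t)])
  have hU := clique_upper (G := GG l) (T := t) (N := t + b) (n := n)
    (fun i h1 h2 => by
      rw [GG_iff (s := s) h1 (by rw [hTs]; omega), hsk]
      exact hkl)
    (by omega)
  have h3 := hCn n (⊤ : SimpleGraph (Fin n))
  have h4 : (((2 : ℝ) ^ (t + (t + 2)))⁻¹) ^ n ≤ C ^ n * (n ^ 2 * (2 * ((2 : ℝ) ^ (t + b))⁻¹)) :=
    hL.trans (h3.trans (mul_le_mul_of_nonneg_left hU (by positivity)))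
  have hn4 : (n : ℝ) ^ 2 ≤ 2 ^ (2 * n) := by
    have : (n : ℝ) ≤ 2 ^ n := by exact_mod_cast Nat.lt_two_pow_self.le
    calc (n : ℝ) ^ 2 ≤ (2 ^ n) ^ 2 := pow_le_pow_left₀ (by positivity) this 2
      _ = 2 ^ (2 * n) := by rw [← pow_mul, mul_comm]
  have hCn' : C ^ n ≤ 2 ^ (s * n) := by
    calc C ^ n ≤ (2 ^ s) ^ n := pow_le_pow_left₀ hC.le hCs n
      _ = 2 ^ (s * n) := by rw [← pow_mul]
  have h5 : C ^ n * (n ^ 2 * (2 * ((2 : ℝ) ^ (t + b))⁻¹)) ≤
      2 ^ (s * n) * (2 ^ (2 * n) * (2 * ((2 : ℝ) ^ (t + b))⁻¹)) := by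
    apply mul_le_mul hCn' _ (by positivity) (by positivity)
    exact mul_le_mul_of_nonneg_right hn4 (by positivity)
  have h6 := h4.trans h5
  have e1 : (((2 : ℝ) ^ (t + (t + 2)))⁻¹) ^ n = ((2 : ℝ) ^ ((2 * t + 2) * n))⁻¹ := by
    rw [inv_pow, ← pow_mul]
    congr 2
    ring
  rw [e1, ← div_eq_mul_inv, mul_div_assoc', mul_div_assoc', le_div_iff₀ (by positivity),
    inv_mul_le_iff₀ (by positivity)] at h6
  have e2 : (2 : ℝ) ^ ((2 * t + 2) * n) * (2 ^ (s * n) * (2 ^ (2 * n) * 2)) =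
      2 ^ ((2 * t + 2) * n + s * n + 2 * n + 1) := by
    rw [pow_succ, pow_add, pow_add]; ring
  rw [e2] at h6
  have h7 : t + b ≤ (2 * t + 2) * n + s * n + 2 * n + 1 := by
    by_contra hc
    push Not at hc
    exact absurd h6 (not_le.2 (pow_lt_pow_right₀ (by norm_num) hc))
  have h8 : b = (2 * t + 4 + s) * n + 2 := rfl
  have h9 : (2 * t + 4 + s) * n = (2 * t + 2) * n + s * n + 2 * n := by ring
  omega

end

end Pool.Agent.H181.CG
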