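import Mathlib
import Pool.Agent.H181.CgB

/-!
# The density lemma in the binary tree (MP_815355_co)
-/

open MeasureTheory Set

namespace Pool.Agent.H181.CG

/-- `H` induces a cograph on the vertex set `A`: obtained from single vertices (or nothing) by
repeated disjoint unions and joins. -/
inductive IsCographOn {n : ℕ} (H : SimpleGraph (Fin n)) : Finset (Fin n) → Prop
  | empty : IsCographOn H ∅
  | single (v : Fin n) : IsCographOn H {v}
  | union (A B : Finset (Fin n)) (hd : Disjoint A B) (hA : IsCographOn H A) (hB : IsCographOn H B)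
      (h : ∀ a ∈ A, ∀ b ∈ B, ¬ H.Adj a b) : IsCographOn H (A ∪ B)
  | join (A B : Finset (Fin n)) (hd : Disjoint A B) (hA : IsCographOn H A) (hB : IsCographOn H B)
      (h : ∀ a ∈ A, ∀ b ∈ B, H.Adj a b) : IsCographOn H (A ∪ B)

/-- Adjacency of level-`D` cells. -/
def JC (D : ℕ) (G : ℕ → Prop) (a b : ℕ) : Prop :=
  ∃ i, i < D ∧ G i ∧ a / 2 ^ (D - i) = b / 2 ^ (D - i) ∧ a / 2 ^ (D - (i + 1)) ≠ b / 2 ^ (D - (i + 1))

lemma JC_symm {D : ℕ} {G : ℕ → Prop} {a b : ℕ} : JC D G a b ↔ JC D G b a :=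
  ⟨fun ⟨i, h, a, b, c⟩ => ⟨i, h, a, b.symm, c.symm⟩, fun ⟨i, h, a, b, c⟩ => ⟨i, h, a, b.symm, c.symm⟩⟩

lemma anc_mono {D i j a b : ℕ} (hij : i ≤ j) (hj : j ≤ D) (h : a / 2 ^ (D - j) = b / 2 ^ (D - j)) :
    a / 2 ^ (D - i) = b / 2 ^ (D - i) := by
  have : D - i = (D - j) + (j - i) := by omega
  rw [this, pow_add, ← Nat.div_div_eq_div_mul, ← Nat.div_div_eq_div_mul, h]

/-- If the cells first differ at level `i` then adjacency is `G i`. -/
lemma JC_iff {D : ℕ} {G : ℕ → Prop} {a b i : ℕ} (hi : i < D)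
    (h1 : a / 2 ^ (D - i) = b / 2 ^ (D - i)) (h2 : a / 2 ^ (D - (i + 1)) ≠ b / 2 ^ (D - (i + 1))) :
    JC D G a b ↔ G i := by
  constructor
  · rintro ⟨j, hj, hG, h3, h4⟩
    have : i = j := by
      rcases lt_trichotomy i j with h | h | h
      · exact absurd (anc_mono (show i + 1 ≤ j from h) hj.le h3) h2
      · exact h
      · exact absurd (anc_mono (show j + 1 ≤ i from h) hi.le h1) h4
    rw [this]; exact hG
  · intro hG
    exact ⟨i, hi, hG, h1, h2⟩

/-- Configurations. -/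
def Conf {n : ℕ} (H : SimpleGraph (Fin n)) (D : ℕ) (G : ℕ → Prop) (S : Finset (Fin n)) (A : Finset ℕ) :
    Prop :=
  ∃ v : Fin n → ℕ, (∀ i ∈ S, v i ∈ A) ∧
    ∀ i ∈ S, ∀ j ∈ S, i ≠ j → v i ≠ v j ∧ (H.Adj i j ↔ JC D G (v i) (v j))

/-- The density property. -/
def Dens {n : ℕ} (H : SimpleGraph (Fin n)) (G : ℕ → Prop) (S : Finset (Fin n)) (ε : ℝ) (T : ℕ) : Prop :=
  ∃ D₀, T ≤ D₀ ∧ ∀ D ≥ D₀, ∀ (A : Finset ℕ) (c : ℕ), (∀ a ∈ A, a / 2 ^ (D - T) = c) →
    ε * 2 ^ (D - T) ≤ (A.card : ℝ) → Conf H D G S A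

lemma div_bounds {a p c : ℕ} (hp : 0 < p) : a / p = c ↔ c * p ≤ a ∧ a < (c + 1) * p := by
  constructor
  · intro h
    rw [← h]
    constructor
    · exact Nat.div_mul_le_self _ _
    · have := Nat.lt_mul_div_succ a hp
      linarith [mul_comm p (a / p + 1)]
  · rintro ⟨h1, h2⟩
    exact Nat.div_eq_of_lt_le h1 h2

lemma card_le_cell {D T c : ℕ} {A : Finset ℕ} (hA : ∀ a ∈ A, a / 2 ^ (D - T) = c) :
    A.card ≤ 2 ^ (D - T) := by
  have hp : 0 < 2 ^ (D - T) := by positivity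
  have hsub : A ⊆ Finset.Ico (c * 2 ^ (D - T)) ((c + 1) * 2 ^ (D - T)) := by
    intro a ha
    rw [Finset.mem_Ico]
    exact (div_bounds hp).1 (hA a ha)
  have := Finset.card_le_card hsub
  rwa [Nat.card_Ico, add_mul, one_mul, Nat.add_sub_cancel_left] at this

lemma averaging {D T i c : ℕ} (hTi : T ≤ i) (hiD : i ≤ D) {A : Finset ℕ} {ε : ℝ}
    (hA : ∀ a ∈ A, a / 2 ^ (D - T) = c) (hε : ε * 2 ^ (D - T) ≤ (A.card : ℝ)) :
    ∃ c', ε * 2 ^ (D - i) ≤ ((A.filter (fun a => a / 2 ^ (D - i) = c')).card : ℝ) := by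
  have e : D - T = (D - i) + (i - T) := by omega
  have hmaps : ∀ a ∈ A, a / 2 ^ (D - i) ∈ Finset.Ico (c * 2 ^ (i - T)) ((c + 1) * 2 ^ (i - T)) := by
    intro a ha
    have h := hA a ha
    have hp : 0 < 2 ^ (i - T) := by positivity
    rw [e, pow_add, ← Nat.div_div_eq_div_mul] at h
    rw [Finset.mem_Ico]
    exact (div_bounds hp).1 h
  have hcard : (Finset.Ico (c * 2 ^ (i - T)) ((c + 1) * 2 ^ (i - T))).card = 2 ^ (i - T) := by
    rw [Nat.card_Ico, add_mul, one_mul, Nat.add_sub_cancel_left]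
  obtain ⟨y, _, hy⟩ := Finset.exists_le_card_fiber_of_nsmul_le_card_of_maps_to hmaps
    (by rw [← Finset.card_pos, hcard]; positivity) (b := ε * 2 ^ (D - i)) (by
      rw [hcard, nsmul_eq_mul]
      push_cast
      rw [e, pow_add] at hε
      linarith)
  exact ⟨y, hy⟩

lemma Conf.mono {n : ℕ} {H : SimpleGraph (Fin n)} {D : ℕ} {G : ℕ → Prop} {S : Finset (Fin n)}
    {A B : Finset ℕ} (hAB : A ⊆ B) (h : Conf H D G S A) : Conf H D G S B := by
  obtain ⟨v, h1, h2⟩ := h
  exact ⟨v, fun i hi => hAB (h1 i hi), h2⟩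

/-- The inductive step of the density lemma: combining two parts at a level of the right type. -/
lemma dens_step {n : ℕ} {H : SimpleGraph (Fin n)} {G : ℕ → Prop} {S₁ S₂ : Finset (Fin n)}
    (Q : ℕ → Prop) (hQ : ∀ T, ∃ i, T ≤ i ∧ Q i)
    (hadj : ∀ i, Q i → ∀ a ∈ S₁, ∀ b ∈ S₂, (H.Adj a b ↔ G i))
    (h1 : ∀ ε > 0, ∀ T, Dens H G S₁ ε T) (h2 : ∀ ε > 0, ∀ T, Dens H G S₂ ε T)
    (k : ℕ) : ∀ ε : ℝ, 0 < ε → 1 < (3 / 2) ^ k * ε → ∀ T, Dens H G (S₁ ∪ S₂) ε T := by
  classical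
  induction k with
  | zero =>
    intro ε hε hk T
    refine ⟨T, le_rfl, fun D hD A c hA hcard => ?_⟩
    have := card_le_cell hA
    have h3 : (A.card : ℝ) ≤ 2 ^ (D - T) := by exact_mod_cast this
    have h4 : (0 : ℝ) < 2 ^ (D - T) := by positivity
    rw [pow_zero, one_mul] at hk
    nlinarith
  | succ k ih =>
    intro ε hε hk T
    obtain ⟨i, hTi, hQi⟩ := hQ T
    obtain ⟨D₁, hD₁, H₁⟩ := h1 (ε / 2) (by positivity) (i + 1)
    obtain ⟨D₂, hD₂, H₂⟩ := h2 (ε / 2) (by positivity) (i + 1)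
    obtain ⟨D₃, hD₃, H₃⟩ := ih (3 / 2 * ε) (by positivity) (by rw [pow_succ] at hk; linarith) (i + 1)
    refine ⟨max D₁ (max D₂ D₃), by omega, fun D hD A c hA hcard => ?_⟩
    have hDi : i + 1 ≤ D := by omega
    obtain ⟨c', hc'⟩ := averaging hTi (by omega) hA hcard
    set A' := A.filter (fun a => a / 2 ^ (D - i) = c') with hA'
    set A0 := A'.filter (fun a => a / 2 ^ (D - (i + 1)) = 2 * c') with hA0
    set A1 := A'.filter (fun a => ¬ a / 2 ^ (D - (i + 1)) = 2 * c') with hA1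
    have hsplit : A0.card + A1.card = A'.card := Finset.card_filter_add_card_filter_not _
    have e : D - i = (D - (i + 1)) + 1 := by omega
    have hpar : ∀ a ∈ A', a / 2 ^ (D - (i + 1)) / 2 = c' := by
      intro a ha
      have := (Finset.mem_filter.1 ha).2
      rw [e, pow_succ, ← Nat.div_div_eq_div_mul] at this
      exact this
    have hA0c : ∀ a ∈ A0, a / 2 ^ (D - (i + 1)) = 2 * c' := fun a ha => (Finset.mem_filter.1 ha).2
    have hA1c : ∀ a ∈ A1, a / 2 ^ (D - (i + 1)) = 2 * c' + 1 := by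
      intro a ha
      have h3 := (Finset.mem_filter.1 ha).2
      have h4 := hpar a (Finset.mem_filter.1 ha).1
      omega
    have hAA : A' ⊆ A := Finset.filter_subset _ _
    have hA0A : A0 ⊆ A := (Finset.filter_subset _ _).trans hAA
    have hA1A : A1 ⊆ A := (Finset.filter_subset _ _).trans hAA
    have hsum : ε * 2 ^ (D - i) ≤ (A0.card : ℝ) + A1.card := by
      have : ((A0.card + A1.card : ℕ) : ℝ) = A'.card := by rw [hsplit]
      push_cast at this
      linarith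
    have e2 : (2 : ℝ) ^ (D - i) = 2 * 2 ^ (D - (i + 1)) := by rw [e, pow_succ]; ring
    rw [e2] at hsum
    by_cases hc0 : ε / 2 * 2 ^ (D - (i + 1)) ≤ (A0.card : ℝ)
    · by_cases hc1 : ε / 2 * 2 ^ (D - (i + 1)) ≤ (A1.card : ℝ)
      · -- both children are dense
        obtain ⟨v, hv1, hv2⟩ := H₁ D (by omega) A0 (2 * c') hA0c hc0
        obtain ⟨w, hw1, hw2⟩ := H₂ D (by omega) A1 (2 * c' + 1) hA1c hc1
        have hcross : ∀ a ∈ A0, ∀ b ∈ A1, a ≠ b ∧ (JC D G a b ↔ G i) := by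
          intro a ha b hb
          have h3 := hA0c a ha
          have h4 := hA1c b hb
          refine ⟨by rintro rfl; omega, JC_iff (by omega) ?_ (by omega)⟩
          have h5 := (Finset.mem_filter.1 (Finset.mem_filter.1 ha).1).2
          have h6 := (Finset.mem_filter.1 (Finset.mem_filter.1 hb).1).2
          rw [h5, h6]
        refine ⟨fun j => if j ∈ S₁ then v j else w j, ?_, ?_⟩
        · intro j hj
          simp only
          split_ifs with hj1
          · exact hA0A (hv1 j hj1)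
          · exact hA1A (hw1 j ((Finset.mem_union.1 hj).resolve_left hj1))
        · intro j hj l hl hjl
          simp only
          by_cases hj1 : j ∈ S₁
          · by_cases hl1 : l ∈ S₁
            · rw [if_pos hj1, if_pos hl1]
              exact hv2 j hj1 l hl1 hjl
            · have hl2 : l ∈ S₂ := (Finset.mem_union.1 hl).resolve_left hl1
              rw [if_pos hj1, if_neg hl1]
              have := hcross (v j) (hv1 j hj1) (w l) (hw1 l hl2)
              exact ⟨this.1, (hadj i hQi j hj1 l hl2).trans this.2.symm⟩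
          · have hj2 : j ∈ S₂ := (Finset.mem_union.1 hj).resolve_left hj1
            by_cases hl1 : l ∈ S₁
            · rw [if_neg hj1, if_pos hl1]
              have := hcross (v l) (hv1 l hl1) (w j) (hw1 j hj2)
              refine ⟨this.1.symm, ?_⟩
              rw [H.adj_comm, JC_symm]
              exact (hadj i hQi l hl1 j hj2).trans this.2.symm
            · have hl2 : l ∈ S₂ := (Finset.mem_union.1 hl).resolve_left hl1
              rw [if_neg hj1, if_neg hl1]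
              exact hw2 j hj2 l hl2 hjl
      · push Not at hc1
        exact (H₃ D (by omega) A0 (2 * c') hA0c (by nlinarith)).mono hA0A
    · push Not at hc0
      exact (H₃ D (by omega) A1 (2 * c' + 1) hA1c (by nlinarith)).mono hA1A

/-- The density lemma. -/
lemma dens_lemma {n : ℕ} {H : SimpleGraph (Fin n)} {G : ℕ → Prop}
    (hG1 : ∀ T, ∃ i, T ≤ i ∧ G i) (hG0 : ∀ T, ∃ i, T ≤ i ∧ ¬ G i) {S : Finset (Fin n)}
    (hS : IsCographOn H S) : ∀ ε > 0, ∀ T, Dens H G S ε T := by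
  induction hS with
  | empty =>
    intro ε _ T
    exact ⟨T, le_rfl, fun D _ A c _ _ => ⟨fun _ => 0, by simp, by simp⟩⟩
  | single v =>
    intro ε hε T
    refine ⟨T, le_rfl, fun D _ A c _ hcard => ?_⟩
    have h1 : (0 : ℝ) < A.card := lt_of_lt_of_le (by positivity) hcard
    have h2 : 0 < A.card := by exact_mod_cast h1
    obtain ⟨a, ha⟩ := Finset.card_pos.1 h2
    refine ⟨fun _ => a, fun _ _ => ha, ?_⟩
    intro i hi j hj hij
    rw [Finset.mem_singleton] at hi hj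
    exact absurd (hi.trans hj.symm) hij
  | union A B _ _ _ h ihA ihB =>
    intro ε hε T
    obtain ⟨k, hk⟩ := pow_unbounded_of_one_lt (1 / ε) (show (1 : ℝ) < 3 / 2 by norm_num)
    refine dens_step (fun i => ¬ G i) hG0 (fun i hi a ha b hb => ?_) ihA ihB k ε hε ?_ T
    · exact ⟨fun h3 => absurd h3 (h a ha b hb), fun h3 => absurd h3 hi⟩
    · rwa [div_lt_iff₀ hε] at hk
  | join A B _ _ _ h ihA ihB =>
    intro ε hε T
    obtain ⟨k, hk⟩ := pow_unbounded_of_one_lt (1 / ε) (show (1 : ℝ) < 3 / 2 by norm_num)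
    refine dens_step G hG1 (fun i hi a ha b hb => ?_) ihA ihB k ε hε ?_ T
    · exact ⟨fun _ => hi, fun _ => h a ha b hb⟩
    · rwa [div_lt_iff₀ hε] at hk

end Pool.Agent.H181.CG
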