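import Mathlib
import Pool.Agent.H181.CgC

/-!
# Recursive blow-ups are weakly random with persistence set the cographs (MP_815355_co)
-/

open MeasureTheory Set

namespace Pool.Agent.H181.CG

lemma cell_eq_div {i D : ℕ} (h : i ≤ D) (x : unitInterval) : cell i x = cell D x / 2 ^ (D - i) := by
  have := cell_shift i (D - i) x
  rwa [Nat.add_sub_cancel' h] at this

lemma joined_iff_JC {G : ℕ → Prop} {D : ℕ} {x y : unitInterval} (h : cell D x ≠ cell D y) :
    Joined G x y ↔ JC D G (cell D x) (cell D y) := by
  constructor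
  · rintro ⟨i, h1, h2, h3⟩
    have hi : i < D := by
      by_contra hc
      push Not at hc
      exact h (cell_mono hc h2)
    refine ⟨i, hi, h1, ?_, ?_⟩
    · rw [← cell_eq_div hi.le, ← cell_eq_div hi.le]; exact h2
    · rw [← cell_eq_div (show i + 1 ≤ D from hi), ← cell_eq_div (show i + 1 ≤ D from hi)]; exact h3
  · rintro ⟨i, hi, h1, h2, h3⟩
    refine ⟨i, h1, ?_, ?_⟩
    · rw [cell_eq_div hi.le, cell_eq_div hi.le y]; exact h2
    · rw [cell_eq_div (show i + 1 ≤ D from hi), cell_eq_div (show i + 1 ≤ D from hi) y]; exact h3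

lemma blowup_apply {G : ℕ → Prop} (x y : unitInterval) [Decidable (Joined G x y)] :
    (blowup G).toFun x y = if Joined G x y then 1 else 0 := by
  unfold blowup
  simp only
  congr

/-- If the weight does not vanish, the graph is read off from the cells. -/
lemma adj_of_weight_ne {G : ℕ → Prop} {n : ℕ} {H : SimpleGraph (Fin n)} {x : Fin n → unitInterval}
    (hw : weight (blowup G) H x ≠ 0) {i j : Fin n} (hij : i ≠ j) :
    H.Adj i j ↔ Joined G (x i) (x j) := by
  classical
  have key : ∀ i j : Fin n, i < j → (H.Adj i j ↔ Joined G (x i) (x j)) := by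
    intro i j hij
    unfold weight at hw
    rw [Finset.prod_ne_zero_iff] at hw
    have := hw (i, j) (by simp [hij])
    simp only [blowup_apply] at this
    by_cases h1 : H.Adj i j
    · rw [if_pos h1] at this
      by_cases h2 : Joined G (x i) (x j)
      · exact ⟨fun _ => h2, fun _ => h1⟩
      · rw [if_neg h2] at this; exact absurd rfl this
    · rw [if_neg h1] at this
      by_cases h2 : Joined G (x i) (x j)
      · rw [if_pos h2] at this; norm_num at this
      · exact ⟨fun h => absurd h h1, fun h => absurd h h2⟩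
  have hsymm : ∀ a b : unitInterval, Joined G a b ↔ Joined G b a := fun a b =>
      ⟨fun ⟨i, a, b, c⟩ => ⟨i, a, b.symm, c.symm⟩, fun ⟨i, a, b, c⟩ => ⟨i, a, b.symm, c.symm⟩⟩
  rcases lt_or_gt_of_ne hij with h | h
  · exact key i j h
  · rw [H.adj_comm, hsymm]
    exact key j i h

/-- A function bounded by one and supported on coincidences of level-`N` cells has small integral. -/
lemma bad_bound {n N : ℕ} {F : (Fin n → unitInterval) → ℝ} (hF : Integrable F volume)
    (hF1 : ∀ x, F x ≤ 1) (hbad : ∀ x, 0 < F x → ∃ i j : Fin n, i < j ∧ cell N (x i) = cell N (x j)) :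
    ∫ x, F x ≤ n ^ 2 * (2 * ((2 : ℝ) ^ N)⁻¹) := by
  classical
  set E : Fin n × Fin n → ℕ → Set (Fin n → unitInterval) := fun p c =>
    Set.pi univ fun i : Fin n => if i = p.1 ∨ i = p.2 then {x : unitInterval | cell N x = c} else univ with hE
  have hEm : ∀ p c, MeasurableSet (E p c) := by
    intro p c
    refine MeasurableSet.univ_pi fun i => ?_
    split_ifs
    · exact measurable_cell N (measurableSet_singleton _)
    · exact MeasurableSet.univ
  have hEv : ∀ p : Fin n × Fin n, p.1 ≠ p.2 → ∀ c,
      volume (E p c) ≤ ENNReal.ofReal (((2 : ℝ) ^ N)⁻¹ ^ 2) := by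
    intro p hp c
    rw [hE]
    simp only
    rw [volume_pi_pi]
    calc ∏ i : Fin n, volume (if i = p.1 ∨ i = p.2 then {x : unitInterval | cell N x = c} else univ)
        ≤ ∏ i : Fin n, (if i = p.1 ∨ i = p.2 then ENNReal.ofReal (((2 : ℝ) ^ N)⁻¹) else 1) := by
          apply Finset.prod_le_prod' 
          intro i _
          split_ifs
          · exact volume_cell_le N c
          · rw [measure_univ]
      _ = ENNReal.ofReal (((2 : ℝ) ^ N)⁻¹) ^ 2 := by
          rw [Finset.prod_ite, Finset.prod_const, Finset.prod_const, one_pow, mul_one]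
          congr 1
          have : (Finset.univ.filter fun i : Fin n => i = p.1 ∨ i = p.2) = {p.1, p.2} := by
            ext i; simp
          rw [this, Finset.card_pair hp]
      _ = _ := by rw [ENNReal.ofReal_pow (by positivity)]
  have hcov : ∀ x, F x ≤
      ∑ p ∈ Finset.univ.filter (fun p : Fin n × Fin n => p.1 < p.2),
        ∑ c ∈ Finset.range (2 ^ N + 1), (E p c).indicator (fun _ => (1 : ℝ)) x := by
    intro x
    have hnn : 0 ≤ ∑ p ∈ Finset.univ.filter (fun p : Fin n × Fin n => p.1 < p.2),
        ∑ c ∈ Finset.range (2 ^ N + 1), (E p c).indicator (fun _ => (1 : ℝ)) x :=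
      Finset.sum_nonneg fun p _ => Finset.sum_nonneg fun c _ =>
        indicator_nonneg (fun _ _ => zero_le_one) x
    by_cases hx : 0 < F x
    · obtain ⟨i, j, hij, hcN⟩ := hbad x hx
      have hp : (i, j) ∈ Finset.univ.filter (fun p : Fin n × Fin n => p.1 < p.2) := by simp [hij]
      refine (hF1 x).trans ?_
      have hmem : x ∈ E (i, j) (cell N (x i)) := by
        intro k _
        simp only
        split_ifs with hk
        · rcases hk with rfl | rfl
          · rfl
          · exact hcN.symm
        · exact mem_univ _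
      calc (1 : ℝ) = (E (i, j) (cell N (x i))).indicator (fun _ => (1 : ℝ)) x := by
            rw [indicator_of_mem hmem]
        _ ≤ ∑ c ∈ Finset.range (2 ^ N + 1), (E (i, j) c).indicator (fun _ => (1 : ℝ)) x :=
            Finset.single_le_sum (f := fun c => (E (i, j) c).indicator (fun _ => (1 : ℝ)) x)
              (fun c _ => indicator_nonneg (fun _ _ => zero_le_one) x)
              (by simpa using Nat.lt_succ_of_le (cell_le N (x i)))
        _ ≤ _ := Finset.single_le_sum
              (f := fun p => ∑ c ∈ Finset.range (2 ^ N + 1), (E p c).indicator (fun _ => (1 : ℝ)) x)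
              (fun p _ => Finset.sum_nonneg fun c _ => indicator_nonneg (fun _ _ => zero_le_one) x) hp
    · push Not at hx
      exact hx.trans hnn
  have hint : ∀ p c, Integrable (fun x => (E p c).indicator (fun _ => (1 : ℝ)) x) volume := fun p c =>
    (integrable_const 1).indicator (hEm p c)
  have hval : ∀ p : Fin n × Fin n, p.1 ≠ p.2 → ∀ c,
      ∫ x, (E p c).indicator (fun _ => (1 : ℝ)) x ≤ ((2 : ℝ) ^ N)⁻¹ ^ 2 := by
    intro p hp c
    rw [integral_indicator_const _ (hEm p c), smul_eq_mul, mul_one, Measure.real]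
    exact ENNReal.toReal_le_of_le_ofReal (by positivity) (hEv p hp c)
  have hcard : ((Finset.univ.filter (fun p : Fin n × Fin n => p.1 < p.2)).card : ℝ) ≤ n ^ 2 := by
    have : (Finset.univ.filter (fun p : Fin n × Fin n => p.1 < p.2)).card ≤ n * n := by
      refine (Finset.card_filter_le _ _).trans ?_
      simp
    calc ((Finset.univ.filter (fun p : Fin n × Fin n => p.1 < p.2)).card : ℝ) ≤ ((n * n : ℕ) : ℝ) := by
          exact_mod_cast this
      _ = n ^ 2 := by push_cast; ring
  calc ∫ x, F x
      ≤ ∫ x, ∑ p ∈ Finset.univ.filter (fun p : Fin n × Fin n => p.1 < p.2),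
        ∑ c ∈ Finset.range (2 ^ N + 1), (E p c).indicator (fun _ => (1 : ℝ)) x := by
        apply integral_mono hF _ hcov
        exact integrable_finsetSum _ fun p _ => integrable_finsetSum _ fun c _ => hint p c
    _ = ∑ p ∈ Finset.univ.filter (fun p : Fin n × Fin n => p.1 < p.2),
        ∑ c ∈ Finset.range (2 ^ N + 1), ∫ x, (E p c).indicator (fun _ => (1 : ℝ)) x := by
        rw [integral_finsetSum _ fun p _ => integrable_finsetSum _ fun c _ => hint p c]
        apply Finset.sum_congr rfl
        intro p _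
        rw [integral_finsetSum _ fun c _ => hint p c]
    _ ≤ ∑ p ∈ Finset.univ.filter (fun p : Fin n × Fin n => p.1 < p.2),
        ∑ c ∈ Finset.range (2 ^ N + 1), ((2 : ℝ) ^ N)⁻¹ ^ 2 := by
        apply Finset.sum_le_sum
        intro p hp
        rw [Finset.mem_filter] at hp
        exact Finset.sum_le_sum fun c _ => hval p hp.2.ne c
    _ = (Finset.univ.filter (fun p : Fin n × Fin n => p.1 < p.2)).card *
        ((2 ^ N + 1) * ((2 : ℝ) ^ N)⁻¹ ^ 2) := by
        rw [Finset.sum_const, Finset.sum_const, Finset.card_range]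
        simp only [nsmul_eq_mul]
        push_cast
        ring
    _ ≤ n ^ 2 * (2 * ((2 : ℝ) ^ N)⁻¹) := by
        apply mul_le_mul hcard _ (by positivity) (by positivity)
        have h1 : (1 : ℝ) ≤ 2 ^ N := one_le_pow₀ (by norm_num)
        have h2 : (0 : ℝ) < 2 ^ N := by positivity
        rw [sq]
        calc ((2 : ℝ) ^ N + 1) * (((2 : ℝ) ^ N)⁻¹ * ((2 : ℝ) ^ N)⁻¹)
            ≤ (2 ^ N + 2 ^ N) * (((2 : ℝ) ^ N)⁻¹ * ((2 : ℝ) ^ N)⁻¹) := by
              apply mul_le_mul_of_nonneg_right _ (by positivity)
              linarith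
          _ = 2 * ((2 : ℝ) ^ N)⁻¹ := by field_simp; ring

/-- Sets of cells inside one ancestor induce cographs. -/
lemma cograph_aux {G : ℕ → Prop} {n N : ℕ} {H : SimpleGraph (Fin n)} {v : Fin n → ℕ}
    (hv : Function.Injective v) (hadj : ∀ i j, i ≠ j → (H.Adj i j ↔ JC N G (v i) (v j))) :
    ∀ d ≤ N, ∀ (A : Finset (Fin n)) (c : ℕ), (∀ i ∈ A, v i / 2 ^ d = c) → IsCographOn H A := by
  classical
  intro d
  induction d with
  | zero =>
    intro _ A c hA
    rcases A.eq_empty_or_nonempty with h | ⟨a, ha⟩
    · rw [h]; exact IsCographOn.empty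
    · have : A = {a} := by
        ext b
        rw [Finset.mem_singleton]
        constructor
        · intro hb
          have h1 := hA a ha
          have h2 := hA b hb
          rw [pow_zero, Nat.div_one] at h1 h2
          exact hv (h2.trans h1.symm)
        · rintro rfl; exact ha
      rw [this]; exact IsCographOn.single a
  | succ d ih =>
    intro hd A c hA
    have hpar : ∀ a ∈ A, v a / 2 ^ d / 2 = c := by
      intro a ha
      have := hA a ha
      rw [pow_succ, ← Nat.div_div_eq_div_mul] at this
      exact this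
    set A0 := A.filter (fun a => v a / 2 ^ d = 2 * c) with hA0
    set A1 := A.filter (fun a => ¬ v a / 2 ^ d = 2 * c) with hA1
    have hU : A = A0 ∪ A1 := by
      rw [hA0, hA1]; exact (Finset.filter_union_filter_not_eq _ _).symm
    have hdis : Disjoint A0 A1 := Finset.disjoint_filter_filter_not _ _ _
    have hA0c : ∀ a ∈ A0, v a / 2 ^ d = 2 * c := fun a ha => (Finset.mem_filter.1 ha).2
    have hA1c : ∀ a ∈ A1, v a / 2 ^ d = 2 * c + 1 := by
      intro a ha
      have h3 := (Finset.mem_filter.1 ha).2
      have h4 := hpar a (Finset.mem_filter.1 ha).1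
      omega
    have h0 := ih (by omega) A0 (2 * c) hA0c
    have h1 := ih (by omega) A1 (2 * c + 1) hA1c
    have hcross : ∀ a ∈ A0, ∀ b ∈ A1, (H.Adj a b ↔ G (N - (d + 1))) := by
      intro a ha b hb
      have hab : a ≠ b := by
        rintro rfl
        have := hA0c a ha
        have := hA1c a hb
        omega
      rw [hadj a b hab]
      have e1 : N - (N - (d + 1)) = d + 1 := by omega
      have e2 : N - (N - (d + 1) + 1) = d := by omega
      apply JC_iff (by omega)
      · rw [e1, hA a (Finset.mem_filter.1 ha).1, hA b (Finset.mem_filter.1 hb).1]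
      · rw [e2, hA0c a ha, hA1c b hb]; omega
    rw [hU]
    by_cases hG : G (N - (d + 1))
    · exact IsCographOn.join A0 A1 hdis h0 h1 fun a ha b hb => (hcross a ha b hb).2 hG
    · exact IsCographOn.union A0 A1 hdis h0 h1 fun a ha b hb h => hG ((hcross a ha b hb).1 h)

lemma cograph_of_density_pos {G : ℕ → Prop} {n : ℕ} {H : SimpleGraph (Fin n)}
    (h : 0 < density (blowup G) H) : IsCographOn H Finset.univ := by
  obtain ⟨N, hN⟩ : ∃ N : ℕ, (n : ℝ) ^ 2 * (2 * ((2 : ℝ) ^ N)⁻¹) < density (blowup G) H := by
    obtain ⟨N, hN⟩ := pow_unbounded_of_one_lt ((n : ℝ) ^ 2 * 2 / density (blowup G) H)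
      (show (1 : ℝ) < 2 by norm_num)
    refine ⟨N, ?_⟩
    rw [div_lt_iff₀ h] at hN
    rw [← mul_assoc, ← div_eq_mul_inv, div_lt_iff₀ (by positivity)]
    linarith
  have hex : ∃ x : Fin n → unitInterval, weight (blowup G) H x ≠ 0 ∧
      ∀ i j, i < j → cell N (x i) ≠ cell N (x j) := by
    by_contra hcon
    push Not at hcon
    refine absurd (bad_bound (N := N) (integrable_weight (blowup G) H)
      (weight_le_one (blowup G) H) fun x hx => hcon x hx.ne') (not_le.2 hN)
  obtain ⟨x, hw, hx⟩ := hex
  have hne : ∀ i j, i ≠ j → cell N (x i) ≠ cell N (x j) := by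
    intro i j hij
    rcases lt_or_gt_of_ne hij with h | h
    · exact hx i j h
    · exact (hx j i h).symm
  have hinj : Function.Injective (fun i => cell N (x i)) := by
    intro i j hij
    by_contra hc
    exact hne i j hc hij
  have hadj : ∀ i j, i ≠ j → (H.Adj i j ↔ JC N G (cell N (x i)) (cell N (x j))) := by
    intro i j hij
    rw [adj_of_weight_ne hw hij, joined_iff_JC (hne i j hij)]
  classical
  have h0 := cograph_aux (v := fun i => cell N (x i)) hinj hadj N le_rfl
    (Finset.univ.filter fun i => cell N (x i) / 2 ^ N = 0) 0 (fun i hi => (Finset.mem_filter.1 hi).2)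
  have h1 := cograph_aux (v := fun i => cell N (x i)) hinj hadj N le_rfl
    (Finset.univ.filter fun i => ¬ cell N (x i) / 2 ^ N = 0) 1 (fun i hi => by
      have h2 := (Finset.mem_filter.1 hi).2
      have h3 : cell N (x i) / 2 ^ N ≤ 2 ^ N / 2 ^ N := Nat.div_le_div_right (cell_le N (x i))
      rw [Nat.div_self (by positivity)] at h3
      exact le_antisymm h3 (Nat.pos_of_ne_zero h2))
  have hU : (Finset.univ : Finset (Fin n)) = (Finset.univ.filter fun i => cell N (x i) / 2 ^ N = 0) ∪
      (Finset.univ.filter fun i => ¬ cell N (x i) / 2 ^ N = 0) :=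
    (Finset.filter_union_filter_not_eq _ _).symm
  rw [hU]
  refine IsCographOn.union _ _ (Finset.disjoint_filter_filter_not _ _ _) h0 h1 ?_
  intro a ha b hb hab
  have ha' := (Finset.mem_filter.1 ha).2
  have hb' := (Finset.mem_filter.1 hb).2
  have hne' : a ≠ b := by
    rintro rfl
    exact hb' ha'
  obtain ⟨i, hi, _, h3, _⟩ := (hadj a b hne').1 hab
  have := anc_mono (Nat.zero_le i) hi.le h3
  rw [Nat.sub_zero] at this
  exact hb' (this ▸ ha')

end Pool.Agent.H181.CG
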