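import Mathlib
import Pool.Agent.H181.CgD

/-!
# Positivity of cograph densities in every sub-object (MP_815355_co)
-/

open MeasureTheory Set

namespace Pool.Agent.H181.CG

/-- ordered pairs -/
def prs (m : ℕ) : Finset (Fin m × Fin m) := Finset.univ.filter (fun p => p.1 < p.2)

lemma mem_prs {m : ℕ} {p : Fin m × Fin m} : p ∈ prs m ↔ p.1 < p.2 := by simp [prs]

/-- The graph with given set of pairs. -/
def gr {m : ℕ} (t : Finset (Fin m × Fin m)) : SimpleGraph (Fin m) where
  Adj i j := (i < j ∧ (i, j) ∈ t) ∨ (j < i ∧ (j, i) ∈ t)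
  symm := ⟨fun i j (h : (i < j ∧ (i, j) ∈ t) ∨ (j < i ∧ (j, i) ∈ t)) => Or.symm h⟩
  loopless := ⟨fun i h => by rcases h with h | h <;> exact lt_irrefl _ h.1⟩

lemma gr_adj {m : ℕ} {t : Finset (Fin m × Fin m)} {p : Fin m × Fin m} (hp : p.1 < p.2) :
    (gr t).Adj p.1 p.2 ↔ p ∈ t := by
  constructor
  · rintro (h | h)
    · exact h.2
    · exact absurd h.1 (not_lt.2 hp.le)
  · intro h
    exact Or.inl ⟨hp, h⟩

open Classical in
lemma weight_gr (W : Graphon) {m : ℕ} {t : Finset (Fin m × Fin m)} (ht : t ⊆ prs m)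
    (x : Fin m → unitInterval) :
    weight W (gr t) x = (∏ p ∈ t, W.toFun (x p.1) (x p.2)) *
      ∏ p ∈ prs m \ t, (1 - W.toFun (x p.1) (x p.2)) := by
  unfold weight
  change ∏ p ∈ prs m, _ = _
  rw [← Finset.prod_sdiff ht, mul_comm]
  congr 1
  · apply Finset.prod_congr rfl
    intro p hp
    rw [if_pos ((gr_adj (mem_prs.1 (ht hp))).2 hp)]
  · apply Finset.prod_congr rfl
    intro p hp
    rw [Finset.mem_sdiff] at hp
    rw [if_neg (fun h => hp.2 ((gr_adj (mem_prs.1 hp.1)).1 h))]

open Classical in
lemma sum_weight (W : Graphon) {m : ℕ} (x : Fin m → unitInterval) :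
    ∑ t ∈ (prs m).powerset, weight W (gr t) x = 1 := by
  have h := Finset.prod_add (fun p : Fin m × Fin m => W.toFun (x p.1) (x p.2))
    (fun p => 1 - W.toFun (x p.1) (x p.2)) (prs m)
  have h1 : ∏ p ∈ prs m, (W.toFun (x p.1) (x p.2) + (1 - W.toFun (x p.1) (x p.2))) = 1 := by
    apply Finset.prod_eq_one
    intro p _
    ring
  rw [h1] at h
  rw [h]
  apply Finset.sum_congr rfl
  intro t ht
  exact weight_gr W (Finset.mem_powerset.1 ht) x

/-- `K` contains `H` as an induced subgraph. -/
def Contains {n m : ℕ} (H : SimpleGraph (Fin n)) (K : SimpleGraph (Fin m)) : Prop :=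
  ∃ g : Fin n → Fin m, Function.Injective g ∧ ∀ i j, i ≠ j → (H.Adj i j ↔ K.Adj (g i) (g j))

lemma mp_comp {n m : ℕ} {g : Fin n → Fin m} (hg : Function.Injective g) :
    MeasurePreserving (fun x : Fin m → unitInterval => fun i : Fin n => x (g i)) volume volume := by
  classical
  have hm : Measurable (fun x : Fin m → unitInterval => fun i : Fin n => x (g i)) :=
    measurable_pi_lambda _ fun i => measurable_pi_apply (g i)
  refine ⟨hm, ?_⟩
  symm
  rw [volume_pi]
  apply Measure.pi_eq
  intro s hs
  rw [Measure.map_apply hm (MeasurableSet.univ_pi hs)]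
  set s' : Fin m → Set unitInterval := fun j => if h : ∃ i, g i = j then s h.choose else univ with hs'
  have hg' : ∀ i, s' (g i) = s i := by
    intro i
    have h : ∃ k, g k = g i := ⟨i, rfl⟩
    rw [hs']
    simp only [dif_pos h]
    congr 1
    exact hg h.choose_spec
  have hpre : (fun x : Fin m → unitInterval => fun i : Fin n => x (g i)) ⁻¹' (Set.pi univ s) =
      Set.pi univ s' := by
    ext x
    simp only [mem_preimage, mem_pi, mem_univ, true_implies]
    constructor
    · intro h j
      by_cases hj : ∃ i, g i = j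
      · obtain ⟨i, rfl⟩ := hj
        rw [hg']
        exact h i
      · rw [hs']
        simp only [dif_neg hj, mem_univ]
    · intro h i
      rw [← hg']
      exact h (g i)
  rw [hpre, volume_pi_pi]
  symm
  apply Fintype.prod_of_injective g hg
  · intro j hj
    rw [hs']
    have : ¬ ∃ i, g i = j := fun ⟨i, hi⟩ => hj ⟨i, hi⟩
    simp only [dif_neg this, measure_univ]
  · intro i
    rw [hg']

open Classical in
lemma weight_le_of_contains (W : Graphon) {n m : ℕ} {H : SimpleGraph (Fin n)} {K : SimpleGraph (Fin m)}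
    {g : Fin n → Fin m} (hg : Function.Injective g)
    (hHK : ∀ i j, i ≠ j → (H.Adj i j ↔ K.Adj (g i) (g j))) (x : Fin m → unitInterval) :
    weight W K x ≤ weight W H (fun i => x (g i)) := by
  set e : Fin n × Fin n → Fin m × Fin m := fun q => if g q.1 < g q.2 then (g q.1, g q.2) else (g q.2, g q.1)
    with he
  set FK : Fin m × Fin m → ℝ := fun p =>
    if K.Adj p.1 p.2 then W.toFun (x p.1) (x p.2) else 1 - W.toFun (x p.1) (x p.2) with hFK
  have hFe : ∀ q ∈ prs n, FK (e q) =
      if H.Adj q.1 q.2 then W.toFun (x (g q.1)) (x (g q.2)) else 1 - W.toFun (x (g q.1)) (x (g q.2)) := by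
    intro q hq
    have hne : q.1 ≠ q.2 := (mem_prs.1 hq).ne
    rw [hFK, he]
    simp only
    by_cases h : g q.1 < g q.2
    · rw [if_pos h]
      simp only [hHK q.1 q.2 hne]
    · rw [if_neg h]
      simp only [hHK q.1 q.2 hne]
      rw [K.adj_comm, W.symm]
  have hinj : Set.InjOn e (prs n : Set (Fin n × Fin n)) := by
    intro q hq r hr h
    have hq' := mem_prs.1 hq
    have hr' := mem_prs.1 hr
    rw [he] at h
    simp only at h
    split_ifs at h with h1 h2 h2
    · rw [Prod.mk.injEq] at h
      exact Prod.ext (hg h.1) (hg h.2)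
    · rw [Prod.mk.injEq] at h
      have a1 := hg h.1
      have a2 := hg h.2
      rw [a1, a2] at hq'
      exact absurd hq' (not_lt.2 hr'.le)
    · rw [Prod.mk.injEq] at h
      have a1 := hg h.1
      have a2 := hg h.2
      rw [a1, a2] at hq'
      exact absurd hq' (not_lt.2 hr'.le)
    · rw [Prod.mk.injEq] at h
      exact Prod.ext (hg h.2) (hg h.1)
  have himg : (prs n).image e ⊆ prs m := by
    intro p hp
    rw [Finset.mem_image] at hp
    obtain ⟨q, hq, rfl⟩ := hp
    rw [mem_prs, he]
    simp only
    split_ifs with h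
    · exact h
    · have hne : g q.1 ≠ g q.2 := fun h' => (mem_prs.1 hq).ne (hg h')
      exact lt_of_le_of_ne (not_lt.1 h) hne.symm
  have h1 : weight W K x = (∏ p ∈ prs m \ (prs n).image e, FK p) * ∏ p ∈ (prs n).image e, FK p := by
    rw [Finset.prod_sdiff himg]
    rfl
  have h2 : ∏ p ∈ (prs n).image e, FK p = weight W H (fun i => x (g i)) := by
    rw [Finset.prod_image hinj]
    unfold weight
    exact Finset.prod_congr rfl hFe
  rw [h1, h2]
  exact mul_le_of_le_one_left (weight_nonneg _ _ _)
    (Finset.prod_le_one (fun p _ => (factor_mem W K x p).1) fun p _ => (factor_mem W K x p).2)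

lemma integrable_fweight (W : Graphon) {f : unitInterval → ℝ} (hf : Admissible f) {n : ℕ}
    (H : SimpleGraph (Fin n)) :
    Integrable (fun x : Fin n → unitInterval => (∏ i, f (x i)) * weight W H x) volume := by
  have hm : Measurable (fun x : Fin n → unitInterval => (∏ i, f (x i)) * weight W H x) :=
    (Finset.measurable_prod _ fun i _ => hf.1.comp (measurable_pi_apply i)).mul (measurable_weight W H)
  refine Integrable.of_bound hm.aestronglyMeasurable 1 (Filter.Eventually.of_forall fun x => ?_)
  have h1 : 0 ≤ ∏ i, f (x i) := Finset.prod_nonneg fun i _ => (hf.2.1 (x i)).1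
  have h2 : ∏ i, f (x i) ≤ 1 := Finset.prod_le_one (fun i _ => (hf.2.1 (x i)).1) fun i _ => (hf.2.1 (x i)).2
  rw [Real.norm_eq_abs, abs_of_nonneg (mul_nonneg h1 (weight_nonneg W H x))]
  exact mul_le_one₀ h2 (weight_nonneg W H x) (weight_le_one W H x)

/-- If `H` has density zero in `W|_f`, so has every graph containing it. -/
lemma zero_of_contains (W : Graphon) {f : unitInterval → ℝ} (hf : Admissible f) {n m : ℕ}
    {H : SimpleGraph (Fin n)} {K : SimpleGraph (Fin m)} (hHK : Contains H K)
    (h0 : ∫ x : Fin n → unitInterval, (∏ i, f (x i)) * weight W H x ≤ 0) :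
    ∫ x : Fin m → unitInterval, (∏ i, f (x i)) * weight W K x ≤ 0 := by
  classical
  obtain ⟨g, hg, hgK⟩ := hHK
  have hmp := mp_comp hg
  have h1 : ∫ x : Fin m → unitInterval, (∏ i, f (x (g i))) * weight W H (fun i => x (g i)) =
      ∫ x : Fin n → unitInterval, (∏ i, f (x i)) * weight W H x := by
    have h2 := integrable_fweight W hf H
    have h3 := integral_map (μ := (volume : Measure (Fin m → unitInterval))) hmp.measurable.aemeasurable
      (f := fun x : Fin n → unitInterval => (∏ i, f (x i)) * weight W H x)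
      (by rw [hmp.map_eq]; exact h2.aestronglyMeasurable)
    rw [hmp.map_eq] at h3
    exact h3.symm
  rw [← h1] at h0
  refine le_trans ?_ h0
  apply integral_mono_of_nonneg
  · exact Filter.Eventually.of_forall fun x =>
      mul_nonneg (Finset.prod_nonneg fun i _ => (hf.2.1 (x i)).1) (weight_nonneg W K x)
  · exact hmp.integrable_comp_of_integrable (integrable_fweight W hf H)
  · refine Filter.Eventually.of_forall fun x => ?_
    simp only
    apply mul_le_mul _ (weight_le_of_contains W hg hgK x) (weight_nonneg _ _ _)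
      (Finset.prod_nonneg fun i _ => (hf.2.1 (x (g i))).1)
    have himg : (Finset.univ : Finset (Fin n)).image g ⊆ Finset.univ := Finset.subset_univ _
    rw [← Finset.prod_sdiff himg, Finset.prod_image hg.injOn]
    exact mul_le_of_le_one_left (Finset.prod_nonneg fun i _ => (hf.2.1 (x (g i))).1)
      (Finset.prod_le_one (fun i _ => (hf.2.1 (x i)).1) fun i _ => (hf.2.1 (x i)).2)

open Classical in
/-- Step 1: if `H` is absent from a sub-object, then `H`-free samples are not too rare. -/
lemma step1 (W : Graphon) {f : unitInterval → ℝ} (hf : Admissible f) {n : ℕ}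
    {H : SimpleGraph (Fin n)} (h0 : ∫ x : Fin n → unitInterval, (∏ i, f (x i)) * weight W H x ≤ 0)
    (m : ℕ) :
    (∫ t, f t) ^ m ≤ ∑ t ∈ (prs m).powerset.filter (fun t => ¬ Contains H (gr t)), density W (gr t) := by
  have h1 : (∫ t, f t) ^ m = ∫ x : Fin m → unitInterval, ∏ i, f (x i) := by
    rw [integral_fintype_prod_volume_eq_prod (fun _ => f), Finset.prod_const, Finset.card_univ,
      Fintype.card_fin]
  have h2 : ∫ x : Fin m → unitInterval, ∏ i, f (x i) =
      ∑ t ∈ (prs m).powerset, ∫ x : Fin m → unitInterval, (∏ i, f (x i)) * weight W (gr t) x := by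
    rw [← integral_finsetSum _ fun t _ => integrable_fweight W hf (gr t)]
    congr 1
    funext x
    rw [← Finset.mul_sum, sum_weight, mul_one]
  rw [h1, h2, Finset.sum_filter]
  apply Finset.sum_le_sum
  intro t _
  split_ifs with hc
  · exact zero_of_contains W hf hc h0
  · unfold density
    apply integral_mono (integrable_fweight W hf (gr t)) (integrable_weight W (gr t))
    intro x
    exact mul_le_of_le_one_left (weight_nonneg W _ x)
      (Finset.prod_le_one (fun i _ => (hf.2.1 (x i)).1) fun i _ => (hf.2.1 (x i)).2)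

open Classical in
/-- Step 2: in the recursive blow-up, `H`-free samples are super-exponentially rare. -/
lemma step2 {G : ℕ → Prop} (hG1 : ∀ T, ∃ i, T ≤ i ∧ G i) (hG0 : ∀ T, ∃ i, T ≤ i ∧ ¬ G i) {n : ℕ}
    {H : SimpleGraph (Fin n)} (hH : IsCographOn H Finset.univ) {ρ : ℝ} (hρ : 0 < ρ) :
    ∃ M : ℝ, ∀ m : ℕ,
      ∑ t ∈ (prs m).powerset.filter (fun t => ¬ Contains H (gr t)), density (blowup G) (gr t) ≤
        M * ρ ^ m := by
  obtain ⟨D₀, -, hD₀⟩ := dens_lemma hG1 hG0 hH (ρ / 2) (by positivity) 0
  obtain ⟨D₁, hD₁⟩ := pow_unbounded_of_one_lt (2 / ρ) (show (1 : ℝ) < 2 by norm_num)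
  set D := max D₀ D₁ with hD
  have h2D : (0 : ℝ) < 2 ^ D := by positivity
  have hDρ : 1 ≤ ρ / 2 * 2 ^ D := by
    have h1 : (2 : ℝ) ^ D₁ ≤ 2 ^ D := pow_le_pow_right₀ (by norm_num) (le_max_right _ _)
    rw [div_lt_iff₀ hρ] at hD₁
    nlinarith
  set 𝒜 : Finset (Finset ℕ) := (Finset.range (2 ^ D + 1)).powerset.filter
    (fun A => (A.card : ℝ) ≤ ρ * 2 ^ D) with h𝒜
  refine ⟨𝒜.card, fun m => ?_⟩
  set B : Finset ℕ → Set (Fin m → unitInterval) := fun A =>
    Set.pi univ fun _ => {x : unitInterval | cell D x ∈ A} with hB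
  have hcm : ∀ A : Finset ℕ, MeasurableSet {x : unitInterval | cell D x ∈ A} := fun A =>
    measurable_cell D (Finset.measurableSet A)
  have hBm : ∀ A, MeasurableSet (B A) := fun A => MeasurableSet.univ_pi fun _ => hcm A
  have hvol1 : ∀ A ∈ 𝒜, volume {x : unitInterval | cell D x ∈ A} ≤ ENNReal.ofReal ρ := by
    intro A hA
    have hcard := (Finset.mem_filter.1 hA).2
    have hU : {x : unitInterval | cell D x ∈ A} = ⋃ c ∈ A, {x : unitInterval | cell D x = c} := by
      ext x; simp
    rw [hU]
    refine (measure_biUnion_finset_le A _).trans ?_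
    calc ∑ c ∈ A, volume {x : unitInterval | cell D x = c}
        ≤ ∑ c ∈ A, ENNReal.ofReal (((2 : ℝ) ^ D)⁻¹) := Finset.sum_le_sum fun c _ => volume_cell_le D c
      _ = ENNReal.ofReal (A.card * ((2 : ℝ) ^ D)⁻¹) := by
          rw [Finset.sum_const, nsmul_eq_mul, ENNReal.ofReal_mul (by positivity), ENNReal.ofReal_natCast]
      _ ≤ ENNReal.ofReal ρ := by
          apply ENNReal.ofReal_le_ofReal
          rw [← div_eq_mul_inv, div_le_iff₀ h2D]
          exact hcard
  have hvol : ∀ A ∈ 𝒜, ∫ x, (B A).indicator (fun _ => (1 : ℝ)) x ≤ ρ ^ m := by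
    intro A hA
    rw [integral_indicator_const _ (hBm A), smul_eq_mul, mul_one, Measure.real]
    apply ENNReal.toReal_le_of_le_ofReal (by positivity)
    rw [hB]
    simp only
    rw [volume_pi_pi, Finset.prod_const, Finset.card_univ, Fintype.card_fin, ENNReal.ofReal_pow hρ.le]
    exact pow_le_pow_left' (hvol1 A hA) m
  have hint : ∀ A, Integrable (fun x => (B A).indicator (fun _ => (1 : ℝ)) x) volume := fun A =>
    (integrable_const 1).indicator (hBm A)
  -- pointwise estimate
  have hpt : ∀ x : Fin m → unitInterval,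
      ∑ t ∈ (prs m).powerset.filter (fun t => ¬ Contains H (gr t)), weight (blowup G) (gr t) x ≤
        ∑ A ∈ 𝒜, (B A).indicator (fun _ => (1 : ℝ)) x := by
    intro x
    have hnn : 0 ≤ ∑ A ∈ 𝒜, (B A).indicator (fun _ => (1 : ℝ)) x :=
      Finset.sum_nonneg fun A _ => indicator_nonneg (fun _ _ => zero_le_one) x
    by_cases hex : ∃ t ∈ (prs m).powerset.filter (fun t => ¬ Contains H (gr t)),
        weight (blowup G) (gr t) x ≠ 0
    · obtain ⟨t, ht, hw⟩ := hex
      have htH := (Finset.mem_filter.1 ht).2
      set O : Finset ℕ := (Finset.univ.image fun i => cell D (x i)).filter (fun c => c < 2 ^ D) with hO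
      have hOcard : (O.card : ℝ) < ρ / 2 * 2 ^ D := by
        by_contra hc
        push Not at hc
        obtain ⟨v, hv1, hv2⟩ := hD₀ D (le_max_left _ _) O 0 (by
          intro a ha
          rw [Nat.sub_zero]
          exact Nat.div_eq_of_lt (Finset.mem_filter.1 ha).2) (by rw [Nat.sub_zero]; exact hc)
        have hv3 : ∀ i : Fin n, ∃ j : Fin m, cell D (x j) = v i := by
          intro i
          have := (Finset.mem_filter.1 (hv1 i (Finset.mem_univ i))).1
          rw [Finset.mem_image] at this
          obtain ⟨j, _, hj⟩ := this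
          exact ⟨j, hj⟩
        choose g hg using hv3
        apply htH
        have hinj : Function.Injective g := by
          intro i j hij
          by_contra hne
          exact (hv2 i (Finset.mem_univ i) j (Finset.mem_univ j) hne).1 (by rw [← hg i, ← hg j, hij])
        refine ⟨g, hinj, fun i j hij => ?_⟩
        have h3 := hv2 i (Finset.mem_univ i) j (Finset.mem_univ j) hij
        have hne : cell D (x (g i)) ≠ cell D (x (g j)) := by rw [hg, hg]; exact h3.1
        rw [h3.2, adj_of_weight_ne hw (fun h => hij (hinj h)), joined_iff_JC hne, hg, hg]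
      set A : Finset ℕ := insert (2 ^ D) O with hA
      have hA𝒜 : A ∈ 𝒜 := by
        rw [h𝒜, Finset.mem_filter, Finset.mem_powerset]
        constructor
        · intro c hc
          rw [hA, Finset.mem_insert] at hc
          rw [Finset.mem_range]
          rcases hc with rfl | hc
          · omega
          · have := (Finset.mem_filter.1 hc).2
            omega
        · have h1 : (A.card : ℝ) ≤ O.card + 1 := by
            exact_mod_cast Finset.card_insert_le _ _
          linarith
      have hxA : x ∈ B A := by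
        intro i _
        simp only [Set.mem_ofPred_eq]
        rw [hA, Finset.mem_insert, hO, Finset.mem_filter]
        rcases (cell_le D (x i)).eq_or_lt with h | h
        · left; exact h
        · right
          exact ⟨Finset.mem_image_of_mem _ (Finset.mem_univ i), h⟩
      calc ∑ t ∈ (prs m).powerset.filter (fun t => ¬ Contains H (gr t)), weight (blowup G) (gr t) x
          ≤ ∑ t ∈ (prs m).powerset, weight (blowup G) (gr t) x :=
            Finset.sum_le_sum_of_subset_of_nonneg (Finset.filter_subset _ _)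
              fun t _ _ => weight_nonneg _ _ _
        _ = 1 := sum_weight _ x
        _ = (B A).indicator (fun _ => (1 : ℝ)) x := by rw [indicator_of_mem hxA]
        _ ≤ _ := Finset.single_le_sum (f := fun A => (B A).indicator (fun _ => (1 : ℝ)) x)
              (fun A _ => indicator_nonneg (fun _ _ => zero_le_one) x) hA𝒜
    · push Not at hex
      rw [Finset.sum_eq_zero hex]
      exact hnn
  calc ∑ t ∈ (prs m).powerset.filter (fun t => ¬ Contains H (gr t)), density (blowup G) (gr t)
      = ∫ x, ∑ t ∈ (prs m).powerset.filter (fun t => ¬ Contains H (gr t)),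
          weight (blowup G) (gr t) x := by
        rw [integral_finsetSum _ fun t _ => integrable_weight _ _]
        rfl
    _ ≤ ∫ x, ∑ A ∈ 𝒜, (B A).indicator (fun _ => (1 : ℝ)) x := by
        apply integral_mono (integrable_finsetSum _ fun t _ => integrable_weight _ _)
          (integrable_finsetSum _ fun A _ => hint A)
        exact hpt
    _ = ∑ A ∈ 𝒜, ∫ x, (B A).indicator (fun _ => (1 : ℝ)) x := integral_finsetSum _ fun A _ => hint A
    _ ≤ ∑ A ∈ 𝒜, ρ ^ m := Finset.sum_le_sum hvol
    _ = 𝒜.card * ρ ^ m := by rw [Finset.sum_const, nsmul_eq_mul]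

/-- Every cograph has positive density in every sub-object of a recursive blow-up. -/
lemma sub_pos {G : ℕ → Prop} (hG1 : ∀ T, ∃ i, T ≤ i ∧ G i) (hG0 : ∀ T, ∃ i, T ≤ i ∧ ¬ G i) {n : ℕ}
    {H : SimpleGraph (Fin n)} (hH : IsCographOn H Finset.univ) {W' : Graphon}
    (hW' : WeakIso W' (blowup G)) {f : unitInterval → ℝ} (hf : Admissible f) :
    0 < subDensity W' f H := by
  classical
  by_contra hcon
  push Not at hcon
  have hδ : 0 < ∫ t, f t := hf.2.2
  have h0 : ∫ x : Fin n → unitInterval, (∏ i, f (x i)) * weight W' H x ≤ 0 := by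
    unfold subDensity at hcon
    by_contra hc
    push Not at hc
    have := div_pos hc (pow_pos hδ n)
    linarith
  obtain ⟨M, hM⟩ := step2 hG1 hG0 hH (ρ := (∫ t, f t) / 2) (by positivity)
  obtain ⟨m, hm⟩ := pow_unbounded_of_one_lt M (show (1 : ℝ) < 2 by norm_num)
  have h1 := step1 W' hf h0 m
  have h2 : ∑ t ∈ (prs m).powerset.filter (fun t => ¬ Contains H (gr t)), density W' (gr t) =
      ∑ t ∈ (prs m).powerset.filter (fun t => ¬ Contains H (gr t)), density (blowup G) (gr t) :=
    Finset.sum_congr rfl fun t _ => hW' m (gr t)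
  rw [h2] at h1
  have h3 := h1.trans (hM m)
  rw [div_pow, mul_div_assoc', le_div_iff₀ (by positivity), mul_comm] at h3
  have h4 := le_of_mul_le_mul_right h3 (pow_pos hδ m)
  linarith

end Pool.Agent.H181.CG
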