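import Mathlib

/-!
# Root counting for `∏_{j<2n} (z - j) + (-1)^n c` (used for MP_74ce82_an)
-/

open Polynomial Finset Complex Filter Topology

namespace Pool.Agent.H181.Cn

/-- The polynomial `D_{2n}(z;c) = ∏_{j=1}^{2n} (z - (j-1)) + (-1)^n c`. -/
noncomputable def D (n : ℕ) (c : ℝ) : ℂ[X] :=
  (∏ j ∈ Finset.range (2 * n), (X - C (j : ℂ))) + C ((((-1 : ℝ)) ^ n * c : ℝ) : ℂ)

/-- The number of roots of `D_{2n}(·;c)` with real part `> -1/2`, counted with multiplicity. -/
noncomputable def rightRoots (n : ℕ) (c : ℝ) : ℕ :=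
  Multiset.card ((D n c).roots.filter (fun z : ℂ => -(1 / 2 : ℝ) < z.re))

/-- `∏_{j<2n} (z - j)`. -/
noncomputable def Q (n : ℕ) : ℂ[X] := ∏ j ∈ Finset.range (2 * n), (X - C (j : ℂ))

lemma eval_Q (n : ℕ) (z : ℂ) : (Q n).eval z = ∏ j ∈ Finset.range (2 * n), (z - j) := by
  simp [Q, Polynomial.eval_prod]

lemma eval_D (n : ℕ) (c : ℝ) (z : ℂ) : (D n c).eval z = (Q n).eval z + (-1) ^ n * (c : ℂ) := by
  simp [D, Q]

lemma monic_Q (n : ℕ) : (Q n).Monic := monic_prod_of_monic _ _ fun j _ => monic_X_sub_C _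

lemma natDegree_Q (n : ℕ) : (Q n).natDegree = 2 * n := by
  unfold Q
  rw [natDegree_prod_of_monic _ _ fun j _ => monic_X_sub_C _]
  simp only [natDegree_X_sub_C]
  simp

lemma monic_D (n : ℕ) (hn : 1 ≤ n) (c : ℝ) : (D n c).Monic := by
  have h : (D n c) = Q n + C ((((-1 : ℝ)) ^ n * c : ℝ) : ℂ) := rfl
  rw [h]
  apply (monic_Q n).add_of_left
  rw [degree_eq_natDegree (monic_Q n).ne_zero, natDegree_Q]
  refine lt_of_le_of_lt degree_C_le ?_
  exact_mod_cast (by omega : 0 < 2 * n)

lemma natDegree_D (n : ℕ) (hn : 1 ≤ n) (c : ℝ) : (D n c).natDegree = 2 * n := by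
  have h : (D n c) = Q n + C ((((-1 : ℝ)) ^ n * c : ℝ) : ℂ) := rfl
  rw [h, natDegree_add_C, natDegree_Q]

lemma eval_Q_symm (n : ℕ) (z : ℂ) : (Q n).eval (2 * n - 1 - z) = (Q n).eval z := by
  rw [eval_Q, eval_Q, ← Finset.prod_range_reflect (fun j => z - (j : ℂ)) (2 * n)]
  have h : ∏ j ∈ Finset.range (2 * n), ((-1 : ℂ)) = 1 := by
    rw [Finset.prod_const, Finset.card_range]
    exact (even_two_mul n).neg_one_pow
  have key : ∏ j ∈ Finset.range (2 * n), (2 * (n : ℂ) - 1 - z - (j : ℂ))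
      = ∏ j ∈ Finset.range (2 * n), ((-1 : ℂ) * (z - ((2 * n - 1 - j : ℕ) : ℂ))) := by
   apply Finset.prod_congr rfl
   intro j hj
   rw [Finset.mem_range] at hj
   have : ((2 * n - 1 - j : ℕ) : ℂ) = 2 * n - 1 - j := by
    rw [Nat.cast_sub (by omega), Nat.cast_sub (by omega)]
    push_cast; ring
   rw [this]; ring
  rw [key, Finset.prod_mul_distrib, h, one_mul]

lemma roots_symm (n : ℕ) (hn : 1 ≤ n) (c : ℝ) :
    (D n c).roots.map (fun z : ℂ => 2 * (n : ℂ) - 1 - z) = (D n c).roots := by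
  set R := (D n c).roots with hR
  have hcard : R.card = 2 * n := by
    rw [hR, IsAlgClosed.card_roots_eq_natDegree, natDegree_D n hn]
  have hprod : D n c = (R.map (fun a => X - C a)).prod :=
    (IsAlgClosed.splits (D n c)).eq_prod_roots_of_monic (monic_D n hn c)
  have hcomp : (D n c).comp (C (2 * (n : ℂ) - 1) - X) = D n c := by
    apply Polynomial.funext
    intro z
    rw [eval_comp, eval_D, eval_D]
    simp only [eval_sub, eval_C, eval_X]
    rw [eval_Q_symm]
  have h2 : D n c = ((R.map (fun z => 2 * (n : ℂ) - 1 - z)).map (fun a => X - C a)).prod := by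
    rw [← hcomp]
    conv_lhs => rw [hprod]
    rw [Polynomial.multiset_prod_comp, Multiset.map_map, Multiset.map_map]
    have h3 : (R.map ((fun p : ℂ[X] => p.comp (C (2 * (n : ℂ) - 1) - X)) ∘ fun a => X - C a))
        = R.map (fun a => (-1 : ℂ[X]) * ((fun a => X - C a) ∘ fun z => 2 * (n : ℂ) - 1 - z) a) := by
      apply Multiset.map_congr rfl
      intro a _
      simp only [Function.comp_apply, sub_comp, X_comp, C_comp, map_sub]
      ring
    rw [h3, Multiset.prod_map_mul, Multiset.map_const', Multiset.prod_replicate, hcard,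
      (even_two_mul n).neg_one_pow, one_mul]
  have h4 := congrArg Polynomial.roots h2
  rw [roots_multiset_prod_X_sub_C] at h4
  exact h4.symm

/-- The defining condition holds iff there is no root in the open strip. -/
lemma rightRoots_iff (n : ℕ) (hn : 1 ≤ n) (c : ℝ) :
    rightRoots n c = n ↔
      ∀ z : ℂ, (D n c).eval z = 0 → ¬ (-(1 / 2 : ℝ) < z.re ∧ z.re < 2 * n - 1 / 2) := by
  classical
  set R := (D n c).roots with hR
  have hcard : R.card = 2 * n := by
    rw [hR, IsAlgClosed.card_roots_eq_natDegree, natDegree_D n hn]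
  have hsymm : Multiset.card (R.filter (fun z : ℂ => z.re < 2 * n - 1 / 2))
      = Multiset.card (R.filter (fun z : ℂ => -(1 / 2 : ℝ) < z.re)) := by
    conv_rhs => rw [hR, ← roots_symm n hn c, ← hR]
    rw [Multiset.filter_map, Multiset.card_map]
    congr 1
    apply Multiset.filter_congr
    intro z _
    simp only [Function.comp_apply, Complex.sub_re, Complex.mul_re, Complex.re_ofNat,
      Complex.natCast_re, Complex.im_ofNat, Complex.natCast_im, Complex.one_re, mul_zero, sub_zero]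
    constructor <;> intro h <;> linarith
  have hsum := congrArg Multiset.card
    (Multiset.filter_add_filter (fun z : ℂ => -(1 / 2 : ℝ) < z.re)
      (fun z : ℂ => z.re < 2 * n - 1 / 2) R)
  rw [Multiset.card_add, Multiset.card_add, hsymm] at hsum
  have hall : R.filter (fun z : ℂ => -(1 / 2 : ℝ) < z.re ∨ z.re < 2 * n - 1 / 2) = R := by
    apply Multiset.filter_eq_self.2
    intro z _
    have h1 : (1 : ℝ) ≤ n := by exact_mod_cast hn
    by_cases h : -(1 / 2 : ℝ) < z.re
    · exact Or.inl h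
    · right; push Not at h; linarith
  rw [hall, hcard] at hsum
  have hne : D n c ≠ 0 := (monic_D n hn c).ne_zero
  have h1 : rightRoots n c = Multiset.card (R.filter (fun z : ℂ => -(1 / 2 : ℝ) < z.re)) := rfl
  rw [h1]
  constructor
  · intro h z hz hstrip
    have h0 : Multiset.card (R.filter
        (fun z : ℂ => -(1 / 2 : ℝ) < z.re ∧ z.re < 2 * n - 1 / 2)) = 0 := by omega
    rw [Multiset.card_eq_zero] at h0
    have hmem : z ∈ R.filter (fun z : ℂ => -(1 / 2 : ℝ) < z.re ∧ z.re < 2 * n - 1 / 2) :=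
      Multiset.mem_filter.2 ⟨(mem_roots hne).2 hz, hstrip⟩
    rw [h0] at hmem
    exact Multiset.notMem_zero _ hmem
  · intro h
    have h0 : R.filter (fun z : ℂ => -(1 / 2 : ℝ) < z.re ∧ z.re < 2 * n - 1 / 2) = 0 := by
      rw [Multiset.filter_eq_nil]
      intro z hz
      exact h z ((mem_roots hne).1 hz)
    rw [h0, Multiset.card_zero] at hsum
    omega

/-! ### The boundary line -/

/-- `∏_{j<2n} (y + i (j + 1/2))`. -/
noncomputable def P (n : ℕ) (y : ℝ) : ℂ := ∏ j ∈ Finset.range (2 * n), ((y : ℂ) + I * (j + 1 / 2))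

lemma eval_Q_line (n : ℕ) (y : ℝ) : (Q n).eval (-(1 / 2) + I * y) = (-1) ^ n * P n y := by
  rw [eval_Q, P]
  have h : ∏ j ∈ Finset.range (2 * n), I = (-1 : ℂ) ^ n := by
    rw [Finset.prod_const, Finset.card_range, pow_mul, Complex.I_sq]
  rw [← h, ← Finset.prod_mul_distrib]
  apply Finset.prod_congr rfl
  intro j _
  have : I * ((y : ℂ) + I * (j + 1 / 2)) = I * y + (I * I) * (j + 1 / 2) := by ring
  rw [this, Complex.I_mul_I]; ring

lemma norm_P (n : ℕ) (y : ℝ) :
    ‖P n y‖ = ∏ j ∈ Finset.range (2 * n), Real.sqrt (y ^ 2 + ((j : ℝ) + 1 / 2) ^ 2) := by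
  rw [P, norm_prod]
  apply Finset.prod_congr rfl
  intro j _
  have : (y : ℂ) + I * (j + 1 / 2) = ((y : ℝ) : ℂ) + (((j : ℝ) + 1 / 2 : ℝ) : ℂ) * I := by
    push_cast; ring
  rw [this, Complex.norm_add_mul_I]

lemma norm_P_mono (n : ℕ) {y y' : ℝ} (h : |y'| ≤ y) : ‖P n y'‖ ≤ ‖P n y‖ := by
  rw [norm_P, norm_P]
  apply Finset.prod_le_prod
  · intro j _; positivity
  · intro j _
    apply Real.sqrt_le_sqrt
    have : y' ^ 2 ≤ y ^ 2 := by
      rw [← sq_abs y']
      exact pow_le_pow_left₀ (abs_nonneg _) h 2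
    linarith

lemma P_neg (n : ℕ) (y : ℝ) : P n (-y) = (starRingEnd ℂ) (P n y) := by
  rw [P, P, map_prod]
  have h : ∏ j ∈ Finset.range (2 * n), ((-1 : ℂ)) = 1 := by
    rw [Finset.prod_const, Finset.card_range]
    exact (even_two_mul n).neg_one_pow
  have key : ∏ j ∈ Finset.range (2 * n), (((-y : ℝ) : ℂ) + I * (j + 1 / 2))
      = ∏ j ∈ Finset.range (2 * n), ((-1 : ℂ) * (starRingEnd ℂ) ((y : ℂ) + I * (j + 1 / 2))) := by
    apply Finset.prod_congr rfl
    intro j _
    have h2 : (starRingEnd ℂ) ((j : ℂ)) = j := Complex.conj_natCast j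
    simp only [map_add, map_mul, Complex.conj_ofReal, Complex.conj_I, h2, map_div₀, map_one]
    have h3 : (starRingEnd ℂ) (2 : ℂ) = 2 := Complex.conj_ofNat 2
    rw [h3]
    push_cast; ring
  rw [key, Finset.prod_mul_distrib, h, one_mul]

lemma eval_D_line (n : ℕ) (c y : ℝ) :
    (D n c).eval (-(1 / 2) + I * y) = 0 ↔ P n y = -(c : ℂ) := by
  rw [eval_D, eval_Q_line, ← mul_add]
  have h : ((-1 : ℂ)) ^ n ≠ 0 := pow_ne_zero _ (by norm_num)
  rw [mul_eq_zero, or_iff_right h, add_eq_zero_iff_eq_neg]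

lemma bounded_roots (n : ℕ) (c : ℝ) (z : ℂ) (hz : (D n c).eval z = 0) (hn : 1 ≤ n) :
    ‖z‖ ≤ 2 * n + |c| + 1 := by
  by_contra hcon
  push Not at hcon
  rw [eval_D, eval_Q] at hz
  have h1 : ‖∏ j ∈ Finset.range (2 * n), (z - (j : ℂ))‖ = |c| := by
    have : ∏ j ∈ Finset.range (2 * n), (z - (j : ℂ)) = -((-1) ^ n * (c : ℂ)) := by
      linear_combination hz
    rw [this, norm_neg, norm_mul, norm_pow, norm_neg, norm_one, one_pow, one_mul,
      Complex.norm_real, Real.norm_eq_abs]
  rw [norm_prod] at h1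
  have h2 : ∀ j ∈ Finset.range (2 * n), |c| + 1 ≤ ‖z - (j : ℂ)‖ := by
    intro j hj
    rw [Finset.mem_range] at hj
    have h3 : ‖z‖ - ‖(j : ℂ)‖ ≤ ‖z - j‖ := norm_sub_norm_le _ _
    rw [Complex.norm_natCast] at h3
    have h4 : (j : ℝ) ≤ 2 * n := by exact_mod_cast hj.le
    linarith
  have h5 : (|c| + 1) ^ (2 * n) ≤ ∏ j ∈ Finset.range (2 * n), ‖z - (j : ℂ)‖ := by
    have := Finset.prod_le_prod (s := Finset.range (2 * n)) (f := fun _ : ℕ => |c| + 1)
      (g := fun j : ℕ => ‖z - (j : ℂ)‖) (fun j _ => by positivity) h2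
    simpa using this
  have h6 : |c| + 1 ≤ (|c| + 1) ^ (2 * n) := by
    have : (1 : ℝ) ≤ |c| + 1 := by have := abs_nonneg c; linarith
    exact le_self_pow₀ this (by omega)
  linarith

lemma deriv_Q (n : ℕ) (z : ℂ) (hz : ∀ j ∈ Finset.range (2 * n), z - (j : ℂ) ≠ 0) :
    (Q n).derivative.eval z = (Q n).eval z * ∑ j ∈ Finset.range (2 * n), (z - (j : ℂ))⁻¹ := by
  rw [eval_Q, Q, derivative_prod_finset, eval_finsetSum, Finset.mul_sum]
  apply Finset.sum_congr rfl
  intro j hj
  rw [eval_mul, eval_prod]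
  simp only [eval_sub, eval_X, eval_C, derivative_sub, derivative_X, derivative_C, sub_zero,
    eval_one, mul_one]
  rw [← Finset.mul_prod_erase _ _ hj]
  field_simp [hz j hj]

/-- **Identification of the threshold.** If `P n y = -c₀` with `y ≥ 0`, `c₀ > 0`, and `P n y'` is
never a negative real number for `y' > y`, then the threshold is `c₀`. -/
theorem threshold (n : ℕ) (hn : 1 ≤ n) (cn : ℝ) (hc : ∀ c : ℝ, rightRoots n c = n ↔ cn ≤ c)
    (y c₀ : ℝ) (hy : 0 ≤ y) (hc₀ : 0 < c₀) (hroot : P n y = -(c₀ : ℂ))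
    (hmax : ∀ y' : ℝ, y < y' → ∀ c : ℝ, 0 < c → P n y' ≠ -(c : ℂ)) : cn = c₀ := by
  have hn1 : (1 : ℝ) ≤ n := by exact_mod_cast hn
  apply le_antisymm
  · -- `cn ≤ c₀`
    by_contra hlt
    push Not at hlt
    have hfree := (rightRoots_iff n hn cn).1 ((hc cn).2 le_rfl)
    -- no roots on the boundary line
    have hline : ∀ y' : ℝ, P n y' ≠ -(cn : ℂ) := by
      intro y' h
      have hnorm : ‖P n y'‖ = cn := by
        rw [h, norm_neg, Complex.norm_real, Real.norm_eq_abs, abs_of_pos (hc₀.trans hlt)]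
      have hnorm0 : ‖P n y‖ = c₀ := by
        rw [hroot, norm_neg, Complex.norm_real, Real.norm_eq_abs, abs_of_pos hc₀]
      have habs : y < |y'| := by
        by_contra hle
        push Not at hle
        have := norm_P_mono n hle
        linarith
      rcases le_or_gt 0 y' with hy' | hy'
      · rw [abs_of_nonneg hy'] at habs
        exact hmax y' habs cn (hc₀.trans hlt) h
      · rw [abs_of_neg hy'] at habs
        apply hmax (-y') habs cn (hc₀.trans hlt)
        rw [P_neg, h, map_neg, Complex.conj_ofReal]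
    have hline' : ∀ z : ℂ, z.re = -(1 / 2) → (D n cn).eval z ≠ 0 := by
      intro z hz h0
      have hz' : z = -(1 / 2) + I * (z.im : ℝ) := by
        apply Complex.ext
        · simp [hz]
        · simp
      rw [hz', eval_D_line] at h0
      exact hline _ h0
    have hline'' : ∀ z : ℂ, z.re = 2 * n - 1 / 2 → (D n cn).eval z ≠ 0 := by
      intro z hz h0
      apply hline' (2 * n - 1 - z)
      · simp only [Complex.sub_re, Complex.mul_re, Complex.re_ofNat,
          Complex.natCast_re, Complex.im_ofNat, Complex.natCast_im, Complex.one_re, mul_zero,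
          sub_zero, hz]
        ring
      · rw [eval_D, eval_Q_symm, ← eval_D]; exact h0
    -- roots in the strip for `c` slightly smaller
    have hex : ∀ k : ℕ, ∃ z : ℂ, (D n (cn - 1 / (k + 1))).eval z = 0 ∧
        -(1 / 2 : ℝ) < z.re ∧ z.re < 2 * n - 1 / 2 := by
      intro k
      by_contra hno
      push Not at hno
      have h1 : rightRoots n (cn - 1 / (k + 1)) = n := by
        rw [rightRoots_iff n hn]
        rintro z hz ⟨h2, h3⟩
        exact absurd h3 (not_lt.2 (hno z hz h2))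
      have h2 := (hc _).1 h1
      have h3 : (0 : ℝ) < 1 / (k + 1) := by positivity
      linarith
    choose w hw1 hw2 hw3 using hex
    have hbound : ∀ k, w k ∈ Metric.closedBall (0 : ℂ) (2 * n + (|cn| + 1) + 1) := by
      intro k
      rw [mem_closedBall_zero_iff]
      refine (bounded_roots n _ _ (hw1 k) hn).trans ?_
      have h3 : |cn - 1 / ((k : ℝ) + 1)| ≤ |cn| + 1 := by
        refine (abs_sub _ _).trans ?_
        have h4 : |1 / ((k : ℝ) + 1)| ≤ 1 := by
          rw [abs_of_pos (by positivity), div_le_one (by positivity)]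
          have : (0 : ℝ) ≤ k := Nat.cast_nonneg k
          linarith
        linarith
      linarith
    obtain ⟨z, -, φ, hφ, hlim⟩ := (isCompact_closedBall (0 : ℂ) _).tendsto_subseq hbound
    have hcz : (D n cn).eval z = 0 := by
      have h1 : Tendsto (fun k => (Q n).eval (w (φ k)) +
          (-1) ^ n * ((cn - 1 / ((φ k : ℝ) + 1) : ℝ) : ℂ)) atTop
          (𝓝 ((Q n).eval z + (-1) ^ n * (cn : ℂ))) := by
        apply Tendsto.add
        · exact ((Q n).continuous.tendsto z).comp hlim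
        · apply Tendsto.const_mul
          have h2 : Tendsto (fun k : ℕ => cn - 1 / ((φ k : ℝ) + 1)) atTop (𝓝 (cn - 0)) :=
            tendsto_const_nhds.sub
              (tendsto_one_div_add_atTop_nhds_zero_nat.comp hφ.tendsto_atTop)
          rw [sub_zero] at h2
          exact (Complex.continuous_ofReal.tendsto cn).comp h2
      have h3 : (fun k => (Q n).eval (w (φ k)) +
          (-1) ^ n * ((cn - 1 / ((φ k : ℝ) + 1) : ℝ) : ℂ)) = fun _ => 0 := by
        funext k
        rw [← eval_D]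
        exact hw1 (φ k)
      rw [h3] at h1
      rw [eval_D]
      exact (tendsto_nhds_unique h1 tendsto_const_nhds)
    have hre : Tendsto (fun k => (w (φ k)).re) atTop (𝓝 z.re) :=
      (Complex.continuous_re.tendsto z).comp hlim
    have hre1 : -(1 / 2 : ℝ) ≤ z.re := ge_of_tendsto' hre fun k => (hw2 _).le
    have hre2 : z.re ≤ 2 * n - 1 / 2 := le_of_tendsto' hre fun k => (hw3 _).le
    rcases eq_or_lt_of_le hre1 with h | h
    · exact hline' z h.symm hcz
    rcases eq_or_lt_of_le hre2 with h' | h'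
    · exact hline'' z h' hcz
    exact hfree z hcz ⟨h, h'⟩
  · -- `c₀ ≤ cn`
    by_contra hlt
    push Not at hlt
    have hfree : ∀ c : ℝ, cn ≤ c → ∀ z : ℂ, (D n c).eval z = 0 →
        ¬ (-(1 / 2 : ℝ) < z.re ∧ z.re < 2 * n - 1 / 2) := fun c h =>
      (rightRoots_iff n hn c).1 ((hc c).2 h)
    set ζ : ℂ := -(1 / 2) + I * y with hζ
    have hζre : ζ.re = -(1 / 2) := by simp [hζ]
    have hζim : ζ.im = y := by simp [hζ]
    set κ : ℂ := -((-1) ^ n) with hκ
    have hκ2 : κ * κ = 1 := by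
      rw [hκ, neg_mul_neg, ← mul_pow]; norm_num
    have hQζ : (Q n).eval ζ = κ * c₀ := by
      rw [hζ, eval_Q_line, hroot, hκ]; ring
    have hne : ∀ j ∈ Finset.range (2 * n), ζ - (j : ℂ) ≠ 0 := by
      intro j _ h
      have := congrArg Complex.re h
      simp only [Complex.sub_re, hζre, Complex.natCast_re, Complex.zero_re] at this
      have h2 : (0 : ℝ) ≤ j := Nat.cast_nonneg j
      linarith
    set L : ℂ := ∑ j ∈ Finset.range (2 * n), (ζ - (j : ℂ))⁻¹ with hL
    have hLre : L.re < 0 := by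
      rw [hL, Complex.re_sum]
      apply Finset.sum_neg
      · intro j hj
        rw [Complex.inv_re]
        have h1 : (ζ - (j : ℂ)).re < 0 := by
          simp only [Complex.sub_re, hζre, Complex.natCast_re]
          have h2 : (0 : ℝ) ≤ j := Nat.cast_nonneg j
          linarith
        exact div_neg_of_neg_of_pos h1 (Complex.normSq_pos.2 (hne j hj))
      · exact ⟨0, Finset.mem_range.2 (by omega)⟩
    have hL0 : L ≠ 0 := by
      intro h; rw [h] at hLre; simp at hLre
    have hκ0 : κ ≠ 0 := by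
      intro h; rw [h] at hκ2; simp at hκ2
    have hc0C : (c₀ : ℂ) ≠ 0 := by exact_mod_cast hc₀.ne'
    have hder : HasStrictDerivAt (fun z => (Q n).eval z) ((Q n).derivative.eval ζ) ζ :=
      (Q n).hasStrictDerivAt ζ
    have hder' : (Q n).derivative.eval ζ = κ * c₀ * L := by
      rw [deriv_Q n ζ hne, hQζ]
    have hder0 : (Q n).derivative.eval ζ ≠ 0 := by
      rw [hder']; exact mul_ne_zero (mul_ne_zero hκ0 hc0C) hL0
    set g := hder.localInverse _ _ _ hder0 with hg
    have hgder := hder.to_localInverse hder0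
    have hginv := hder.eventually_right_inverse hder0
    have hgleft := hder.eventually_left_inverse hder0
    rw [← hg] at hgder hginv hgleft
    have hgζ : g ((Q n).eval ζ) = ζ := hgleft.self_of_nhds
    -- the path
    set γ : ℝ → ℂ := fun t => (Q n).eval ζ + κ * (t : ℂ) with hγ
    have hγ0 : γ 0 = (Q n).eval ζ := by simp [hγ]
    have hγd : HasDerivAt γ κ 0 := by
      have h1 : HasDerivAt (fun t : ℝ => (t : ℂ)) 1 (0 : ℝ) := Complex.ofRealCLM.hasDerivAt
      have h2 := (h1.const_mul κ).const_add ((Q n).eval ζ)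
      simpa [hγ] using h2
    have hgγ : HasDerivAt (fun t => g (γ t)) (((Q n).derivative.eval ζ)⁻¹ * κ) 0 := by
      have h1 : HasDerivAt g ((Q n).derivative.eval ζ)⁻¹ (γ 0) := by
        rw [hγ0]; exact hgder.hasDerivAt
      exact h1.comp_of_eq 0 hγd rfl
    have hval : ((Q n).derivative.eval ζ)⁻¹ * κ = (c₀ : ℂ)⁻¹ * L⁻¹ := by
      rw [hder']
      field_simp
    rw [hval] at hgγ
    have hre : HasDerivAt (fun t => (g (γ t)).re) (((c₀ : ℂ)⁻¹ * L⁻¹).re) 0 := by
      exact (Complex.reCLM.hasFDerivAt (x := g (γ 0))).comp_hasDerivAt 0 hgγ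
    have hneg : ((c₀ : ℂ)⁻¹ * L⁻¹).re < 0 := by
      have h1 : ((c₀ : ℂ)⁻¹ * L⁻¹) = ((c₀⁻¹ : ℝ) : ℂ) * L⁻¹ := by push_cast; rfl
      rw [h1, Complex.re_ofReal_mul, Complex.inv_re]
      have h2 : L.re / Complex.normSq L < 0 :=
        div_neg_of_neg_of_pos hLre (Complex.normSq_pos.2 hL0)
      exact mul_neg_of_pos_of_neg (inv_pos.2 hc₀) h2
    have hslope := hasDerivAt_iff_tendsto_slope.1 hre
    have hev1 : ∀ᶠ t in 𝓝[≠] (0 : ℝ), slope (fun t => (g (γ t)).re) 0 t < 0 :=
      hslope.eventually (gt_mem_nhds hneg)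
    have hγcont : ContinuousAt γ 0 := hγd.continuousAt
    have hev2 : ∀ᶠ t in 𝓝 (0 : ℝ), (Q n).eval (g (γ t)) = γ t := by
      have h1 : ∀ᶠ w in 𝓝 (γ 0), (Q n).eval (g w) = w := by rw [hγ0]; exact hginv
      exact hγcont.eventually h1
    have hev3 : ∀ᶠ t in 𝓝 (0 : ℝ), (g (γ t)).re < 2 * n - 1 / 2 := by
      have h1 : ContinuousAt (fun t => (g (γ t)).re) 0 := hre.continuousAt
      apply h1.eventually (gt_mem_nhds ?_)
      show (g (γ 0)).re < 2 * n - 1 / 2
      rw [hγ0, hgζ, hζre]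
      linarith
    have hev4 : ∀ᶠ t in 𝓝 (0 : ℝ), cn < c₀ + t := by
      have h1 : ContinuousAt (fun t : ℝ => c₀ + t) 0 := by fun_prop
      apply h1.eventually (lt_mem_nhds ?_)
      show cn < c₀ + 0
      rw [add_zero]; exact hlt
    have hneg' : 𝓝[<] (0 : ℝ) ≤ 𝓝[≠] 0 := nhdsWithin_mono _ fun t ht => ne_of_lt ht
    obtain ⟨t, ht1, ht2, ht3, ht4, ht5⟩ :=
      ((hev1.filter_mono hneg').and ((hev2.filter_mono nhdsWithin_le_nhds).and
        ((hev3.filter_mono nhdsWithin_le_nhds).and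
          ((hev4.filter_mono nhdsWithin_le_nhds).and
            (self_mem_nhdsWithin : Set.Iio (0 : ℝ) ∈ 𝓝[<] (0 : ℝ)))))).exists
    have ht0 : t < 0 := ht5
    apply hfree (c₀ + t) ht4.le (g (γ t))
    · rw [eval_D, ht2, hγ]
      simp only
      rw [hQζ, hκ]
      push_cast; ring
    · refine ⟨?_, ht3⟩
      rw [slope_def_field, sub_zero] at ht1
      have h1 : 0 < (g (γ t)).re - (g (γ 0)).re := by
        by_contra hle
        push Not at hle
        have : 0 ≤ ((g (γ t)).re - (g (γ 0)).re) / t := div_nonneg_of_nonpos hle ht0.le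
        linarith
      rw [hγ0, hgζ, hζre] at h1
      linarith

end Pool.Agent.H181.Cn
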