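import Mathlib

/-!
# Analytic estimates for MP_74ce82_an (`n ≥ 4`)
-/

open Finset Complex

namespace Pool.Agent.H181.Cn

/-- `log (y + i a)` for `y > 0`. -/
noncomputable def lam (y a : ℝ) : ℂ :=
  ((1 / 2 * Real.log (y ^ 2 + a ^ 2) : ℝ) : ℂ) + ((Real.arctan (a / y) : ℝ) : ℂ) * I

lemma lam_re (y a : ℝ) : (lam y a).re = 1 / 2 * Real.log (y ^ 2 + a ^ 2) := by
  rw [lam, Complex.add_re, Complex.ofReal_re, Complex.re_ofReal_mul, Complex.I_re, mul_zero,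
    add_zero]

lemma lam_im (y a : ℝ) : (lam y a).im = Real.arctan (a / y) := by
  rw [lam, Complex.add_im, Complex.ofReal_im, Complex.im_ofReal_mul, Complex.I_im, mul_one,
    zero_add]

lemma sqrt_eq {y : ℝ} (hy : 0 < y) (a : ℝ) :
    Real.sqrt (y ^ 2 + a ^ 2) = y * Real.sqrt (1 + (a / y) ^ 2) := by
  have : y ^ 2 + a ^ 2 = y ^ 2 * (1 + (a / y) ^ 2) := by field_simp
  rw [this, Real.sqrt_mul (by positivity), Real.sqrt_sq hy.le]

lemma exp_lam {y : ℝ} (hy : 0 < y) (a : ℝ) : Complex.exp (lam y a) = (y : ℂ) + I * a := by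
  have hpos : 0 < y ^ 2 + a ^ 2 := by positivity
  have h1 : Real.exp (1 / 2 * Real.log (y ^ 2 + a ^ 2)) = y * Real.sqrt (1 + (a / y) ^ 2) := by
    rw [← sqrt_eq hy, Real.sqrt_eq_rpow, Real.rpow_def_of_pos hpos, mul_comm]
  have hs : Real.sqrt (1 + (a / y) ^ 2) ≠ 0 := by positivity
  rw [lam, Complex.exp_add, Complex.exp_mul_I, ← Complex.ofReal_exp, h1, ← Complex.ofReal_cos,
    ← Complex.ofReal_sin, Real.cos_arctan, Real.sin_arctan]
  apply Complex.ext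
  · simp
    field_simp
  · simp
    field_simp

lemma pair {y n b : ℝ} (hy : 0 < y) (hb : 0 ≤ b) (hbn : b < n) :
    lam y (n + b) + lam y (n - b) =
      2 * lam y n + Complex.log (1 + (b : ℂ) ^ 2 / ((y : ℂ) + I * n) ^ 2) := by
  set z : ℂ := (y : ℂ) + I * n with hz
  have hn : 0 < n := lt_of_le_of_lt hb hbn
  have hznorm : ‖z‖ ^ 2 = y ^ 2 + n ^ 2 := by
    have : z = ((y : ℝ) : ℂ) + ((n : ℝ) : ℂ) * I := by rw [hz]; ring
    rw [this, Complex.norm_add_mul_I, Real.sq_sqrt (by positivity)]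
  have hz0 : z ≠ 0 := by
    intro h; rw [h] at hznorm; simp at hznorm; nlinarith
  set w : ℂ := (b : ℂ) ^ 2 / z ^ 2 with hw
  have hwnorm : ‖w‖ < 1 := by
    rw [hw, norm_div, norm_pow, norm_pow, hznorm, Complex.norm_real, Real.norm_eq_abs, sq_abs,
      div_lt_one (by positivity)]
    nlinarith
  have hre : 0 < (1 + w).re := by
    have h1 := Complex.abs_re_le_norm w
    rw [Complex.add_re, Complex.one_re]
    have := (abs_le.1 h1).1
    linarith
  have h1w : 1 + w ≠ 0 := by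
    intro h; rw [h] at hre; simp at hre
  set Δ : ℂ := lam y (n + b) + lam y (n - b) - 2 * lam y n - Complex.log (1 + w) with hΔ
  have hexp : Complex.exp Δ = 1 := by
    rw [hΔ, Complex.exp_sub, Complex.exp_sub, Complex.exp_add, exp_lam hy, exp_lam hy,
      Complex.exp_log h1w, two_mul, Complex.exp_add, exp_lam hy, ← hz]
    have h2 : ((y : ℂ) + I * ((n + b : ℝ) : ℂ)) * ((y : ℂ) + I * ((n - b : ℝ) : ℂ))
        = z * z * (1 + w) := by
      have h3 : z * z * (1 + w) = z * z + (b : ℂ) ^ 2 := by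
        rw [hw]; field_simp
      rw [h3, hz]
      push_cast
      have hI : I * I = -1 := Complex.I_mul_I
      linear_combination (-(b : ℂ) ^ 2) * hI
    rw [h2]
    field_simp
  obtain ⟨k, hk⟩ := Complex.exp_eq_one_iff.1 hexp
  have him : Δ.im = 2 * Real.pi * k := by
    rw [hk]; simp; ring
  have hπ := Real.pi_pos
  have a1 : 0 < Real.arctan ((n + b) / y) := Real.arctan_pos.2 (by positivity)
  have a1' := Real.arctan_lt_pi_div_two ((n + b) / y)
  have a2 : 0 < Real.arctan ((n - b) / y) := Real.arctan_pos.2 (div_pos (by linarith) hy)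
  have a2' := Real.arctan_lt_pi_div_two ((n - b) / y)
  have a3 : 0 < Real.arctan (n / y) := Real.arctan_pos.2 (by positivity)
  have a3' := Real.arctan_lt_pi_div_two (n / y)
  have a4 : |Complex.arg (1 + w)| ≤ Real.pi / 2 := Complex.abs_arg_le_pi_div_two_iff.2 hre.le
  have him' : Δ.im = Real.arctan ((n + b) / y) + Real.arctan ((n - b) / y)
      - 2 * Real.arctan (n / y) - Complex.arg (1 + w) := by
    rw [hΔ, Complex.sub_im, Complex.sub_im, Complex.add_im, lam_im, lam_im, Complex.log_im]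
    have : (2 * lam y n).im = 2 * Real.arctan (n / y) := by
      rw [Complex.mul_im, lam_im]; simp
    rw [this]
  rw [abs_le] at a4
  have hk0 : k = 0 := by
    have h1 : (2 * Real.pi * k : ℝ) < 2 * Real.pi * 1 := by
      rw [← him, him']; linarith [a4.1]
    have h2 : (2 * Real.pi * (-1) : ℝ) < 2 * Real.pi * k := by
      rw [← him, him']; linarith [a4.2]
    have h3 : (k : ℝ) < 1 := lt_of_mul_lt_mul_left h1 (by positivity)
    have h4 : (-1 : ℝ) < k := lt_of_mul_lt_mul_left h2 (by positivity)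
    have h5 : k < 1 := by exact_mod_cast h3
    have h6 : -1 < k := by exact_mod_cast h4
    omega
  rw [hk0] at hk
  simp only [Int.cast_zero, zero_mul] at hk
  rw [hΔ] at hk
  linear_combination hk

/-- `δ = (1/(2n)) ∑_{l<n} log (1 + (l+1/2)^2/z^2)`. -/
noncomputable def delta (y : ℝ) (n : ℕ) : ℂ :=
  (1 / (2 * n)) * ∑ l ∈ range n,
    Complex.log (1 + ((((l : ℝ) + 1 / 2 : ℝ)) : ℂ) ^ 2 / ((y : ℂ) + I * (n : ℝ)) ^ 2)

lemma sum_lam {y : ℝ} (hy : 0 < y) (n : ℕ) (hn : 1 ≤ n) :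
    ∑ j ∈ range (2 * n), lam y ((j : ℝ) + 1 / 2) = 2 * n * (lam y n + delta y n) := by
  rw [two_mul, Finset.sum_range_add]
  have h1 : ∑ j ∈ range n, lam y ((j : ℝ) + 1 / 2)
      = ∑ l ∈ range n, lam y ((n : ℝ) - ((l : ℝ) + 1 / 2)) := by
    rw [← Finset.sum_range_reflect]
    apply Finset.sum_congr rfl
    intro j hj
    rw [Finset.mem_range] at hj
    congr 1
    rw [Nat.cast_sub (by omega), Nat.cast_sub (by omega)]
    push_cast; ring
  have h2 : ∑ j ∈ range n, lam y (((n + j : ℕ) : ℝ) + 1 / 2)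
      = ∑ l ∈ range n, lam y ((n : ℝ) + ((l : ℝ) + 1 / 2)) := by
    apply Finset.sum_congr rfl
    intro j _
    congr 1
    push_cast; ring
  rw [h1, h2, add_comm, ← Finset.sum_add_distrib]
  have h3 : ∀ l ∈ range n, lam y ((n : ℝ) + ((l : ℝ) + 1 / 2)) + lam y ((n : ℝ) - ((l : ℝ) + 1 / 2))
      = 2 * lam y n +
        Complex.log (1 + ((((l : ℝ) + 1 / 2 : ℝ)) : ℂ) ^ 2 / ((y : ℂ) + I * (n : ℝ)) ^ 2) := by
    intro l hl
    rw [Finset.mem_range] at hl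
    apply pair hy (by positivity)
    have : ((l : ℝ) + 1) ≤ n := by exact_mod_cast hl
    linarith
  rw [Finset.sum_congr rfl h3, Finset.sum_add_distrib, Finset.sum_const, Finset.card_range, delta]
  have hn0 : (n : ℂ) ≠ 0 := by exact_mod_cast (by omega : n ≠ 0)
  rw [nsmul_eq_mul]
  generalize (∑ l ∈ range n,
    Complex.log (1 + ((((l : ℝ) + 1 / 2 : ℝ)) : ℂ) ^ 2 / ((y : ℂ) + I * (n : ℝ)) ^ 2)) = T
  field_simp

lemma sum2 (n : ℕ) : ∑ l ∈ range n, ((l : ℝ) + 1 / 2) ^ 2 = (n : ℝ) * (4 * (n : ℝ) ^ 2 - 1) / 12 := by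
  induction n with
  | zero => simp
  | succ n ih => rw [Finset.sum_range_succ, ih]; push_cast; ring

lemma sum4 (n : ℕ) :
    ∑ l ∈ range n, ((l : ℝ) + 1 / 2) ^ 4 = (n : ℝ) * (48 * (n : ℝ) ^ 4 - 40 * (n : ℝ) ^ 2 + 7) / 240 := by
  induction n with
  | zero => simp
  | succ n ih => rw [Finset.sum_range_succ, ih]; push_cast; ring

lemma sum6 (n : ℕ) : ∑ l ∈ range n, ((l : ℝ) + 1 / 2) ^ 6 ≤ (n : ℝ) ^ 7 / 7 := by
  induction n with
  | zero => simp
  | succ n ih =>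
    rw [Finset.sum_range_succ]; push_cast
    have hn : (0 : ℝ) ≤ n := Nat.cast_nonneg n
    have : ((n : ℝ) + 1) ^ 7 / 7 - n ^ 7 / 7 - (n + 1 / 2) ^ 6 =
        5 / 4 * n ^ 4 + 5 / 2 * n ^ 3 + 33 / 16 * n ^ 2 + 13 / 16 * n + 57 / 448 := by ring
    have : 0 ≤ 5 / 4 * (n : ℝ) ^ 4 + 5 / 2 * n ^ 3 + 33 / 16 * n ^ 2 + 13 / 16 * n + 57 / 448 := by
      positivity
    linarith

/-- First and second moments. -/
lemma delta_approx {y : ℝ} (hy : 0 < y) (n : ℕ) (hn : 1 ≤ n) (u ε : ℝ)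
    (hu : u = n ^ 2 / (y ^ 2 + n ^ 2)) (hε : ε = 1 / (n : ℝ) ^ 2) (σ : ℂ)
    (hσ : σ = (n : ℂ) ^ 2 / ((y : ℂ) + I * (n : ℝ)) ^ 2) :
    ‖delta y n - (1 / 2) * ((1 / 3 - ε / 12 : ℝ) * σ
      - (1 / 2) * ((1 / 5 - ε / 6 + 7 * ε ^ 2 / 240 : ℝ)) * σ ^ 2)‖ ≤ u ^ 3 / (42 * (1 - u)) := by
  have hnR : (1 : ℝ) ≤ n := by exact_mod_cast hn
  have hn0 : (n : ℝ) ≠ 0 := by positivity
  have hn0C : (n : ℂ) ≠ 0 := by exact_mod_cast (by omega : n ≠ 0)
  set z : ℂ := (y : ℂ) + I * (n : ℝ) with hz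
  have hznorm : ‖z‖ ^ 2 = y ^ 2 + n ^ 2 := by
    have : z = ((y : ℝ) : ℂ) + ((n : ℝ) : ℂ) * I := by rw [hz]; ring
    rw [this, Complex.norm_add_mul_I, Real.sq_sqrt (by positivity)]
  have hσnorm : ‖σ‖ = u := by
    rw [hσ, norm_div, norm_pow, norm_pow, hznorm, Complex.norm_natCast, hu]
  have hu0 : 0 < u := by rw [hu]; positivity
  have hu1 : u < 1 := by
    rw [hu, div_lt_one (by positivity)]; nlinarith
  set q : ℕ → ℝ := fun l => (((l : ℝ) + 1 / 2) / n) ^ 2 with hq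
  have hq0 : ∀ l, 0 ≤ q l := fun l => by positivity
  have hq1 : ∀ l ∈ range n, q l ≤ 1 := by
    intro l hl
    rw [Finset.mem_range] at hl
    have h1 : ((l : ℝ) + 1) ≤ n := by exact_mod_cast hl
    have h2 : ((l : ℝ) + 1 / 2) / n ≤ 1 := by
      rw [div_le_one (by positivity)]; linarith
    have h3 : 0 ≤ ((l : ℝ) + 1 / 2) / n := by positivity
    exact pow_le_one₀ h3 h2
  have hw : ∀ l : ℕ, ((((l : ℝ) + 1 / 2 : ℝ)) : ℂ) ^ 2 / z ^ 2 = (q l : ℂ) * σ := by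
    intro l
    rw [hq, hσ]
    push_cast
    rw [div_pow]
    field_simp
  have hq_sum1 : ∑ l ∈ range n, q l = n * (1 / 3 - ε / 12) := by
    have : ∀ l ∈ range n, q l = ((l : ℝ) + 1 / 2) ^ 2 / n ^ 2 := fun l _ => by
      simp only [hq, div_pow]
    rw [Finset.sum_congr rfl this, ← Finset.sum_div, sum2, hε]
    field_simp; ring
  have hq_sum2 : ∑ l ∈ range n, q l ^ 2 = n * (1 / 5 - ε / 6 + 7 * ε ^ 2 / 240) := by
    have : ∀ l ∈ range n, q l ^ 2 = ((l : ℝ) + 1 / 2) ^ 4 / n ^ 4 := fun l _ => by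
      simp only [hq, div_pow]; ring
    rw [Finset.sum_congr rfl this, ← Finset.sum_div, sum4, hε]
    field_simp; ring
  have hq_sum3 : ∑ l ∈ range n, q l ^ 3 ≤ n / 7 := by
    have : ∀ l ∈ range n, q l ^ 3 = ((l : ℝ) + 1 / 2) ^ 6 / n ^ 6 := fun l _ => by
      simp only [hq, div_pow]; ring
    rw [Finset.sum_congr rfl this, ← Finset.sum_div]
    rw [div_le_iff₀ (by positivity)]
    refine (sum6 n).trans (le_of_eq ?_)
    ring
  have hterm : ∀ l ∈ range n, ‖Complex.log (1 + (q l : ℂ) * σ)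
      - ((q l : ℂ) * σ - ((q l : ℂ) * σ) ^ 2 / 2)‖ ≤ q l ^ 3 * (u ^ 3 / (3 * (1 - u))) := by
    intro l hl
    have hwn : ‖(q l : ℂ) * σ‖ = q l * u := by
      rw [norm_mul, Complex.norm_real, Real.norm_eq_abs, abs_of_nonneg (hq0 l), hσnorm]
    have hle : q l * u ≤ u := by
      have := mul_le_mul_of_nonneg_right (hq1 l hl) hu0.le
      linarith
    have hlt : ‖(q l : ℂ) * σ‖ < 1 := by rw [hwn]; linarith
    have h1 := Complex.norm_log_sub_logTaylor_le 2 hlt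
    have h2 : Complex.logTaylor (2 + 1) ((q l : ℂ) * σ)
        = (q l : ℂ) * σ - ((q l : ℂ) * σ) ^ 2 / 2 := by
      simp only [Complex.logTaylor, Finset.sum_range_succ, Finset.sum_range_zero]
      push_cast; ring
    rw [h2, hwn] at h1
    refine h1.trans ?_
    have h3 : (1 - q l * u)⁻¹ ≤ (1 - u)⁻¹ := inv_anti₀ (by linarith) (by linarith)
    have h4 : (q l * u) ^ (2 + 1) * (1 - q l * u)⁻¹ / ((2 : ℕ) + 1 : ℝ)
        ≤ (q l * u) ^ (2 + 1) * (1 - u)⁻¹ / ((2 : ℕ) + 1 : ℝ) := by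
      have := hq0 l
      gcongr
    refine h4.trans (le_of_eq ?_)
    have : 1 - u ≠ 0 := by linarith
    push_cast
    field_simp
    ring
  have hδ : delta y n - (1 / 2) * ((1 / 3 - ε / 12 : ℝ) * σ
      - (1 / 2) * ((1 / 5 - ε / 6 + 7 * ε ^ 2 / 240 : ℝ)) * σ ^ 2)
      = (1 / (2 * n)) * ∑ l ∈ range n, (Complex.log (1 + (q l : ℂ) * σ)
      - ((q l : ℂ) * σ - ((q l : ℂ) * σ) ^ 2 / 2)) := by
    have e1 : ((1 / 3 - ε / 12 : ℝ) : ℂ) = (1 / n) * ∑ l ∈ range n, (q l : ℂ) := by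
      rw [← Complex.ofReal_sum, hq_sum1]; push_cast; field_simp
    have e2 : ((1 / 5 - ε / 6 + 7 * ε ^ 2 / 240 : ℝ) : ℂ) = (1 / n) * ∑ l ∈ range n, (q l : ℂ) ^ 2 := by
      have : ∑ l ∈ range n, (q l : ℂ) ^ 2 = ((∑ l ∈ range n, q l ^ 2 : ℝ) : ℂ) := by push_cast; rfl
      rw [this, hq_sum2]; push_cast; field_simp
    rw [e1, e2, Finset.sum_sub_distrib, Finset.sum_sub_distrib, delta, ← hz]
    have e3 : ∑ l ∈ range n, Complex.log (1 + ((((l : ℝ) + 1 / 2 : ℝ)) : ℂ) ^ 2 / z ^ 2)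
        = ∑ l ∈ range n, Complex.log (1 + (q l : ℂ) * σ) :=
      Finset.sum_congr rfl fun l _ => by rw [hw]
    have e4 : ∑ l ∈ range n, ((q l : ℂ) * σ) = (∑ l ∈ range n, (q l : ℂ)) * σ := by
      rw [Finset.sum_mul]
    have e5 : ∑ l ∈ range n, (((q l : ℂ) * σ) ^ 2 / 2) = (∑ l ∈ range n, (q l : ℂ) ^ 2) * σ ^ 2 / 2 := by
      rw [Finset.sum_mul, Finset.sum_div]
      exact Finset.sum_congr rfl fun l _ => by ring
    rw [e3, e4, e5]
    generalize (∑ l ∈ range n, Complex.log (1 + (q l : ℂ) * σ)) = T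
    generalize (∑ l ∈ range n, (q l : ℂ)) = T1
    generalize (∑ l ∈ range n, (q l : ℂ) ^ 2) = T2
    field_simp
  rw [hδ, norm_mul]
  have h1 : ‖(1 / (2 * (n : ℂ)))‖ = 1 / (2 * n) := by
    rw [norm_div, norm_mul, Complex.norm_natCast]; simp
  rw [h1]
  have h2 : ‖∑ l ∈ range n, (Complex.log (1 + (q l : ℂ) * σ)
      - ((q l : ℂ) * σ - ((q l : ℂ) * σ) ^ 2 / 2))‖ ≤ (n / 7) * (u ^ 3 / (3 * (1 - u))) := by
    refine (norm_sum_le _ _).trans ((Finset.sum_le_sum hterm).trans ?_)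
    rw [← Finset.sum_mul]
    have : 0 ≤ u ^ 3 / (3 * (1 - u)) := by
      have : 0 < 1 - u := by linarith
      positivity
    exact mul_le_mul_of_nonneg_right hq_sum3 this
  calc 1 / (2 * (n : ℝ)) * _ ≤ 1 / (2 * n) * ((n / 7) * (u ^ 3 / (3 * (1 - u)))) := by gcongr
    _ = u ^ 3 / (42 * (1 - u)) := by
      have : 1 - u ≠ 0 := by linarith
      field_simp
      ring

end Pool.Agent.H181.Cn
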