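import Mathlib
import Pool.Agent.H181.CnA
import Pool.Agent.H181.CnB

/-!
# Estimates for MP_74ce82_an (`n ≥ 4`), continued
-/

open Finset Complex

namespace Pool.Agent.H181.Cn

/-! ### Real variable inequalities -/

lemma arctan_ge {x : ℝ} (hx : 0 ≤ x) : x - x ^ 3 / 3 ≤ Real.arctan x := by
  have hder : ∀ x : ℝ, HasDerivAt (fun x : ℝ => Real.arctan x - (x - x ^ 3 / 3))
      (1 / (1 + x ^ 2) - (1 - x ^ 2)) x := by
    intro x
    have h1 := Real.hasDerivAt_arctan x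
    have h2 : HasDerivAt (fun x : ℝ => x - x ^ 3 / 3) (1 - x ^ 2) x := by
      have h3 := (hasDerivAt_id' x).sub ((hasDerivAt_pow 3 x).div_const 3)
      refine HasDerivAt.congr_deriv h3 ?_
      push_cast
      ring
    exact h1.sub h2
  have hmono : MonotoneOn (fun x : ℝ => Real.arctan x - (x - x ^ 3 / 3)) (Set.Ici 0) := by
    apply monotoneOn_of_deriv_nonneg (convex_Ici 0)
    · exact fun x _ => (hder x).continuousAt.continuousWithinAt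
    · exact fun x _ => (hder x).differentiableAt.differentiableWithinAt
    · intro x _
      rw [(hder x).deriv]
      have h : 1 / (1 + x ^ 2) - (1 - x ^ 2) = x ^ 4 / (1 + x ^ 2) := by
        have : (1 + x ^ 2) ≠ 0 := by positivity
        field_simp
        ring
      rw [h]; positivity
  have := hmono (Set.self_mem_Ici) (Set.mem_Ici.2 hx) hx
  simp only [Real.arctan_zero] at this
  linarith

lemma arctan_lt {x : ℝ} (hx : 0 < x) : Real.arctan x < x := by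
  have h1 := Real.lt_tan (Real.arctan_pos.2 hx) (Real.arctan_lt_pi_div_two x)
  rwa [Real.tan_arctan] at h1

lemma psi_ge {x : ℝ} (hx : 0 ≤ x) (hx2 : x ≤ Real.pi / 2) :
    Real.sin x + Real.sin x ^ 3 / 6 + 3 * Real.sin x ^ 5 / 40 ≤ x := by
  have hder : ∀ x : ℝ, HasDerivAt
      (fun x : ℝ => x - (Real.sin x + Real.sin x ^ 3 / 6 + 3 * Real.sin x ^ 5 / 40))
      (1 - Real.cos x * (1 + Real.sin x ^ 2 / 2 + 3 * Real.sin x ^ 4 / 8)) x := by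
    intro x
    have h1 := Real.hasDerivAt_sin x
    have h2 : HasDerivAt
      (fun x : ℝ => x - (Real.sin x + Real.sin x ^ 3 / 6 + 3 * Real.sin x ^ 5 / 40)) _ x :=
      (hasDerivAt_id' x).sub
        ((h1.add ((h1.pow 3).div_const 6)).add (((h1.pow 5).const_mul 3).div_const 40))
    refine HasDerivAt.congr_deriv h2 ?_
    push_cast
    ring
  have hmono : MonotoneOn
      (fun x : ℝ => x - (Real.sin x + Real.sin x ^ 3 / 6 + 3 * Real.sin x ^ 5 / 40))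
      (Set.Icc 0 (Real.pi / 2)) := by
    apply monotoneOn_of_deriv_nonneg (convex_Icc _ _)
    · exact fun x _ => (hder x).continuousAt.continuousWithinAt
    · exact fun x _ => (hder x).differentiableAt.differentiableWithinAt
    · intro x hx
      rw [interior_Icc] at hx
      rw [(hder x).deriv]
      have hc : 0 ≤ Real.cos x :=
        Real.cos_nonneg_of_mem_Icc ⟨by linarith [hx.1, Real.pi_pos], hx.2.le⟩
      have hsc := Real.sin_sq_add_cos_sq x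
      set v := Real.sin x ^ 2 with hv
      have hv0 : 0 ≤ v := by positivity
      have h4 : Real.sin x ^ 4 = v ^ 2 := by rw [hv]; ring
      rw [h4]
      have h5 : (Real.cos x * (1 + v / 2 + 3 * v ^ 2 / 8)) ^ 2 ≤ 1 ^ 2 := by
        have : (Real.cos x * (1 + v / 2 + 3 * v ^ 2 / 8)) ^ 2
            = 1 - (5 / 8 * v ^ 3 + 15 / 64 * v ^ 4 + 9 / 64 * v ^ 5) := by
          have hcc : Real.cos x ^ 2 = 1 - v := by linarith
          rw [mul_pow, hcc]; ring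
        rw [this]
        have : 0 ≤ 5 / 8 * v ^ 3 + 15 / 64 * v ^ 4 + 9 / 64 * v ^ 5 := by positivity
        linarith
      have h6 := abs_le.1 (abs_le_of_sq_le_sq h5 zero_le_one)
      linarith [h6.2]
  have h0 : (0 : ℝ) ∈ Set.Icc 0 (Real.pi / 2) := ⟨le_rfl, by positivity⟩
  have := hmono h0 ⟨hx, hx2⟩ hx
  simp only [Real.sin_zero] at this
  norm_num at this
  linarith

/-! ### The main term -/

/-- The two-term approximation of `δ`. -/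
noncomputable def X (ε : ℝ) (σ : ℂ) : ℂ :=
  (1 / 2) * ((1 / 3 - ε / 12 : ℝ) * σ
      - (1 / 2) * ((1 / 5 - ε / 6 + 7 * ε ^ 2 / 240 : ℝ)) * σ ^ 2)

lemma X_eq (S C ε : ℝ) (h1 : S ^ 2 + C ^ 2 = 1) :
    X ε (((S ^ 2 : ℝ) : ℂ) * ((C : ℂ) - I * S) ^ 2) =
      ((1 / 2 * (1 / 3 - ε / 12) * S ^ 2 * (1 - 2 * S ^ 2)
        - 1 / 4 * (1 / 5 - ε / 6 + 7 * ε ^ 2 / 240) * S ^ 4 * (1 - 8 * S ^ 2 + 8 * S ^ 4) : ℝ) : ℂ)
      + ((-(1 / 3 - ε / 12) * S ^ 2 * (S * C)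
        + (1 / 5 - ε / 6 + 7 * ε ^ 2 / 240) * S ^ 4 * (S * C) * (1 - 2 * S ^ 2) : ℝ) : ℂ) * I := by
  have hI : I ^ 2 = -1 := Complex.I_sq
  have h1' : (S : ℂ) ^ 2 + (C : ℂ) ^ 2 = 1 := by exact_mod_cast h1
  have hC : (C : ℂ) ^ 2 = 1 - (S : ℂ) ^ 2 := by linear_combination h1'
  have e1 : ((C : ℂ) - I * S) ^ 2 = (1 - 2 * (S : ℂ) ^ 2) - 2 * I * (S * C) := by
    linear_combination (S : ℂ) ^ 2 * hI + hC
  have e2 : (((1 : ℂ) - 2 * (S : ℂ) ^ 2) - 2 * I * (S * C)) ^ 2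
      = (1 - 8 * (S : ℂ) ^ 2 + 8 * (S : ℂ) ^ 4) - 4 * I * (S * C) * (1 - 2 * (S : ℂ) ^ 2) := by
    linear_combination (4 * (S : ℂ) ^ 2 * (C : ℂ) ^ 2) * hI - 4 * (S : ℂ) ^ 2 * hC
  rw [X, mul_pow, e1, e2]
  push_cast
  ring

lemma X_re (S C ε : ℝ) (h1 : S ^ 2 + C ^ 2 = 1) :
    (X ε (((S ^ 2 : ℝ) : ℂ) * ((C : ℂ) - I * S) ^ 2)).re =
      1 / 2 * (1 / 3 - ε / 12) * S ^ 2 * (1 - 2 * S ^ 2)
        - 1 / 4 * (1 / 5 - ε / 6 + 7 * ε ^ 2 / 240) * S ^ 4 * (1 - 8 * S ^ 2 + 8 * S ^ 4) := by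
  rw [X_eq S C ε h1, Complex.add_re, Complex.ofReal_re, Complex.re_ofReal_mul, Complex.I_re,
    mul_zero, add_zero]

lemma X_im (S C ε : ℝ) (h1 : S ^ 2 + C ^ 2 = 1) :
    (X ε (((S ^ 2 : ℝ) : ℂ) * ((C : ℂ) - I * S) ^ 2)).im =
      -(1 / 3 - ε / 12) * S ^ 2 * (S * C)
        + (1 / 5 - ε / 6 + 7 * ε ^ 2 / 240) * S ^ 4 * (S * C) * (1 - 2 * S ^ 2) := by
  rw [X_eq S C ε h1, Complex.add_im, Complex.ofReal_im, Complex.im_ofReal_mul, Complex.I_im,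
    mul_one, zero_add]

lemma X_mul_im (S C ε : ℝ) (h1 : S ^ 2 + C ^ 2 = 1) :
    (X ε (((S ^ 2 : ℝ) : ℂ) * ((C : ℂ) - I * S) ^ 2) * ((C : ℂ) + I * S)).im =
      -(1 / 2) * (1 / 3 - ε / 12) * S ^ 3
        + 1 / 4 * (1 / 5 - ε / 6 + 7 * ε ^ 2 / 240) * S ^ 5 * (3 - 4 * S ^ 2) := by
  have h2 : ((C : ℂ) + I * S).re = C := by simp
  have h3 : ((C : ℂ) + I * S).im = S := by simp
  rw [Complex.mul_im, h2, h3, X_re S C ε h1, X_im S C ε h1]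
  have hC : C ^ 2 = 1 - S ^ 2 := by linarith
  linear_combination (-(1 / 3 - ε / 12) * S ^ 3
    + (1 / 5 - ε / 6 + 7 * ε ^ 2 / 240) * S ^ 5 * (1 - 2 * S ^ 2)) * hC

/-! ### The lower bound -/

lemma final_poly {u ε : ℝ} (hu0 : 0 < u) (hu1 : u ≤ 17385 / 100000) (hε0 : 0 ≤ ε)
    (hε1 : ε ≤ 1 / 16) :
    1 < (1 + (u / 6 - ε * u / 24 - 23 / 60 * u ^ 2 + 3 / 10 * u ^ 3)
        + (u / 6 - ε * u / 24 - 23 / 60 * u ^ 2 + 3 / 10 * u ^ 3) ^ 2 / 2)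
      * (1 + (-u / 6 + ε * u / 12 + (4296 / 10000 - 20834 / 100000 * ε) * u ^ 2
        - 46334 / 100000 * u ^ 3)) := by
  have key : (1 + (u / 6 - ε * u / 24 - 23 / 60 * u ^ 2 + 3 / 10 * u ^ 3)
        + (u / 6 - ε * u / 24 - 23 / 60 * u ^ 2 + 3 / 10 * u ^ 3) ^ 2 / 2)
      * (1 + (-u / 6 + ε * u / 12 + (4296 / 10000 - 20834 / 100000 * ε) * u ^ 2
        - 46334 / 100000 * u ^ 3)) =
      1 + (u * ε) * ((1/24) + (-87503/450000) * u ^ 1 + (-1/384) * (u ^ 1 * ε ^ 1) + (-89479/1350000) * u ^ 2 + (171881/21600000) * (u ^ 2 * ε ^ 1) + (1/13824) * (u ^ 2 * ε ^ 2) + (440129/4500000) * u ^ 3 + (8507/2700000) * (u ^ 3 * ε ^ 1) + (-10417/57600000) * (u ^ 3 * ε ^ 2) + (-577571/21600000) * u ^ 4 + (-1374199/288000000) * (u ^ 4 * ε ^ 1) + (-8654059/180000000) * u ^ 5 + (10417/4000000) * (u ^ 5 * ε ^ 1) + (670017/20000000) * u ^ 6 + (-93753/10000000) * u ^ 7)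
      + u ^ 2 * ((1457/45000) + (-63487/675000) * u ^ 1 + (-25619/168750) * u ^ 2 + (7399783/54000000) * u ^ 3 + (140591/18000000) * u ^ 4 + (-41080903/360000000) * u ^ 5 + (726161/10000000) * u ^ 6 + (-208503/10000000) * u ^ 7) := by
    ring
  have hp : ∀ k : ℕ, u ^ k ≤ (17385 / 100000) ^ k := fun k => pow_le_pow_left₀ hu0.le hu1 k
  have hp0 : ∀ k : ℕ, 0 ≤ u ^ k := fun k => by positivity
  have hpe0 : ∀ k j : ℕ, 0 ≤ u ^ k * ε ^ j := fun k j => by positivity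
  have hpe : ∀ k j : ℕ, u ^ k * ε ^ j ≤ (17385 / 100000) ^ k := fun k j =>
    (mul_le_of_le_one_right (hp0 k) (pow_le_one₀ hε0 (by linarith))).trans (hp k)
  have hA : 0 < ((1/24) + (-87503/450000) * u ^ 1 + (-1/384) * (u ^ 1 * ε ^ 1) + (-89479/1350000) * u ^ 2 + (171881/21600000) * (u ^ 2 * ε ^ 1) + (1/13824) * (u ^ 2 * ε ^ 2) + (440129/4500000) * u ^ 3 + (8507/2700000) * (u ^ 3 * ε ^ 1) + (-10417/57600000) * (u ^ 3 * ε ^ 2) + (-577571/21600000) * u ^ 4 + (-1374199/288000000) * (u ^ 4 * ε ^ 1) + (-8654059/180000000) * u ^ 5 + (10417/4000000) * (u ^ 5 * ε ^ 1) + (670017/20000000) * u ^ 6 + (-93753/10000000) * u ^ 7) := by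
    have a1 := hp 1; have a2 := hpe 1 1; have a3 := hp 2; have a4 := hpe 3 2; have a5 := hp 4
    have a6 := hpe 4 1; have a7 := hp 5; have a8 := hp 7
    have b1 := hpe0 2 1; have b2 := hpe0 2 2; have b3 := hp0 3; have b4 := hpe0 3 1
    have b5 := hpe0 5 1; have b6 := hp0 6
    norm_num at a1 a2 a3 a4 a5 a6 a7 a8 b1 b2 b3 b4 b5 b6 ⊢
    linarith
  have hB : 0 < ((1457/45000) + (-63487/675000) * u ^ 1 + (-25619/168750) * u ^ 2 + (7399783/54000000) * u ^ 3 + (140591/18000000) * u ^ 4 + (-41080903/360000000) * u ^ 5 + (726161/10000000) * u ^ 6 + (-208503/10000000) * u ^ 7) := by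
    have a1 := hp 1; have a3 := hp 2; have a7 := hp 5; have a8 := hp 7
    have b3 := hp0 3; have b4 := hp0 4; have b6 := hp0 6
    norm_num at a1 a3 a7 a8 b3 b4 b6 ⊢
    linarith
  rw [key]
  have h1 : 0 ≤ (u * ε) * ((1/24) + (-87503/450000) * u ^ 1 + (-1/384) * (u ^ 1 * ε ^ 1) + (-89479/1350000) * u ^ 2 + (171881/21600000) * (u ^ 2 * ε ^ 1) + (1/13824) * (u ^ 2 * ε ^ 2) + (440129/4500000) * u ^ 3 + (8507/2700000) * (u ^ 3 * ε ^ 1) + (-10417/57600000) * (u ^ 3 * ε ^ 2) + (-577571/21600000) * u ^ 4 + (-1374199/288000000) * (u ^ 4 * ε ^ 1) + (-8654059/180000000) * u ^ 5 + (10417/4000000) * (u ^ 5 * ε ^ 1) + (670017/20000000) * u ^ 6 + (-93753/10000000) * u ^ 7) :=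
    mul_nonneg (by positivity) hA.le
  have h2 := mul_pos (pow_pos hu0 2) hB
  linarith

lemma eta_le {S : ℝ} (hS : 0 < S) (hu : S ^ 2 ≤ 17385 / 100000) :
    (S ^ 2) ^ 3 / (42 * (1 - S ^ 2)) ≤ 2883 / 100000 * (S ^ 2) ^ 3 ∧
    (S ^ 2) ^ 3 / (42 * (1 - S ^ 2)) ≤ 1203 / 100000 * (S ^ 2) ^ 2 * S := by
  have h1 : (S ^ 2) ^ 3 / (42 * (1 - S ^ 2)) ≤ 2883 / 100000 * (S ^ 2) ^ 3 := by
    rw [div_le_iff₀ (by linarith)]
    have h2 : 0 < (S ^ 2) ^ 3 := by positivity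
    have h3 : 1 ≤ 2883 / 100000 * (42 * (1 - S ^ 2)) := by linarith
    have := mul_le_mul_of_nonneg_left h3 h2.le
    linarith
  refine ⟨h1, h1.trans ?_⟩
  have hS' : S ≤ 417 / 1000 := by
    by_contra h
    push Not at h
    nlinarith
  have h4 : 0 ≤ (S ^ 2) ^ 2 * S := by positivity
  have h5 : (S ^ 2) ^ 3 = ((S ^ 2) ^ 2 * S) * S := by ring
  rw [h5]
  nlinarith [mul_le_mul_of_nonneg_left hS' h4]

theorem lower (S C ε ψ : ℝ) (δ : ℂ) (hS : 0 < S) (hC : 0 < C) (h1 : S ^ 2 + C ^ 2 = 1)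
    (hu : S ^ 2 ≤ 17385 / 100000) (hε0 : 0 ≤ ε) (hε1 : ε ≤ 1 / 16)
    (hδ : ‖δ - X ε (((S ^ 2 : ℝ) : ℂ) * ((C : ℂ) - I * S) ^ 2)‖ ≤ (S ^ 2) ^ 3 / (42 * (1 - S ^ 2)))
    (hψ : S + S ^ 3 / 6 + 3 * S ^ 5 / 40 ≤ ψ) : S < Real.exp δ.re * (ψ + δ.im) := by
  obtain ⟨hη1, hη2⟩ := eta_le hS hu
  set Y := X ε (((S ^ 2 : ℝ) : ℂ) * ((C : ℂ) - I * S) ^ 2) with hY
  have hre : Y.re - (S ^ 2) ^ 3 / (42 * (1 - S ^ 2)) ≤ δ.re := by
    have := (abs_le.1 ((Complex.abs_re_le_norm (δ - Y)).trans hδ)).1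
    rw [Complex.sub_re] at this
    linarith
  have him : Y.im - (S ^ 2) ^ 3 / (42 * (1 - S ^ 2)) ≤ δ.im := by
    have := (abs_le.1 ((Complex.abs_im_le_norm (δ - Y)).trans hδ)).1
    rw [Complex.sub_im] at this
    linarith
  rw [hY, X_re S C ε h1] at hre
  rw [hY, X_im S C ε h1] at him
  have hS4 : S ^ 4 = (S ^ 2) ^ 2 := by ring
  have hS3 : S ^ 3 = S ^ 2 * S := by ring
  have hS5 : S ^ 5 = (S ^ 2) ^ 2 * S := by ring
  rw [hS4] at hre him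
  rw [hS3, hS5] at hψ
  have hu0 : 0 < S ^ 2 := by positivity
  set u := S ^ 2 with hudef
  have hC2 : C ^ 2 = 1 - u := by linarith
  -- real part
  have ht : u / 6 - ε * u / 24 - 23 / 60 * u ^ 2 + 3 / 10 * u ^ 3 ≤ δ.re := by
    refine le_trans ?_ hre
    have hb : 0 ≤ ε / 8 - 7 * ε ^ 2 / 960
        + 2 * (1 / 5 - ε / 6 + 7 * ε ^ 2 / 240) * u * (1 - u) - 32883 / 100000 * u := by
      have p1 : 0 ≤ ε * (1 / 16 - ε) := mul_nonneg hε0 (by linarith)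
      have p2 : 0 ≤ ε * (17385 / 100000 - u) := mul_nonneg hε0 (by linarith)
      have p3 : 0 ≤ u * (17385 / 100000 - u) := mul_nonneg hu0.le (by linarith)
      have p4 : 0 ≤ ε * u ^ 2 := by positivity
      have p5 : 0 ≤ ε ^ 2 * (u * (1 - u)) :=
        mul_nonneg (by positivity) (mul_nonneg hu0.le (by linarith))
      nlinarith
    have := mul_nonneg (sq_nonneg u) hb
    nlinarith
  have ht0 : 0 ≤ u / 6 - ε * u / 24 - 23 / 60 * u ^ 2 + 3 / 10 * u ^ 3 := by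
    have p1 : 0 ≤ u * (1 / 16 - ε) := mul_nonneg hu0.le (by linarith)
    have p3 : 0 ≤ u * (17385 / 100000 - u) := mul_nonneg hu0.le (by linarith)
    have p4 : 0 ≤ u ^ 3 := by positivity
    nlinarith
  have hexp : 1 + (u / 6 - ε * u / 24 - 23 / 60 * u ^ 2 + 3 / 10 * u ^ 3)
      + (u / 6 - ε * u / 24 - 23 / 60 * u ^ 2 + 3 / 10 * u ^ 3) ^ 2 / 2 ≤ Real.exp δ.re :=
    (Real.quadratic_le_exp_of_nonneg ht0).trans (Real.exp_le_exp.2 ht)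
  -- imaginary part
  have hCu : C ≤ 1 - u / 2 - u ^ 2 / 8 := by
    apply abs_le_of_sq_le_sq' _ _ |>.2
    · rw [hC2]
      have : 0 ≤ u ^ 3 / 8 + u ^ 4 / 64 := by positivity
      nlinarith
    · nlinarith
  have hCl : 1 - 525 / 1000 * u ≤ C := by
    have : |1 - 525 / 1000 * u| ≤ C := by
      apply abs_le_of_sq_le_sq _ hC.le
      rw [hC2]; nlinarith
    exact (le_abs_self _).trans this
  have hm : S * (1 + (-u / 6 + ε * u / 12 + (4296 / 10000 - 20834 / 100000 * ε) * u ^ 2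
        - 46334 / 100000 * u ^ 3)) ≤ ψ + δ.im := by
    have h2 : S * (1 + u / 6 + 3 * u ^ 2 / 40 - (1 / 3 - ε / 12) * u * C
        + (1 / 5 - ε / 6 + 7 * ε ^ 2 / 240) * u ^ 2 * C * (1 - 2 * u) - 1203 / 100000 * u ^ 2)
        ≤ ψ + δ.im := by linarith
    refine le_trans ?_ h2
    apply mul_le_mul_of_nonneg_left _ hS.le
    have c1 : (1 / 3 - ε / 12) * u * C ≤ (1 / 3 - ε / 12) * u * (1 - u / 2 - u ^ 2 / 8) :=
      mul_le_mul_of_nonneg_left hCu (mul_nonneg (by linarith) hu0.le)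
    have c2 : (1 / 5 - ε / 6) * (u ^ 2 * ((1 - 525 / 1000 * u) * (1 - 2 * u)))
        ≤ (1 / 5 - ε / 6 + 7 * ε ^ 2 / 240) * u ^ 2 * C * (1 - 2 * u) := by
      have d1 : (1 - 525 / 1000 * u) * (1 - 2 * u) ≤ C * (1 - 2 * u) :=
        mul_le_mul_of_nonneg_right hCl (by linarith)
      have d2 : 0 ≤ (1 - 525 / 1000 * u) * (1 - 2 * u) :=
        mul_nonneg (by linarith) (by linarith)
      have d3 : u ^ 2 * ((1 - 525 / 1000 * u) * (1 - 2 * u)) ≤ u ^ 2 * (C * (1 - 2 * u)) :=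
        mul_le_mul_of_nonneg_left d1 (by positivity)
      have d4 : (1 / 5 - ε / 6 : ℝ) ≤ 1 / 5 - ε / 6 + 7 * ε ^ 2 / 240 := by
        have : 0 ≤ 7 * ε ^ 2 / 240 := by positivity
        linarith
      have d5 : 0 ≤ u ^ 2 * (C * (1 - 2 * u)) :=
        mul_nonneg (by positivity) (mul_nonneg hC.le (by linarith))
      calc _ ≤ (1 / 5 - ε / 6) * (u ^ 2 * (C * (1 - 2 * u))) :=
            mul_le_mul_of_nonneg_left d3 (by linarith)
        _ ≤ (1 / 5 - ε / 6 + 7 * ε ^ 2 / 240) * (u ^ 2 * (C * (1 - 2 * u))) :=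
            mul_le_mul_of_nonneg_right d4 d5
        _ = _ := by ring
    have c3 : 0 ≤ ε * u ^ 2 := by positivity
    have c4 : 0 ≤ ε * u ^ 3 := by positivity
    have c5 : 0 ≤ u ^ 3 := by positivity
    have c6 : 0 ≤ u ^ 4 * (1 / 16 - ε) := mul_nonneg (by positivity) (by linarith)
    have c7 : 0 ≤ u ^ 4 := by positivity
    have c8 : 0 ≤ u ^ 2 := by positivity
    nlinarith
  have hfin := final_poly hu0 hu hε0 hε1
  have hm0 : 0 < 1 + (-u / 6 + ε * u / 12 + (4296 / 10000 - 20834 / 100000 * ε) * u ^ 2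
        - 46334 / 100000 * u ^ 3) := by
    have p1 : 0 ≤ ε * u := by positivity
    have p2 : 0 ≤ u ^ 2 * (1 / 16 - ε) := mul_nonneg (by positivity) (by linarith)
    have p3 : u ^ 3 ≤ (17385 / 100000) ^ 3 := pow_le_pow_left₀ hu0.le hu 3
    have p4 : 0 ≤ u ^ 2 := by positivity
    norm_num at p3
    nlinarith
  calc S = S * 1 := (mul_one S).symm
    _ < S * ((1 + (u / 6 - ε * u / 24 - 23 / 60 * u ^ 2 + 3 / 10 * u ^ 3)
        + (u / 6 - ε * u / 24 - 23 / 60 * u ^ 2 + 3 / 10 * u ^ 3) ^ 2 / 2)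
      * (1 + (-u / 6 + ε * u / 12 + (4296 / 10000 - 20834 / 100000 * ε) * u ^ 2
        - 46334 / 100000 * u ^ 3))) := mul_lt_mul_of_pos_left hfin hS
    _ = (1 + (u / 6 - ε * u / 24 - 23 / 60 * u ^ 2 + 3 / 10 * u ^ 3)
        + (u / 6 - ε * u / 24 - 23 / 60 * u ^ 2 + 3 / 10 * u ^ 3) ^ 2 / 2)
      * (S * (1 + (-u / 6 + ε * u / 12 + (4296 / 10000 - 20834 / 100000 * ε) * u ^ 2
        - 46334 / 100000 * u ^ 3))) := by ring
    _ ≤ Real.exp δ.re * (ψ + δ.im) :=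
      mul_le_mul hexp hm (mul_pos hS hm0).le (Real.exp_pos _).le

/-! ### The upper bound -/

theorem upper (S C ε : ℝ) (δ : ℂ) (hS : 0 < S) (hC : 0 < C) (h1 : S ^ 2 + C ^ 2 = 1)
    (hu : S ^ 2 ≤ 17385 / 100000) (hε0 : 0 ≤ ε) (hε1 : ε ≤ 1 / 16)
    (hδ : ‖δ - X ε (((S ^ 2 : ℝ) : ℂ) * ((C : ℂ) - I * S) ^ 2)‖
      ≤ (S ^ 2) ^ 3 / (42 * (1 - S ^ 2))) :
    (Complex.exp δ * ((C : ℂ) + I * S)).im < S := by
  obtain ⟨hη1, hη2⟩ := eta_le hS hu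
  have hu0 : 0 < S ^ 2 := by positivity
  have hS' : S ≤ 417 / 1000 := by
    by_contra h
    push Not at h
    nlinarith
  set σ : ℂ := (((S ^ 2 : ℝ) : ℂ) * ((C : ℂ) - I * S) ^ 2) with hσ
  have hnu : ‖(C : ℂ) + I * S‖ = 1 := by
    have : (C : ℂ) + I * S = ((C : ℝ) : ℂ) + ((S : ℝ) : ℂ) * I := by ring
    rw [this, Complex.norm_add_mul_I]
    have : C ^ 2 + S ^ 2 = 1 := by linarith
    rw [this, Real.sqrt_one]
  have hnu' : ‖(C : ℂ) - I * S‖ = 1 := by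
    have : (C : ℂ) - I * S = ((C : ℝ) : ℂ) + ((-S : ℝ) : ℂ) * I := by push_cast; ring
    rw [this, Complex.norm_add_mul_I]
    have : C ^ 2 + (-S) ^ 2 = 1 := by linarith
    rw [this, Real.sqrt_one]
  have hnσ : ‖σ‖ = S ^ 2 := by
    rw [hσ, norm_mul, norm_pow, hnu', one_pow, mul_one, Complex.norm_real, Real.norm_eq_abs,
      abs_of_pos hu0]
  set m2 : ℝ := 1 / 5 - ε / 6 + 7 * ε ^ 2 / 240 with hm2
  have hm20 : 0 ≤ m2 := by
    have : 0 ≤ 7 * ε ^ 2 / 240 := by positivity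
    rw [hm2]; linarith
  have hm21 : m2 ≤ 1 / 5 := by
    rw [hm2]; nlinarith
  have hXn : ‖X ε σ‖ ≤ 1 / 2 * (1 / 3) * S ^ 2 + 1 / 4 * (1 / 5) * (S ^ 2) ^ 2 := by
    rw [X, norm_mul]
    have e1 : ‖((1 / 3 - ε / 12 : ℝ) : ℂ) * σ - 1 / 2 * (m2 : ℂ) * σ ^ 2‖
        ≤ 1 / 3 * S ^ 2 + 1 / 2 * (1 / 5) * (S ^ 2) ^ 2 := by
      refine (norm_sub_le _ _).trans (add_le_add ?_ ?_)
      · rw [norm_mul, hnσ, Complex.norm_real, Real.norm_eq_abs, abs_of_nonneg (by linarith)]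
        apply mul_le_mul_of_nonneg_right _ hu0.le
        linarith
      · rw [norm_mul, norm_mul, norm_pow, hnσ, Complex.norm_real, Real.norm_eq_abs,
          abs_of_nonneg hm20]
        have : ‖(1 / 2 : ℂ)‖ = 1 / 2 := by simp
        rw [this]
        gcongr
    have e2 : ‖(1 / 2 : ℂ)‖ = 1 / 2 := by simp
    rw [e2]
    linarith
  have hδn : ‖δ‖ ≤ 18 / 100 * S ^ 2 := by
    have : ‖δ‖ ≤ ‖X ε σ‖ + (S ^ 2) ^ 3 / (42 * (1 - S ^ 2)) := by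
      calc ‖δ‖ = ‖X ε σ + (δ - X ε σ)‖ := by congr 1; ring
        _ ≤ ‖X ε σ‖ + ‖δ - X ε σ‖ := norm_add_le _ _
        _ ≤ _ := by linarith
    have q1 : (S ^ 2) ^ 2 ≤ 17385 / 100000 * S ^ 2 := by nlinarith
    have q2 : (S ^ 2) ^ 3 ≤ (17385 / 100000) ^ 2 * S ^ 2 := by
      have : (S ^ 2) ^ 2 ≤ (17385 / 100000) ^ 2 := pow_le_pow_left₀ hu0.le hu 2
      nlinarith
    norm_num at q2
    linarith
  have hδ1 : ‖δ‖ ≤ 1 := by linarith
  have hE := Complex.norm_exp_sub_one_sub_id_le hδ1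
  have hsplit : Complex.exp δ * ((C : ℂ) + I * S) = ((C : ℂ) + I * S) + X ε σ * ((C : ℂ) + I * S)
      + (δ - X ε σ) * ((C : ℂ) + I * S) + (Complex.exp δ - 1 - δ) * ((C : ℂ) + I * S) := by ring
  rw [hsplit, Complex.add_im, Complex.add_im, Complex.add_im, hσ, X_mul_im S C ε h1, ← hσ]
  have i0 : ((C : ℂ) + I * S).im = S := by simp
  have i1 : ((δ - X ε σ) * ((C : ℂ) + I * S)).im ≤ (S ^ 2) ^ 3 / (42 * (1 - S ^ 2)) := by
    refine (le_abs_self _).trans ((Complex.abs_im_le_norm _).trans ?_)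
    rw [norm_mul, hnu, mul_one]; exact hδ
  have i2 : ((Complex.exp δ - 1 - δ) * ((C : ℂ) + I * S)).im ≤ ‖δ‖ ^ 2 := by
    refine (le_abs_self _).trans ((Complex.abs_im_le_norm _).trans ?_)
    rw [norm_mul, hnu, mul_one]; exact hE
  rw [i0]
  have j1 : ‖δ‖ ^ 2 ≤ (18 / 100 * S ^ 2) ^ 2 := pow_le_pow_left₀ (norm_nonneg _) hδn 2
  have hS3 : 0 < S ^ 3 := by positivity
  have j2 : (18 / 100 * S ^ 2) ^ 2 ≤ 14 / 1000 * S ^ 3 := by
    have : (18 / 100 * S ^ 2) ^ 2 = 324 / 10000 * (S ^ 3 * S) := by ring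
    rw [this]
    nlinarith [mul_le_mul_of_nonneg_left hS' hS3.le]
  have j3 : (S ^ 2) ^ 3 / (42 * (1 - S ^ 2)) ≤ 3 / 1000 * S ^ 3 := by
    refine hη2.trans ?_
    have : (S ^ 2) ^ 2 * S = S ^ 3 * S ^ 2 := by ring
    nlinarith [mul_le_mul_of_nonneg_left hu hS3.le]
  have j4 : 1 / 4 * m2 * S ^ 5 * (3 - 4 * S ^ 2) ≤ 3 / 100 * S ^ 3 := by
    have k1 : S ^ 5 * (3 - 4 * S ^ 2) ≤ S ^ 5 * 3 :=
      mul_le_mul_of_nonneg_left (by linarith) (by positivity)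
    have k2 : S ^ 5 = S ^ 3 * S ^ 2 := by ring
    have k3 : S ^ 5 ≤ 17385 / 100000 * S ^ 3 := by
      rw [k2]; nlinarith [mul_le_mul_of_nonneg_left hu hS3.le]
    have k4 : m2 * (S ^ 5 * (3 - 4 * S ^ 2)) ≤ 1 / 5 * (S ^ 5 * 3) := by
      apply mul_le_mul hm21 k1 _ (by norm_num)
      exact mul_nonneg (by positivity) (by linarith)
    nlinarith
  have j5 : -(1 / 2) * (1 / 3 - ε / 12) * S ^ 3 ≤ -(16 / 100) * S ^ 3 := by
    apply mul_le_mul_of_nonneg_right _ hS3.le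
    linarith
  rw [← hm2]
  linarith

end Pool.Agent.H181.Cn
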