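import Mathlib
import Pool.Agent.H181.CnA
import Pool.Agent.H181.CnB
import Pool.Agent.H181.CnC

/-!
# The case `n ≥ 4` of MP_74ce82_an
-/

open Finset Complex

namespace Pool.Agent.H181.Cn

/-- The total argument of `P n y`. -/
noncomputable def Th (n : ℕ) (y : ℝ) : ℝ :=
  ∑ j ∈ range (2 * n), Real.arctan (((j : ℝ) + 1 / 2) / y)

lemma P_eq_exp (n : ℕ) {y : ℝ} (hy : 0 < y) :
    P n y = Complex.exp (∑ j ∈ range (2 * n), lam y ((j : ℝ) + 1 / 2)) := by
  rw [P, Complex.exp_sum]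
  apply Finset.prod_congr rfl
  intro j _
  rw [exp_lam hy]; push_cast; ring

lemma im_sum_lam (n : ℕ) (y : ℝ) :
    (∑ j ∈ range (2 * n), lam y ((j : ℝ) + 1 / 2)).im = Th n y := by
  rw [Complex.im_sum, Th]
  exact Finset.sum_congr rfl fun j _ => lam_im _ _

lemma Th_anti {n : ℕ} (hn : 1 ≤ n) {y y' : ℝ} (hy : 0 < y) (h : y < y') :
    Th n y' < Th n y := by
  rw [Th, Th]
  apply Finset.sum_lt_sum_of_nonempty ⟨0, Finset.mem_range.2 (by omega)⟩
  intro j _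
  apply Real.arctan_strictMono
  apply div_lt_div_of_pos_left (by positivity) hy h

lemma Th_pos {n : ℕ} (hn : 1 ≤ n) {y : ℝ} (hy : 0 < y) : 0 < Th n y := by
  rw [Th]
  apply Finset.sum_pos _ ⟨0, Finset.mem_range.2 (by omega)⟩
  intro j _
  exact Real.arctan_pos.2 (by positivity)

lemma Th_cont (n : ℕ) {a b : ℝ} (ha : 0 < a) : ContinuousOn (Th n) (Set.Icc a b) := by
  unfold Th
  apply continuousOn_finsetSum
  intro j _
  apply Real.continuous_arctan.comp_continuousOn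
  apply continuousOn_const.div continuousOn_id
  intro x hx
  have : 0 < x := lt_of_lt_of_le ha hx.1
  exact this.ne'

lemma sum1 (n : ℕ) : ∑ j ∈ range n, ((j : ℝ) + 1 / 2) = (n : ℝ) ^ 2 / 2 := by
  induction n with
  | zero => simp
  | succ n ih => rw [Finset.sum_range_succ, ih]; push_cast; ring

lemma sum3 (n : ℕ) :
    ∑ j ∈ range n, ((j : ℝ) + 1 / 2) ^ 3 = (n : ℝ) ^ 2 * (2 * (n : ℝ) ^ 2 - 1) / 8 := by
  induction n with
  | zero => simp
  | succ n ih => rw [Finset.sum_range_succ, ih]; push_cast; ring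

lemma Th_lo {n : ℕ} (hn : 4 ≤ n) : Real.pi < Th n (109 / 50 * n) := by
  have hn' : (4 : ℝ) ≤ n := by exact_mod_cast hn
  have h1 : ∑ j ∈ range (2 * n), ((((j : ℝ) + 1 / 2) / (109 / 50 * n))
      - (((j : ℝ) + 1 / 2) / (109 / 50 * n)) ^ 3 / 3) ≤ Th n (109 / 50 * n) := by
    rw [Th]
    apply Finset.sum_le_sum
    intro j _
    exact arctan_ge (by positivity)
  have h2 : ∑ j ∈ range (2 * n), ((((j : ℝ) + 1 / 2) / (109 / 50 * n))
      - (((j : ℝ) + 1 / 2) / (109 / 50 * n)) ^ 3 / 3) =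
      (∑ j ∈ range (2 * n), ((j : ℝ) + 1 / 2)) / (109 / 50 * n)
      - (∑ j ∈ range (2 * n), ((j : ℝ) + 1 / 2) ^ 3) / (3 * (109 / 50 * n) ^ 3) := by
    rw [Finset.sum_div, Finset.sum_div, ← Finset.sum_sub_distrib]
    apply Finset.sum_congr rfl
    intro j _
    field_simp
  rw [h2, sum1, sum3] at h1
  refine lt_of_lt_of_le ?_ h1
  push_cast
  have h3 : (2 * (n : ℝ)) ^ 2 / 2 / (109 / 50 * n)
      - (2 * (n : ℝ)) ^ 2 * (2 * (2 * (n : ℝ)) ^ 2 - 1) / 8 / (3 * (109 / 50 * n) ^ 3)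
      = (100 / 109 - 4 * 125000 / (3 * 1295029)) * n + 62500 / (3 * 1295029) / n := by
    field_simp
    ring
  rw [h3]
  have h4 : (0 : ℝ) < 62500 / (3 * 1295029) / n := by positivity
  have := Real.pi_lt_d2
  nlinarith

lemma Th_hi {n : ℕ} (hn : 1 ≤ n) : Th n (2 * n ^ 2 / Real.pi) < Real.pi := by
  have hn' : (1 : ℝ) ≤ n := by exact_mod_cast hn
  have hy : (0 : ℝ) < 2 * n ^ 2 / Real.pi := by positivity
  have h1 : Th n (2 * n ^ 2 / Real.pi)
      < ∑ j ∈ range (2 * n), (((j : ℝ) + 1 / 2) / (2 * n ^ 2 / Real.pi)) := by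
    rw [Th]
    apply Finset.sum_lt_sum_of_nonempty ⟨0, Finset.mem_range.2 (by omega)⟩
    intro j _
    exact arctan_lt (by positivity)
  rw [← Finset.sum_div, sum1] at h1
  refine lt_of_lt_of_eq h1 ?_
  push_cast
  field_simp

lemma exists_y {n : ℕ} (hn : 4 ≤ n) : ∃ y : ℝ, 109 / 50 * n < y ∧ Th n y = Real.pi := by
  have hn' : (4 : ℝ) ≤ n := by exact_mod_cast hn
  have h1 := Th_lo hn
  have h2 := Th_hi (n := n) (by omega)
  have ha : (0 : ℝ) < 109 / 50 * n := by positivity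
  have hb : (0 : ℝ) < 2 * n ^ 2 / Real.pi := by positivity
  have hab : 109 / 50 * (n : ℝ) ≤ 2 * n ^ 2 / Real.pi := by
    by_contra h
    push Not at h
    have := Th_anti (n := n) (by omega) hb h
    linarith
  obtain ⟨y, hy, hyπ⟩ := intermediate_value_Icc' hab (Th_cont n ha) ⟨h2.le, h1.le⟩
  refine ⟨y, lt_of_le_of_ne hy.1 ?_, hyπ⟩
  intro h
  rw [← h] at hyπ
  linarith

theorem main_ge4 (n : ℕ) (hn : 4 ≤ n) (cn : ℝ) (hc : ∀ c : ℝ, rightRoots n c = n ↔ cn ≤ c) :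
    2 * (n : ℝ) ^ 2 / Real.pi < cn ^ (1 / (2 * (n : ℝ))) ∧
      cn ^ (1 / (2 * (n : ℝ))) < n / Real.sin (Real.pi / (2 * n)) := by
  obtain ⟨y, hy1, hyπ⟩ := exists_y hn
  have hn' : (4 : ℝ) ≤ n := by exact_mod_cast hn
  have hnpos : (0 : ℝ) < n := by linarith
  have hy : 0 < y := by nlinarith
  have hπ := Real.pi_pos
  set L : ℂ := ∑ j ∈ range (2 * n), lam y ((j : ℝ) + 1 / 2) with hL
  have hLim : L.im = Real.pi := by rw [hL, im_sum_lam, hyπ]
  have hroot : P n y = -((Real.exp L.re : ℝ) : ℂ) := by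
    rw [P_eq_exp n hy, ← hL]
    apply Complex.ext
    · rw [Complex.exp_re, hLim, Real.cos_pi, Complex.neg_re, Complex.ofReal_re]; ring
    · rw [Complex.exp_im, hLim, Real.sin_pi, Complex.neg_im, Complex.ofReal_im]; ring
  have hmax : ∀ y' : ℝ, y < y' → ∀ c : ℝ, 0 < c → P n y' ≠ -(c : ℂ) := by
    intro y' hyy' c _ h
    have hy' : 0 < y' := hy.trans hyy'
    rw [P_eq_exp n hy'] at h
    have h1 := congrArg Complex.im h
    rw [Complex.exp_im, im_sum_lam, Complex.neg_im, Complex.ofReal_im, neg_zero] at h1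
    have h2 : 0 < Real.sin (Th n y') := by
      apply Real.sin_pos_of_pos_of_lt_pi (Th_pos (by omega) hy')
      rw [← hyπ]; exact Th_anti (by omega) hy hyy'
    have h3 := mul_pos (Real.exp_pos (∑ j ∈ range (2 * n), lam y' ((j : ℝ) + 1 / 2)).re) h2
    linarith
  have hcn := threshold n (by omega) cn hc y (Real.exp L.re) hy.le (Real.exp_pos _) hroot hmax
  -- the quantities
  have hpos : 0 < y ^ 2 + (n : ℝ) ^ 2 := by positivity
  set r := Real.sqrt (y ^ 2 + (n : ℝ) ^ 2) with hr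
  have hr0 : 0 < r := Real.sqrt_pos.2 hpos
  have hr2 : r ^ 2 = y ^ 2 + (n : ℝ) ^ 2 := Real.sq_sqrt hpos.le
  set S := (n : ℝ) / r with hS
  set C := y / r with hC
  have hS0 : 0 < S := by positivity
  have hC0 : 0 < C := by positivity
  have h1 : S ^ 2 + C ^ 2 = 1 := by
    rw [hS, hC, div_pow, div_pow, ← add_div, hr2, add_comm, div_self hpos.ne']
  have hSu : S ^ 2 = (n : ℝ) ^ 2 / (y ^ 2 + (n : ℝ) ^ 2) := by
    rw [hS, div_pow, hr2]
  have hu : S ^ 2 ≤ 17385 / 100000 := by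
    rw [hSu, div_le_iff₀ hpos]
    have : (109 / 50 * (n : ℝ)) ^ 2 ≤ y ^ 2 := pow_le_pow_left₀ (by positivity) hy1.le 2
    nlinarith
  have hε0 : (0 : ℝ) ≤ 1 / (n : ℝ) ^ 2 := by positivity
  have hε1 : 1 / (n : ℝ) ^ 2 ≤ 1 / 16 := by
    apply one_div_le_one_div_of_le (by norm_num)
    nlinarith
  set δ := delta y n with hδdef
  have hCS : ((C : ℂ) - I * S) * ((C : ℂ) + I * S) = 1 := by
    have hI : I ^ 2 = -1 := Complex.I_sq
    have h1' : (S : ℂ) ^ 2 + (C : ℂ) ^ 2 = 1 := by exact_mod_cast h1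
    linear_combination h1' - (S : ℂ) ^ 2 * hI
  have hny : (n : ℂ) = (r : ℂ) * S := by
    have : (n : ℝ) = r * S := by rw [hS]; field_simp
    exact_mod_cast congrArg (fun x : ℝ => (x : ℂ)) this
  have hyr : (y : ℂ) = (r : ℂ) * C := by
    have : y = r * C := by rw [hC]; field_simp
    exact_mod_cast congrArg (fun x : ℝ => (x : ℂ)) this
  have hrC : (r : ℂ) ≠ 0 := by exact_mod_cast hr0.ne'
  have hσ : (((S ^ 2 : ℝ) : ℂ) * ((C : ℂ) - I * S) ^ 2)
      = (n : ℂ) ^ 2 / ((y : ℂ) + I * (n : ℝ)) ^ 2 := by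
    have hCS0 : ((C : ℂ) + I * S) ≠ 0 := by
      intro h; rw [h, mul_zero] at hCS; exact zero_ne_one hCS
    have hz : (y : ℂ) + I * ((n : ℝ) : ℂ) = r * ((C : ℂ) + I * S) := by
      have : (((n : ℝ) : ℂ)) = (n : ℂ) := by norm_cast
      rw [this, hny, hyr]; ring
    rw [hz, hny, eq_div_iff (pow_ne_zero 2 (mul_ne_zero hrC hCS0))]
    push_cast
    calc (S : ℂ) ^ 2 * ((C : ℂ) - I * S) ^ 2 * (r * ((C : ℂ) + I * S)) ^ 2
        = (S : ℂ) ^ 2 * r ^ 2 * (((C : ℂ) - I * S) * ((C : ℂ) + I * S)) ^ 2 := by ring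
      _ = _ := by rw [hCS]; ring
  have hδ : ‖δ - X (1 / (n : ℝ) ^ 2) (((S ^ 2 : ℝ) : ℂ) * ((C : ℂ) - I * S) ^ 2)‖
      ≤ (S ^ 2) ^ 3 / (42 * (1 - S ^ 2)) := by
    have := delta_approx hy n (by omega) (S ^ 2) (1 / (n : ℝ) ^ 2) hSu rfl _ hσ
    exact this
  set ψ := Real.arctan ((n : ℝ) / y) with hψdef
  have hrs := sqrt_eq hy (n : ℝ)
  rw [← hr] at hrs
  have hsq0 : 0 < Real.sqrt (1 + ((n : ℝ) / y) ^ 2) := by positivity
  have hsinψ : Real.sin ψ = S := by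
    rw [hψdef, Real.sin_arctan, hS, hrs]; field_simp
  have hcosψ : Real.cos ψ = C := by
    rw [hψdef, Real.cos_arctan, hC, hrs]; field_simp
  have hψ0 : 0 < ψ := Real.arctan_pos.2 (by positivity)
  have hψ : S + S ^ 3 / 6 + 3 * S ^ 5 / 40 ≤ ψ := by
    have := psi_ge hψ0.le (Real.arctan_lt_pi_div_two _).le
    rwa [hsinψ] at this
  have hlow := lower S C (1 / (n : ℝ) ^ 2) ψ δ hS0 hC0 h1 hu hε0 hε1 hδ hψ
  have hup := upper S C (1 / (n : ℝ) ^ 2) δ hS0 hC0 h1 hu hε0 hε1 hδ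
  have hsum := sum_lam hy n (by omega)
  rw [← hL, ← hδdef] at hsum
  have h2n : (2 * (n : ℂ)) = ((2 * n : ℝ) : ℂ) := by push_cast; rfl
  rw [h2n] at hsum
  have hsre : L.re = 2 * n * (1 / 2 * Real.log (y ^ 2 + (n : ℝ) ^ 2) + δ.re) := by
    rw [hsum, Complex.re_ofReal_mul, Complex.add_re, lam_re]
  have hsim : Real.pi = 2 * n * (ψ + δ.im) := by
    rw [← hLim, hsum, Complex.im_ofReal_mul, Complex.add_im, lam_im]
  have hang : ψ + δ.im = Real.pi / (2 * n) := by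
    rw [hsim]; field_simp
  have hM : cn ^ (1 / (2 * (n : ℝ))) = r * Real.exp δ.re := by
    rw [hcn, ← Real.exp_mul, hsre]
    have : 2 * (n : ℝ) * (1 / 2 * Real.log (y ^ 2 + (n : ℝ) ^ 2) + δ.re) * (1 / (2 * (n : ℝ)))
        = 1 / 2 * Real.log (y ^ 2 + (n : ℝ) ^ 2) + δ.re := by field_simp
    rw [this, Real.exp_add]
    congr 1
    rw [hr, Real.sqrt_eq_rpow, Real.rpow_def_of_pos hpos, mul_comm]
  rw [hM]
  constructor
  · rw [hang, hS, div_lt_iff₀ hr0] at hlow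
    rw [div_lt_iff₀ hπ]
    have h3 : Real.exp δ.re * (Real.pi / (2 * n)) * r = r * Real.exp δ.re * Real.pi / (2 * n) := by
      ring
    rw [h3, lt_div_iff₀ (by positivity)] at hlow
    nlinarith
  · have h4 : (C : ℂ) + I * S = Complex.exp ((ψ : ℂ) * I) := by
      rw [Complex.exp_mul_I, ← Complex.ofReal_cos, ← Complex.ofReal_sin, hsinψ, hcosψ]; ring
    rw [h4, ← Complex.exp_add, Complex.exp_im] at hup
    have h5 : (δ + (ψ : ℂ) * I).re = δ.re := by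
      rw [Complex.add_re, Complex.re_ofReal_mul, Complex.I_re, mul_zero, add_zero]
    have h6 : (δ + (ψ : ℂ) * I).im = Real.pi / (2 * n) := by
      rw [Complex.add_im, Complex.im_ofReal_mul, Complex.I_im, mul_one, ← hang, add_comm]
    rw [h5, h6, hS, lt_div_iff₀ hr0] at hup
    have hsin : 0 < Real.sin (Real.pi / (2 * n)) := by
      apply Real.sin_pos_of_pos_of_lt_pi (by positivity)
      rw [div_lt_iff₀ (by positivity)]
      nlinarith
    rw [lt_div_iff₀ hsin]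
    linarith

end Pool.Agent.H181.Cn
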