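import Mathlib

/-!
# Path functionals, Green bound and local times on bounded degree graphs (MP_fd85b0_pr)
-/

open Finset

namespace Pool.Agent.H181.DS

variable {V : Type*} (G : SimpleGraph V) [G.LocallyFinite]

/-- Average over neighbours. -/
noncomputable def av (f : V → ℝ) (v : V) : ℝ := (∑ w ∈ G.neighborFinset v, f w) / G.degree v

lemma av_mono {f g : V → ℝ} (h : ∀ v, f v ≤ g v) (v : V) : av G f v ≤ av G g v := by
  unfold av
  exact div_le_div_of_nonneg_right (Finset.sum_le_sum fun w _ => h w) (by positivity)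

lemma av_add (f g : V → ℝ) (v : V) : av G (fun w => f w + g w) v = av G f v + av G g v := by
  unfold av
  rw [Finset.sum_add_distrib, add_div]

lemma av_mul (c : ℝ) (f : V → ℝ) (v : V) : av G (fun w => c * f w) v = c * av G f v := by
  unfold av
  rw [← Finset.mul_sum, mul_div_assoc]

lemma av_const {v : V} (hd : 0 < G.degree v) (c : ℝ) : av G (fun _ => c) v = c := by
  unfold av
  rw [Finset.sum_const, G.card_neighborFinset_eq_degree, nsmul_eq_mul]
  have : (0 : ℝ) < G.degree v := by exact_mod_cast hd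
  field_simp

lemma av_sum {ι : Type*} (s : Finset ι) (f : ι → V → ℝ) (v : V) :
    av G (fun w => ∑ i ∈ s, f i w) v = ∑ i ∈ s, av G (f i) v := by
  unfold av
  rw [Finset.sum_comm, Finset.sum_div]

lemma av_nonneg {f : V → ℝ} (h : ∀ v, 0 ≤ f v) (v : V) : 0 ≤ av G f v := by
  unfold av
  exact div_nonneg (Finset.sum_nonneg fun w _ => h w) (by positivity)

/-- Expectation over the first `n` positions of the walk from `v`. -/
noncomputable def EX : ℕ → V → (List V → ℝ) → ℝ
  | 0, _, Φ => Φ []
  | n + 1, v, Φ => av G (fun w => EX n w (fun l => Φ (v :: l))) v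

lemma EX_zero (v : V) (Φ : List V → ℝ) : EX G 0 v Φ = Φ [] := rfl
lemma EX_succ (n : ℕ) (v : V) (Φ : List V → ℝ) :
    EX G (n + 1) v Φ = av G (fun w => EX G n w (fun l => Φ (v :: l))) v := rfl

lemma EX_mono (n : ℕ) : ∀ (v : V) (Φ Ψ : List V → ℝ), (∀ l, l.length = n → Φ l ≤ Ψ l) →
    EX G n v Φ ≤ EX G n v Ψ := by
  induction n with
  | zero => intro v Φ Ψ h; exact h [] rfl
  | succ n ih =>
    intro v Φ Ψ h
    rw [EX_succ, EX_succ]
    exact av_mono G (fun w => ih w _ _ fun l hl => h (v :: l) (by simp [hl])) v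

lemma EX_add (n : ℕ) : ∀ (v : V) (Φ Ψ : List V → ℝ),
    EX G n v (fun l => Φ l + Ψ l) = EX G n v Φ + EX G n v Ψ := by
  induction n with
  | zero => intro v Φ Ψ; rfl
  | succ n ih =>
    intro v Φ Ψ
    rw [EX_succ, EX_succ, EX_succ, ← av_add]
    congr 1
    funext w
    exact ih w _ _

lemma EX_mul (n : ℕ) : ∀ (v : V) (c : ℝ) (Φ : List V → ℝ),
    EX G n v (fun l => c * Φ l) = c * EX G n v Φ := by
  induction n with
  | zero => intro v c Φ; rfl
  | succ n ih =>
    intro v c Φ
    rw [EX_succ, EX_succ, ← av_mul]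
    congr 1
    funext w
    exact ih w _ _

lemma EX_const (hd : ∀ v, 0 < G.degree v) (n : ℕ) : ∀ (v : V) (c : ℝ), EX G n v (fun _ => c) = c := by
  induction n with
  | zero => intro v c; rfl
  | succ n ih =>
    intro v c
    rw [EX_succ]
    simp only [ih]
    exact av_const G (hd v) c

lemma EX_sum {ι : Type*} (s : Finset ι) (n : ℕ) : ∀ (v : V) (Φ : ι → List V → ℝ),
    EX G n v (fun l => ∑ i ∈ s, Φ i l) = ∑ i ∈ s, EX G n v (Φ i) := by
  induction n with
  | zero => intro v Φ; rfl
  | succ n ih =>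
    intro v Φ
    simp only [EX_succ]
    rw [← av_sum]
    congr 1
    funext w
    exact ih w _

lemma EX_nonneg (n : ℕ) : ∀ (v : V) (Φ : List V → ℝ), (∀ l, 0 ≤ Φ l) → 0 ≤ EX G n v Φ := by
  induction n with
  | zero => intro v Φ h; exact h []
  | succ n ih =>
    intro v Φ h
    rw [EX_succ]
    exact av_nonneg G (fun w => ih w _ fun l => h _) v

lemma EX_take (hd : ∀ v, 0 < G.degree v) (n : ℕ) : ∀ (m : ℕ), m ≤ n → ∀ (v : V) (Φ : List V → ℝ),
    EX G n v (fun l => Φ (l.take m)) = EX G m v Φ := by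
  induction n with
  | zero =>
    intro m hm v Φ
    obtain rfl : m = 0 := by omega
    rfl
  | succ n ih =>
    intro m hm v Φ
    cases m with
    | zero =>
      simp only [List.take_zero]
      rw [EX_const G hd, EX_zero]
    | succ m =>
      rw [EX_succ, EX_succ]
      congr 1
      funext w
      simp only [List.take_succ_cons]
      exact ih m (by omega) w (fun l => Φ (v :: l))

/-! ## The Green function -/

variable [DecidableEq V]

/-- `P^t(x, w)` -/
noncomputable def pw (w : V) : ℕ → V → ℝ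
  | 0 => fun x => if x = w then 1 else 0
  | t + 1 => fun x => av G (pw w t) x

/-- `∑_{t<N} P^t(x, w)` -/
noncomputable def gr (w : V) (N : ℕ) (x : V) : ℝ := ∑ t ∈ Finset.range N, pw G w t x

lemma pw_nonneg (w : V) (t : ℕ) : ∀ x, 0 ≤ pw G w t x := by
  induction t with
  | zero => intro x; unfold pw; split_ifs <;> norm_num
  | succ t ih => intro x; exact av_nonneg G ih x

lemma gr_nonneg (w : V) (N : ℕ) (x : V) : 0 ≤ gr G w N x :=
  Finset.sum_nonneg fun t _ => pw_nonneg G w t x

lemma gr_mono (w : V) {M N : ℕ} (h : M ≤ N) (x : V) : gr G w M x ≤ gr G w N x :=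
  Finset.sum_le_sum_of_subset_of_nonneg (Finset.range_subset_range.2 h) fun t _ _ => pw_nonneg G w t x

lemma gr_succ (w : V) (N : ℕ) (x : V) :
    gr G w (N + 1) x = (if x = w then 1 else 0) + av G (gr G w N) x := by
  unfold gr
  rw [Finset.sum_range_succ', add_comm]
  congr 1
  exact (av_sum G (Finset.range N) (fun t => pw G w t) x).symm

lemma gr_succ' (w : V) (N : ℕ) (x : V) : gr G w (N + 1) x = gr G w N x + pw G w N x :=
  Finset.sum_range_succ _ _

lemma gr_le_diag (hd : ∀ v, 0 < G.degree v) (w : V) (N : ℕ) : ∀ x, gr G w N x ≤ gr G w N w := by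
  induction N with
  | zero => intro x; simp [gr]
  | succ N ih =>
    intro x
    by_cases hx : x = w
    · rw [hx]
    · rw [gr_succ, if_neg hx, zero_add]
      calc av G (gr G w N) x ≤ av G (fun _ => gr G w N w) x := av_mono G ih x
        _ = gr G w N w := av_const G (hd x) _
        _ ≤ _ := gr_mono G w (Nat.le_succ N) w

/-- Balls. -/
noncomputable def bl (w : V) : ℕ → Finset V
  | 0 => {w}
  | t + 1 => bl w t ∪ (bl w t).biUnion (fun x => G.neighborFinset x)

lemma bl_mono (w : V) {s t : ℕ} (h : s ≤ t) : bl G w s ⊆ bl G w t := by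
  induction t, h using Nat.le_induction with
  | base => exact Finset.Subset.refl _
  | succ t _ ih => exact ih.trans Finset.subset_union_left

lemma mem_bl_succ {w x y : V} {t : ℕ} (hx : x ∈ bl G w t) (hxy : G.Adj x y) : y ∈ bl G w (t + 1) := by
  apply Finset.mem_union_right
  rw [Finset.mem_biUnion]
  exact ⟨x, hx, by rwa [SimpleGraph.mem_neighborFinset]⟩

lemma pw_supp (w : V) (t : ℕ) : ∀ x, pw G w t x ≠ 0 → x ∈ bl G w t := by
  induction t with
  | zero =>
    intro x hx
    unfold pw at hx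
    have : x = w := by
      by_contra h
      rw [if_neg h] at hx
      exact hx rfl
    rw [this]; exact Finset.mem_singleton_self w
  | succ t ih =>
    intro x hx
    have h1 : ∑ y ∈ G.neighborFinset x, pw G w t y ≠ 0 := by
      intro h
      apply hx
      show av G (pw G w t) x = 0
      unfold av
      rw [h, zero_div]
    obtain ⟨y, hy, hy2⟩ := Finset.exists_ne_zero_of_sum_ne_zero h1
    rw [SimpleGraph.mem_neighborFinset] at hy
    exact mem_bl_succ G (ih y hy2) hy.symm

lemma gr_supp (w : V) (N : ℕ) (x : V) (h : gr G w N x ≠ 0) : x ∈ bl G w N := by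
  obtain ⟨t, ht, ht2⟩ := Finset.exists_ne_zero_of_sum_ne_zero h
  exact bl_mono G w (Finset.mem_range.1 ht).le (pw_supp G w t x ht2)

/-- Symmetric double sum: moving the neighbour variable. -/
lemma swap_sum {B : Finset V} {q : V → ℝ} (hq : ∀ x, q x ≠ 0 → ∀ y, G.Adj x y → y ∈ B)
    (hqB : ∀ x, q x ≠ 0 → x ∈ B) (r : V → ℝ) :
    ∑ x ∈ B, ∑ y ∈ G.neighborFinset x, r x * q y = ∑ y ∈ B, q y * ∑ x ∈ G.neighborFinset y, r x := by
  classical
  have h1 : ∀ x ∈ B, ∑ y ∈ G.neighborFinset x, r x * q y =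
      ∑ y ∈ B, if G.Adj x y then r x * q y else 0 := by
    intro x _
    rw [← Finset.sum_filter]
    have h2 : ∑ y ∈ G.neighborFinset x, r x * q y =
        ∑ y ∈ (G.neighborFinset x).filter (fun y => y ∈ B), r x * q y := by
      symm
      apply Finset.sum_subset (Finset.filter_subset _ _)
      intro y hy hy2
      have : q y = 0 := by
        by_contra hne
        exact hy2 (Finset.mem_filter.2 ⟨hy, hqB y hne⟩)
      rw [this, mul_zero]
    rw [h2]
    apply Finset.sum_congr _ fun _ _ => rfl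
    ext y
    simp only [Finset.mem_filter, SimpleGraph.mem_neighborFinset]
    tauto
  have h3 : ∀ y ∈ B, q y * ∑ x ∈ G.neighborFinset y, r x =
      ∑ x ∈ B, if G.Adj x y then r x * q y else 0 := by
    intro y _
    by_cases hy : q y = 0
    · rw [hy, zero_mul]
      symm
      apply Finset.sum_eq_zero
      intro x _
      split_ifs
      · rw [mul_zero]
      · rfl
    · rw [← Finset.sum_filter, Finset.mul_sum]
      have : B.filter (fun x => G.Adj x y) = G.neighborFinset y := by
        ext x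
        simp only [Finset.mem_filter, SimpleGraph.mem_neighborFinset]
        exact ⟨fun h => h.2.symm, fun h => ⟨hq y hy x h, h.symm⟩⟩
      rw [this]
      exact Finset.sum_congr rfl fun x _ => mul_comm _ _
  rw [Finset.sum_congr rfl h1, Finset.sum_congr rfl h3, Finset.sum_comm]

lemma deg_av (hd : ∀ v, 0 < G.degree v) (f : V → ℝ) (x : V) :
    (G.degree x : ℝ) * av G f x = ∑ y ∈ G.neighborFinset x, f y := by
  unfold av
  have : (0 : ℝ) < G.degree x := by exact_mod_cast hd x
  field_simp

lemma mass_pw (hd : ∀ v, 0 < G.degree v) (w : V) {T : ℕ} : ∀ t, t < T →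
    ∑ x ∈ bl G w T, (G.degree x : ℝ) * pw G w t x = G.degree w := by
  intro t
  induction t with
  | zero =>
    intro hT
    have hw : w ∈ bl G w T := bl_mono G w (Nat.zero_le T) (Finset.mem_singleton_self w)
    rw [Finset.sum_eq_single w]
    · simp [pw]
    · intro x _ hx; simp [pw, hx]
    · intro h; exact absurd hw h
  | succ t ih =>
    intro hT
    rw [← ih (by omega)]
    have h1 : ∀ x ∈ bl G w T, (G.degree x : ℝ) * pw G w (t + 1) x =
        ∑ y ∈ G.neighborFinset x, 1 * pw G w t y := by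
      intro x _
      simp only [one_mul]
      exact deg_av G hd _ x
    rw [Finset.sum_congr rfl h1, swap_sum G (q := pw G w t) (r := fun _ => 1)]
    · apply Finset.sum_congr rfl
      intro y _
      rw [Finset.sum_const, G.card_neighborFinset_eq_degree, nsmul_eq_mul, mul_one, mul_comm]
    · intro x hx y hxy
      exact bl_mono G w (by omega) (mem_bl_succ G (pw_supp G w t x hx) hxy)
    · intro x hx
      exact bl_mono G w (by omega) (pw_supp G w t x hx)

lemma mass_gr (hd : ∀ v, 0 < G.degree v) (w : V) (N : ℕ) :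
    ∑ x ∈ bl G w (N + 1), (G.degree x : ℝ) * gr G w N x = N * G.degree w := by
  unfold gr
  simp only [Finset.mul_sum]
  rw [Finset.sum_comm, Finset.sum_congr rfl fun t ht => mass_pw G hd w t
    ((Finset.mem_range.1 ht).trans (Nat.lt_succ_self N)), Finset.sum_const, Finset.card_range,
    nsmul_eq_mul]

lemma energy_gr (hd : ∀ v, 0 < G.degree v) (w : V) (N : ℕ) :
    ∑ x ∈ bl G w (N + 1), ∑ y ∈ G.neighborFinset x, (gr G w N x - gr G w N y) ^ 2 ≤
      2 * (G.degree w * gr G w N w) := by
  set g := gr G w N with hg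
  set B := bl G w (N + 1) with hB
  have hs1 : ∀ x, g x ≠ 0 → x ∈ B := fun x hx => bl_mono G w (Nat.le_succ N) (gr_supp G w N x hx)
  have hs2 : ∀ x, g x ≠ 0 → ∀ y, G.Adj x y → y ∈ B := fun x hx y hxy =>
    mem_bl_succ G (gr_supp G w N x hx) hxy
  have e1 : ∑ x ∈ B, ∑ y ∈ G.neighborFinset x, (g x - g y) ^ 2 =
      ∑ x ∈ B, ∑ y ∈ G.neighborFinset x, 1 * (g x) ^ 2 + ∑ x ∈ B, ∑ y ∈ G.neighborFinset x, 1 * (g y) ^ 2
        - 2 * ∑ x ∈ B, ∑ y ∈ G.neighborFinset x, g x * g y := by
    rw [Finset.mul_sum, ← Finset.sum_add_distrib, ← Finset.sum_sub_distrib]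
    apply Finset.sum_congr rfl
    intro x _
    rw [Finset.mul_sum, ← Finset.sum_add_distrib, ← Finset.sum_sub_distrib]
    apply Finset.sum_congr rfl
    intro y _
    ring
  have e2 : ∑ x ∈ B, ∑ y ∈ G.neighborFinset x, 1 * (g y) ^ 2 =
      ∑ x ∈ B, ∑ y ∈ G.neighborFinset x, 1 * (g x) ^ 2 := by
    rw [swap_sum G (q := fun y => (g y) ^ 2) (r := fun _ => 1)]
    · apply Finset.sum_congr rfl
      intro x _
      rw [Finset.mul_sum]
      exact Finset.sum_congr rfl fun y _ => by ring
    · intro x hx; exact hs2 x (fun h => hx (by simp [h]))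
    · intro x hx; exact hs1 x (fun h => hx (by simp [h]))
  have e3 : ∀ x ∈ B, ∑ y ∈ G.neighborFinset x, 1 * (g x) ^ 2 - ∑ y ∈ G.neighborFinset x, g x * g y =
      (G.degree x : ℝ) * (g x * ((if x = w then 1 else 0) - pw G w N x)) := by
    intro x _
    rw [Finset.sum_const, ← Finset.mul_sum, ← deg_av G hd g x, G.card_neighborFinset_eq_degree,
      nsmul_eq_mul]
    have h1 := gr_succ G w N x
    have h2 := gr_succ' G w N x
    have h3 : av G g x = g x + pw G w N x - (if x = w then 1 else 0) := by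
      rw [h2] at h1
      linarith
    rw [h3]
    ring
  have e4 : ∑ x ∈ B, ∑ y ∈ G.neighborFinset x, (g x - g y) ^ 2 =
      2 * ∑ x ∈ B, (G.degree x : ℝ) * (g x * ((if x = w then 1 else 0) - pw G w N x)) := by
    rw [e1, e2, ← Finset.sum_congr rfl e3, Finset.sum_sub_distrib]
    ring
  rw [e4]
  apply mul_le_mul_of_nonneg_left _ (by norm_num)
  calc ∑ x ∈ B, (G.degree x : ℝ) * (g x * ((if x = w then 1 else 0) - pw G w N x))
      ≤ ∑ x ∈ B, (if x = w then (G.degree x : ℝ) * g x else 0) := by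
        apply Finset.sum_le_sum
        intro x _
        have h1 := pw_nonneg G w N x
        have h2 := gr_nonneg G w N x
        have h3 : (0 : ℝ) ≤ G.degree x := by positivity
        have h4 := mul_nonneg h3 (mul_nonneg h2 h1)
        split_ifs
        · nlinarith
        · nlinarith
    _ = _ := by
        rw [Finset.sum_ite_eq' B w]
        rw [if_pos (bl_mono G w (Nat.zero_le _) (Finset.mem_singleton_self w))]

/-- The diagonal Green bound. -/
lemma green_bound [Infinite V] (hc : G.Connected) (hd : ∀ v, 0 < G.degree v) {D : ℕ}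
    (hD : ∀ v, G.degree v ≤ D) (w : V) (N : ℕ) : gr G w N w ≤ 4 * D * √N := by
  set g := gr G w N with hg
  set B := bl G w (N + 1) with hB
  rcases (gr_nonneg G w N w).eq_or_lt with h0 | h0
  · rw [← hg] at h0
    rw [← h0]; positivity
  obtain ⟨y, hy⟩ := Infinite.exists_notMem_finset B
  have hgy : g y = 0 := by
    by_contra hne
    exact hy (bl_mono G w (Nat.le_succ N) (gr_supp G w N y hne))
  obtain ⟨p, hp⟩ := hc.exists_isPath w y
  have hex : ∃ i, g (p.getVert i) ≤ g w / 2 := ⟨p.length, by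
    rw [p.getVert_length, hgy]; linarith⟩
  classical
  set ℓ := Nat.find hex with hℓ
  have hℓ1 : g (p.getVert ℓ) ≤ g w / 2 := Nat.find_spec hex
  have hℓ2 : ∀ i < ℓ, g w / 2 < g (p.getVert i) := fun i hi => by
    have := Nat.find_min hex hi
    push Not at this
    exact this
  have hℓlen : ℓ ≤ p.length := Nat.find_min' hex (by rw [p.getVert_length, hgy]; linarith)
  have hinj : Set.InjOn p.getVert (Finset.range ℓ : Set ℕ) := by
    intro i hi j hj hij
    rw [Finset.coe_range, Set.mem_Iio] at hi hj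
    exact hp.getVert_injOn (by simp; omega) (by simp; omega) hij
  have himg : (Finset.range ℓ).image p.getVert ⊆ B := by
    intro x hx
    rw [Finset.mem_image] at hx
    obtain ⟨i, hi, rfl⟩ := hx
    have := hℓ2 i (Finset.mem_range.1 hi)
    exact bl_mono G w (Nat.le_succ N) (gr_supp G w N _ (by linarith : (0:ℝ) < g (p.getVert i)).ne')
  have hsumle : ∀ φ : V → ℝ, (∀ x, 0 ≤ φ x) → ∑ i ∈ Finset.range ℓ, φ (p.getVert i) ≤ ∑ x ∈ B, φ x := by
    intro φ hφ
    rw [← Finset.sum_image (f := φ) hinj]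
    exact Finset.sum_le_sum_of_subset_of_nonneg himg fun x _ _ => hφ x
  -- length of the path
  have hlen : (ℓ : ℝ) * (g w / 2) ≤ N * G.degree w := by
    calc (ℓ : ℝ) * (g w / 2) = ∑ i ∈ Finset.range ℓ, g w / 2 := by
          rw [Finset.sum_const, Finset.card_range, nsmul_eq_mul]
      _ ≤ ∑ i ∈ Finset.range ℓ, (G.degree (p.getVert i) : ℝ) * g (p.getVert i) := by
          apply Finset.sum_le_sum
          intro i hi
          have h1 := hℓ2 i (Finset.mem_range.1 hi)
          have h2 : (1 : ℝ) ≤ G.degree (p.getVert i) := by exact_mod_cast hd _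
          nlinarith
      _ ≤ ∑ x ∈ B, (G.degree x : ℝ) * g x :=
          hsumle (fun x => (G.degree x : ℝ) * g x) fun x => mul_nonneg (by positivity) (gr_nonneg G w N x)
      _ = N * G.degree w := mass_gr G hd w N
  -- energy along the path
  have hen : ∑ i ∈ Finset.range ℓ, (g (p.getVert i) - g (p.getVert (i + 1))) ^ 2 ≤
      2 * (G.degree w * g w) := by
    calc ∑ i ∈ Finset.range ℓ, (g (p.getVert i) - g (p.getVert (i + 1))) ^ 2
        ≤ ∑ i ∈ Finset.range ℓ, ∑ y ∈ G.neighborFinset (p.getVert i), (g (p.getVert i) - g y) ^ 2 := by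
          apply Finset.sum_le_sum
          intro i hi
          apply Finset.single_le_sum (f := fun y => (g (p.getVert i) - g y) ^ 2)
            (fun y _ => sq_nonneg _)
          rw [SimpleGraph.mem_neighborFinset]
          exact p.adj_getVert_succ (by have := Finset.mem_range.1 hi; omega)
      _ ≤ ∑ x ∈ B, ∑ y ∈ G.neighborFinset x, (g x - g y) ^ 2 :=
          hsumle (fun x => ∑ y ∈ G.neighborFinset x, (g x - g y) ^ 2)
            fun x => Finset.sum_nonneg fun y _ => sq_nonneg _
      _ ≤ _ := energy_gr G hd w N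
  have htel : g w / 2 ≤ ∑ i ∈ Finset.range ℓ, (g (p.getVert i) - g (p.getVert (i + 1))) := by
    rw [Finset.sum_range_sub']
    rw [p.getVert_zero]
    linarith
  have hcs : (g w / 2) ^ 2 ≤ ℓ * (2 * (G.degree w * g w)) := by
    calc (g w / 2) ^ 2 ≤ (∑ i ∈ Finset.range ℓ, (g (p.getVert i) - g (p.getVert (i + 1)))) ^ 2 :=
          pow_le_pow_left₀ (by linarith) htel 2
      _ ≤ (Finset.range ℓ).card * ∑ i ∈ Finset.range ℓ, (g (p.getVert i) - g (p.getVert (i + 1))) ^ 2 :=
          sq_sum_le_card_mul_sum_sq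
      _ ≤ ℓ * (2 * (G.degree w * g w)) := by
          rw [Finset.card_range]
          exact mul_le_mul_of_nonneg_left hen (by positivity)
  have hdw : (G.degree w : ℝ) ≤ D := by exact_mod_cast hD w
  have hdw0 : (0 : ℝ) ≤ G.degree w := by positivity
  have hN0 : (0 : ℝ) ≤ N := by positivity
  have hsq : (g w) ^ 2 ≤ (4 * D * √N) ^ 2 := by
    have h1 : (g w) ^ 2 ≤ 16 * (N * (G.degree w : ℝ) ^ 2) := by
      have h2 : ℓ * (2 * (G.degree w * g w)) ≤ 4 * (N * (G.degree w : ℝ) ^ 2) := by
        have := mul_le_mul_of_nonneg_right hlen (mul_nonneg (by norm_num : (0:ℝ) ≤ 4) hdw0)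
        nlinarith
      nlinarith
    calc (g w) ^ 2 ≤ 16 * (N * (G.degree w : ℝ) ^ 2) := h1
      _ ≤ 16 * (N * (D : ℝ) ^ 2) := by
          apply mul_le_mul_of_nonneg_left _ (by norm_num)
          exact mul_le_mul_of_nonneg_left (pow_le_pow_left₀ hdw0 hdw 2) hN0
      _ = (4 * D * √N) ^ 2 := by
          rw [mul_pow, mul_pow, Real.sq_sqrt hN0]; ring
  exact le_of_sq_le_sq hsq (by positivity)

end Pool.Agent.H181.DS
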