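import Pool.Agent.H181.DsA

/-!
# Local times, maximal sums, toppling (MP_fd85b0_pr)
-/

open Finset

namespace Pool.Agent.H181.DS

lemma exp_le_one_add_mul (x : ℝ) : Real.exp x ≤ 1 + x * Real.exp x := by
  have h1 := Real.add_one_le_exp (-x)
  have h2 := Real.exp_pos x
  have h3 : Real.exp (-x) * Real.exp x = 1 := by rw [← Real.exp_add]; simp
  nlinarith

lemma exp_le_quad {x B : ℝ} (hB : 0 ≤ B) (hx : x ≤ B) : Real.exp x ≤ 1 + x + x ^ 2 * Real.exp B := by
  have h1 := exp_le_one_add_mul x
  have hB1 : 1 ≤ Real.exp B := Real.one_le_exp hB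
  rcases le_total x 0 with h0 | h0
  · have h2 := Real.add_one_le_exp x
    have h3 : x * Real.exp x ≤ x * (x + 1) := mul_le_mul_of_nonpos_left h2 h0
    nlinarith [sq_nonneg x]
  · have h3 : x * Real.exp x ≤ x * (1 + x * Real.exp x) := mul_le_mul_of_nonneg_left h1 h0
    have h4 : Real.exp x ≤ Real.exp B := Real.exp_le_exp.2 hx
    have h5 : x ^ 2 * Real.exp x ≤ x ^ 2 * Real.exp B := mul_le_mul_of_nonneg_left h4 (sq_nonneg x)
    nlinarith

lemma exp_sub_one_le {θ : ℝ} (h0 : 0 ≤ θ) (h1 : θ ≤ 1 / 2) : Real.exp θ - 1 ≤ 2 * θ := by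
  have h2 := exp_le_one_add_mul θ
  have h3 := Real.exp_pos θ
  nlinarith

variable {V : Type*} (G : SimpleGraph V) [G.LocallyFinite] [DecidableEq V]

lemma EX_exp_count (hd : ∀ v, 0 < G.degree v) (w : V) {N : ℕ} {θ : ℝ} (hθ : 0 ≤ θ)
    (hκ : (Real.exp θ - 1) * gr G w N w ≤ 1 / 2) (n : ℕ) : n ≤ N → ∀ x,
    EX G n x (fun l => Real.exp (θ * (l.count w : ℝ))) ≤ 1 + 2 * (Real.exp θ - 1) * gr G w n x := by
  have hκ0 : 0 ≤ Real.exp θ - 1 := by have := Real.add_one_le_exp θ; linarith
  induction n with
  | zero => intro _ x; simp [EX_zero, gr]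
  | succ n ih =>
    intro hn x
    rw [EX_succ]
    have hav : av G (gr G w n) x ≤ gr G w N w :=
      calc av G (gr G w n) x ≤ av G (fun _ => gr G w n w) x := av_mono G (gr_le_diag G hd w n) x
        _ = gr G w n w := av_const G (hd x) _
        _ ≤ gr G w N w := gr_mono G w (by omega) w
    have hav0 : 0 ≤ av G (gr G w n) x := av_nonneg G (gr_nonneg G w n) x
    have h1 : av G (fun y => EX G n y (fun l => Real.exp (θ * ((x :: l).count w : ℝ)))) x =
        (if x = w then Real.exp θ else 1) *
          av G (fun y => EX G n y (fun l => Real.exp (θ * (l.count w : ℝ)))) x := by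
      rw [← av_mul]
      congr 1
      funext y
      rw [← EX_mul]
      congr 1
      funext l
      rw [List.count_cons]
      by_cases hxw : x = w
      · subst hxw
        rw [if_pos rfl]
        simp only [beq_self_eq_true, if_true]
        push_cast
        rw [← Real.exp_add]
        congr 1
        ring
      · have : (x == w) = false := by simpa using hxw
        rw [if_neg hxw, this]
        simp
    have h2 : av G (fun y => EX G n y (fun l => Real.exp (θ * (l.count w : ℝ)))) x ≤
        1 + 2 * (Real.exp θ - 1) * av G (gr G w n) x := by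
      calc _ ≤ av G (fun y => 1 + 2 * (Real.exp θ - 1) * gr G w n y) x := av_mono G (ih (by omega)) x
        _ = _ := by rw [av_add, av_const G (hd x), av_mul]
    rw [h1, gr_succ]
    set κ := Real.exp θ - 1 with hκd
    have hexp : Real.exp θ = 1 + κ := by rw [hκd]; ring
    split_ifs with hx
    · rw [hexp]
      have h3 : (1 + κ) * av G (fun y => EX G n y (fun l => Real.exp (θ * (l.count w : ℝ)))) x ≤
          (1 + κ) * (1 + 2 * κ * av G (gr G w n) x) := mul_le_mul_of_nonneg_left h2 (by linarith)
      have h4 : κ * av G (gr G w n) x ≤ 1 / 2 := (mul_le_mul_of_nonneg_left hav hκ0).trans hκ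
      have h5 : κ * (κ * av G (gr G w n) x) ≤ κ * (1 / 2) := mul_le_mul_of_nonneg_left h4 hκ0
      nlinarith
    · linarith

lemma EX_count_pow [Infinite V] (hc : G.Connected) (hd : ∀ v, 0 < G.degree v) {D : ℕ}
    (hD : ∀ v, G.degree v ≤ D) (w : V) {N : ℕ} (hN : 1 ≤ N) (n : ℕ) (hn : n ≤ N) (i : ℕ) (x : V) :
    EX G n x (fun l => (l.count w : ℝ) ^ i) ≤ 2 * i.factorial * (16 * D * √N) ^ i := by
  have hD1 : (1 : ℝ) ≤ D := by exact_mod_cast (hd w).trans_le (hD w)
  have hN1 : (1 : ℝ) ≤ √N := by
    rw [Real.one_le_sqrt]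
    exact_mod_cast hN
  set T : ℝ := 16 * D * √N with hT
  have hT16 : 16 ≤ T := by
    have : (1 : ℝ) ≤ D * √N := by nlinarith
    rw [hT]; nlinarith
  have hTpos : 0 < T := by linarith
  have hθ0 : 0 ≤ 1 / T := by positivity
  have hθ1 : 1 / T ≤ 1 / 2 := by
    apply one_div_le_one_div_of_le <;> linarith
  have hκ : (Real.exp (1 / T) - 1) * gr G w N w ≤ 1 / 2 := by
    have h1 := exp_sub_one_le hθ0 hθ1
    have h2 := green_bound G hc hd hD w N
    have h3 := gr_nonneg G w N w
    calc (Real.exp (1 / T) - 1) * gr G w N w ≤ (2 * (1 / T)) * gr G w N w :=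
          mul_le_mul_of_nonneg_right h1 h3
      _ ≤ (2 * (1 / T)) * (4 * D * √N) := mul_le_mul_of_nonneg_left h2 (by positivity)
      _ = 1 / 2 := by
          rw [show (4 : ℝ) * D * √N = T / 4 by rw [hT]; ring]
          field_simp
          norm_num
  have hpt : ∀ l : List V, (l.count w : ℝ) ^ i ≤
      (i.factorial * T ^ i) * Real.exp (1 / T * (l.count w : ℝ)) := by
    intro l
    have h1 := Real.pow_div_factorial_le_exp (1 / T * (l.count w : ℝ)) (by positivity) i
    rw [div_le_iff₀ (by positivity), mul_pow, div_pow, one_pow] at h1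
    have h2 : (l.count w : ℝ) ^ i = T ^ i * (1 / T ^ i * (l.count w : ℝ) ^ i) := by
      field_simp
    rw [h2]
    calc T ^ i * (1 / T ^ i * (l.count w : ℝ) ^ i) ≤
        T ^ i * (Real.exp (1 / T * (l.count w : ℝ)) * i.factorial) :=
          mul_le_mul_of_nonneg_left h1 (by positivity)
      _ = _ := by ring
  calc EX G n x (fun l => (l.count w : ℝ) ^ i)
      ≤ EX G n x (fun l => (i.factorial * T ^ i) * Real.exp (1 / T * (l.count w : ℝ))) :=
        EX_mono G n x _ _ fun l _ => hpt l
    _ = (i.factorial * T ^ i) * EX G n x (fun l => Real.exp (1 / T * (l.count w : ℝ))) :=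
        EX_mul G n x _ _
    _ ≤ (i.factorial * T ^ i) * 2 := by
        apply mul_le_mul_of_nonneg_left _ (by positivity)
        have h1 := EX_exp_count G hd w hθ0 hκ n hn x
        have h2 := gr_le_diag G hd w n x
        have h3 := gr_mono G w hn w
        have h4 : 0 ≤ Real.exp (1 / T) - 1 := by
          have := Real.add_one_le_exp (1 / T); linarith
        have h5 : (Real.exp (1 / T) - 1) * gr G w n x ≤ 1 / 2 :=
          (mul_le_mul_of_nonneg_left (h2.trans h3) h4).trans hκ
        linarith
    _ = _ := by ring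

/-- A recursive upper bound for `∑_w (count w l)^j`. -/
def Qr (j : ℕ) : List V → ℝ
  | [] => 0
  | v :: l => Qr j l + (((l.count v : ℝ) + 1) ^ j - (l.count v : ℝ) ^ j)

omit [DecidableEq V] in
lemma pow_succ_sub_le (c : ℝ) (hc : 0 ≤ c) (i : ℕ) :
    (c + 1) ^ (i + 1) - c ^ (i + 1) ≤ (i + 1) * (c + 1) ^ i := by
  induction i with
  | zero => simp
  | succ i ih =>
    have h1 : c ^ (i + 1) ≤ (c + 1) ^ (i + 1) := pow_le_pow_left₀ hc (by linarith) _
    have h2 : (c + 1) * ((c + 1) ^ (i + 1) - c ^ (i + 1)) ≤ (c + 1) * ((i + 1) * (c + 1) ^ i) :=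
      mul_le_mul_of_nonneg_left ih (by linarith)
    have h3 : (c + 1) ^ (i + 1 + 1) - c ^ (i + 1 + 1) =
        (c + 1) * ((c + 1) ^ (i + 1) - c ^ (i + 1)) + c ^ (i + 1) := by ring
    rw [h3]
    push_cast
    have h4 : (c + 1) * ((i + 1) * (c + 1) ^ i) = ((i : ℝ) + 1) * (c + 1) ^ (i + 1) := by ring
    rw [h4] at h2
    linarith

lemma sum_count_le (W : Finset V) {j : ℕ} (hj : 0 < j) (l : List V) :
    ∑ w ∈ W, (l.count w : ℝ) ^ j ≤ Qr j l := by
  induction l with
  | nil => simp [Qr, hj.ne']
  | cons v l ih =>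
    have h1 : ∀ w ∈ W, ((v :: l).count w : ℝ) ^ j = (l.count w : ℝ) ^ j +
        (if v = w then (((l.count v : ℝ) + 1) ^ j - (l.count v : ℝ) ^ j) else 0) := by
      intro w _
      rw [List.count_cons]
      by_cases h : v = w
      · subst h
        simp
      · have : (v == w) = false := by simpa using h
        rw [if_neg h, this]
        simp
    rw [Finset.sum_congr rfl h1, Finset.sum_add_distrib, Finset.sum_ite_eq W v]
    have h2 : (0 : ℝ) ≤ ((l.count v : ℝ) + 1) ^ j - (l.count v : ℝ) ^ j := by
      have := pow_le_pow_left₀ (by positivity : (0 : ℝ) ≤ l.count v) (by linarith : (l.count v : ℝ) ≤ l.count v + 1) j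
      linarith
    have h3 : Qr j (v :: l) = Qr j l + (((l.count v : ℝ) + 1) ^ j - (l.count v : ℝ) ^ j) := rfl
    rw [h3]
    split_ifs
    · linarith
    · linarith

lemma sum_count_le_length (W : Finset V) (l : List V) : ∑ w ∈ W, (l.count w : ℝ) ≤ l.length := by
  have h1 := sum_count_le W (j := 1) one_pos l
  simp only [pow_one] at h1
  refine h1.trans ?_
  have : ∀ l : List V, Qr 1 l = l.length := by
    intro l
    induction l with
    | nil => simp [Qr]
    | cons v l ih => simp [Qr, ih]
  rw [this]

lemma EX_Qr [Infinite V] (hc : G.Connected) (hd : ∀ v, 0 < G.degree v) {D : ℕ}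
    (hD : ∀ v, G.degree v ≤ D) {N : ℕ} (hN : 1 ≤ N) (i : ℕ) (n : ℕ) : n ≤ N → ∀ x,
    EX G n x (Qr (i + 1)) ≤ n * ((i + 1) * (2 * i.factorial * (16 * D * √N) ^ i)) := by
  induction n with
  | zero => intro _ x; simp [EX_zero, Qr]
  | succ n ih =>
    intro hn x
    have h1 : EX G (n + 1) x (Qr (i + 1)) ≤
        av G (fun w => EX G n w (fun l => Qr (i + 1) l + (i + 1) * ((x :: l).count x : ℝ) ^ i)) x := by
      rw [EX_succ]
      apply av_mono
      intro w
      apply EX_mono
      intro l _
      have h2 := pow_succ_sub_le (l.count x : ℝ) (by positivity) i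
      have h3 : Qr (i + 1) (x :: l) = Qr (i + 1) l + (((l.count x : ℝ) + 1) ^ (i + 1) - (l.count x : ℝ) ^ (i + 1)) := rfl
      rw [h3, List.count_cons_self]
      push_cast
      linarith
    have h2 : av G (fun w => EX G n w (fun l => Qr (i + 1) l + (i + 1) * ((x :: l).count x : ℝ) ^ i)) x =
        av G (fun w => EX G n w (Qr (i + 1))) x +
          (i + 1) * EX G (n + 1) x (fun l => (l.count x : ℝ) ^ i) := by
      rw [EX_succ, ← av_mul, ← av_add]
      congr 1
      funext w
      rw [EX_add, EX_mul]
    have h3 : av G (fun w => EX G n w (Qr (i + 1))) x ≤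
        n * ((i + 1) * (2 * i.factorial * (16 * D * √N) ^ i)) := by
      calc _ ≤ av G (fun _ => n * ((i + 1) * (2 * i.factorial * (16 * D * √N) ^ i))) x :=
            av_mono G (ih (by omega)) x
        _ = _ := av_const G (hd x) _
    have h4 := EX_count_pow G hc hd hD x hN (n + 1) hn i x
    rw [h2] at h1
    have h5 : ((i : ℝ) + 1) * EX G (n + 1) x (fun l => (l.count x : ℝ) ^ i) ≤
        (i + 1) * (2 * i.factorial * (16 * D * √N) ^ i) :=
      mul_le_mul_of_nonneg_left h4 (by positivity)
    push_cast
    linarith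

lemma EX_congr_len {n : ℕ} {v : V} {Φ Ψ : List V → ℝ} (h : ∀ l, l.length = n → Φ l = Ψ l) :
    EX G n v Φ = EX G n v Ψ :=
  le_antisymm (EX_mono G n v _ _ fun l hl => (h l hl).le) (EX_mono G n v _ _ fun l hl => (h l hl).ge)

lemma EX_Qr_take [Infinite V] (hc : G.Connected) (hd : ∀ v, 0 < G.degree v) {D : ℕ}
    (hD : ∀ v, G.degree v ≤ D) {m : ℕ} (hm : 1 ≤ m) (i : ℕ) (n : ℕ) (x : V) :
    EX G n x (fun l => Qr (i + 1) (l.take m)) ≤
      m * ((i + 1) * (2 * i.factorial * (16 * D * √m) ^ i)) := by
  rcases le_total m n with h | h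
  · rw [EX_take G hd n m h x (Qr (i + 1))]
    exact EX_Qr G hc hd hD hm i m le_rfl x
  · rw [EX_congr_len G (Ψ := Qr (i + 1)) (fun l hl => by rw [List.take_of_length_le (by omega)])]
    refine (EX_Qr G hc hd hD hm i n h x).trans ?_
    apply mul_le_mul_of_nonneg_right _ (by positivity)
    exact_mod_cast h

/-! ## Maximal sums and toppling -/

/-- The maximum of the partial sums of `f` along the list (with the empty one). -/
noncomputable def MS (f : V → ℝ) : List V → ℝ
  | [] => 0
  | v :: l => max 0 (f v + MS f l)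

omit [DecidableEq V] in
lemma MS_mono {f g : V → ℝ} (h : ∀ v, f v ≤ g v) (l : List V) : MS f l ≤ MS g l := by
  induction l with
  | nil => exact le_rfl
  | cons v l ih => exact max_le_max le_rfl (add_le_add (h v) ih)

omit [DecidableEq V] in
lemma MS_le {f : V → ℝ} (l : List V) : ∀ (B : ℝ),
    (∀ m ≤ l.length, ((l.take m).map f).sum ≤ B) → MS f l ≤ B := by
  induction l with
  | nil => intro B h; simpa [MS] using h 0 le_rfl
  | cons v l ih =>
    intro B h
    apply max_le
    · simpa using h 0 (Nat.zero_le _)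
    · have : MS f l ≤ B - f v := by
        apply ih
        intro m hm
        have := h (m + 1) (by simp [hm])
        simp only [List.take_succ_cons, List.map_cons, List.sum_cons] at this
        linarith
      linarith

omit [DecidableEq V] in
/-- Parallel toppling: the pair (odometer `u_n`, configuration `σ_n`). -/
noncomputable def topple (σ : V → ℝ) : ℕ → (V → ℝ) × (V → ℝ)
  | 0 => (fun _ => 0, σ)
  | n + 1 => (fun v => (topple σ n).1 v + max ((topple σ n).2 v - 1) 0 / G.degree v,
      fun v => min ((topple σ n).2 v) 1 +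
        ∑ w ∈ G.neighborFinset v, max ((topple σ n).2 w - 1) 0 / G.degree w)

omit [DecidableEq V] in
lemma topple_inv (hd : ∀ v, 0 < G.degree v) (σ : V → ℝ) (n : ℕ) : ∀ v,
    (topple G σ n).2 v = σ v - G.degree v * (topple G σ n).1 v +
      ∑ w ∈ G.neighborFinset v, (topple G σ n).1 w := by
  induction n with
  | zero => intro v; simp [topple]
  | succ n ih =>
    intro v
    have h1 : (topple G σ (n + 1)).2 v = min ((topple G σ n).2 v) 1 +
        ∑ w ∈ G.neighborFinset v, max ((topple G σ n).2 w - 1) 0 / G.degree w := rfl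
    have h2 : ∀ v, (topple G σ (n + 1)).1 v = (topple G σ n).1 v +
        max ((topple G σ n).2 v - 1) 0 / G.degree v := fun _ => rfl
    have hdv : (0 : ℝ) < G.degree v := by exact_mod_cast hd v
    have h3 : min ((topple G σ n).2 v) 1 = (topple G σ n).2 v - max ((topple G σ n).2 v - 1) 0 := by
      rcases le_total ((topple G σ n).2 v) 1 with h | h
      · rw [min_eq_left h, max_eq_right (by linarith)]; ring
      · rw [min_eq_right h, max_eq_left (by linarith)]; ring
    have h4 : (G.degree v : ℝ) * (max ((topple G σ n).2 v - 1) 0 / G.degree v) =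
        max ((topple G σ n).2 v - 1) 0 := by field_simp
    rw [h1, h3, h2 v, Finset.sum_congr rfl fun w _ => h2 w, Finset.sum_add_distrib, mul_add, h4]
    have h5 := ih v
    linarith

omit [DecidableEq V] in
lemma topple_succ (hd : ∀ v, 0 < G.degree v) (σ : V → ℝ) (n : ℕ) (v : V) :
    (topple G σ (n + 1)).1 v = max ((topple G σ n).1 v)
      ((σ v - 1) / G.degree v + av G (topple G σ n).1 v) := by
  have h2 : (topple G σ (n + 1)).1 v = (topple G σ n).1 v +
        max ((topple G σ n).2 v - 1) 0 / G.degree v := rfl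
  have hdv : (0 : ℝ) < G.degree v := by exact_mod_cast hd v
  have h3 : max ((topple G σ n).2 v - 1) 0 / G.degree v =
      max (((topple G σ n).2 v - 1) / G.degree v) 0 := by
    rcases le_total ((topple G σ n).2 v - 1) 0 with h | h
    · rw [max_eq_right h, max_eq_right (div_nonpos_of_nonpos_of_nonneg h hdv.le), zero_div]
    · rw [max_eq_left h, max_eq_left (by positivity)]
  have h4 : (σ v - 1) / G.degree v + av G (topple G σ n).1 v =
      (topple G σ n).1 v + ((topple G σ n).2 v - 1) / G.degree v := by
    rw [topple_inv G hd σ n v]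
    unfold av
    field_simp
    ring
  rw [h2, h3, h4]
  rcases le_total (((topple G σ n).2 v - 1) / G.degree v) 0 with h | h
  · rw [max_eq_right h, max_eq_left (by linarith)]; ring
  · rw [max_eq_left h, max_eq_right (by linarith)]

omit [DecidableEq V] in
lemma topple_mono (hd : ∀ v, 0 < G.degree v) (σ : V → ℝ) (n : ℕ) (v : V) :
    (topple G σ n).1 v ≤ (topple G σ (n + 1)).1 v := by
  rw [topple_succ G hd]
  exact le_max_left _ _

omit [DecidableEq V] in
lemma topple_le_max (hd : ∀ v, 0 < G.degree v) (σ : V → ℝ) (n : ℕ) : ∀ v,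
    (topple G σ (n + 1)).1 v ≤ max 0 ((σ v - 1) / G.degree v + av G (topple G σ n).1 v) := by
  induction n with
  | zero =>
    intro v
    rw [topple_succ G hd]
    exact le_rfl
  | succ n ih =>
    intro v
    rw [topple_succ G hd]
    apply max_le _ (le_max_right _ _)
    refine (ih v).trans ?_
    apply max_le_max le_rfl
    have := av_mono G (topple_mono G hd σ n) v
    linarith

omit [DecidableEq V] in
lemma topple_le_EX (hd : ∀ v, 0 < G.degree v) (σ : V → ℝ) (n : ℕ) : ∀ v,
    (topple G σ n).1 v ≤ EX G n v (MS fun w => (σ w - 1) / G.degree w) := by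
  induction n with
  | zero => intro v; exact le_rfl
  | succ n ih =>
    intro v
    refine (topple_le_max G hd σ n v).trans ?_
    rw [EX_succ]
    apply max_le
    · apply av_nonneg
      intro w
      apply EX_nonneg
      intro l
      exact le_max_left _ _
    · calc (σ v - 1) / G.degree v + av G (topple G σ n).1 v
          ≤ (σ v - 1) / G.degree v + av G (fun w => EX G n w (MS fun w => (σ w - 1) / G.degree w)) v := by
            have := av_mono G ih v
            linarith
        _ = av G (fun w => EX G n w (fun l => (σ v - 1) / G.degree v +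
              MS (fun w => (σ w - 1) / G.degree w) l)) v := by
            have h1 : av G (fun _ => (σ v - 1) / (G.degree v : ℝ)) v = (σ v - 1) / G.degree v :=
              av_const G (hd v) _
            rw [← h1, ← av_add]
            congr 1
            funext w
            rw [EX_add, EX_const G hd, h1]
        _ ≤ _ := by
            apply av_mono
            intro w
            apply EX_mono
            intro l _
            exact le_max_right _ _

end Pool.Agent.H181.DS
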