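import Pool.Agent.H181.DsB

/-!
# Expectation of the maximal sum along a fixed path (MP_fd85b0_pr)
-/

open Finset MeasureTheory ProbabilityTheory

namespace Pool.Agent.H181.DS

/-- Truncation: keep `x` if `b * x ≤ τ`. -/
noncomputable def tr (b τ x : ℝ) : ℝ := if b * x ≤ τ then x else 0

/-- The large part. -/
noncomputable def bg (τ b y : ℝ) : ℝ := if τ < b * y then b * y else 0

lemma tr_meas (b τ : ℝ) : Measurable (tr b τ) :=
  Measurable.ite (measurableSet_le (measurable_const.mul measurable_id) measurable_const)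
    measurable_id measurable_const

lemma bg_meas (τ b : ℝ) : Measurable (bg τ b) :=
  Measurable.ite (measurableSet_lt measurable_const (measurable_const.mul measurable_id))
    (measurable_const.mul measurable_id) measurable_const

lemma tr_le {b τ : ℝ} (hb : 0 ≤ b) (hτ : 0 ≤ τ) (x : ℝ) : tr b τ x ≤ x := by
  unfold tr
  split_ifs with h
  · exact le_rfl
  · push Not at h
    by_contra hx
    push Not at hx
    have : b * x ≤ 0 := mul_nonpos_of_nonneg_of_nonpos hb hx.le
    linarith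

lemma tr_sq (b τ x : ℝ) : (tr b τ x) ^ 2 ≤ x ^ 2 := by
  unfold tr
  split_ifs
  · exact le_rfl
  · have := sq_nonneg x; simpa using this

lemma tr_abs (b τ x : ℝ) : |tr b τ x| ≤ |x| := sq_le_sq.1 (tr_sq b τ x)

lemma mul_tr_le {a b τ : ℝ} (ha : 0 ≤ a) (hab : a ≤ b) (hτ : 0 ≤ τ) (x : ℝ) :
    a * tr b τ x ≤ τ := by
  unfold tr
  split_ifs with h
  · rcases le_total x 0 with hx | hx
    · have : a * x ≤ 0 := mul_nonpos_of_nonneg_of_nonpos ha hx
      linarith
    · exact (mul_le_mul_of_nonneg_right hab hx).trans h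
  · rw [mul_zero]; exact hτ

lemma bg_nonneg {τ b y : ℝ} (hb : 0 ≤ b) (hy : 0 ≤ y) : 0 ≤ bg τ b y := by
  unfold bg
  split_ifs
  · positivity
  · exact le_rfl

lemma bg_le {τ b y : ℝ} (hb : 0 ≤ b) (hy : 0 ≤ y) : bg τ b y ≤ b * y := by
  unfold bg
  split_ifs
  · exact le_rfl
  · positivity

lemma bg_le_pow {τ b y : ℝ} (hτ : 0 < τ) (hb : 0 ≤ b) (hy : 0 ≤ y) :
    bg τ b y ≤ b ^ 5 * (y ^ 5 / τ ^ 4) := by
  unfold bg
  split_ifs with h
  · have h0 : 0 < b * y := hτ.trans h
    have h1 : τ ^ 4 ≤ (b * y) ^ 4 := pow_le_pow_left₀ hτ.le h.le 4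
    have h2 : b ^ 5 * (y ^ 5 / τ ^ 4) = (b * y) * ((b * y) ^ 4 / τ ^ 4) := by field_simp
    rw [h2]
    have h3 : 1 ≤ (b * y) ^ 4 / τ ^ 4 := by rwa [one_le_div (by positivity)]
    nlinarith
  · positivity

section fixedpath

variable {V : Type*} {Ω : Type*} [MeasurableSpace Ω] {P : Measure Ω} [IsProbabilityMeasure P]

lemma light_exp {ξ : V → Ω → ℝ} (hm : ∀ w, Measurable (ξ w)) (hi : iIndepFun ξ P)
    (hint : ∀ w, Integrable (ξ w) P) (hsq : ∀ w, Integrable (fun ω => ξ w ω ^ 2) P)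
    {c0 F2 : ℝ} (hmean : ∀ w, ∫ ω, ξ w ω ∂P ≤ -c0)
    (hF2 : ∀ w, ∫ ω, ξ w ω ^ 2 ∂P ≤ F2)
    (W : Finset V) {a b : V → ℝ} (ha : ∀ w, 0 ≤ a w) (hab : ∀ w, a w ≤ b w) {τ θ : ℝ}
    (hτ : 0 ≤ τ) (hθ : 0 < θ) :
    ∫ ω, Real.exp (θ * ∑ w ∈ W, a w * tr (b w) τ (ξ w ω)) ∂P ≤
      Real.exp (-c0 * θ * ∑ w ∈ W, a w +
        θ ^ 2 * Real.exp (θ * τ) * F2 * ∑ w ∈ W, (a w) ^ 2) ∧
    Integrable (fun ω => Real.exp (θ * ∑ w ∈ W, a w * tr (b w) τ (ξ w ω))) P := by
  set X : V → Ω → ℝ := fun w ω => a w * tr (b w) τ (ξ w ω) with hX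
  have hXm : ∀ w, Measurable (X w) := fun w => ((tr_meas (b w) τ).comp (hm w)).const_mul _
  have hXi : iIndepFun X P :=
    hi.comp (fun w x => a w * tr (b w) τ x) (fun w => (tr_meas (b w) τ).const_mul _)
  have hXle : ∀ w ω, X w ω ≤ τ := fun w ω => mul_tr_le (ha w) (hab w) hτ _
  have hexpint : ∀ w, Integrable (fun ω => Real.exp (θ * X w ω)) P := by
    intro w
    apply Integrable.of_bound ((hXm w).const_mul θ).exp.aestronglyMeasurable (Real.exp (θ * τ))
    refine Filter.Eventually.of_forall fun ω => ?_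
    rw [Real.norm_eq_abs, abs_of_pos (Real.exp_pos _)]
    exact Real.exp_le_exp.2 (mul_le_mul_of_nonneg_left (hXle w ω) hθ.le)
  constructor
  · have h1 := iIndepFun.mgf_sum hXi hXm W (t := θ)
    have h2 : mgf (∑ i ∈ W, X i) P θ = ∫ ω, Real.exp (θ * ∑ w ∈ W, a w * tr (b w) τ (ξ w ω)) ∂P := by
      unfold mgf
      apply integral_congr_ae
      refine Filter.Eventually.of_forall fun ω => ?_
      simp only [Finset.sum_apply, hX]
    rw [← h2, h1]
    have h3 : ∀ w ∈ W, mgf (X w) P θ ≤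
        Real.exp (-c0 * θ * a w + θ ^ 2 * Real.exp (θ * τ) * F2 * (a w) ^ 2) := by
      intro w _
      have htr : Integrable (fun ω => tr (b w) τ (ξ w ω)) P :=
        (hint w).mono ((tr_meas (b w) τ).comp (hm w)).aestronglyMeasurable
          (Filter.Eventually.of_forall fun ω => by
            rw [Real.norm_eq_abs, Real.norm_eq_abs]; exact tr_abs _ _ _)
      have htr2 : Integrable (fun ω => (tr (b w) τ (ξ w ω)) ^ 2) P :=
        (hsq w).mono (((tr_meas (b w) τ).comp (hm w)).pow_const 2).aestronglyMeasurable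
          (Filter.Eventually.of_forall fun ω => by
            rw [Real.norm_eq_abs, Real.norm_eq_abs, abs_of_nonneg (sq_nonneg _),
              abs_of_nonneg (sq_nonneg _)]
            exact tr_sq _ _ _)
      have hb0 : 0 ≤ b w := (ha w).trans (hab w)
      have hR : Integrable (fun ω => 1 + θ * a w * tr (b w) τ (ξ w ω) +
          (θ ^ 2 * (a w) ^ 2 * Real.exp (θ * τ)) * (tr (b w) τ (ξ w ω)) ^ 2) P :=
        ((integrable_const _).add (htr.const_mul _)).add (htr2.const_mul _)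
      calc mgf (X w) P θ = ∫ ω, Real.exp (θ * X w ω) ∂P := rfl
        _ ≤ ∫ ω, (1 + θ * a w * tr (b w) τ (ξ w ω) +
              (θ ^ 2 * (a w) ^ 2 * Real.exp (θ * τ)) * (tr (b w) τ (ξ w ω)) ^ 2) ∂P := by
            apply integral_mono (hexpint w) hR
            intro ω
            have h4 := exp_le_quad (x := θ * X w ω) (B := θ * τ) (by positivity)
              (mul_le_mul_of_nonneg_left (hXle w ω) hθ.le)
            have h5 : 1 + θ * X w ω + (θ * X w ω) ^ 2 * Real.exp (θ * τ) =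
              1 + θ * a w * tr (b w) τ (ξ w ω) +
              (θ ^ 2 * (a w) ^ 2 * Real.exp (θ * τ)) * (tr (b w) τ (ξ w ω)) ^ 2 := by
              simp only [hX]; ring
            rw [h5] at h4
            exact h4
        _ = 1 + θ * a w * ∫ ω, tr (b w) τ (ξ w ω) ∂P +
              (θ ^ 2 * (a w) ^ 2 * Real.exp (θ * τ)) * ∫ ω, (tr (b w) τ (ξ w ω)) ^ 2 ∂P := by
            have hA : Integrable (fun ω => 1 + θ * a w * tr (b w) τ (ξ w ω)) P :=
              (integrable_const _).add (htr.const_mul _)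
            have hB : Integrable (fun ω => (θ ^ 2 * (a w) ^ 2 * Real.exp (θ * τ)) *
              (tr (b w) τ (ξ w ω)) ^ 2) P := htr2.const_mul _
            have hC : Integrable (fun ω => θ * a w * tr (b w) τ (ξ w ω)) P := htr.const_mul _
            rw [integral_add hA hB, integral_add (integrable_const _) hC, integral_const_mul,
              integral_const_mul]
            simp
        _ ≤ 1 + θ * a w * (-c0) + (θ ^ 2 * (a w) ^ 2 * Real.exp (θ * τ)) * F2 := by
            have h6 : ∫ ω, tr (b w) τ (ξ w ω) ∂P ≤ -c0 :=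
              (integral_mono htr (hint w) fun ω => tr_le hb0 hτ _).trans (hmean w)
            have h7 : ∫ ω, (tr (b w) τ (ξ w ω)) ^ 2 ∂P ≤ F2 :=
              (integral_mono htr2 (hsq w) fun ω => tr_sq _ _ _).trans (hF2 w)
            have h8 : 0 ≤ θ * a w := mul_nonneg hθ.le (ha w)
            have h9 : 0 ≤ θ ^ 2 * (a w) ^ 2 * Real.exp (θ * τ) := by positivity
            have := mul_le_mul_of_nonneg_left h6 h8
            have := mul_le_mul_of_nonneg_left h7 h9
            linarith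
        _ = (-c0 * θ * a w + θ ^ 2 * Real.exp (θ * τ) * F2 * (a w) ^ 2) + 1 := by ring
        _ ≤ _ := Real.add_one_le_exp _
    calc ∏ w ∈ W, mgf (X w) P θ ≤ ∏ w ∈ W,
          Real.exp (-c0 * θ * a w + θ ^ 2 * Real.exp (θ * τ) * F2 * (a w) ^ 2) :=
          Finset.prod_le_prod (fun w _ => mgf_nonneg) h3
      _ = _ := by
          rw [← Real.exp_sum, Finset.sum_add_distrib, ← Finset.mul_sum, ← Finset.mul_sum]
  · apply Integrable.of_bound _ (Real.exp (θ * ∑ _w ∈ W, τ))
    · refine Filter.Eventually.of_forall fun ω => ?_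
      rw [Real.norm_eq_abs, abs_of_pos (Real.exp_pos _)]
      exact Real.exp_le_exp.2 (mul_le_mul_of_nonneg_left
        (Finset.sum_le_sum fun w _ => hXle w ω) hθ.le)
    · exact ((Finset.measurable_fun_sum W fun w _ => hXm w).const_mul θ).exp.aestronglyMeasurable

/-- `θ_k` -/
noncomputable def th (c0 : ℝ) (k : ℕ) : ℝ := 8 * (k + 1) / (c0 * 2 ^ k)
/-- `τ_k` -/
noncomputable def ta (c0 : ℝ) (k : ℕ) : ℝ := c0 / 128 * 2 ^ k
/-- `Λ_k` -/
noncomputable def La (c0 F2 : ℝ) (k : ℕ) : ℝ :=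
  c0 ^ 2 * 2 ^ k / (16 * (k + 1) * Real.exp ((k + 1) / 16) * F2)

lemma light_small {ξ : V → Ω → ℝ} (hm : ∀ w, Measurable (ξ w)) (hi : iIndepFun ξ P)
    (hint : ∀ w, Integrable (ξ w) P) (hsq : ∀ w, Integrable (fun ω => ξ w ω ^ 2) P)
    {c0 F2 : ℝ} (hc0 : 0 < c0) (hF20 : 0 < F2) (hmean : ∀ w, ∫ ω, ξ w ω ∂P ≤ -c0)
    (hF2 : ∀ w, ∫ ω, ξ w ω ^ 2 ∂P ≤ F2)
    (W : Finset V) {a b : V → ℝ} (ha : ∀ w, 0 ≤ a w) (hab : ∀ w, a w ≤ b w) {k : ℕ}
    (hsum : (2 : ℝ) ^ k ≤ ∑ w ∈ W, a w) (hLa : ∀ w ∈ W, a w ≤ La c0 F2 k) :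
    ∫ ω, max (∑ w ∈ W, a w * tr (b w) (ta c0 k) (ξ w ω)) 0 ∂P ≤
      c0 * 2 ^ k * Real.exp (-4 * (k + 1)) := by
  have hθ : 0 < th c0 k := by unfold th; positivity
  have hτ : 0 < ta c0 k := by unfold ta; positivity
  have hθτ : th c0 k * ta c0 k = (k + 1) / 16 := by
    unfold th ta
    field_simp
    norm_num
  obtain ⟨h1, h2⟩ := light_exp hm hi hint hsq hmean hF2 W ha hab hτ.le hθ
  set θ := th c0 k with hθd
  have h3 : ∀ x : ℝ, max x 0 ≤ 1 / θ * Real.exp (θ * x) := by
    intro x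
    have h4 := Real.add_one_le_exp (θ * x)
    have h5 := Real.exp_pos (θ * x)
    rw [one_div, ← div_eq_inv_mul, le_div_iff₀ hθ]
    rcases le_total x 0 with hx | hx
    · rw [max_eq_right hx]; linarith
    · rw [max_eq_left hx]; linarith
  have h4 : ∫ ω, max (∑ w ∈ W, a w * tr (b w) (ta c0 k) (ξ w ω)) 0 ∂P ≤
      ∫ ω, 1 / θ * Real.exp (θ * ∑ w ∈ W, a w * tr (b w) (ta c0 k) (ξ w ω)) ∂P := by
    apply integral_mono_of_nonneg
    · exact Filter.Eventually.of_forall fun ω => le_max_right _ _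
    · exact h2.const_mul _
    · exact Filter.Eventually.of_forall fun ω => h3 _
  rw [integral_const_mul] at h4
  refine h4.trans ?_
  have hinv : 1 / θ ≤ c0 * 2 ^ k := by
    rw [hθd]; unfold th
    rw [one_div_div, div_le_iff₀ (by positivity)]
    have : (0 : ℝ) ≤ k := by positivity
    have h5 : 0 < c0 * 2 ^ k := by positivity
    nlinarith
  have hexp : ∫ ω, Real.exp (θ * ∑ w ∈ W, a w * tr (b w) (ta c0 k) (ξ w ω)) ∂P ≤
      Real.exp (-4 * (k + 1)) := by
    refine h1.trans (Real.exp_le_exp.2 ?_)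
    rw [hθτ]
    set s := ∑ w ∈ W, a w with hs
    have h5 : ∑ w ∈ W, (a w) ^ 2 ≤ La c0 F2 k * s := by
      rw [hs, Finset.mul_sum]
      apply Finset.sum_le_sum
      intro w hw
      rw [sq]
      exact mul_le_mul_of_nonneg_right (hLa w hw) (ha w)
    have h6 : θ ^ 2 * Real.exp ((k + 1) / 16) * F2 * ∑ w ∈ W, (a w) ^ 2 ≤
        θ ^ 2 * Real.exp ((k + 1) / 16) * F2 * (La c0 F2 k * s) :=
      mul_le_mul_of_nonneg_left h5 (by positivity)
    have h7 : θ ^ 2 * Real.exp ((k + 1) / 16) * F2 * (La c0 F2 k * s) = c0 / 2 * θ * s := by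
      have hE := Real.exp_pos (((k : ℝ) + 1) / 16)
      rw [hθd]; unfold th La
      field_simp
      ring
    have h8 : c0 * θ * 2 ^ k = 8 * (k + 1) := by
      rw [hθd]; unfold th
      field_simp
    have h9 : c0 * θ * 2 ^ k ≤ c0 * θ * s := mul_le_mul_of_nonneg_left hsum (by positivity)
    have h10 : -c0 * θ * s = -(c0 * θ * s) := by ring
    have h11 : c0 / 2 * θ * s = (c0 * θ * s) / 2 := by ring
    rw [h10]
    rw [h7, h11] at h6
    linarith
  calc 1 / θ * ∫ ω, Real.exp (θ * ∑ w ∈ W, a w * tr (b w) (ta c0 k) (ξ w ω)) ∂P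
      ≤ 1 / θ * Real.exp (-4 * (k + 1)) := mul_le_mul_of_nonneg_left hexp (by positivity)
    _ ≤ _ := mul_le_mul_of_nonneg_right hinv (Real.exp_pos _).le

lemma light_big {ξ Y : V → Ω → ℝ}
    (hY : ∀ w, Integrable (Y w) P) (hY0 : ∀ w ω, 0 ≤ Y w ω) (hξY : ∀ w ω, ξ w ω ≤ Y w ω)
    {F1 : ℝ} (hF1 : ∀ w, ∫ ω, Y w ω ∂P ≤ F1)
    (W : Finset V) {a b : V → ℝ} (ha : ∀ w, 0 ≤ a w) (hab : ∀ w, a w ≤ b w) {τ : ℝ} (hτ : 0 ≤ τ) :
    ∫ ω, max (∑ w ∈ W, a w * tr (b w) τ (ξ w ω)) 0 ∂P ≤ (∑ w ∈ W, a w) * F1 := by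
  have h1 : ∫ ω, max (∑ w ∈ W, a w * tr (b w) τ (ξ w ω)) 0 ∂P ≤ ∫ ω, ∑ w ∈ W, a w * Y w ω ∂P := by
    apply integral_mono_of_nonneg
    · exact Filter.Eventually.of_forall fun ω => le_max_right _ _
    · exact integrable_finsetSum W fun w _ => (hY w).const_mul _
    · refine Filter.Eventually.of_forall fun ω => ?_
      apply max_le
      · apply Finset.sum_le_sum
        intro w _
        exact mul_le_mul_of_nonneg_left
          ((tr_le ((ha w).trans (hab w)) hτ _).trans (hξY w ω)) (ha w)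
      · exact Finset.sum_nonneg fun w _ => mul_nonneg (ha w) (hY0 w ω)
  refine h1.trans ?_
  rw [integral_finsetSum W fun w _ => (hY w).const_mul _, Finset.sum_mul]
  apply Finset.sum_le_sum
  intro w _
  rw [integral_const_mul]
  exact mul_le_mul_of_nonneg_left (hF1 w) (ha w)

variable [DecidableEq V]

lemma count_take_le (l : List V) (w : V) {m M : ℕ} (h : m ≤ M) :
    (l.take m).count w ≤ (l.take M).count w := by
  have : l.take m = (l.take M).take m := by rw [List.take_take, min_eq_left h]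
  rw [this]
  exact (List.take_sublist m (l.take M)).count_le w

lemma sum_take_eq (l : List V) (m : ℕ) (f : V → ℝ) :
    ((l.take m).map f).sum = ∑ w ∈ l.toFinset, ((l.take m).count w : ℝ) * f w := by
  rw [Finset.sum_list_map_count]
  simp only [nsmul_eq_mul]
  apply Finset.sum_subset
  · intro x hx
    rw [List.mem_toFinset] at hx ⊢
    exact List.mem_of_mem_take hx
  · intro x _ hx
    rw [List.mem_toFinset] at hx
    rw [List.count_eq_zero_of_not_mem hx]
    simp

lemma sum_count_take (l : List V) {m : ℕ} (hm : m ≤ l.length) :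
    ∑ w ∈ l.toFinset, ((l.take m).count w : ℝ) = m := by
  have h := sum_take_eq l m (fun _ => 1)
  simp only [mul_one] at h
  rw [← h]
  simp [hm]

lemma MS_split {f y : V → ℝ} (hfy : ∀ w, f w ≤ y w) (hy : ∀ w, 0 ≤ y w)
    {τ : ℕ → ℝ} (hτ : ∀ k, 0 < τ k) (l : List V) (K : ℕ) (hK : l.length < 2 ^ K) :
    MS f l ≤ ∑ k ∈ range K, ∑ w ∈ l.toFinset, bg (τ k) ((l.take (2 ^ (k + 1))).count w) (y w) +
      ∑ m ∈ Ico 1 (l.length + 1), max (∑ w ∈ l.toFinset, ((l.take m).count w : ℝ) *
        tr ((l.take (2 ^ (Nat.log 2 m + 1))).count w) (τ (Nat.log 2 m)) (f w)) 0 := by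
  have hA0 : ∀ k, 0 ≤ ∑ w ∈ l.toFinset, bg (τ k) ((l.take (2 ^ (k + 1))).count w) (y w) :=
    fun k => Finset.sum_nonneg fun w _ => bg_nonneg (by positivity) (hy w)
  have hA : 0 ≤ ∑ k ∈ range K, ∑ w ∈ l.toFinset, bg (τ k) ((l.take (2 ^ (k + 1))).count w) (y w) :=
    Finset.sum_nonneg fun k _ => hA0 k
  have hB : 0 ≤ ∑ m ∈ Ico 1 (l.length + 1), max (∑ w ∈ l.toFinset, ((l.take m).count w : ℝ) *
        tr ((l.take (2 ^ (Nat.log 2 m + 1))).count w) (τ (Nat.log 2 m)) (f w)) 0 :=
    Finset.sum_nonneg fun m _ => le_max_right _ _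
  apply MS_le
  intro m hm
  rcases Nat.eq_zero_or_pos m with rfl | hm0
  · simp only [List.take_zero, List.map_nil, List.sum_nil]
    linarith
  set k := Nat.log 2 m with hk
  have hk1 : 2 ^ k ≤ m := Nat.pow_log_le_self 2 hm0.ne'
  have hk2 : m < 2 ^ (k + 1) := Nat.lt_pow_succ_log_self (by norm_num) m
  have hkK : k < K := by
    by_contra hcon
    push Not at hcon
    have : 2 ^ K ≤ 2 ^ k := Nat.pow_le_pow_right (by norm_num) hcon
    omega
  have h1 : ((l.take m).map f).sum ≤
      ∑ w ∈ l.toFinset, ((l.take m).count w : ℝ) * tr ((l.take (2 ^ (k + 1))).count w) (τ k) (f w) +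
      ∑ w ∈ l.toFinset, bg (τ k) ((l.take (2 ^ (k + 1))).count w) (y w) := by
    rw [sum_take_eq, ← Finset.sum_add_distrib]
    apply Finset.sum_le_sum
    intro w _
    have hc : ((l.take m).count w : ℝ) ≤ ((l.take (2 ^ (k + 1))).count w : ℝ) := by
      exact_mod_cast count_take_le l w hk2.le
    have hc0 : (0 : ℝ) ≤ ((l.take m).count w : ℝ) := by positivity
    have hb0 : (0 : ℝ) ≤ ((l.take (2 ^ (k + 1))).count w : ℝ) := by positivity
    have hbg := bg_nonneg (τ := τ k) hb0 (hy w)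
    set c := ((l.take m).count w : ℝ)
    set b := ((l.take (2 ^ (k + 1))).count w : ℝ)
    unfold tr
    split_ifs with h
    · linarith
    · push Not at h
      have hf : 0 < f w := by
        by_contra hcon
        push Not at hcon
        have := mul_nonpos_of_nonneg_of_nonpos hb0 hcon
        have := hτ k
        linarith
      have h2 : b * f w ≤ b * y w := mul_le_mul_of_nonneg_left (hfy w) hb0
      have h3 : bg (τ k) b (y w) = b * y w := by
        unfold bg
        rw [if_pos (h.trans_le h2)]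
      rw [h3, mul_zero, zero_add]
      exact (mul_le_mul_of_nonneg_right hc hf.le).trans h2
  refine h1.trans ?_
  rw [add_comm]
  apply add_le_add
  · exact Finset.single_le_sum (f := fun k => ∑ w ∈ l.toFinset,
      bg (τ k) ((l.take (2 ^ (k + 1))).count w) (y w)) (fun k _ => hA0 k) (Finset.mem_range.2 hkK)
  · refine (le_max_left _ 0).trans ?_
    exact Finset.single_le_sum (f := fun m => max (∑ w ∈ l.toFinset, ((l.take m).count w : ℝ) *
        tr ((l.take (2 ^ (Nat.log 2 m + 1))).count w) (τ (Nat.log 2 m)) (f w)) 0)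
        (fun m _ => le_max_right _ _) (Finset.mem_Ico.2 ⟨hm0, by omega⟩)

/-- The sum of the large parts. -/
noncomputable def Psi (c0 : ℝ) (K : ℕ) (l : List V) (y : ℝ) : ℝ :=
  ∑ k ∈ range K, ∑ w ∈ l.toFinset, bg (ta c0 k) ((l.take (2 ^ (k + 1))).count w) y

lemma bg_integrable {Z : Ω → ℝ} (hZm : Measurable Z) (hZ : Integrable Z P) (hZ0 : ∀ ω, 0 ≤ Z ω)
    (τ : ℝ) {b : ℝ} (hb : 0 ≤ b) : Integrable (fun ω => bg τ b (Z ω)) P :=
  (hZ.const_mul b).mono ((bg_meas τ b).comp hZm).aestronglyMeasurable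
    (Filter.Eventually.of_forall fun ω => by
      rw [Real.norm_eq_abs, Real.norm_eq_abs, abs_of_nonneg (bg_nonneg hb (hZ0 ω)),
        abs_of_nonneg (mul_nonneg hb (hZ0 ω))]
      exact bg_le hb (hZ0 ω))

lemma Psi_integrable {Z : Ω → ℝ} (hZm : Measurable Z) (hZ : Integrable Z P) (hZ0 : ∀ ω, 0 ≤ Z ω)
    (c0 : ℝ) (K : ℕ) (l : List V) : Integrable (fun ω => Psi c0 K l (Z ω)) P :=
  integrable_finsetSum _ fun k _ => integrable_finsetSum _ fun w _ =>
    bg_integrable hZm hZ hZ0 _ (by positivity)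

omit [DecidableEq V] in
lemma MS_integrable {ξ : V → Ω → ℝ} (hint : ∀ w, Integrable (ξ w) P) (l : List V) :
    Integrable (fun ω => MS (fun w => ξ w ω) l) P := by
  induction l with
  | nil => exact integrable_const _
  | cons v l ih => exact (integrable_const (0:ℝ)).sup ((hint v).add ih)

lemma int_MS_le {ξ Y : V → Ω → ℝ} (hm : ∀ w, Measurable (ξ w)) (hi : iIndepFun ξ P)
    (hint : ∀ w, Integrable (ξ w) P) (hsq : ∀ w, Integrable (fun ω => ξ w ω ^ 2) P)
    {c0 F2 : ℝ} (hc0 : 0 < c0) (hF20 : 0 < F2) (hmean : ∀ w, ∫ ω, ξ w ω ∂P ≤ -c0)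
    (hF2 : ∀ w, ∫ ω, ξ w ω ^ 2 ∂P ≤ F2)
    (hYm : ∀ w, Measurable (Y w)) (hY : ∀ w, Integrable (Y w) P) (hY0 : ∀ w ω, 0 ≤ Y w ω)
    (hξY : ∀ w ω, ξ w ω ≤ Y w ω)
    (o : V) (hident : ∀ w, IdentDistrib (Y w) (Y o) P P)
    (l : List V) (K : ℕ) (hK : l.length < 2 ^ K) :
    ∫ ω, MS (fun w => ξ w ω) l ∂P ≤ ∫ ω, Psi c0 K l (Y o ω) ∂P +
      ∑ m ∈ Ico 1 (l.length + 1), (c0 * 2 ^ (Nat.log 2 m) * Real.exp (-4 * ((Nat.log 2 m : ℕ) + 1)) +
        m * (∫ ω, Y o ω ∂P) / La c0 F2 (Nat.log 2 m) ^ 9 * Qr 9 (l.take m)) := by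
  have hτ : ∀ k, 0 < ta c0 k := fun k => by unfold ta; positivity
  set F1 := ∫ ω, Y o ω ∂P with hF1
  have hF1w : ∀ w, ∫ ω, Y w ω ∂P ≤ F1 := fun w => (hident w).integral_eq.le
  have hF10 : 0 ≤ F1 := integral_nonneg fun ω => hY0 o ω
  have hmaxint : ∀ m, Integrable (fun ω => max (∑ w ∈ l.toFinset, ((l.take m).count w : ℝ) *
        tr ((l.take (2 ^ (Nat.log 2 m + 1))).count w) (ta c0 (Nat.log 2 m)) (ξ w ω)) 0) P := by
    intro m
    refine Integrable.sup ?_ (integrable_const (0:ℝ))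
    apply integrable_finsetSum
    intro w _
    apply Integrable.const_mul
    exact (hint w).mono ((tr_meas _ _).comp (hm w)).aestronglyMeasurable
          (Filter.Eventually.of_forall fun ω => by
            rw [Real.norm_eq_abs, Real.norm_eq_abs]; exact tr_abs _ _ _)
  have hbgint : ∀ k w, Integrable
      (fun ω => bg (ta c0 k) ((l.take (2 ^ (k + 1))).count w) (Y w ω)) P := fun k w =>
    bg_integrable (hYm w) (hY w) (hY0 w) _ (by positivity)
  calc ∫ ω, MS (fun w => ξ w ω) l ∂P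
      ≤ ∫ ω, (∑ k ∈ range K, ∑ w ∈ l.toFinset,
            bg (ta c0 k) ((l.take (2 ^ (k + 1))).count w) (Y w ω) +
          ∑ m ∈ Ico 1 (l.length + 1), max (∑ w ∈ l.toFinset, ((l.take m).count w : ℝ) *
            tr ((l.take (2 ^ (Nat.log 2 m + 1))).count w) (ta c0 (Nat.log 2 m)) (ξ w ω)) 0) ∂P := by
        apply integral_mono (MS_integrable hint l)
        · apply Integrable.add
          · exact integrable_finsetSum _ fun k _ => integrable_finsetSum _ fun w _ => hbgint k w
          · exact integrable_finsetSum _ fun m _ => hmaxint m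
        · intro ω
          exact MS_split (fun w => hξY w ω) (fun w => hY0 w ω) hτ l K hK
    _ = ∑ k ∈ range K, ∑ w ∈ l.toFinset,
            ∫ ω, bg (ta c0 k) ((l.take (2 ^ (k + 1))).count w) (Y w ω) ∂P +
          ∑ m ∈ Ico 1 (l.length + 1), ∫ ω, max (∑ w ∈ l.toFinset, ((l.take m).count w : ℝ) *
            tr ((l.take (2 ^ (Nat.log 2 m + 1))).count w) (ta c0 (Nat.log 2 m)) (ξ w ω)) 0 ∂P := by
        rw [integral_add]
        · congr 1
          · rw [integral_finsetSum _ fun k _ => integrable_finsetSum _ fun w _ => hbgint k w]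
            apply Finset.sum_congr rfl
            intro k _
            rw [integral_finsetSum _ fun w _ => hbgint k w]
          · rw [integral_finsetSum _ fun m _ => hmaxint m]
        · exact integrable_finsetSum _ fun k _ => integrable_finsetSum _ fun w _ => hbgint k w
        · exact integrable_finsetSum _ fun m _ => hmaxint m
    _ ≤ _ := by
        apply add_le_add
        · apply le_of_eq
          unfold Psi
          rw [integral_finsetSum _ fun k _ => integrable_finsetSum _ fun w _ =>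
            bg_integrable (hYm o) (hY o) (hY0 o) _ (by positivity)]
          apply Finset.sum_congr rfl
          intro k _
          rw [integral_finsetSum _ fun w _ =>
            bg_integrable (hYm o) (hY o) (hY0 o) _ (by positivity)]
          apply Finset.sum_congr rfl
          intro w _
          exact ((hident w).comp (bg_meas (ta c0 k) ((l.take (2 ^ (k + 1))).count w))).integral_eq
        · apply Finset.sum_le_sum
          intro m hm'
          rw [Finset.mem_Ico] at hm'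
          set k := Nat.log 2 m with hk
          have hk1 : 2 ^ k ≤ m := Nat.pow_log_le_self 2 (by omega)
          have hk2 : m < 2 ^ (k + 1) := Nat.lt_pow_succ_log_self (by norm_num) m
          have hLa : 0 < La c0 F2 k := by unfold La; positivity
          have hab : ∀ w, ((l.take m).count w : ℝ) ≤ ((l.take (2 ^ (k + 1))).count w : ℝ) := fun w => by
            exact_mod_cast count_take_le l w hk2.le
          have hQ : 0 ≤ Qr 9 (l.take m) :=
            (Finset.sum_nonneg fun w _ => by positivity).trans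
              (sum_count_le l.toFinset (j := 9) (by norm_num) (l.take m))
          have hsum := sum_count_take l (m := m) (by omega)
          by_cases hcase : ∀ w ∈ l.toFinset, ((l.take m).count w : ℝ) ≤ La c0 F2 k
          · have h1 := light_small hm hi hint hsq hc0 hF20 hmean hF2 l.toFinset
              (a := fun w => ((l.take m).count w : ℝ))
              (b := fun w => ((l.take (2 ^ (k + 1))).count w : ℝ)) (fun w => by positivity) hab
              (k := k) (by rw [hsum]; exact_mod_cast hk1) hcase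
            have h2 : 0 ≤ (m : ℝ) * F1 / La c0 F2 k ^ 9 * Qr 9 (l.take m) := by positivity
            exact h1.trans (le_add_of_nonneg_right h2)
          · push Not at hcase
            obtain ⟨w, hw, hw2⟩ := hcase
            have h1 := light_big hY hY0 hξY hF1w l.toFinset
              (a := fun w => ((l.take m).count w : ℝ))
              (b := fun w => ((l.take (2 ^ (k + 1))).count w : ℝ)) (fun w => by positivity) hab (hτ k).le
            rw [hsum] at h1
            have h2 : La c0 F2 k ^ 9 ≤ Qr 9 (l.take m) :=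
              calc La c0 F2 k ^ 9 ≤ ((l.take m).count w : ℝ) ^ 9 := pow_le_pow_left₀ hLa.le hw2.le 9
                _ ≤ ∑ w ∈ l.toFinset, ((l.take m).count w : ℝ) ^ 9 :=
                    Finset.single_le_sum (f := fun w => ((l.take m).count w : ℝ) ^ 9)
                      (fun w _ => by positivity) hw
                _ ≤ _ := sum_count_le l.toFinset (by norm_num) _
            have h3 : (m : ℝ) * F1 ≤ (m : ℝ) * F1 / La c0 F2 k ^ 9 * Qr 9 (l.take m) := by
              rw [div_mul_eq_mul_div, le_div_iff₀ (by positivity)]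
              exact mul_le_mul_of_nonneg_left h2 (by positivity)
            have h4 : 0 ≤ c0 * 2 ^ k * Real.exp (-4 * ((k : ℕ) + 1)) := by positivity
            linarith

end fixedpath

end Pool.Agent.H181.DS
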