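import Pool.Agent.H181.DsC

/-!
# Uniform bound on the expected odometer (MP_fd85b0_pr)
-/

open Finset MeasureTheory ProbabilityTheory

namespace Pool.Agent.H181.DS

lemma sum_min_le {A : ℝ} (hA : 0 < A) (K : ℕ) :
    ∑ k ∈ range K, min ((2 : ℝ) ^ k) (A ^ 2 / 2 ^ k) ≤ 6 * A * (2 ^ K / (A + 2 ^ K)) := by
  induction K with
  | zero => simp only [range_zero, sum_empty]; positivity
  | succ K ih =>
    rw [sum_range_succ]
    have hx : (0 : ℝ) < 2 ^ K := by positivity
    have h2 : 6 * A * (2 ^ (K + 1) / (A + 2 ^ (K + 1))) =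
        6 * A * (2 ^ K / (A + 2 ^ K)) + 6 * A ^ 2 * 2 ^ K / ((A + 2 * 2 ^ K) * (A + 2 ^ K)) := by
      rw [pow_succ]
      have h3 : A + 2 ^ K * 2 ≠ 0 := by positivity
      have h4 : A + 2 * 2 ^ K ≠ 0 := by positivity
      have h5 : A + 2 ^ K ≠ 0 := by positivity
      field_simp
      ring
    rw [h2]
    apply add_le_add ih
    set x : ℝ := 2 ^ K
    rcases le_total x A with h | h
    · refine (min_le_left _ _).trans ?_
      rw [le_div_iff₀ (by positivity)]
      have : (A + 2 * x) * (A + x) ≤ 6 * A ^ 2 := by nlinarith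
      nlinarith
    · refine (min_le_right _ _).trans ?_
      rw [div_le_div_iff₀ hx (by positivity)]
      have h6 : (A + 2 * x) * (A + x) ≤ 6 * x ^ 2 := by nlinarith
      have h7 : A ^ 2 * ((A + 2 * x) * (A + x)) ≤ A ^ 2 * (6 * x ^ 2) :=
        mul_le_mul_of_nonneg_left h6 (sq_nonneg A)
      nlinarith

variable {V : Type*} (G : SimpleGraph V) [G.LocallyFinite] [DecidableEq V]

lemma EX_Qr5 [Infinite V] (hc : G.Connected) (hd : ∀ v, 0 < G.degree v) {D : ℕ}
    (hD : ∀ v, G.degree v ≤ D) {m : ℕ} (hm : 1 ≤ m) (n : ℕ) (x : V) :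
    EX G n x (fun l => Qr 5 (l.take m)) ≤ 240 * (16 * D) ^ 4 * m ^ 3 := by
  have h := EX_Qr_take G hc hd hD hm 4 n x
  have h1 : (√(m : ℝ)) ^ 4 = (m : ℝ) ^ 2 := by
    rw [show (√(m : ℝ)) ^ 4 = ((√(m : ℝ)) ^ 2) ^ 2 by ring, Real.sq_sqrt (by positivity)]
  have h2 : (m : ℝ) * ((((4 : ℕ) : ℝ) + 1) * (2 * (Nat.factorial 4 : ℕ) * (16 * D * √m) ^ 4)) =
      240 * (16 * D) ^ 4 * m ^ 3 := by
    rw [mul_pow (16 * (D : ℝ)), h1, show Nat.factorial 4 = 24 from rfl]
    push_cast
    ring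
  rw [← h2]
  exact h

lemma EX_Qr9 [Infinite V] (hc : G.Connected) (hd : ∀ v, 0 < G.degree v) {D : ℕ}
    (hD : ∀ v, G.degree v ≤ D) {m : ℕ} (hm : 1 ≤ m) (n : ℕ) (x : V) :
    EX G n x (fun l => Qr 9 (l.take m)) ≤ 725760 * (16 * D) ^ 8 * m ^ 5 := by
  have h := EX_Qr_take G hc hd hD hm 8 n x
  have h1 : (√(m : ℝ)) ^ 8 = (m : ℝ) ^ 4 := by
    rw [show (√(m : ℝ)) ^ 8 = ((√(m : ℝ)) ^ 2) ^ 4 by ring, Real.sq_sqrt (by positivity)]
  have h2 : (m : ℝ) * ((((8 : ℕ) : ℝ) + 1) * (2 * (Nat.factorial 8 : ℕ) * (16 * D * √m) ^ 8)) =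
      725760 * (16 * D) ^ 8 * m ^ 5 := by
    rw [mul_pow (16 * (D : ℝ)), h1, show Nat.factorial 8 = 40320 from rfl]
    push_cast
    ring
  rw [← h2]
  exact h

lemma EX_Psi [Infinite V] (hc : G.Connected) (hd : ∀ v, 0 < G.degree v) {D : ℕ}
    (hD : ∀ v, G.degree v ≤ D) {c0 : ℝ} (hc0 : 0 < c0) (K n : ℕ) (v : V) {y : ℝ} (hy : 0 ≤ y) :
    EX G n v (fun l => Psi c0 K l y) ≤
      6 * (2 + 1920 * (16 * D) ^ 4 * (128 / c0) ^ 4) * y ^ 3 := by
  set C : ℝ := 1920 * (16 * D) ^ 4 * (128 / c0) ^ 4 with hC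
  have hC0 : 0 ≤ C := by positivity
  have h0 : EX G n v (fun l => Psi c0 K l y) = ∑ k ∈ range K,
      EX G n v (fun l => ∑ w ∈ l.toFinset, bg (ta c0 k) ((l.take (2 ^ (k + 1))).count w) y) := by
    unfold Psi
    exact EX_sum G (range K) n v
      (fun k l => ∑ w ∈ l.toFinset, bg (ta c0 k) ((l.take (2 ^ (k + 1))).count w) y)
  have h1 : ∀ k, EX G n v
      (fun l => ∑ w ∈ l.toFinset, bg (ta c0 k) ((l.take (2 ^ (k + 1))).count w) y) ≤ 2 * y * 2 ^ k := by
    intro k
    calc _ ≤ EX G n v (fun _ => 2 * y * 2 ^ k) := by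
          apply EX_mono
          intro l _
          calc ∑ w ∈ l.toFinset, bg (ta c0 k) ((l.take (2 ^ (k + 1))).count w) y
              ≤ ∑ w ∈ l.toFinset, ((l.take (2 ^ (k + 1))).count w : ℝ) * y :=
                Finset.sum_le_sum fun w _ => bg_le (by positivity) hy
            _ = (∑ w ∈ l.toFinset, ((l.take (2 ^ (k + 1))).count w : ℝ)) * y := by
                rw [Finset.sum_mul]
            _ ≤ ((2 : ℝ) ^ (k + 1)) * y := by
                apply mul_le_mul_of_nonneg_right _ hy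
                refine (sum_count_le_length _ _).trans ?_
                have : (l.take (2 ^ (k + 1))).length ≤ 2 ^ (k + 1) := List.length_take_le _ _
                exact_mod_cast this
            _ = _ := by rw [pow_succ]; ring
      _ = _ := EX_const G hd n v _
  have h2 : ∀ k, EX G n v
      (fun l => ∑ w ∈ l.toFinset, bg (ta c0 k) ((l.take (2 ^ (k + 1))).count w) y) ≤
        C * y * ((y ^ 2) ^ 2 / 2 ^ k) := by
    intro k
    have hτ : 0 < ta c0 k := by unfold ta; positivity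
    calc _ ≤ EX G n v (fun l => (y ^ 5 / ta c0 k ^ 4) * Qr 5 (l.take (2 ^ (k + 1)))) := by
          apply EX_mono
          intro l _
          calc ∑ w ∈ l.toFinset, bg (ta c0 k) ((l.take (2 ^ (k + 1))).count w) y
              ≤ ∑ w ∈ l.toFinset, ((l.take (2 ^ (k + 1))).count w : ℝ) ^ 5 * (y ^ 5 / ta c0 k ^ 4) :=
                Finset.sum_le_sum fun w _ => bg_le_pow hτ (by positivity) hy
            _ = (y ^ 5 / ta c0 k ^ 4) * ∑ w ∈ l.toFinset, ((l.take (2 ^ (k + 1))).count w : ℝ) ^ 5 := by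
                rw [Finset.mul_sum]
                exact Finset.sum_congr rfl fun w _ => mul_comm _ _
            _ ≤ _ := mul_le_mul_of_nonneg_left (sum_count_le _ (by norm_num) _) (by positivity)
      _ = (y ^ 5 / ta c0 k ^ 4) * EX G n v (fun l => Qr 5 (l.take (2 ^ (k + 1)))) := EX_mul G n v _ _
      _ ≤ (y ^ 5 / ta c0 k ^ 4) * (240 * (16 * D) ^ 4 * ((2 ^ (k + 1) : ℕ) : ℝ) ^ 3) :=
          mul_le_mul_of_nonneg_left (EX_Qr5 G hc hd hD Nat.one_le_two_pow n v) (by positivity)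
      _ = _ := by
          rw [hC]
          unfold ta
          push_cast
          have h4 : (0 : ℝ) < 2 ^ k := by positivity
          rw [pow_succ]
          field_simp
          ring
  rcases hy.eq_or_lt with hy0 | hy0
  · rw [h0, ← hy0]
    have : ∀ k ∈ range K, EX G n v
      (fun l => ∑ w ∈ l.toFinset, bg (ta c0 k) ((l.take (2 ^ (k + 1))).count w) 0) ≤ 0 := by
      intro k _
      have := h1 k
      rw [← hy0] at this
      simpa using this
    refine (Finset.sum_nonpos this).trans ?_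
    positivity
  · have h3 : ∀ k ∈ range K, EX G n v
      (fun l => ∑ w ∈ l.toFinset, bg (ta c0 k) ((l.take (2 ^ (k + 1))).count w) y) ≤
        (2 + C) * y * min ((2 : ℝ) ^ k) ((y ^ 2) ^ 2 / 2 ^ k) := by
      intro k _
      rw [mul_min_of_nonneg _ _ (by positivity)]
      apply le_min
      · refine (h1 k).trans ?_
        apply mul_le_mul_of_nonneg_right _ (by positivity)
        nlinarith
      · refine (h2 k).trans ?_
        apply mul_le_mul_of_nonneg_right _ (by positivity)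
        nlinarith
    rw [h0]
    refine (Finset.sum_le_sum h3).trans ?_
    rw [← Finset.mul_sum]
    have h4 := sum_min_le (A := y ^ 2) (by positivity) K
    have h5 : (2 : ℝ) ^ K / (y ^ 2 + 2 ^ K) ≤ 1 := by
      rw [div_le_one (by positivity)]
      have := sq_nonneg y
      linarith
    have h6 : ∑ k ∈ range K, min ((2 : ℝ) ^ k) ((y ^ 2) ^ 2 / 2 ^ k) ≤ 6 * y ^ 2 * 1 :=
      h4.trans (mul_le_mul_of_nonneg_left h5 (by positivity))
    calc (2 + C) * y * ∑ k ∈ range K, min ((2 : ℝ) ^ k) ((y ^ 2) ^ 2 / 2 ^ k)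
        ≤ (2 + C) * y * (6 * y ^ 2 * 1) := mul_le_mul_of_nonneg_left h6 (by positivity)
      _ = _ := by ring

lemma block_sum {g H : ℕ → ℝ} (h : ∀ m, 1 ≤ m → g m ≤ H (Nat.log 2 m)) (K : ℕ) :
    ∑ m ∈ Ico 1 (2 ^ K), g m ≤ ∑ k ∈ range K, 2 ^ k * H k := by
  induction K with
  | zero => simp
  | succ K ih =>
    rw [← Finset.sum_Ico_consecutive _ (Nat.one_le_two_pow (n := K))
      (Nat.pow_le_pow_right two_pos (Nat.le_succ K)), sum_range_succ]
    apply add_le_add ih
    calc ∑ m ∈ Ico (2 ^ K) (2 ^ (K + 1)), g m ≤ ∑ m ∈ Ico (2 ^ K) (2 ^ (K + 1)), H K := by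
          apply sum_le_sum
          intro m hm
          rw [Finset.mem_Ico] at hm
          have h1 : Nat.log 2 m = K := Nat.log_eq_of_pow_le_of_lt_pow hm.1 hm.2
          have h2 := h m (Nat.one_le_two_pow.trans hm.1)
          rwa [h1] at h2
      _ = 2 ^ K * H K := by
          rw [sum_const, Nat.card_Ico, nsmul_eq_mul, show 2 ^ (K + 1) - 2 ^ K = 2 ^ K by
            rw [pow_succ]; omega]
          push_cast
          ring

/-- The block bound. -/
noncomputable def HB (c0 F1 F2 D : ℝ) (k : ℕ) : ℝ :=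
  c0 * 2 ^ k * Real.exp (-4 * (k + 1)) +
    2 ^ (k + 1) * F1 / La c0 F2 k ^ 9 * (725760 * (16 * D) ^ 8 * (2 ^ (k + 1)) ^ 5)

lemma HB_summable {c0 F1 F2 D : ℝ} (hc0 : 0 < c0) (hF1 : 0 ≤ F1) (hF2 : 0 < F2) (hD : 0 ≤ D) :
    Summable (fun k : ℕ => 2 ^ k * HB c0 F1 F2 D k) := by
  have hs1 : Summable (fun k : ℕ => c0 * (1 / 2 : ℝ) ^ k) :=
    (summable_geometric_of_lt_one (by norm_num) (by norm_num)).mul_left c0
  have hs2 : Summable (fun k : ℕ => (F1 * 725760 * (16 * D) ^ 8 * (16 * F2 / c0 ^ 2) ^ 9 * 2 ^ 8) *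
      (((k + 1 : ℕ) : ℝ) ^ 9 * (1 / 2 : ℝ) ^ (k + 1))) := by
    apply Summable.mul_left
    have h := summable_pow_mul_geometric_of_norm_lt_one (R := ℝ) 9 (r := 1 / 2) (by norm_num)
    exact (summable_nat_add_iff 1).2 h
  refine Summable.of_nonneg_of_le ?_ ?_ (hs1.add hs2)
  · intro k
    have : 0 < La c0 F2 k := by unfold La; positivity
    unfold HB
    positivity
  · intro k
    unfold HB
    rw [mul_add]
    apply add_le_add
    · have h1 : Real.exp (-4 * (k + 1)) ≤ (1 / 8 : ℝ) ^ k := by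
        have h2 : Real.exp (-4) ≤ 1 / 8 := by
          have h3 := Real.add_one_le_exp 1
          have h4 : Real.exp 4 = Real.exp 1 ^ 4 := by rw [← Real.exp_nat_mul]; norm_num
          have h5 : (2 : ℝ) ^ 4 ≤ Real.exp 1 ^ 4 := pow_le_pow_left₀ (by norm_num) (by linarith) 4
          rw [Real.exp_neg, ← one_div]
          apply one_div_le_one_div_of_le (by norm_num)
          rw [h4]
          linarith
        calc Real.exp (-4 * (k + 1)) ≤ Real.exp (k * (-4)) := by
              apply Real.exp_le_exp.2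
              linarith
          _ = Real.exp (-4) ^ k := Real.exp_nat_mul _ _
          _ ≤ _ := pow_le_pow_left₀ (Real.exp_pos _).le h2 k
      calc (2 : ℝ) ^ k * (c0 * 2 ^ k * Real.exp (-4 * (k + 1))) ≤
            2 ^ k * (c0 * 2 ^ k * (1 / 8 : ℝ) ^ k) := by
              apply mul_le_mul_of_nonneg_left _ (by positivity)
              exact mul_le_mul_of_nonneg_left h1 (by positivity)
        _ = c0 * (2 * 2 * (1 / 8)) ^ k := by rw [mul_pow, mul_pow]; ring
        _ = _ := by norm_num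
    · have hE : Real.exp ((k + 1) / 16) ^ 9 ≤ 2 ^ (k + 1) := by
        have h1 : Real.exp (9 / 16) ≤ 2 := by
          rw [← Real.le_log_iff_exp_le (by norm_num)]
          have := Real.log_two_gt_d9
          linarith
        calc Real.exp ((k + 1) / 16) ^ 9 = Real.exp (9 / 16) ^ (k + 1) := by
              rw [← Real.exp_nat_mul, ← Real.exp_nat_mul]
              congr 1
              push_cast
              ring
          _ ≤ 2 ^ (k + 1) := pow_le_pow_left₀ (Real.exp_pos _).le h1 _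
      have hE0 := Real.exp_pos (((k : ℝ) + 1) / 16)
      have h2 : (2 : ℝ) ^ k * (2 ^ (k + 1) * F1 / La c0 F2 k ^ 9 *
          (725760 * (16 * D) ^ 8 * (2 ^ (k + 1)) ^ 5)) =
          (F1 * 725760 * (16 * D) ^ 8 * (16 * F2 / c0 ^ 2) ^ 9 * 2 ^ 6 * ((k : ℝ) + 1) ^ 9 / (2 ^ k) ^ 2) *
            Real.exp ((k + 1) / 16) ^ 9 := by
        unfold La
        have h3 : (0 : ℝ) < 2 ^ k := by positivity
        rw [pow_succ]
        field_simp
      rw [h2]
      have h3 : 0 ≤ F1 * 725760 * (16 * D) ^ 8 * (16 * F2 / c0 ^ 2) ^ 9 * 2 ^ 6 * ((k : ℝ) + 1) ^ 9 /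
        (2 ^ k) ^ 2 := by positivity
      refine (mul_le_mul_of_nonneg_left hE h3).trans (le_of_eq ?_)
      rw [one_div, inv_pow]
      push_cast
      rw [pow_succ]
      have h4 : (0 : ℝ) < 2 ^ k := by positivity
      field_simp
      ring

variable {Ω : Type*} [MeasurableSpace Ω] {P : Measure Ω} [IsProbabilityMeasure P]

omit [DecidableEq V] [IsProbabilityMeasure P] in
lemma integral_EX (n : ℕ) : ∀ (v : V) (Φ : List V → Ω → ℝ), (∀ l, Integrable (Φ l) P) →
    Integrable (fun ω => EX G n v (fun l => Φ l ω)) P ∧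
    ∫ ω, EX G n v (fun l => Φ l ω) ∂P = EX G n v (fun l => ∫ ω, Φ l ω ∂P) := by
  induction n with
  | zero => intro v Φ h; exact ⟨h [], rfl⟩
  | succ n ih =>
    intro v Φ h
    have h1 := fun w => ih w (fun l => Φ (v :: l)) (fun l => h _)
    constructor
    · simp only [EX_succ, av]
      exact (integrable_finsetSum _ fun w _ => (h1 w).1).div_const _
    · simp only [EX_succ, av]
      rw [integral_div, integral_finsetSum _ fun w _ => (h1 w).1]
      congr 1
      exact Finset.sum_congr rfl fun w _ => (h1 w).2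

theorem main_bound [Infinite V] (hc : G.Connected) (hd : ∀ v, 0 < G.degree v) {D : ℕ}
    (hD : ∀ v, G.degree v ≤ D)
    {ξ Y : V → Ω → ℝ} (hm : ∀ w, Measurable (ξ w)) (hi : iIndepFun ξ P)
    (hint : ∀ w, Integrable (ξ w) P) (hsq : ∀ w, Integrable (fun ω => ξ w ω ^ 2) P)
    {c0 F2 : ℝ} (hc0 : 0 < c0) (hF20 : 0 < F2) (hmean : ∀ w, ∫ ω, ξ w ω ∂P ≤ -c0)
    (hF2 : ∀ w, ∫ ω, ξ w ω ^ 2 ∂P ≤ F2)
    (hYm : ∀ w, Measurable (Y w)) (hY : ∀ w, Integrable (Y w) P) (hY0 : ∀ w ω, 0 ≤ Y w ω)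
    (hξY : ∀ w ω, ξ w ω ≤ Y w ω)
    (o : V) (hident : ∀ w, IdentDistrib (Y w) (Y o) P P)
    (hY3 : Integrable (fun ω => Y o ω ^ 3) P) :
    ∃ C : ℝ, ∀ (n : ℕ) (v : V), ∫ ω, EX G n v (MS (fun w => ξ w ω)) ∂P ≤ C := by
  set F1 := ∫ ω, Y o ω ∂P with hF1
  have hF10 : 0 ≤ F1 := integral_nonneg fun ω => hY0 o ω
  set C1 : ℝ := 6 * (2 + 1920 * (16 * D) ^ 4 * (128 / c0) ^ 4) with hC1
  have hS := HB_summable hc0 hF10 hF20 (by positivity : (0 : ℝ) ≤ (D : ℝ))
  have hHB0 : ∀ k, 0 ≤ 2 ^ k * HB c0 F1 F2 D k := by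
    intro k
    have : 0 < La c0 F2 k := by unfold La; positivity
    unfold HB
    positivity
  refine ⟨C1 * ∫ ω, Y o ω ^ 3 ∂P + ∑' k, 2 ^ k * HB c0 F1 F2 D k, fun n v => ?_⟩
  have hK : n < 2 ^ n := Nat.lt_two_pow_self
  set A : ℕ → ℝ := fun m => c0 * 2 ^ (Nat.log 2 m) * Real.exp (-4 * ((Nat.log 2 m : ℕ) + 1)) with hA
  set B : ℕ → ℝ := fun m => m * F1 / La c0 F2 (Nat.log 2 m) ^ 9 with hB
  have hB0 : ∀ m, 0 ≤ B m := by
    intro m
    have : 0 < La c0 F2 (Nat.log 2 m) := by unfold La; positivity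
    simp only [hB]
    positivity
  have hA0 : ∀ m, 0 ≤ A m := by
    intro m
    simp only [hA]
    positivity
  rw [(integral_EX G n v (fun l ω => MS (fun w => ξ w ω) l) (fun l => MS_integrable hint l)).2]
  have h1 : EX G n v (fun l => ∫ ω, MS (fun w => ξ w ω) l ∂P) ≤
      EX G n v (fun l => ∫ ω, Psi c0 n l (Y o ω) ∂P +
        ∑ m ∈ Ico 1 (n + 1), (A m + B m * Qr 9 (l.take m))) := by
    apply EX_mono
    intro l hl
    have := int_MS_le hm hi hint hsq hc0 hF20 hmean hF2 hYm hY hY0 hξY o hident l n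
      (by rw [hl]; exact hK)
    rw [hl] at this
    exact this
  have h2 : EX G n v (fun l => ∫ ω, Psi c0 n l (Y o ω) ∂P +
        ∑ m ∈ Ico 1 (n + 1), (A m + B m * Qr 9 (l.take m))) =
      ∫ ω, EX G n v (fun l => Psi c0 n l (Y o ω)) ∂P +
        ∑ m ∈ Ico 1 (n + 1), (A m + B m * EX G n v (fun l => Qr 9 (l.take m))) := by
    rw [EX_add, EX_sum, (integral_EX G n v (fun l ω => Psi c0 n l (Y o ω))
      (fun l => Psi_integrable (hYm o) (hY o) (hY0 o) c0 n l)).2]
    congr 1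
    apply Finset.sum_congr rfl
    intro m _
    rw [EX_add, EX_const G hd, EX_mul]
  rw [h2] at h1
  refine h1.trans ?_
  apply add_le_add
  · rw [← integral_const_mul]
    apply integral_mono
    · exact (integral_EX G n v (fun l ω => Psi c0 n l (Y o ω))
        (fun l => Psi_integrable (hYm o) (hY o) (hY0 o) c0 n l)).1
    · exact hY3.const_mul _
    · intro ω
      exact EX_Psi G hc hd hD hc0 n n v (hY0 o ω)
  · calc ∑ m ∈ Ico 1 (n + 1), (A m + B m * EX G n v (fun l => Qr 9 (l.take m)))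
        ≤ ∑ m ∈ Ico 1 (n + 1), (A m + B m * (725760 * (16 * D) ^ 8 * m ^ 5)) := by
          apply Finset.sum_le_sum
          intro m hm'
          rw [Finset.mem_Ico] at hm'
          have h3 := mul_le_mul_of_nonneg_left (EX_Qr9 G hc hd hD hm'.1 n v) (hB0 m)
          linarith
      _ ≤ ∑ m ∈ Ico 1 (2 ^ n), (A m + B m * (725760 * (16 * D) ^ 8 * m ^ 5)) := by
          apply Finset.sum_le_sum_of_subset_of_nonneg
          · apply Finset.Ico_subset_Ico le_rfl
            omega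
          · intro m _ _
            have h3 := hA0 m
            have h4 := hB0 m
            positivity
      _ ≤ ∑ k ∈ range n, 2 ^ k * HB c0 F1 F2 D k := by
          apply block_sum
          intro m hm'
          have hk2 : m < 2 ^ (Nat.log 2 m + 1) := Nat.lt_pow_succ_log_self (by norm_num) m
          have hk3 : (m : ℝ) ≤ 2 ^ (Nat.log 2 m + 1) := by exact_mod_cast hk2.le
          have hLa : 0 < La c0 F2 (Nat.log 2 m) := by unfold La; positivity
          unfold HB
          simp only [hA, hB]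
          apply add_le_add le_rfl
          gcongr
      _ ≤ _ := hS.sum_le_tsum _ (fun k _ => hHB0 k)

end Pool.Agent.H181.DS
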