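import Pool.Agent.H181.DsD

/-!
# Almost sure stabilization (MP_fd85b0_pr)
-/

open Finset MeasureTheory ProbabilityTheory
open scoped ENNReal

namespace Pool.Agent.H181.DS

section countable

variable {V : Type*} (G : SimpleGraph V) [G.LocallyFinite] [DecidableEq V]

lemma getVert_mem_bl {w y : V} (p : G.Walk w y) (i : ℕ) : i ≤ p.length → p.getVert i ∈ bl G w i := by
  induction i with
  | zero => intro _; rw [p.getVert_zero]; exact Finset.mem_singleton_self w
  | succ i ih =>
    intro hi
    exact mem_bl_succ G (ih (by omega)) (p.adj_getVert_succ (by omega))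

lemma countable_of_connected (hc : G.Connected) : Countable V := by
  obtain ⟨w⟩ := hc.nonempty
  have h : (⋃ t, (bl G w t : Set V)) = Set.univ := by
    rw [Set.eq_univ_iff_forall]
    intro y
    obtain ⟨p⟩ := hc.preconnected w y
    rw [Set.mem_iUnion]
    refine ⟨p.length, ?_⟩
    have := getVert_mem_bl G p p.length le_rfl
    rw [p.getVert_length] at this
    exact this
  rw [← Set.countable_univ_iff, ← h]
  exact Set.countable_iUnion fun t => (bl G w t).countable_toSet

end countable

variable {V : Type*} (G : SimpleGraph V) [G.LocallyFinite]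
variable {Ω : Type*} [MeasurableSpace Ω]

lemma topple_measurable {σ : V → Ω → ℝ} (hm : ∀ v, Measurable (σ v)) (n : ℕ) : ∀ v,
    Measurable (fun ω => (topple G (fun w => σ w ω) n).1 v) ∧
    Measurable (fun ω => (topple G (fun w => σ w ω) n).2 v) := by
  induction n with
  | zero => intro v; exact ⟨measurable_const, hm v⟩
  | succ n ih =>
    intro v
    constructor
    · exact (ih v).1.add ((((ih v).2.sub_const 1).max measurable_const).div_const _)
    · exact ((ih v).2.min measurable_const).add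
        (Finset.measurable_fun_sum _ fun w _ =>
          ((((ih w).2.sub_const 1).max measurable_const).div_const _))

lemma topple_nonneg (hd : ∀ v, 0 < G.degree v) (σ : V → ℝ) (n : ℕ) (v : V) :
    0 ≤ (topple G σ n).1 v := by
  induction n with
  | zero => exact le_rfl
  | succ n ih => exact ih.trans (topple_mono G hd σ n v)

variable {P : Measure Ω} [IsProbabilityMeasure P]

/-- Truncation of the negative part. -/
lemma exists_trunc {Z : Ω → ℝ} (hZ : Measurable Z) (hpos : Integrable (fun ω => max (Z ω) 0) P)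
    (hmean : ∫⁻ ω, ENNReal.ofReal (Z ω) ∂P < 1 + ∫⁻ ω, ENNReal.ofReal (-Z ω) ∂P) :
    ∃ M : ℕ, ∫ ω, max (Z ω) (-(M : ℝ)) ∂P < 1 := by
  have h1 : ∫⁻ ω, ENNReal.ofReal (-Z ω) ∂P =
      ⨆ M : ℕ, ∫⁻ ω, ENNReal.ofReal (min (-Z ω) M) ∂P := by
    rw [← lintegral_iSup]
    · apply lintegral_congr
      intro ω
      apply le_antisymm
      · obtain ⟨M, hM⟩ := exists_nat_ge (-Z ω)
        refine le_trans ?_ (le_iSup _ M)
        rw [min_eq_left hM]
      · exact iSup_le fun M => ENNReal.ofReal_le_ofReal (min_le_left _ _)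
    · intro M
      exact (hZ.neg.min measurable_const).ennreal_ofReal
    · intro M N hMN ω
      apply ENNReal.ofReal_le_ofReal
      exact min_le_min le_rfl (by exact_mod_cast hMN)
  rw [h1, ENNReal.add_iSup, lt_iSup_iff] at hmean
  obtain ⟨M, hM⟩ := hmean
  refine ⟨M, ?_⟩
  have hM0 : (0 : ℝ) ≤ M := by positivity
  have hint2 : Integrable (fun ω => max (min (-Z ω) M) 0) P := by
    apply Integrable.of_bound ((hZ.neg.min measurable_const).max measurable_const).aestronglyMeasurable (M : ℝ)
    refine Filter.Eventually.of_forall fun ω => ?_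
    rw [Real.norm_eq_abs, abs_of_nonneg (le_max_right _ _)]
    exact max_le (min_le_right _ _) hM0
  have h2 : ∀ ω, max (Z ω) (-(M : ℝ)) = max (Z ω) 0 - max (min (-Z ω) M) 0 := by
    intro ω
    rcases le_total (Z ω) 0 with h | h
    · rw [max_eq_right h]
      rcases le_total (-Z ω) M with h' | h'
      · rw [min_eq_left h', max_eq_left (by linarith : -(M : ℝ) ≤ Z ω), max_eq_left (by linarith)]
        ring
      · rw [min_eq_right h', max_eq_right (by linarith : Z ω ≤ -(M : ℝ)), max_eq_left hM0]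
        ring
    · rw [max_eq_left h, max_eq_left (by linarith : -(M : ℝ) ≤ Z ω),
        max_eq_right ((min_le_left _ _).trans (by linarith))]
      ring
  have h3 : ∫ ω, max (Z ω) (-(M : ℝ)) ∂P =
      ∫ ω, max (Z ω) 0 ∂P - ∫ ω, max (min (-Z ω) M) 0 ∂P := by
    rw [← integral_sub hpos hint2]
    exact integral_congr_ae (Filter.Eventually.of_forall h2)
  have h4 : ∫⁻ ω, ENNReal.ofReal (Z ω) ∂P = ENNReal.ofReal (∫ ω, max (Z ω) 0 ∂P) := by
    rw [ofReal_integral_eq_lintegral_ofReal hpos
      (Filter.Eventually.of_forall fun ω => le_max_right _ _)]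
    apply lintegral_congr
    intro ω
    rw [ENNReal.ofReal_max, ENNReal.ofReal_zero]
    exact (max_eq_left zero_le).symm
  have h5 : ∫⁻ ω, ENNReal.ofReal (min (-Z ω) M) ∂P =
      ENNReal.ofReal (∫ ω, max (min (-Z ω) M) 0 ∂P) := by
    rw [ofReal_integral_eq_lintegral_ofReal hint2
      (Filter.Eventually.of_forall fun ω => le_max_right _ _)]
    apply lintegral_congr
    intro ω
    rw [ENNReal.ofReal_max, ENNReal.ofReal_zero]
    exact (max_eq_left zero_le).symm
  have h6 : 0 ≤ ∫ ω, max (min (-Z ω) M) 0 ∂P := integral_nonneg fun ω => le_max_right _ _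
  rw [h4, h5, ← ENNReal.ofReal_one, ← ENNReal.ofReal_add zero_le_one h6,
    ENNReal.ofReal_lt_ofReal_iff (by linarith)] at hM
  rw [h3]
  linarith

theorem stabilizes [Infinite V] (hc : G.Connected) (D : ℕ) (hD : ∀ v, G.degree v ≤ D)
    (σ : V → Ω → ℝ) (hm : ∀ v, Measurable (σ v)) (hindep : iIndepFun σ P)
    (hident : ∀ v w, IdentDistrib (σ v) (σ w) P P)
    (hmom : ∀ v, ∫⁻ ω, ENNReal.ofReal (σ v ω) ^ 3 ∂P < ⊤)
    (hmean : ∀ v, ∫⁻ ω, ENNReal.ofReal (σ v ω) ∂P < 1 + ∫⁻ ω, ENNReal.ofReal (-σ v ω) ∂P) :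
    (∃ C : ℝ, ∀ v, ∫⁻ ω, ⨆ n, ENNReal.ofReal ((topple G (fun w => σ w ω) n).1 v) ∂P ≤
      ENNReal.ofReal C) ∧
    ∀ᵐ ω ∂P, ∀ v, BddAbove (Set.range fun n => (topple G (fun w => σ w ω) n).1 v) := by
  classical
  have hd : ∀ v, 0 < G.degree v := fun v => hc.preconnected.degree_pos_of_nontrivial v
  have := countable_of_connected G hc
  obtain ⟨o⟩ := hc.nonempty
  have hdR : ∀ v, (1 : ℝ) ≤ G.degree v := fun v => by exact_mod_cast hd v
  have hDR : ∀ v, (G.degree v : ℝ) ≤ D := fun v => by exact_mod_cast hD v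
  have hD1 : (1 : ℝ) ≤ D := (hdR o).trans (hDR o)
  -- the positive part
  set Y : V → Ω → ℝ := fun v ω => max (σ v ω) 0 with hYdef
  have hYm : ∀ v, Measurable (Y v) := fun v => (hm v).max measurable_const
  have hY0 : ∀ v ω, 0 ≤ Y v ω := fun v ω => le_max_right _ _
  have hY3 : ∀ v, Integrable (fun ω => Y v ω ^ 3) P := by
    intro v
    refine ⟨((hYm v).pow_const 3).aestronglyMeasurable, ?_⟩
    rw [hasFiniteIntegral_iff_ofReal (Filter.Eventually.of_forall fun ω => by
      have := hY0 v ω; positivity)]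
    refine lt_of_le_of_lt (le_of_eq ?_) (hmom v)
    apply lintegral_congr
    intro ω
    rw [ENNReal.ofReal_pow (hY0 v ω)]
    simp only [hYdef]
    rw [ENNReal.ofReal_max, ENNReal.ofReal_zero, max_eq_left zero_le]
  have hY2 : ∀ v, Integrable (fun ω => Y v ω ^ 2) P := by
    intro v
    apply ((integrable_const (1 : ℝ)).add (hY3 v)).mono ((hYm v).pow_const 2).aestronglyMeasurable
    refine Filter.Eventually.of_forall fun ω => ?_
    have h0 := hY0 v ω
    simp only [Pi.add_apply, Real.norm_eq_abs]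
    rw [abs_of_nonneg (by positivity), abs_of_nonneg (by positivity)]
    rcases le_total (Y v ω) 1 with h | h
    · have : Y v ω ^ 2 ≤ 1 := pow_le_one₀ h0 h
      have : 0 ≤ Y v ω ^ 3 := by positivity
      linarith
    · have : Y v ω ^ 2 ≤ Y v ω ^ 3 := pow_le_pow_right₀ h (by norm_num)
      linarith
  have hY1 : ∀ v, Integrable (Y v) P := by
    intro v
    apply ((integrable_const (1 : ℝ)).add (hY2 v)).mono (hYm v).aestronglyMeasurable
    refine Filter.Eventually.of_forall fun ω => ?_
    have h0 := hY0 v ω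
    simp only [Pi.add_apply, Real.norm_eq_abs]
    rw [abs_of_nonneg h0, abs_of_nonneg (by positivity)]
    nlinarith [sq_nonneg (Y v ω - 1)]
  obtain ⟨M, hM⟩ := exists_trunc (hm o) (hY1 o) (hmean o)
  have hM0 : (0 : ℝ) ≤ M := by positivity
  -- the truncated masses
  set X : V → Ω → ℝ := fun v ω => max (σ v ω) (-(M : ℝ)) - 1 with hXdef
  have hgm : Measurable (fun x : ℝ => max x (-(M : ℝ)) - 1) :=
    (measurable_id.max measurable_const).sub_const 1
  have hXm : ∀ v, Measurable (X v) := fun v => hgm.comp (hm v)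
  have hXid : ∀ v, IdentDistrib (X v) (X o) P P := fun v => (hident v o).comp hgm
  have hXabs : ∀ v ω, |X v ω| ≤ Y v ω + (M + 1) := by
    intro v ω
    simp only [hXdef, hYdef]
    rw [abs_le]
    have h1 : -(M : ℝ) ≤ max (σ v ω) (-(M : ℝ)) := le_max_right _ _
    have h2 : 0 ≤ max (σ v ω) 0 := le_max_right _ _
    have h3 : max (σ v ω) (-(M : ℝ)) ≤ max (σ v ω) 0 := max_le_max le_rfl (by linarith)
    constructor <;> linarith
  have hX1 : ∀ v, Integrable (X v) P := by
    intro v
    apply ((hY1 v).add (integrable_const ((M : ℝ) + 1))).mono (hXm v).aestronglyMeasurable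
    refine Filter.Eventually.of_forall fun ω => ?_
    have h0 := hY0 v ω
    simp only [Pi.add_apply, Real.norm_eq_abs]
    rw [abs_of_nonneg (by positivity : 0 ≤ Y v ω + ((M : ℝ) + 1))]
    exact hXabs v ω
  have hX2 : ∀ v, Integrable (fun ω => X v ω ^ 2) P := by
    intro v
    apply (((hY2 v).const_mul 2).add (integrable_const (2 * ((M : ℝ) + 1) ^ 2))).mono
      ((hXm v).pow_const 2).aestronglyMeasurable
    refine Filter.Eventually.of_forall fun ω => ?_
    have h0 := hY0 v ω
    simp only [Pi.add_apply, Real.norm_eq_abs]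
    rw [abs_of_nonneg (sq_nonneg _), abs_of_nonneg (by positivity)]
    have h1 : X v ω ^ 2 ≤ (Y v ω + (M + 1)) ^ 2 := by
      rw [← sq_abs]
      exact pow_le_pow_left₀ (abs_nonneg _) (hXabs v ω) 2
    nlinarith [sq_nonneg (Y v ω - (M + 1))]
  have hXmean : ∀ v, ∫ ω, X v ω ∂P = ∫ ω, max (σ o ω) (-(M : ℝ)) ∂P - 1 := by
    intro v
    rw [(hXid v).integral_eq]
    have h1 : Integrable (fun ω => max (σ o ω) (-(M : ℝ))) P := by
      have := (hX1 o).add (integrable_const (1 : ℝ))
      refine this.congr (Filter.Eventually.of_forall fun ω => ?_)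
      simp only [hXdef, Pi.add_apply]
      ring
    simp only [hXdef]
    rw [integral_sub h1 (integrable_const _)]
    simp
  set e : ℝ := 1 - ∫ ω, max (σ o ω) (-(M : ℝ)) ∂P with he
  have he0 : 0 < e := by rw [he]; linarith
  -- the normalised masses
  set ξ : V → Ω → ℝ := fun v ω => X v ω / G.degree v with hξdef
  have hξm : ∀ v, Measurable (ξ v) := fun v => (hXm v).div_const _
  have hξi : iIndepFun ξ P :=
    hindep.comp (fun v x => (max x (-(M : ℝ)) - 1) / G.degree v) (fun v => hgm.div_const _)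
  have hξ1 : ∀ v, Integrable (ξ v) P := fun v => (hX1 v).div_const _
  have hξ2 : ∀ v, Integrable (fun ω => ξ v ω ^ 2) P := by
    intro v
    have : (fun ω => ξ v ω ^ 2) = fun ω => X v ω ^ 2 / (G.degree v : ℝ) ^ 2 := by
      funext ω; simp only [hξdef, div_pow]
    rw [this]
    exact (hX2 v).div_const _
  have hξY : ∀ v ω, ξ v ω ≤ Y v ω := by
    intro v ω
    have hdv : (0 : ℝ) < G.degree v := by linarith [hdR v]
    have h1 : X v ω ≤ Y v ω := by
      simp only [hXdef, hYdef]
      have h3 : max (σ v ω) (-(M : ℝ)) ≤ max (σ v ω) 0 := max_le_max le_rfl (by linarith)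
      linarith
    simp only [hξdef]
    rw [div_le_iff₀ hdv]
    have h2 := hY0 v ω
    have h3 := hdR v
    nlinarith
  have hξmean : ∀ v, ∫ ω, ξ v ω ∂P ≤ -(e / D) := by
    intro v
    have hdv : (0 : ℝ) < G.degree v := by linarith [hdR v]
    simp only [hξdef]
    rw [integral_div, hXmean v, ← neg_div, div_le_div_iff₀ hdv (by linarith)]
    have h1 : ∫ ω, max (σ o ω) (-(M : ℝ)) ∂P - 1 = -e := by rw [he]; ring
    rw [h1]
    have := hDR v
    nlinarith
  have hF2 : ∀ v, ∫ ω, ξ v ω ^ 2 ∂P ≤ ∫ ω, X o ω ^ 2 ∂P + 1 := by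
    intro v
    have h1 : ∫ ω, ξ v ω ^ 2 ∂P ≤ ∫ ω, X v ω ^ 2 ∂P := by
      apply integral_mono (hξ2 v) (hX2 v)
      intro ω
      simp only [hξdef, div_pow]
      apply div_le_self (sq_nonneg _)
      exact one_le_pow₀ (hdR v)
    have h2 : ∫ ω, X v ω ^ 2 ∂P = ∫ ω, X o ω ^ 2 ∂P :=
      ((hXid v).comp (u := fun x : ℝ => x ^ 2) (measurable_id.pow_const 2)).integral_eq
    linarith
  have hF20 : 0 < ∫ ω, X o ω ^ 2 ∂P + 1 := by
    have : 0 ≤ ∫ ω, X o ω ^ 2 ∂P := integral_nonneg fun ω => sq_nonneg _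
    linarith
  have hYid : ∀ v, IdentDistrib (Y v) (Y o) P P := fun v =>
    (hident v o).comp (u := fun x : ℝ => max x 0) (measurable_id.max measurable_const)
  obtain ⟨C, hC⟩ := main_bound G hc hd hD hξm hξi hξ1 hξ2 (c0 := e / D) (by positivity) hF20
    hξmean hF2 hYm hY1 hY0 hξY o hYid (hY3 o)
  have hbound : ∀ n v, ∫⁻ ω, ENNReal.ofReal ((topple G (fun w => σ w ω) n).1 v) ∂P ≤
      ENNReal.ofReal C := by
    intro n v
    have hI := (integral_EX G n v (fun l ω => MS (fun w => ξ w ω) l)
      (fun l => MS_integrable hξ1 l)).1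
    have hnn : ∀ ω, 0 ≤ EX G n v (MS (fun w => ξ w ω)) := by
      intro ω
      apply EX_nonneg
      intro l
      cases l with
      | nil => exact le_rfl
      | cons a l => exact le_max_left _ _
    calc ∫⁻ ω, ENNReal.ofReal ((topple G (fun w => σ w ω) n).1 v) ∂P
        ≤ ∫⁻ ω, ENNReal.ofReal (EX G n v (MS (fun w => ξ w ω))) ∂P := by
          apply lintegral_mono
          intro ω
          apply ENNReal.ofReal_le_ofReal
          refine (topple_le_EX G hd (fun w => σ w ω) n v).trans ?_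
          apply EX_mono
          intro l _
          apply MS_mono
          intro w
          simp only [hξdef, hXdef]
          have hdv : (0 : ℝ) ≤ G.degree w := by positivity
          apply div_le_div_of_nonneg_right _ hdv
          have := le_max_left (σ w ω) (-(M : ℝ))
          linarith
      _ = ENNReal.ofReal (∫ ω, EX G n v (MS (fun w => ξ w ω)) ∂P) :=
          (ofReal_integral_eq_lintegral_ofReal hI (Filter.Eventually.of_forall hnn)).symm
      _ ≤ ENNReal.ofReal C := ENNReal.ofReal_le_ofReal (hC n v)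
  have hmono : ∀ v, Monotone (fun n ω => ENNReal.ofReal ((topple G (fun w => σ w ω) n).1 v)) := by
    intro v
    apply monotone_nat_of_le_succ
    intro n ω
    exact ENNReal.ofReal_le_ofReal (topple_mono G hd _ n v)
  have hsup : ∀ v, ∫⁻ ω, ⨆ n, ENNReal.ofReal ((topple G (fun w => σ w ω) n).1 v) ∂P ≤
      ENNReal.ofReal C := by
    intro v
    rw [lintegral_iSup (fun n => (topple_measurable G hm n v).1.ennreal_ofReal) (hmono v)]
    exact iSup_le fun n => hbound n v
  refine ⟨⟨C, hsup⟩, ?_⟩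
  rw [ae_all_iff]
  intro v
  have h1 : ∀ᵐ ω ∂P, ⨆ n, ENNReal.ofReal ((topple G (fun w => σ w ω) n).1 v) < ⊤ := by
    apply ae_lt_top
    · exact Measurable.iSup fun n => (topple_measurable G hm n v).1.ennreal_ofReal
    · exact ((hsup v).trans_lt ENNReal.ofReal_lt_top).ne
  filter_upwards [h1] with ω hω
  refine ⟨(⨆ n, ENNReal.ofReal ((topple G (fun w => σ w ω) n).1 v)).toReal, ?_⟩
  rintro x ⟨n, rfl⟩
  rw [← ENNReal.ofReal_le_iff_le_toReal hω.ne]
  exact le_iSup (fun n => ENNReal.ofReal ((topple G (fun w => σ w ω) n).1 v)) n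

end Pool.Agent.H181.DS
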