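import Mathlib

/-!
# Percolation on Galton-Watson trees: the model and the recursion (MP_97806e_pr)
-/

open MeasureTheory ProbabilityTheory Filter Topology
open scoped ENNReal NNReal unitInterval

namespace Pool.Agent.H181.GW

/-- An environment: `Z u` is the number of children of the word `u`; the children of `u` are the
words `u ++ [i]` with `i < Z u`. -/
abbrev Env := List ℕ → ℕ

/-- A configuration: `b u` is the state (open or closed) of the edge from `u ≠ []` to its parent. -/
abbrev Perc := List ℕ → Bool

/-- The word `u` is a vertex of the tree of `Z` joined to the root `[]` by open edges. -/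
def InCluster (Z : Env) (b : Perc) (u : List ℕ) : Prop :=
  ∀ k (hk : k < u.length), u[k] < Z (u.take k) ∧ b (u.take (k + 1)) = true

/-- The Galton-Watson law: independent offspring numbers of law `μ`. -/
noncomputable def GWlaw (μ : Measure ℕ) : Measure Env := Measure.infinitePi fun _ : List ℕ => μ

/-- Bernoulli(`p`) bond percolation: independent edges, open with probability `p`. -/
noncomputable def perc (p : I) : Measure Perc :=
  Measure.infinitePi fun _ : List ℕ => bernoulliMeasure true false p

/-- Quenched survival function: the probability that the open cluster of the root is infinite. -/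
noncomputable def quenched (Z : Env) (p : I) : ℝ := (perc p).real {b | {u | InCluster Z b u}.Infinite}

/-- Annealed survival function. -/
noncomputable def annealed (μ : Measure ℕ) (p : I) : ℝ := ∫ Z, quenched Z p ∂(GWlaw μ)

/-- The family attached to the subtree of the child `i` of the root. -/
def sub {α : Type*} (f : List ℕ → α) (i : ℕ) : List ℕ → α := fun w => f (i :: w)

lemma measurable_sub {α : Type*} [MeasurableSpace α] (i : ℕ) :
    Measurable fun f : List ℕ → α => sub f i :=
  measurable_pi_lambda _ fun _ => measurable_pi_apply _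

instance (p : I) : IsProbabilityMeasure (perc p) := by unfold perc; infer_instance

instance (μ : Measure ℕ) [IsProbabilityMeasure μ] : IsProbabilityMeasure (GWlaw μ) := by
  unfold GWlaw; infer_instance

lemma inCluster_nil (Z : Env) (b : Perc) : InCluster Z b [] := by
  intro k hk; simp at hk

lemma inCluster_cons (Z : Env) (b : Perc) (i : ℕ) (v : List ℕ) :
    InCluster Z b (i :: v) ↔ (i < Z [] ∧ b [i] = true) ∧ InCluster (sub Z i) (sub b i) v := by
  constructor
  · intro h
    exact ⟨h 0 (by simp), fun k hk => h (k + 1) (by simpa using hk)⟩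
  · rintro ⟨h0, h⟩ k hk
    cases k with
    | zero => exact h0
    | succ k => exact h k (by simpa using hk)

lemma inCluster_take {Z : Env} {b : Perc} {u : List ℕ} (h : InCluster Z b u) (n : ℕ) :
    InCluster Z b (u.take n) := by
  intro k hk
  rw [List.length_take] at hk
  have h1 : k < n := lt_of_lt_of_le hk (min_le_left _ _)
  have h2 : k < u.length := lt_of_lt_of_le hk (min_le_right _ _)
  have := h k h2
  rw [List.getElem_take, List.take_take, List.take_take, min_eq_left h1.le,
    min_eq_left (by omega : k + 1 ≤ n)]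
  exact this

/-! ### Product measures -/

section prodlaw

variable {κ α : Type*} [MeasurableSpace α] (ν : Measure α) [IsProbabilityMeasure ν]

lemma optionLaw :
    (ν.prod (Measure.infinitePi fun _ : κ => ν)).map
      (fun x (o : Option κ) => o.elim x.1 x.2) = Measure.infinitePi fun _ : Option κ => ν := by
  classical
  have hmeas : Measurable (fun (x : α × (κ → α)) (o : Option κ) => o.elim x.1 x.2) := by
    apply measurable_pi_lambda
    intro o
    cases o with
    | none => exact measurable_fst
    | some k => exact (measurable_pi_apply k).comp measurable_snd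
  apply Measure.eq_infinitePi
  intro s t ht
  rw [Measure.map_apply hmeas (.pi s.countable_toSet fun _ _ => ht _)]
  have hpre : (fun (x : α × (κ → α)) (o : Option κ) => o.elim x.1 x.2) ⁻¹' ((s : Set (Option κ)).pi t)
      = (if none ∈ s then t none else Set.univ) ×ˢ
        (Set.pi ((Finset.eraseNone s : Finset κ) : Set κ) fun k => t (some k)) := by
    ext x
    simp only [Set.mem_preimage, Set.mem_pi, Set.mem_prod, SetLike.mem_coe, Finset.mem_eraseNone]
    constructor
    · intro h
      refine ⟨?_, fun k hk => h (some k) hk⟩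
      split_ifs with hn
      · exact h none hn
      · exact Set.mem_univ _
    · rintro ⟨h1, h2⟩ o ho
      cases o with
      | none => rw [if_pos ho] at h1; exact h1
      | some k => exact h2 k ho
  rw [hpre, Measure.prod_prod, Measure.infinitePi_pi _ fun k _ => ht (some k)]
  by_cases hn : none ∈ s
  · rw [if_pos hn]
    have hs : s = Finset.insertNone (Finset.eraseNone s) := by
      rw [Finset.insertNone_eraseNone, Finset.insert_eq_self.2 hn]
    conv_rhs => rw [hs]
    rw [Finset.prod_insertNone]
  · rw [if_neg hn, measure_univ, one_mul]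
    have hs : s = (Finset.eraseNone s).map Function.Embedding.some := by
      rw [Finset.map_some_eraseNone, Finset.erase_eq_of_notMem hn]
    conv_rhs => rw [hs]
    rw [Finset.prod_map]
    rfl

/-- Root and subtrees are independent. -/
lemma treeLaw :
    (Measure.infinitePi fun _ : List ℕ => ν).map (fun f => (f [], fun i : ℕ => sub f i))
      = ν.prod (Measure.infinitePi fun _ : ℕ => Measure.infinitePi fun _ : List ℕ => ν) := by
  -- the law over `Option (ℕ × List ℕ)`
  set e : Option (ℕ × List ℕ) → List ℕ := fun o => o.elim [] (fun q => q.1 :: q.2) with he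
  have hinj : Function.Injective e := by
    rintro (_ | ⟨i, v⟩) (_ | ⟨j, w⟩) h
    · rfl
    · simp [he] at h
    · simp [he] at h
    · simp [he] at h
      simp [h.1, h.2]
  have h1 := Measure.map_infinitePi_infinitePi_of_inj (P := fun _ : List ℕ => ν) hinj
  rw [← optionLaw] at h1
  have hm1 : Measurable fun (g : Option (ℕ × List ℕ) → α) => (g none, fun q : ℕ × List ℕ => g (some q)) :=
    (measurable_pi_apply _).prodMk (measurable_pi_lambda _ fun q => measurable_pi_apply _)
  have hm2 : Measurable fun (x : α × (ℕ × List ℕ → α)) (o : Option (ℕ × List ℕ)) => o.elim x.1 x.2 := by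
    apply measurable_pi_lambda
    intro o
    cases o with
    | none => exact measurable_fst
    | some k => exact (measurable_pi_apply k).comp measurable_snd
  have hm3 : Measurable fun (ω : List ℕ → α) (o : Option (ℕ × List ℕ)) => ω (e o) :=
    measurable_pi_lambda _ fun q => measurable_pi_apply _
  have h2 := congrArg (Measure.map
    (fun (g : Option (ℕ × List ℕ) → α) => (g none, fun q : ℕ × List ℕ => g (some q)))) h1
  rw [Measure.map_map hm1 hm3, Measure.map_map hm1 hm2] at h2
  have hid : ((fun (g : Option (ℕ × List ℕ) → α) => (g none, fun q : ℕ × List ℕ => g (some q))) ∘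
      fun (x : α × (ℕ × List ℕ → α)) (o : Option (ℕ × List ℕ)) => o.elim x.1 x.2) = id := rfl
  rw [hid, Measure.map_id] at h2
  have hm4 : Measurable (Prod.map (id : α → α) (MeasurableEquiv.curry ℕ (List ℕ) α)) :=
    measurable_id.prodMap (MeasurableEquiv.curry ℕ (List ℕ) α).measurable
  have h3 := congrArg (Measure.map (Prod.map (id : α → α) (MeasurableEquiv.curry ℕ (List ℕ) α))) h2
  rw [Measure.map_map hm4 (hm1.comp hm3), ← Measure.map_prod_map _ _ measurable_id
    (MeasurableEquiv.curry ℕ (List ℕ) α).measurable, Measure.map_id,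
    Measure.infinitePi_map_curry (fun (_ : ℕ) (_ : List ℕ) => ν)] at h3
  exact h3

lemma measurable_treeMap : Measurable fun f : List ℕ → α => (f [], fun i : ℕ => sub f i) :=
  (measurable_pi_apply _).prodMk (measurable_pi_lambda _ fun i => measurable_sub i)

lemma subLaw :
    (Measure.infinitePi fun _ : List ℕ => ν).map (fun f => fun i : ℕ => sub f i)
      = Measure.infinitePi fun _ : ℕ => Measure.infinitePi fun _ : List ℕ => ν := by
  have h := congrArg (Measure.map Prod.snd) (treeLaw ν)
  rw [Measure.map_map measurable_snd measurable_treeMap, Measure.map_snd_prod, measure_univ,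
    one_smul] at h
  exact h

end prodlaw

/-! ### The recursion -/

/-- Extinction before generation `n`. -/
def Ext (n : ℕ) (Z : Env) : Set Perc := {b | ∀ u : List ℕ, u.length = n → ¬ InCluster Z b u}

lemma ext_zero (Z : Env) : Ext 0 Z = ∅ := by
  ext b
  simp only [Ext, Set.mem_ofPred_eq, Set.mem_empty_iff_false, iff_false]
  intro h
  exact h [] rfl (inCluster_nil Z b)

lemma mem_ext_succ (n : ℕ) (Z : Env) (b : Perc) :
    b ∈ Ext (n + 1) Z ↔ ∀ i ∈ Finset.range (Z []), b [i] = false ∨ sub b i ∈ Ext n (sub Z i) := by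
  constructor
  · intro h i hi
    by_cases hb : b [i] = false
    · exact Or.inl hb
    · right
      intro v hv hc
      refine h (i :: v) (by simp [hv]) ((inCluster_cons Z b i v).2 ⟨⟨Finset.mem_range.1 hi, ?_⟩, hc⟩)
      simpa using hb
  · intro h u hu hc
    cases u with
    | nil => simp at hu
    | cons i v =>
      rw [inCluster_cons] at hc
      rcases h i (Finset.mem_range.2 hc.1.1) with h1 | h1
      · rw [hc.1.2] at h1; exact absurd h1 (by simp)
      · exact h1 v (by simpa using hu) hc.2

/-- `b [] = false` or extinction before generation `n`. -/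
def HH (n : ℕ) (Z : Env) : Set Perc := {b | b [] = false} ∪ Ext n Z

lemma ext_succ (n : ℕ) (Z : Env) :
    Ext (n + 1) Z = (fun (b : Perc) (i : ℕ) => sub b i) ⁻¹'
      (Set.pi (Finset.range (Z []) : Set ℕ) fun i => HH n (sub Z i)) := by
  ext b
  rw [mem_ext_succ]
  rfl

lemma measurableSet_false : MeasurableSet {b : Perc | b [] = false} :=
  (measurable_pi_apply (X := fun _ : List ℕ => Bool) ([] : List ℕ)) (measurableSet_singleton false)

lemma measurable_subs : Measurable (fun (b : Perc) (i : ℕ) => sub b i) :=
  measurable_pi_lambda _ fun i => measurable_sub i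

lemma measurableSet_ext (n : ℕ) (Z : Env) : MeasurableSet (Ext n Z) := by
  induction n generalizing Z with
  | zero => rw [ext_zero]; exact MeasurableSet.empty
  | succ n ih =>
    rw [ext_succ]
    exact measurable_subs (.pi (Finset.countable_toSet _) fun i _ =>
      measurableSet_false.union (ih _))

lemma measurableSet_HH (n : ℕ) (Z : Env) : MeasurableSet (HH n Z) :=
  measurableSet_false.union (measurableSet_ext n Z)

lemma ext_pre (n : ℕ) (Z : Env) : ∃ S : Set (ℕ → Perc), MeasurableSet S ∧
    Ext n Z = (fun (b : Perc) (i : ℕ) => sub b i) ⁻¹' S := by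
  cases n with
  | zero => exact ⟨∅, MeasurableSet.empty, by rw [ext_zero]; rfl⟩
  | succ n => exact ⟨_, .pi (Finset.countable_toSet _) fun i _ => measurableSet_HH n _, ext_succ n Z⟩

variable (p : I)

/-- closed probability -/
noncomputable def c0 : ℝ≥0∞ := (unitInterval.toNNReal (σ p) : ℝ≥0∞)
/-- open probability -/
noncomputable def c1 : ℝ≥0∞ := (unitInterval.toNNReal p : ℝ≥0∞)

lemma perc_union (S : Set (ℕ → Perc)) (hS : MeasurableSet S) :
    perc p ({b | b [] = false} ∪ (fun (b : Perc) (i : ℕ) => sub b i) ⁻¹' S)
      = c0 p + c1 p * perc p ((fun (b : Perc) (i : ℕ) => sub b i) ⁻¹' S) := by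
  have hset : ({b : Perc | b [] = false} ∪ (fun (b : Perc) (i : ℕ) => sub b i) ⁻¹' S)
      = (fun f : Perc => (f [], fun i : ℕ => sub f i)) ⁻¹'
        ((({false} : Set Bool) ×ˢ Set.univ) ∪ (({true} : Set Bool) ×ˢ S)) := by
    ext b
    simp only [Set.mem_union, Set.mem_ofPred_eq, Set.mem_preimage, Set.mem_prod,
      Set.mem_singleton_iff, Set.mem_univ, and_true]
    cases hb : b [] <;> simp
  have hset2 : ((fun (b : Perc) (i : ℕ) => sub b i) ⁻¹' S)
      = (fun f : Perc => (f [], fun i : ℕ => sub f i)) ⁻¹' ((Set.univ : Set Bool) ×ˢ S) := by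
    ext b
    simp
  have hm1 : MeasurableSet ((({false} : Set Bool) ×ˢ (Set.univ : Set (ℕ → Perc)))) :=
    (measurableSet_singleton _).prod MeasurableSet.univ
  have hm2 : MeasurableSet ((({true} : Set Bool) ×ˢ S)) := (measurableSet_singleton _).prod hS
  rw [hset, hset2, perc, ← Measure.map_apply measurable_treeMap (hm1.union hm2),
    ← Measure.map_apply measurable_treeMap (MeasurableSet.univ.prod hS), treeLaw,
    measure_union _ hm2, Measure.prod_prod, Measure.prod_prod, Measure.prod_prod, measure_univ,
    measure_univ, one_mul, mul_one,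
    bernoulliMeasure_apply_of_notMem_of_mem p (measurableSet_singleton false) (by simp) (by simp),
    bernoulliMeasure_apply_of_mem_of_notMem p (measurableSet_singleton true) (by simp) (by simp)]
  · rfl
  · rw [Set.disjoint_left]
    rintro ⟨x, y⟩ h1 h2
    simp only [Set.mem_prod, Set.mem_singleton_iff] at h1 h2
    rw [h1.1] at h2
    exact absurd h2.1 (by simp)

lemma perc_HH (n : ℕ) (Z : Env) : perc p (HH n Z) = c0 p + c1 p * perc p (Ext n Z) := by
  obtain ⟨S, hS, hE⟩ := ext_pre n Z
  rw [HH, hE, perc_union p S hS]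

/-- Quenched probability of extinction before generation `n`. -/
noncomputable def qe (n : ℕ) (Z : Env) : ℝ≥0∞ := perc p (Ext n Z)

lemma qe_zero (Z : Env) : qe p 0 Z = 0 := by rw [qe, ext_zero, measure_empty]

lemma qe_succ (n : ℕ) (Z : Env) :
    qe p (n + 1) Z = ∏ i ∈ Finset.range (Z []), (c0 p + c1 p * qe p n (sub Z i)) := by
  rw [qe, ext_succ, perc, ← Measure.map_apply measurable_subs
    (.pi (Finset.countable_toSet _) fun i _ => measurableSet_HH n _), subLaw,
    Measure.infinitePi_pi _ fun i _ => measurableSet_HH n _]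
  exact Finset.prod_congr rfl fun i _ => perc_HH p n (sub Z i)

lemma measurable_qe (n : ℕ) : Measurable (qe p n) := by
  induction n with
  | zero =>
    have : qe p 0 = fun _ => 0 := funext fun Z => qe_zero p Z
    rw [this]; exact measurable_const
  | succ n ih =>
    have h1 : Measurable fun x : Env × ℕ =>
        ∏ i ∈ Finset.range x.2, (c0 p + c1 p * qe p n (sub x.1 i)) := by
      apply measurable_from_prod_countable_left
      intro k
      dsimp only
      apply Finset.measurable_prod
      intro i _
      exact ((ih.comp (measurable_sub i)).const_mul _).const_add _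
    have h2 : Measurable fun Z : Env => (Z, Z []) := measurable_id.prodMk (measurable_pi_apply _)
    have h3 : qe p (n + 1) = (fun x : Env × ℕ =>
        ∏ i ∈ Finset.range x.2, (c0 p + c1 p * qe p n (sub x.1 i))) ∘ fun Z : Env => (Z, Z []) :=
      funext fun Z => qe_succ p n Z
    rw [h3]
    exact h1.comp h2

lemma qe_le_one (n : ℕ) (Z : Env) : qe p n Z ≤ 1 := prob_le_one

variable (μ : Measure ℕ) [IsProbabilityMeasure μ]

/-- Annealed probability of extinction before generation `n`. -/
noncomputable def ae (n : ℕ) : ℝ≥0∞ := ∫⁻ Z, qe p n Z ∂(GWlaw μ)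

lemma ae_zero : ae p μ 0 = 0 := by
  rw [ae]; simp only [qe_zero, lintegral_zero]

lemma ae_succ (n : ℕ) : ae p μ (n + 1) = ∫⁻ k, (c0 p + c1 p * ae p μ n) ^ k ∂μ := by
  have hf : Measurable fun x : Env => c0 p + c1 p * qe p n x :=
    ((measurable_qe p n).const_mul _).const_add _
  have h1 : Measurable fun x : ℕ × (ℕ → Env) =>
      ∏ i ∈ Finset.range x.1, (c0 p + c1 p * qe p n (x.2 i)) := by
    apply measurable_from_prod_countable_right
    intro k
    dsimp only
    apply Finset.measurable_prod
    intro i _
    exact hf.comp (measurable_pi_apply i)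
  have h2 : ae p μ (n + 1) = ∫⁻ Z, (fun x : ℕ × (ℕ → Env) =>
      ∏ i ∈ Finset.range x.1, (c0 p + c1 p * qe p n (x.2 i)))
        ((fun f : Env => (f [], fun i : ℕ => sub f i)) Z) ∂(GWlaw μ) := by
    rw [ae]
    exact lintegral_congr fun Z => qe_succ p n Z
  rw [h2, GWlaw, ← lintegral_map h1 measurable_treeMap, treeLaw, lintegral_prod _ h1.aemeasurable]
  apply lintegral_congr
  intro k
  have hind := iIndepFun_infinitePi (P := fun _ : ℕ => Measure.infinitePi fun _ : List ℕ => μ)
    (X := fun (_ : ℕ) (x : Env) => c0 p + c1 p * qe p n x) fun _ => hf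
  rw [lintegral_prod_eq_prod_lintegral_of_indepFun (Finset.range k) _ hind
    fun i => hf.comp (measurable_pi_apply i)]
  have h3 : ∀ i ∈ Finset.range k, ∫⁻ (y : ℕ → Env), c0 p + c1 p * qe p n (y i)
      ∂(Measure.infinitePi fun _ : ℕ => Measure.infinitePi fun _ : List ℕ => μ)
      = c0 p + c1 p * ae p μ n := by
    intro i _
    have h4 := lintegral_map (μ := Measure.infinitePi fun _ : ℕ =>
      Measure.infinitePi fun _ : List ℕ => μ) hf (measurable_pi_apply i)
    rw [Measure.infinitePi_map_eval] at h4
    rw [← h4, lintegral_add_left measurable_const, lintegral_const_mul _ (measurable_qe p n),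
      lintegral_const, measure_univ, mul_one]
    rfl
  rw [Finset.prod_congr rfl h3, Finset.prod_const, Finset.card_range]

/-! ### Passage to the limit -/

lemma finite_level (n : ℕ) (Z : Env) (b : Perc) : {u | u.length = n ∧ InCluster Z b u}.Finite := by
  induction n generalizing Z b with
  | zero =>
    refine (Set.finite_singleton ([] : List ℕ)).subset ?_
    rintro u ⟨hu, _⟩
    exact List.length_eq_zero_iff.1 hu
  | succ n ih =>
    refine (Set.Finite.biUnion (Finset.finite_toSet (Finset.range (Z [])))
      fun i _ => (ih (sub Z i) (sub b i)).image (fun v => i :: v)).subset ?_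
    rintro u ⟨hu, hc⟩
    cases u with
    | nil => simp at hu
    | cons i v =>
      rw [inCluster_cons] at hc
      refine Set.mem_biUnion (x := i) (by simpa using hc.1.1) ⟨v, ⟨by simpa using hu, hc.2⟩, rfl⟩

lemma infinite_compl (Z : Env) :
    {b : Perc | {u | InCluster Z b u}.Infinite} = (⋃ n, Ext n Z)ᶜ := by
  ext b
  simp only [Set.mem_ofPred_eq, Set.mem_compl_iff, Set.mem_iUnion, not_exists]
  constructor
  · intro hinf n hn
    apply hinf
    have hfin : (⋃ k ∈ Finset.range n, {u : List ℕ | u.length = k ∧ InCluster Z b u}).Finite :=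
      Set.Finite.biUnion (Finset.finite_toSet (Finset.range n)) fun k _ => finite_level k Z b
    refine hfin.subset ?_
    intro u hu
    have hlt : u.length < n := by
      by_contra hge
      push Not at hge
      exact hn (u.take n) (by rw [List.length_take, min_eq_left hge]) (inCluster_take hu n)
    exact Set.mem_biUnion (x := u.length) (by simpa using hlt) ⟨rfl, hu⟩
  · intro h
    have hex : ∀ n, ∃ u : List ℕ, u.length = n ∧ InCluster Z b u := by
      intro n
      by_contra hno
      push Not at hno
      exact h n fun u hu => hno u hu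
    choose f hf using hex
    refine Set.infinite_of_injective_forall_mem (f := f) ?_ fun n => (hf n).2
    intro m n hmn
    rw [← (hf m).1, ← (hf n).1, hmn]

lemma ext_mono (Z : Env) : Monotone fun n => Ext n Z := by
  apply monotone_nat_of_le_succ
  intro n b hb u hu hc
  exact hb (u.take n) (by rw [List.length_take, hu, min_eq_left (Nat.le_succ n)])
    (inCluster_take hc n)

lemma qe_mono (Z : Env) : Monotone fun n => qe p n Z := fun _ _ h => measure_mono (ext_mono Z h)

lemma quenched_eq (Z : Env) : quenched Z p = 1 - (⨆ n, qe p n Z).toReal := by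
  rw [quenched, infinite_compl, measureReal_def,
    measure_compl (MeasurableSet.iUnion fun n => measurableSet_ext n Z) (measure_ne_top _ _),
    measure_univ, (ext_mono Z).measure_iUnion]
  rw [ENNReal.toReal_sub_of_le _ ENNReal.one_ne_top, ENNReal.toReal_one]
  · rfl
  · exact iSup_le fun n => prob_le_one

lemma annealed_eq : annealed μ p = 1 - (⨆ n, ae p μ n).toReal := by
  have hm : Measurable fun Z => ⨆ n, qe p n Z := Measurable.iSup fun n => measurable_qe p n
  have hle : ∀ Z, (⨆ n, qe p n Z) ≤ 1 := fun Z => iSup_le fun n => qe_le_one p n Z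
  have hint : Integrable (fun Z => (⨆ n, qe p n Z).toReal) (GWlaw μ) := by
    apply integrable_toReal_of_lintegral_ne_top hm.aemeasurable
    refine ne_top_of_le_ne_top ENNReal.one_ne_top ?_
    calc ∫⁻ Z, (⨆ n, qe p n Z) ∂(GWlaw μ) ≤ ∫⁻ _, 1 ∂(GWlaw μ) := lintegral_mono hle
      _ = 1 := by simp
  rw [annealed]
  simp only [quenched_eq]
  rw [integral_sub (integrable_const _) hint, integral_const, probReal_univ, one_smul,
    integral_toReal hm.aemeasurable (ae_of_all _ fun Z => lt_of_le_of_lt (hle Z) ENNReal.one_lt_top),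
    lintegral_iSup (fun n => measurable_qe p n) (fun m n h Z => qe_mono p Z h)]
  rfl

lemma ae_le_one (n : ℕ) : ae p μ n ≤ 1 := by
  calc ae p μ n ≤ ∫⁻ _, 1 ∂(GWlaw μ) := lintegral_mono fun Z => qe_le_one p n Z
    _ = 1 := by simp

lemma ae_mono : Monotone (ae p μ) := fun _ _ h => lintegral_mono fun Z => qe_mono p Z h

/-- real version of the recursion -/
noncomputable def sr (n : ℕ) : ℝ := (ae p μ n).toReal

lemma sr_zero : sr p μ 0 = 0 := by rw [sr, ae_zero]; rfl

lemma sr_mem (n : ℕ) : 0 ≤ sr p μ n ∧ sr p μ n ≤ 1 :=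
  ⟨ENNReal.toReal_nonneg, by
    have := ENNReal.toReal_mono ENNReal.one_ne_top (ae_le_one p μ n)
    simpa [sr] using this⟩

lemma sr_succ (n : ℕ) : sr p μ (n + 1) = ∫ k, (1 - p + p * sr p μ n) ^ k ∂μ := by
  rw [sr, ae_succ]
  have h0 := sr_mem p μ n
  have hp0 : (0 : ℝ) ≤ p := p.2.1
  have hp1 : (p : ℝ) ≤ 1 := p.2.2
  have hb : 0 ≤ 1 - (p : ℝ) + p * sr p μ n :=
    add_nonneg (by linarith) (mul_nonneg hp0 h0.1)
  have h1 : c0 p + c1 p * ae p μ n = ENNReal.ofReal (1 - p + p * sr p μ n) := by
    rw [ENNReal.ofReal_add (by linarith) (mul_nonneg hp0 h0.1), ENNReal.ofReal_mul hp0, sr,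
      ENNReal.ofReal_toReal (ne_top_of_le_ne_top ENNReal.one_ne_top (ae_le_one p μ n))]
    congr 1
    · rw [c0, ENNReal.ofReal]
      congr 1
      ext
      rw [Real.coe_toNNReal _ (by linarith)]
      rfl
    · congr 1
      rw [c1, ENNReal.ofReal]
      congr 1
      ext
      rw [Real.coe_toNNReal _ hp0]
      rfl
  rw [h1, integral_eq_lintegral_of_nonneg_ae (ae_of_all _ fun k => pow_nonneg hb k)
    (Measurable.aestronglyMeasurable (by fun_prop))]
  congr 1
  apply lintegral_congr
  intro k
  rw [ENNReal.ofReal_pow hb]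

lemma sr_mono : Monotone (sr p μ) := fun _ n h =>
  ENNReal.toReal_mono (ne_top_of_le_ne_top ENNReal.one_ne_top (ae_le_one p μ n)) (ae_mono p μ h)

lemma sr_tendsto : Tendsto (sr p μ) atTop (𝓝 (1 - annealed μ p)) := by
  rw [annealed_eq]
  have h1 : Tendsto (ae p μ) atTop (𝓝 (⨆ n, ae p μ n)) := tendsto_atTop_iSup (ae_mono p μ)
  have hne : (⨆ n, ae p μ n) ≠ ⊤ :=
    ne_top_of_le_ne_top ENNReal.one_ne_top (iSup_le fun n => ae_le_one p μ n)
  have h2 := (ENNReal.tendsto_toReal hne).comp h1
  have : 1 - (1 - (⨆ n, ae p μ n).toReal) = (⨆ n, ae p μ n).toReal := by ring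
  rw [this]
  exact h2

lemma annealed_mem : 0 ≤ annealed μ p ∧ annealed μ p ≤ 1 := by
  have h1 : 1 - annealed μ p ≤ 1 := le_of_tendsto' (sr_tendsto p μ) fun n => (sr_mem p μ n).2
  have h2 : 0 ≤ 1 - annealed μ p := ge_of_tendsto' (sr_tendsto p μ) fun n => (sr_mem p μ n).1
  exact ⟨by linarith, by linarith⟩

/-- The annealed survival function solves the fixed point equation. -/
theorem annealed_fixed : annealed μ p = 1 - ∫ k, (1 - p * annealed μ p) ^ k ∂μ := by
  have hp0 : (0 : ℝ) ≤ p := p.2.1
  have hp1 : (p : ℝ) ≤ 1 := p.2.2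
  have h1 : Tendsto (fun n => ∫ k, (1 - (p : ℝ) + p * sr p μ n) ^ k ∂μ) atTop
      (𝓝 (∫ k, (1 - (p : ℝ) + p * (1 - annealed μ p)) ^ k ∂μ)) := by
    apply tendsto_integral_of_dominated_convergence (fun _ => 1)
    · exact fun n => Measurable.aestronglyMeasurable (by fun_prop)
    · exact integrable_const _
    · intro n
      apply ae_of_all
      intro k
      have h0 := sr_mem p μ n
      have hb : 0 ≤ 1 - (p : ℝ) + p * sr p μ n :=
        add_nonneg (by linarith) (mul_nonneg hp0 h0.1)
      rw [Real.norm_eq_abs, abs_of_nonneg (pow_nonneg hb k)]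
      apply pow_le_one₀ hb
      nlinarith [h0.2]
    · apply ae_of_all
      intro k
      exact (((sr_tendsto p μ).const_mul _).const_add _).pow k
  have h2 : Tendsto (fun n => sr p μ (n + 1)) atTop (𝓝 (1 - annealed μ p)) :=
    (sr_tendsto p μ).comp (tendsto_add_atTop_nat 1)
  have h3 : (fun n => sr p μ (n + 1)) = fun n => ∫ k, (1 - (p : ℝ) + p * sr p μ n) ^ k ∂μ :=
    funext fun n => sr_succ p μ n
  rw [h3] at h2
  have h4 := tendsto_nhds_unique h2 h1
  have h5 : (1 - (p : ℝ) + p * (1 - annealed μ p)) = 1 - p * annealed μ p := by ring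
  rw [h5] at h4
  linarith

/-- It is the largest (sub-)solution in `[0, 1]`. -/
theorem annealed_max {x : ℝ} (hx0 : 0 ≤ x) (hx1 : x ≤ 1)
    (h : x ≤ 1 - ∫ k, (1 - p * x) ^ k ∂μ) : x ≤ annealed μ p := by
  have hp0 : (0 : ℝ) ≤ p := p.2.1
  have hp1 : (p : ℝ) ≤ 1 := p.2.2
  have key : ∀ n, sr p μ n ≤ 1 - x := by
    intro n
    induction n with
    | zero => rw [sr_zero]; linarith
    | succ n ih =>
      rw [sr_succ]
      have h0 := sr_mem p μ n
      have hb : 0 ≤ 1 - (p : ℝ) + p * sr p μ n :=
        add_nonneg (by linarith) (mul_nonneg hp0 h0.1)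
      have hc : 0 ≤ 1 - (p : ℝ) * x := by nlinarith
      have hc1 : 1 - (p : ℝ) * x ≤ 1 := by nlinarith
      have hle : 1 - (p : ℝ) + p * sr p μ n ≤ 1 - p * x := by nlinarith
      have : ∫ k, (1 - (p : ℝ) + p * sr p μ n) ^ k ∂μ ≤ ∫ k, (1 - (p : ℝ) * x) ^ k ∂μ := by
        apply integral_mono_of_nonneg (ae_of_all _ fun k => pow_nonneg hb k)
        · refine Integrable.mono' (integrable_const (1 : ℝ))
            (Measurable.aestronglyMeasurable (by fun_prop)) (ae_of_all _ fun k => ?_)
          rw [Real.norm_eq_abs, abs_of_nonneg (pow_nonneg hc k)]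
          exact pow_le_one₀ hc hc1
        · exact ae_of_all _ fun k => pow_le_pow_left₀ hb hle k
      linarith
  have := le_of_tendsto' (sr_tendsto p μ) key
  linarith

end Pool.Agent.H181.GW
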