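import Mathlib

/-!
# The lacunary offspring law: analytic estimates (MP_97806e_pr)
-/

open Filter Topology Finset

namespace Pool.Agent.H181.GW

/-- `A i = 2 ^ (8 ^ i)`. -/
def A (i : ℕ) : ℕ := 2 ^ (8 ^ i)

lemma A_succ (i : ℕ) : A (i + 1) = A i ^ 8 := by rw [A, A, ← pow_mul, pow_succ]

lemma A_ge (i : ℕ) : 2 ^ (i + 1) ≤ A i :=
  Nat.pow_le_pow_right (by norm_num) (Nat.lt_pow_self (by norm_num))

lemma A_two_le (i : ℕ) : 2 ≤ A i := by
  have h := A_ge i
  have : 2 ^ 1 ≤ 2 ^ (i + 1) := Nat.pow_le_pow_right (by norm_num) (by omega)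
  omega

/-- the support of the offspring law -/
def NN (j : ℕ) : ℕ := A (j + 1)

lemma NN_succ (j : ℕ) : NN (j + 1) = NN j ^ 8 := A_succ _

lemma NN_two_le (j : ℕ) : 2 ≤ NN j := A_two_le _

lemma NN_double (j : ℕ) : 2 * NN j ≤ NN (j + 1) := by
  have h := NN_two_le j
  rw [NN_succ]
  calc 2 * NN j ≤ NN j * NN j := Nat.mul_le_mul_right _ h
    _ = NN j ^ 2 := (sq _).symm
    _ ≤ NN j ^ 8 := Nat.pow_le_pow_right (by omega) (by norm_num)

/-- the weights -/
noncomputable def w : ℕ → ℝ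
  | 0 => 1 / 64
  | j + 1 => 1 / ((A j : ℝ) ^ 2 * A (j + 2))

lemma A_pos (i : ℕ) : (0 : ℝ) < A i := by
  have := A_two_le i
  exact_mod_cast (by omega : 0 < A i)

lemma A_two_le' (i : ℕ) : (2 : ℝ) ≤ A i := by exact_mod_cast A_two_le i

lemma NN_pos (i : ℕ) : (0 : ℝ) < NN i := A_pos _

lemma NN_two_le' (i : ℕ) : (2 : ℝ) ≤ NN i := A_two_le' _

lemma w_pos (j : ℕ) : 0 < w j := by
  cases j with
  | zero => norm_num [w]
  | succ j => have h1 := A_pos j; have h2 := A_pos (j + 2); simp only [w]; positivity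

/-- contributions to the mean -/
noncomputable def t (j : ℕ) : ℝ := w j * NN j

lemma t_zero : t 0 = 4 := by norm_num [t, w, NN, A]

lemma NN_gt (j : ℕ) : j < NN j := by
  have h3 : j < 2 ^ (j + 1 + 1) := by
    calc j < 2 ^ j := Nat.lt_two_pow_self
      _ ≤ 2 ^ (j + 1 + 1) := Nat.pow_le_pow_right (by norm_num) (by omega)
  exact h3.trans_le (A_ge (j + 1))

lemma aux1 {N : ℝ} (h : 2 ≤ N) : 2 / N ^ 8 * (1 / (1 / N ^ 3) ^ 2) ≤ 2 := by
  have h0 : 0 < N := by linarith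
  have h6 : 2 / N ^ 8 * (1 / (1 / N ^ 3) ^ 2) = 2 / N ^ 2 := by field_simp
  rw [h6, div_le_iff₀ (by positivity)]
  nlinarith

lemma aux2 {N : ℝ} (h : 2 ≤ N) : (10 * N) ^ 2 * (1 / N ^ 3) = 100 / N := by
  have h0 : 0 < N := by linarith
  field_simp; norm_num

attribute [irreducible] A NN

lemma t_succ (j : ℕ) : t (j + 1) = 1 / (A j : ℝ) ^ 2 := by
  have h1 := A_pos j
  have h2 := A_pos (j + 2)
  simp only [t, w, NN]
  field_simp

lemma t_pos (j : ℕ) : 0 < t j := mul_pos (w_pos j) (NN_pos j)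

lemma t_succ_le (j : ℕ) : t (j + 1) ≤ (1 / 2) ^ j := by
  rw [t_succ, one_div_pow]
  apply one_div_le_one_div_of_le (by positivity)
  have h1 : (2 : ℝ) ^ (j + 1) ≤ A j := by exact_mod_cast A_ge j
  have h2 : (1 : ℝ) ≤ A j := by linarith [A_two_le' j]
  calc (2 : ℝ) ^ j ≤ 2 ^ (j + 1) := pow_le_pow_right₀ (by norm_num) (by omega)
    _ ≤ A j := h1
    _ ≤ (A j : ℝ) ^ 2 := by nlinarith

lemma t_le (j : ℕ) : t j ≤ 4 := by
  cases j with
  | zero => rw [t_zero]
  | succ j =>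
    refine (t_succ_le j).trans ?_
    have : ((1 : ℝ) / 2) ^ j ≤ 1 := pow_le_one₀ (by norm_num) (by norm_num)
    linarith

lemma summable_t : Summable t := by
  rw [← summable_nat_add_iff 1]
  exact Summable.of_nonneg_of_le (fun j => (t_pos _).le) t_succ_le summable_geometric_two

lemma w_le_t (j : ℕ) : w j ≤ t j := by
  have h1 := w_pos j
  have h2 := NN_two_le' j
  rw [t]; nlinarith

lemma summable_w : Summable w := Summable.of_nonneg_of_le (fun j => (w_pos j).le) w_le_t summable_t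

/-! ### geometric sums -/

/-- `∑_{l<N} (1-y)^l` -/
noncomputable def gs (N : ℕ) (y : ℝ) : ℝ := ∑ l ∈ range N, (1 - y) ^ l

/-- `∑_{l<N} l (1-y)^(l-1)` -/
noncomputable def ds (N : ℕ) (y : ℝ) : ℝ := ∑ l ∈ range N, (l : ℝ) * (1 - y) ^ (l - 1)

lemma gs_mul (N : ℕ) (y : ℝ) : y * gs N y = 1 - (1 - y) ^ N := by
  have := geom_sum_mul (1 - y) N
  rw [gs]; linarith

lemma gs_le {N : ℕ} {y : ℝ} (h0 : 0 ≤ y) (h1 : y ≤ 1) : gs N y ≤ N := by
  calc gs N y ≤ ∑ l ∈ range N, (1 : ℝ) :=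
        Finset.sum_le_sum fun l _ => pow_le_one₀ (by linarith) (by linarith)
    _ = N := by simp

lemma gs_nonneg {N : ℕ} {y : ℝ} (h1 : y ≤ 1) : 0 ≤ gs N y :=
  Finset.sum_nonneg fun l _ => pow_nonneg (by linarith) l

lemma gs_le_inv {N : ℕ} {y : ℝ} (h0 : 0 < y) (h1 : y ≤ 1) : gs N y ≤ 1 / y := by
  rw [le_div_iff₀ h0, mul_comm, gs_mul]
  have : 0 ≤ (1 - y) ^ N := pow_nonneg (by linarith) N
  linarith

lemma gs_anti {N : ℕ} {x y : ℝ} (hxy : x ≤ y) (h1 : y ≤ 1) : gs N y ≤ gs N x :=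
  Finset.sum_le_sum fun l _ => pow_le_pow_left₀ (by linarith) (by linarith) l

lemma ds_nonneg {N : ℕ} {y : ℝ} (h1 : y ≤ 1) : 0 ≤ ds N y :=
  Finset.sum_nonneg fun l _ => mul_nonneg (Nat.cast_nonneg _) (pow_nonneg (by linarith) _)

lemma ds_anti {N : ℕ} {x y : ℝ} (hxy : x ≤ y) (h1 : y ≤ 1) : ds N y ≤ ds N x :=
  Finset.sum_le_sum fun l _ => mul_le_mul_of_nonneg_left
    (pow_le_pow_left₀ (by linarith) (by linarith) _) (Nat.cast_nonneg _)

lemma ds_le_sq {N : ℕ} {y : ℝ} (h0 : 0 ≤ y) (h1 : y ≤ 1) : ds N y ≤ (N : ℝ) ^ 2 := by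
  calc ds N y ≤ ∑ l ∈ range N, (N : ℝ) := by
        apply Finset.sum_le_sum
        intro l hl
        have h2 : (l : ℝ) ≤ N := by exact_mod_cast (Finset.mem_range.1 hl).le
        have h3 : (1 - y) ^ (l - 1) ≤ 1 := pow_le_one₀ (by linarith) (by linarith)
        calc (l : ℝ) * (1 - y) ^ (l - 1) ≤ l * 1 :=
              mul_le_mul_of_nonneg_left h3 (Nat.cast_nonneg _)
          _ ≤ N := by linarith
    _ = (N : ℝ) ^ 2 := by simp [sq]

lemma ds_mul (N : ℕ) (y : ℝ) : y ^ 2 * ds (N + 1) y = 1 - (1 - y) ^ N * (1 + N * y) := by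
  induction N with
  | zero => simp [ds]
  | succ N ih =>
    have h : ds (N + 1 + 1) y = ds (N + 1) y + ((N + 1 : ℕ) : ℝ) * (1 - y) ^ N := by
      rw [ds, Finset.sum_range_succ, ← ds]; simp
    rw [h, mul_add, ih]
    push_cast
    ring

lemma ds_le_inv {N : ℕ} {y : ℝ} (h0 : 0 < y) (h1 : y ≤ 1) : ds N y ≤ 1 / y ^ 2 := by
  cases N with
  | zero => simp only [ds, Finset.range_zero, Finset.sum_empty]; positivity
  | succ N =>
    rw [le_div_iff₀ (by positivity), mul_comm, ds_mul]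
    have : 0 ≤ (1 - y) ^ N * (1 + N * y) :=
      mul_nonneg (pow_nonneg (by linarith) N) (by positivity)
    linarith

lemma gs_hasDeriv (N : ℕ) (y : ℝ) : HasDerivAt (gs N) (-ds N y) y := by
  have h1 : HasDerivAt (fun z : ℝ => 1 - z) (-1) y := by
    simpa using (hasDerivAt_id' y).const_sub 1
  have h2 : HasDerivAt (fun z : ℝ => ∑ l ∈ range N, (1 - z) ^ l)
      (∑ l ∈ range N, ((l : ℝ) * (1 - y) ^ (l - 1) * (-1))) y :=
    HasDerivAt.fun_sum fun l _ => h1.pow l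
  have h3 : (∑ l ∈ range N, ((l : ℝ) * (1 - y) ^ (l - 1) * (-1))) = -ds N y := by
    rw [ds, ← Finset.sum_neg_distrib]
    exact Finset.sum_congr rfl fun l _ => by ring
  rw [h3] at h2
  exact h2

/-! ### The functions `r` and `b = -r'` -/

/-- `r(y) = E[∑_{l<N} (1-y)^l] = P(at least one) / y` -/
noncomputable def r (y : ℝ) : ℝ := ∑' j, w j * gs (NN j) y

/-- `b = -r'` -/
noncomputable def b (y : ℝ) : ℝ := ∑' j, w j * ds (NN j) y

/-- the mean -/
noncomputable def m : ℝ := ∑' j, t j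

lemma gs_term_le {y : ℝ} (h0 : 0 ≤ y) (h1 : y ≤ 1) (j : ℕ) : w j * gs (NN j) y ≤ t j :=
  mul_le_mul_of_nonneg_left (gs_le h0 h1) (w_pos j).le

lemma summable_r {y : ℝ} (h0 : 0 ≤ y) (h1 : y ≤ 1) : Summable fun j => w j * gs (NN j) y :=
  Summable.of_nonneg_of_le (fun j => mul_nonneg (w_pos j).le (gs_nonneg h1)) (gs_term_le h0 h1)
    summable_t

lemma summable_b {y : ℝ} (h0 : 0 < y) (h1 : y ≤ 1) : Summable fun j => w j * ds (NN j) y :=
  Summable.of_nonneg_of_le (fun j => mul_nonneg (w_pos j).le (ds_nonneg h1))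
    (fun j => mul_le_mul_of_nonneg_left (ds_le_inv h0 h1) (w_pos j).le) (summable_w.mul_right _)

lemma r_zero : r 0 = m := by
  rw [r, m]
  congr 1
  funext j
  simp [gs, t]

lemma m_ge : 4 ≤ m := by
  rw [m, ← t_zero]
  exact summable_t.le_tsum 0 fun j _ => (t_pos j).le

lemma r_hasDeriv {y : ℝ} (h0 : 0 < y) (h1 : y < 1) : HasDerivAt r (-b y) y := by
  have h : HasDerivAt (fun z => ∑' j, w j * gs (NN j) z) (∑' j, w j * (-ds (NN j) y)) y := by
    apply hasDerivAt_tsum_of_isPreconnected (u := fun j => w j * (1 / (y / 2) ^ 2))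
      (g := fun j z => w j * gs (NN j) z) (g' := fun j z => w j * (-ds (NN j) z))
      (t := Set.Ioo (y / 2) 1) (summable_w.mul_right _) isOpen_Ioo isPreconnected_Ioo
      (y₀ := y)
    · intro j z _
      exact (gs_hasDeriv (NN j) z).const_mul _
    · intro j z hz
      have hz0 : 0 < z := by linarith [hz.1]
      rw [norm_mul, norm_neg, Real.norm_eq_abs, Real.norm_eq_abs, abs_of_pos (w_pos j),
        abs_of_nonneg (ds_nonneg hz.2.le)]
      apply mul_le_mul_of_nonneg_left _ (w_pos j).le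
      refine (ds_le_inv hz0 hz.2.le).trans ?_
      apply one_div_le_one_div_of_le (by positivity)
      exact pow_le_pow_left₀ (by positivity) hz.1.le 2
    · exact ⟨by linarith, h1⟩
    · exact summable_r h0.le h1.le
    · exact ⟨by linarith, h1⟩
  have h2 : (∑' j, w j * (-ds (NN j) y)) = -b y := by
    rw [b, ← tsum_neg]
    congr 1
    funext j
    ring
  rw [h2] at h
  exact h

lemma b_cont : ContinuousOn b (Set.Ioo 0 1) := by
  intro y hy
  have h1 : ContinuousOn b (Set.Ioo (y / 2) 1) := by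
    apply continuousOn_tsum (u := fun j => w j * (1 / (y / 2) ^ 2))
    · intro j
      apply Continuous.continuousOn
      apply continuous_const.mul
      exact continuous_finsetSum _ fun l _ => by fun_prop
    · exact summable_w.mul_right _
    · intro j z hz
      have hy0 := hy.1
      have hz0 : 0 < z := by linarith [hz.1]
      rw [norm_mul, Real.norm_eq_abs, Real.norm_eq_abs, abs_of_pos (w_pos j),
        abs_of_nonneg (ds_nonneg hz.2.le)]
      apply mul_le_mul_of_nonneg_left _ (w_pos j).le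
      refine (ds_le_inv hz0 hz.2.le).trans ?_
      apply one_div_le_one_div_of_le (by positivity)
      exact pow_le_pow_left₀ (by positivity) hz.1.le 2
  have hy0 := hy.1
  exact (h1.continuousAt (Ioo_mem_nhds (by linarith) hy.2)).continuousWithinAt

lemma b_anti {x y : ℝ} (h0 : 0 < x) (hxy : x ≤ y) (h1 : y ≤ 1) : b y ≤ b x :=
  (summable_b (h0.trans_le hxy) h1).tsum_le_tsum
    (fun j => mul_le_mul_of_nonneg_left (ds_anti hxy h1) (w_pos j).le)
    (summable_b h0 (hxy.trans h1))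

lemma b_ge_term {y : ℝ} (h0 : 0 < y) (h1 : y ≤ 1) (j : ℕ) : w j * ds (NN j) y ≤ b y :=
  (summable_b h0 h1).le_tsum j fun i _ => mul_nonneg (w_pos i).le (ds_nonneg h1)

lemma b_ge {y : ℝ} (h0 : 0 < y) (h1 : y ≤ 1) : 1 / 64 ≤ b y := by
  refine le_trans ?_ (b_ge_term h0 h1 0)
  have h2 : (1 : ℝ) ≤ ds (NN 0) y := by
    have h3 : ((1 : ℕ) : ℝ) * (1 - y) ^ (1 - 1) ≤ ds (NN 0) y :=
      Finset.single_le_sum (f := fun l : ℕ => (l : ℝ) * (1 - y) ^ (l - 1))
        (fun l _ => mul_nonneg (Nat.cast_nonneg _) (pow_nonneg (by linarith) _))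
        (Finset.mem_range.2 (by have := NN_two_le 0; omega))
    simpa using h3
  have h4 : w 0 = 1 / 64 := rfl
  rw [h4]; linarith

lemma r_anti {x y : ℝ} (h0 : 0 ≤ x) (hxy : x < y) (h1 : y ≤ 1) : r y < r x := by
  apply Summable.tsum_lt_tsum (i := 0) _ _ (summable_r (h0.trans hxy.le) h1)
    (summable_r h0 (hxy.le.trans h1))
  · exact fun j => mul_le_mul_of_nonneg_left (gs_anti hxy.le h1) (w_pos j).le
  · apply mul_lt_mul_of_pos_left _ (w_pos 0)
    apply Finset.sum_lt_sum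
    · exact fun l _ => pow_le_pow_left₀ (by linarith) (by linarith) l
    · exact ⟨1, Finset.mem_range.2 (by have := NN_two_le 0; omega), by simpa using hxy⟩

lemma r_cont : ContinuousOn r (Set.Icc 0 1) := by
  apply continuousOn_tsum (u := t)
  · intro j
    apply Continuous.continuousOn
    apply continuous_const.mul
    exact continuous_finsetSum _ fun l _ => by fun_prop
  · exact summable_t
  · intro j z hz
    rw [Real.norm_eq_abs, abs_of_nonneg (mul_nonneg (w_pos j).le (gs_nonneg hz.2))]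
    exact gs_term_le hz.1 hz.2 j

/-- the key lower bound for `m - r` -/
lemma le_pow_four {y : ℝ} (h0 : 0 < y) (h1 : y ≤ 1) : y ≤ 32 * (m - r y) ^ 4 := by
  have hterm : ∀ j, 2 ≤ NN j * y → t j / 2 ≤ m - r y := by
    intro j hj
    have h2 : m - r y = ∑' j, (t j - w j * gs (NN j) y) := by
      rw [m, r, summable_t.tsum_sub (summable_r h0.le h1)]
    rw [h2]
    refine le_trans ?_ ((summable_t.sub (summable_r h0.le h1)).le_tsum j
      fun i _ => sub_nonneg.2 (gs_term_le h0.le h1 i))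
    have h3 := gs_le_inv (N := NN j) h0 h1
    have h4 : 1 / y ≤ NN j / 2 := by
      rw [div_le_div_iff₀ h0 (by norm_num)]; linarith
    have h5 := w_pos j
    have h6 : w j * gs (NN j) y ≤ w j * (NN j / 2) :=
      mul_le_mul_of_nonneg_left (h3.trans h4) h5.le
    rw [t]; linarith
  have hex : ∃ j, 2 ≤ (NN j : ℝ) * y := by
    obtain ⟨j, hj⟩ := exists_nat_gt (2 / y)
    refine ⟨j, ?_⟩
    rw [div_lt_iff₀ h0] at hj
    have h2 : (j : ℝ) ≤ NN j := by exact_mod_cast (NN_gt j).le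
    nlinarith
  classical
  have hspec := Nat.find_spec hex
  have hmin := fun k => Nat.find_min (m := k) hex
  generalize Nat.find hex = j at hspec hmin
  cases j with
  | zero =>
    have h2 := hterm 0 hspec
    rw [t_zero] at h2
    have h3 : (1 : ℝ) ≤ (m - r y) ^ 4 := one_le_pow₀ (by linarith)
    linarith
  | succ j =>
    have h2 := hterm (j + 1) hspec
    have h3 := hmin j (by omega)
    push Not at h3
    rw [t_succ] at h2
    have hA := A_pos j
    have hN : (NN j : ℝ) = (A j : ℝ) ^ 8 := by rw [NN, A_succ]; push_cast; ring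
    rw [hN] at h3
    have h4 : (1 / (A j : ℝ) ^ 2 / 2) ^ 4 ≤ (m - r y) ^ 4 :=
      pow_le_pow_left₀ (by positivity) h2 4
    have h5 : (1 / (A j : ℝ) ^ 2 / 2) ^ 4 = 1 / (16 * (A j : ℝ) ^ 8) := by
      field_simp; norm_num
    rw [h5] at h4
    have h6 : y ≤ 2 / (A j : ℝ) ^ 8 := by
      rw [le_div_iff₀ (by positivity)]; linarith
    calc y ≤ 2 / (A j : ℝ) ^ 8 := h6
      _ = 32 * (1 / (16 * (A j : ℝ) ^ 8)) := by field_simp; norm_num
      _ ≤ 32 * (m - r y) ^ 4 := by linarith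

lemma sum_NN_le (J : ℕ) : ∑ j ∈ range (J + 1), (NN j : ℝ) ≤ 2 * NN J := by
  induction J with
  | zero => simp only [zero_add, Finset.range_one, Finset.sum_singleton]; linarith [NN_pos 0]
  | succ J ih =>
    rw [Finset.sum_range_succ]
    have : 2 * (NN J : ℝ) ≤ NN (J + 1) := by exact_mod_cast NN_double J
    linarith

lemma NN_geom (J i : ℕ) : (2 : ℝ) ^ i * NN J ≤ NN (i + J) := by
  induction i with
  | zero => simp
  | succ i ih =>
    have h : 2 * (NN (i + J) : ℝ) ≤ NN (i + 1 + J) := by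
      have := NN_double (i + J)
      have e : i + J + 1 = i + 1 + J := by omega
      rw [e] at this
      exact_mod_cast this
    calc (2 : ℝ) ^ (i + 1) * NN J = 2 * (2 ^ i * NN J) := by ring
      _ ≤ 2 * NN (i + J) := by linarith
      _ ≤ _ := h

lemma w_succ_le (j : ℕ) : w (j + 1) ≤ 1 / NN (j + 1) := by
  have h1 := A_two_le' j
  have h2 := A_pos (j + 2)
  simp only [w, NN]
  apply one_div_le_one_div_of_le h2
  nlinarith [sq_nonneg ((A j : ℝ) - 1)]

lemma tail_w (J : ℕ) : ∑' i, w (i + (J + 1)) ≤ 2 / NN (J + 1) := by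
  have h1 : ∀ i, w (i + (J + 1)) ≤ (1 / 2) ^ i * (1 / NN (J + 1)) := by
    intro i
    have e : i + (J + 1) = (i + J) + 1 := by omega
    rw [e]
    refine (w_succ_le _).trans ?_
    rw [← e]
    have h2 := NN_geom (J + 1) i
    have h3 := NN_pos (J + 1)
    rw [one_div_pow, one_div_mul_one_div]
    exact one_div_le_one_div_of_le (by positivity) h2
  have h2 := ((summable_nat_add_iff (J + 1)).2 summable_w).tsum_le_tsum h1
    (summable_geometric_two.mul_right _)
  rw [tsum_mul_right, tsum_geometric_two] at h2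
  refine h2.trans (le_of_eq (by ring))

/-- along a sequence `b(y)^2 y → 0` -/
lemma exists_small (η : ℝ) (hη : 0 < η) : ∃ y : ℝ, 0 < y ∧ y < η ∧ y < 1 ∧ b y ^ 2 * y < η := by
  obtain ⟨J, hJ⟩ := exists_nat_gt (101 / η)
  obtain ⟨N, hN⟩ : ∃ N : ℝ, N = (NN J : ℝ) := ⟨_, rfl⟩
  have hN2 : 2 ≤ N := hN ▸ NN_two_le' J
  have hJN : (J : ℝ) ≤ N := by rw [hN]; exact_mod_cast (NN_gt J).le
  have hηN : 101 < η * N := by
    rw [div_lt_iff₀ hη] at hJ
    nlinarith
  obtain ⟨y, hy⟩ : ∃ y : ℝ, y = 1 / N ^ 3 := ⟨_, rfl⟩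
  have hy0 : 0 < y := by rw [hy]; positivity
  have hN3 : 1 < N ^ 3 := one_lt_pow₀ (by linarith) (by norm_num)
  have hy1 : y < 1 := by rw [hy, div_lt_one (by positivity)]; exact hN3
  have hyN : y ≤ 1 / N := by
    rw [hy]
    apply one_div_le_one_div_of_le (by linarith)
    nlinarith [sq_nonneg N]
  have hb : b y ≤ 10 * N := by
    rw [b, ← (summable_b hy0 hy1.le).sum_add_tsum_nat_add (J + 1)]
    have h1 : ∑ j ∈ range (J + 1), w j * ds (NN j) y ≤ ∑ j ∈ range (J + 1), 4 * (NN j : ℝ) := by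
      apply Finset.sum_le_sum
      intro j _
      calc w j * ds (NN j) y ≤ w j * (NN j : ℝ) ^ 2 :=
            mul_le_mul_of_nonneg_left (ds_le_sq hy0.le hy1.le) (w_pos j).le
        _ = t j * NN j := by rw [t]; ring
        _ ≤ 4 * NN j := mul_le_mul_of_nonneg_right (t_le j) (NN_pos j).le
    rw [← Finset.mul_sum] at h1
    have h2 := sum_NN_le J
    have h3 : ∑' i, w (i + (J + 1)) * ds (NN (i + (J + 1))) y ≤ ∑' i, w (i + (J + 1)) * (1 / y ^ 2) := by
      apply Summable.tsum_le_tsum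
      · exact fun i => mul_le_mul_of_nonneg_left (ds_le_inv hy0 hy1.le) (w_pos _).le
      · exact (summable_nat_add_iff (J + 1)).2 (summable_b hy0 hy1.le)
      · exact ((summable_nat_add_iff (J + 1)).2 summable_w).mul_right _
    rw [tsum_mul_right] at h3
    have h4 : (∑' i, w (i + (J + 1))) * (1 / y ^ 2) ≤ 2 / NN (J + 1) * (1 / y ^ 2) :=
      mul_le_mul_of_nonneg_right (tail_w J) (by positivity)
    have h5 : (2 : ℝ) / NN (J + 1) * (1 / y ^ 2) ≤ 2 := by
      have : (NN (J + 1) : ℝ) = N ^ 8 := by rw [NN_succ, Nat.cast_pow, hN]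
      rw [this, hy]
      exact aux1 hN2
    rw [← hN] at h2
    have h7 : ∑ j ∈ range (J + 1), w j * ds (NN j) y ≤ 8 * N := by linarith
    linarith
  have hb0 : 0 ≤ b y := le_trans (by norm_num) (b_ge hy0 hy1.le)
  have hlt : 1 / N < η := by rw [div_lt_iff₀ (by linarith)]; linarith
  refine ⟨y, hy0, hyN.trans_lt hlt, hy1, ?_⟩
  calc b y ^ 2 * y ≤ (10 * N) ^ 2 * y :=
        mul_le_mul_of_nonneg_right (pow_le_pow_left₀ hb0 hb 2) hy0.le
    _ = 100 / N := by rw [hy]; exact aux2 hN2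
    _ < η := by rw [div_lt_iff₀ (by linarith)]; linarith

/-- `b` is unbounded near `0` -/
lemma exists_large (B η : ℝ) (hη : 0 < η) : ∃ y : ℝ, 0 < y ∧ y < η ∧ y < 1 ∧ B ≤ b y := by
  obtain ⟨J, hJ⟩ := exists_nat_gt (max (8 * B) (1 / η))
  have hJ1 : 8 * B < J := (le_max_left _ _).trans_lt hJ
  have hJ2 : 1 / η < J := (le_max_right _ _).trans_lt hJ
  obtain ⟨N, hN⟩ : ∃ N : ℝ, N = (NN (J + 1) : ℝ) := ⟨_, rfl⟩
  have hN2 : 2 ≤ N := hN ▸ NN_two_le' _
  have hAJ : (J : ℝ) ≤ A J := by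
    have h3 : J < 2 ^ (J + 1) := by
      calc J < 2 ^ J := Nat.lt_two_pow_self
        _ ≤ 2 ^ (J + 1) := Nat.pow_le_pow_right (by norm_num) (by omega)
    exact_mod_cast (h3.le.trans (A_ge J))
  have hA2 := A_two_le' J
  have hAN : (A J : ℝ) ^ 8 ≤ N := by
    have h1 : A J ^ 8 = A (J + 1) := (A_succ J).symm
    have h2 : A (J + 1) ≤ A (J + 1 + 1) := by
      have := NN_double J
      simp only [NN] at this
      omega
    rw [hN, NN]
    have : A J ^ 8 ≤ A (J + 1 + 1) := by rw [h1]; exact h2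
    exact_mod_cast this
  have hA8 : (A J : ℝ) ≤ (A J : ℝ) ^ 8 := le_self_pow₀ (by linarith) (by norm_num)
  obtain ⟨y, hy⟩ : ∃ y : ℝ, y = 1 / (2 * N) := ⟨_, rfl⟩
  have hy0 : 0 < y := by rw [hy]; positivity
  have hy1 : y < 1 := by rw [hy, div_lt_one (by linarith)]; linarith
  have hyη : y < η := by
    rw [div_lt_iff₀ hη] at hJ2
    rw [hy, div_lt_iff₀ (by linarith)]
    nlinarith
  refine ⟨y, hy0, hyη, hy1, ?_⟩
  refine le_trans ?_ (b_ge_term hy0 hy1.le (J + 1))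
  have hds : N ^ 2 / 8 ≤ ds (NN (J + 1)) y := by
    have h1 : ∑ l ∈ range (NN (J + 1)), (l : ℝ) * (1 / 2) ≤ ds (NN (J + 1)) y := by
      apply Finset.sum_le_sum
      intro l hl
      apply mul_le_mul_of_nonneg_left _ (Nat.cast_nonneg _)
      have hl' : (l : ℝ) ≤ N := by
        rw [hN]; exact_mod_cast (Finset.mem_range.1 hl).le
      have h2 := one_add_mul_le_pow (a := -y) (by linarith) (l - 1)
      have h3 : ((l - 1 : ℕ) : ℝ) ≤ N := by
        refine le_trans ?_ hl'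
        exact_mod_cast Nat.sub_le l 1
      have h4 : ((l - 1 : ℕ) : ℝ) * y ≤ 1 / 2 := by
        calc ((l - 1 : ℕ) : ℝ) * y ≤ N * y := mul_le_mul_of_nonneg_right h3 hy0.le
          _ = 1 / 2 := by rw [hy]; field_simp
      have h5 : (1 : ℝ) + -y = 1 - y := by ring
      rw [h5] at h2
      linarith
    rw [← Finset.sum_mul] at h1
    have h6 : (∑ l ∈ range (NN (J + 1)), (l : ℝ)) * 2 = N * (N - 1) := by
      have := Finset.sum_range_id_mul_two (NN (J + 1))
      have h7 : ((∑ l ∈ range (NN (J + 1)), l : ℕ) : ℝ) * 2 = (NN (J + 1) : ℝ) * ((NN (J + 1) - 1 : ℕ) : ℝ) := by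
        exact_mod_cast this
      rw [Nat.cast_sum, Nat.cast_sub (by have := NN_two_le (J + 1); omega)] at h7
      rw [h7, hN]; push_cast; ring
    nlinarith
  have hw : w (J + 1) = 1 / ((A J : ℝ) ^ 2 * N) := by
    simp only [w, hN, NN]
  rw [hw]
  have h8 : 1 / ((A J : ℝ) ^ 2 * N) * (N ^ 2 / 8) ≤ 1 / ((A J : ℝ) ^ 2 * N) * ds (NN (J + 1)) y :=
    mul_le_mul_of_nonneg_left hds (by positivity)
  refine le_trans ?_ h8
  have h9 : 1 / ((A J : ℝ) ^ 2 * N) * (N ^ 2 / 8) = N / (8 * (A J : ℝ) ^ 2) := by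
    field_simp
  rw [h9, le_div_iff₀ (by positivity)]
  have h10 : (A J : ℝ) * (A J : ℝ) ^ 2 ≤ (A J : ℝ) ^ 8 := by
    calc (A J : ℝ) * (A J : ℝ) ^ 2 = (A J : ℝ) ^ 3 := by ring
      _ ≤ (A J : ℝ) ^ 8 := pow_le_pow_right₀ (by linarith) (by norm_num)
  nlinarith [sq_nonneg (A J : ℝ)]

end Pool.Agent.H181.GW
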