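import Pool.Agent.H181.GwA
import Pool.Agent.H181.GwB

/-!
# The survival function of the lacunary law (MP_97806e_pr)
-/

open MeasureTheory Filter Topology Asymptotics
open scoped unitInterval ENNReal

namespace Pool.Agent.H181.GW

/-- The lacunary offspring law: mass `w j` at `NN j`, the rest at `0`. -/
noncomputable def law : Measure ℕ :=
  ENNReal.ofReal (1 - ∑' j, w j) • Measure.dirac 0 +
    Measure.sum fun j => ENNReal.ofReal (w j) • Measure.dirac (NN j)

lemma sum_w_le : ∑' j, w j ≤ 1 := by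
  rw [summable_w.tsum_eq_zero_add]
  have h1 := tail_w 0
  simp only [zero_add] at h1
  have h2 : (4 : ℝ) ≤ NN 1 := by
    have h3 := NN_double 0
    have h4 := NN_two_le 0
    have h5 : 4 ≤ NN 1 := by simpa using (by omega : 4 ≤ NN (0 + 1))
    exact_mod_cast h5
  have h3 : (2 : ℝ) / NN 1 ≤ 1 / 2 := by
    rw [div_le_iff₀ (by linarith)]; linarith
  have h4 : w 0 = 1 / 64 := rfl
  rw [h4]; linarith

lemma lintegral_law (f : ℕ → ℝ≥0∞) :
    ∫⁻ k, f k ∂law = ENNReal.ofReal (1 - ∑' j, w j) * f 0 + ∑' j, ENNReal.ofReal (w j) * f (NN j) := by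
  rw [law, lintegral_add_measure, lintegral_smul_measure, lintegral_sum_measure, lintegral_dirac]
  simp only [lintegral_smul_measure, lintegral_dirac, smul_eq_mul]

instance law_prob : IsProbabilityMeasure law := by
  constructor
  have h := lintegral_law 1
  simp only [Pi.one_apply, mul_one, lintegral_one] at h
  rw [h, ← ENNReal.ofReal_tsum_of_nonneg (fun j => (w_pos j).le) summable_w,
    ← ENNReal.ofReal_add (by linarith [sum_w_le]) (tsum_nonneg fun j => (w_pos j).le)]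
  simp

lemma integral_law {f : ℕ → ℝ} (hf : ∀ k, 0 ≤ f k) (hs : Summable fun j => w j * f (NN j)) :
    Integrable f law ∧ ∫ k, f k ∂law = (1 - ∑' j, w j) * f 0 + ∑' j, w j * f (NN j) := by
  have h0 : 0 ≤ ∑' j, w j * f (NN j) := tsum_nonneg fun j => mul_nonneg (w_pos j).le (hf _)
  have h1 : 0 ≤ (1 - ∑' j, w j) * f 0 := mul_nonneg (by linarith [sum_w_le]) (hf 0)
  have hl : ∫⁻ k, ENNReal.ofReal (f k) ∂law
      = ENNReal.ofReal ((1 - ∑' j, w j) * f 0 + ∑' j, w j * f (NN j)) := by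
    rw [lintegral_law, ENNReal.ofReal_add h1 h0, ENNReal.ofReal_mul (by linarith [sum_w_le]),
      ENNReal.ofReal_tsum_of_nonneg (fun j => mul_nonneg (w_pos j).le (hf _)) hs]
    congr 1
    exact tsum_congr fun j => (ENNReal.ofReal_mul (w_pos j).le).symm
  have hm : AEStronglyMeasurable f law := Measurable.aestronglyMeasurable (by fun_prop)
  constructor
  · refine ⟨hm, ?_⟩
    rw [hasFiniteIntegral_iff_ofReal (ae_of_all _ hf), hl]
    exact ENNReal.ofReal_lt_top
  · rw [integral_eq_lintegral_of_nonneg_ae (ae_of_all _ hf) hm, hl, ENNReal.toReal_ofReal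
      (add_nonneg h1 h0)]

lemma integrable_law : Integrable (fun n : ℕ => (n : ℝ)) law :=
  (integral_law (f := fun n : ℕ => (n : ℝ)) (fun k => Nat.cast_nonneg k) summable_t).1

lemma mean_law : ∫ n, (n : ℝ) ∂law = m := by
  rw [(integral_law (f := fun n : ℕ => (n : ℝ)) (fun k => Nat.cast_nonneg k) summable_t).2]
  simp only [Nat.cast_zero, mul_zero, zero_add, m, t]

lemma gen_law {y : ℝ} (h0 : 0 ≤ y) (h1 : y ≤ 1) : ∫ k, (1 - y) ^ k ∂law = 1 - y * r y := by
  have hs : Summable fun j => w j * (1 - y) ^ NN j :=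
    Summable.of_nonneg_of_le (fun j => mul_nonneg (w_pos j).le (pow_nonneg (by linarith) _))
      (fun j => mul_le_of_le_one_right (w_pos j).le (pow_le_one₀ (by linarith) (by linarith)))
      summable_w
  rw [(integral_law (f := fun k : ℕ => (1 - y) ^ k) (fun k => pow_nonneg (by linarith) _) hs).2]
  have h2 : y * r y = ∑' j, (w j - w j * (1 - y) ^ NN j) := by
    rw [r, ← tsum_mul_left]
    apply tsum_congr
    intro j
    have := gs_mul (NN j) y
    calc y * (w j * gs (NN j) y) = w j * (y * gs (NN j) y) := by ring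
      _ = _ := by rw [this]; ring
  rw [h2, summable_w.tsum_sub hs]
  ring

/-! ### The survival function -/

lemma pg_mem (p : I) : 0 ≤ (p : ℝ) * annealed law p ∧ (p : ℝ) * annealed law p ≤ 1 := by
  have h := annealed_mem p law
  exact ⟨mul_nonneg p.2.1 h.1, mul_le_one₀ p.2.2 h.1 h.2⟩

lemma g_char (p : I) : annealed law p = p * annealed law p * r (p * annealed law p) := by
  have h := annealed_fixed p law
  rw [gen_law (pg_mem p).1 (pg_mem p).2] at h
  linarith

lemma g_pos {p : I} (h : 0 < annealed law p) :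
    0 < (p : ℝ) ∧ 0 < (p : ℝ) * annealed law p ∧ p * r (p * annealed law p) = 1 := by
  have h1 := g_char p
  have h2 : p * r (p * annealed law p) = 1 := by
    have h3 : annealed law p * (p * r (p * annealed law p)) = annealed law p * 1 := by
      rw [mul_one]; nth_rewrite 3 [h1]; ring
    exact mul_left_cancel₀ h.ne' h3
  have h3 : 0 < (p : ℝ) := by
    rcases p.2.1.lt_or_eq with h4 | h4
    · exact h4
    · rw [← h4, zero_mul] at h2; exact absurd h2 (by norm_num)
  exact ⟨h3, mul_pos h3 h, h2⟩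

lemma r_inj {x y : ℝ} (hx : 0 ≤ x) (hx1 : x ≤ 1) (hy : 0 ≤ y) (hy1 : y ≤ 1) (h : r x = r y) :
    x = y := by
  rcases lt_trichotomy x y with h1 | h1 | h1
  · exact absurd h (r_anti hx h1 hy1).ne'
  · exact h1
  · exact absurd h (r_anti hy h1 hx1).ne

lemma yr_le {y : ℝ} (h0 : 0 ≤ y) (h1 : y ≤ 1) : y * r y ≤ 1 := by
  have h := gen_law h0 h1
  have h2 : 0 ≤ ∫ k, (1 - y) ^ k ∂law := integral_nonneg fun k => pow_nonneg (by linarith) k
  linarith

/-- The annealed survival function, as a function on the reals (constant outside `[0, 1]`). -/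
noncomputable def survival (μ : Measure ℕ) (x : ℝ) : ℝ :=
  annealed μ (Set.projIcc 0 1 zero_le_one x)

lemma survival_eq {y : ℝ} (h0 : 0 < y) (h1 : y ≤ 1) (hr : 1 ≤ r y) :
    survival law (1 / r y) = y * r y := by
  have hr0 : 0 < r y := by linarith
  have hmem : 1 / r y ∈ Set.Icc (0 : ℝ) 1 :=
    ⟨by positivity, by rw [div_le_one hr0]; exact hr⟩
  rw [survival, Set.projIcc_of_mem _ hmem]
  set p : I := ⟨1 / r y, hmem⟩ with hp
  have hpv : (p : ℝ) = 1 / r y := rfl
  have hpx : (p : ℝ) * (y * r y) = y := by rw [hpv]; field_simp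
  have h2 : y * r y ≤ annealed law p := by
    apply annealed_max p law (by positivity) (yr_le h0.le h1)
    rw [hpx, gen_law h0.le h1]
    linarith
  have h3 : 0 < annealed law p := lt_of_lt_of_le (by positivity) h2
  obtain ⟨h4, h5, h6⟩ := g_pos h3
  have h7 : r (p * annealed law p) = r y := by
    have h8 : (p : ℝ) * r y = 1 := by rw [hpv]; field_simp
    rw [← h8] at h6
    exact mul_left_cancel₀ h4.ne' h6
  have h8 := r_inj h5.le (pg_mem p).2 h0.le h1 h7
  have h9 : (p : ℝ) * annealed law p = p * (y * r y) := by rw [h8, hpx]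
  exact mul_left_cancel₀ h4.ne' h9

/-- `g(p_c + ε) = O(ε⁴)`. -/
lemma survival_small {ε : ℝ} (h0 : 0 < ε) (h1 : ε ≤ 1 / 2) :
    0 ≤ survival law (1 / m + ε) ∧ survival law (1 / m + ε) ≤ 32 * m ^ 9 * ε ^ 4 := by
  have hm := m_ge
  have hm0 : 0 < m := by linarith
  have hq : 1 / m ≤ 1 / 4 := one_div_le_one_div_of_le (by norm_num) hm
  have hq0 : 0 < 1 / m := by positivity
  have hmem : 1 / m + ε ∈ Set.Icc (0 : ℝ) 1 := ⟨by linarith, by linarith⟩
  rw [survival, Set.projIcc_of_mem _ hmem]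
  set p : I := ⟨1 / m + ε, hmem⟩ with hp
  have hpv : (p : ℝ) = 1 / m + ε := rfl
  refine ⟨(annealed_mem p law).1, ?_⟩
  rcases (annealed_mem p law).1.lt_or_eq with h | h
  · obtain ⟨h4, h5, h6⟩ := g_pos h
    have h7 := le_pow_four h5 (pg_mem p).2
    have hp1 : 1 / m ≤ (p : ℝ) := by rw [hpv]; linarith
    have h8 : m - r (p * annealed law p) ≤ m ^ 2 * ε := by
      have h9 : r (p * annealed law p) = 1 / p := by
        rw [eq_div_iff h4.ne', mul_comm]; exact h6
      have h10 : m - 1 / p = m * ε / p := by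
        have : m * p - 1 = m * ε := by rw [hpv]; field_simp; ring
        rw [← this]; field_simp
      rw [h9, h10, div_le_iff₀ h4]
      have h11 : 1 ≤ m * p := by
        rw [div_le_iff₀ hm0] at hp1; linarith
      calc m * ε = m * ε * 1 := (mul_one _).symm
        _ ≤ m * ε * (m * p) := mul_le_mul_of_nonneg_left h11 (by positivity)
        _ = m ^ 2 * ε * p := by ring
    have h12 : 0 ≤ m - r (p * annealed law p) := by
      have := r_anti le_rfl h5 (pg_mem p).2
      rw [r_zero] at this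
      linarith
    have h13 : (m - r (p * annealed law p)) ^ 4 ≤ (m ^ 2 * ε) ^ 4 := pow_le_pow_left₀ h12 h8 4
    have h14 : annealed law p ≤ m * (p * annealed law p) := by
      have h11 : 1 ≤ m * p := by
        rw [div_le_iff₀ hm0] at hp1; linarith
      calc annealed law p = 1 * annealed law p := (one_mul _).symm
        _ ≤ m * p * annealed law p := mul_le_mul_of_nonneg_right h11 h.le
        _ = _ := by ring
    calc annealed law p ≤ m * (p * annealed law p) := h14
      _ ≤ m * (32 * (m ^ 2 * ε) ^ 4) := mul_le_mul_of_nonneg_left (by linarith) hm0.le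
      _ = 32 * m ^ 9 * ε ^ 4 := by ring
  · rw [← h]; positivity

lemma survival_littleO {k : ℕ} (hk : k < 4) :
    (fun ε : ℝ => survival law (1 / m + ε)) =o[𝓝[>] 0] fun ε => ε ^ k := by
  have h1 : (fun ε : ℝ => survival law (1 / m + ε)) =O[𝓝[>] 0] fun ε => ε ^ 4 := by
    apply IsBigO.of_bound (32 * m ^ 9)
    have h2 : ∀ᶠ ε : ℝ in 𝓝[>] 0, ε ∈ Set.Ioc (0 : ℝ) (1 / 2) :=
      Ioc_mem_nhdsGT (by norm_num)
    filter_upwards [h2] with ε hε
    have h3 := survival_small hε.1 hε.2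
    rw [Real.norm_eq_abs, Real.norm_eq_abs, abs_of_nonneg h3.1, abs_of_pos (pow_pos hε.1 4)]
    exact h3.2
  exact h1.trans_isLittleO ((isLittleO_pow_pow hk).mono nhdsWithin_le_nhds)

/-! ### The derivative of the survival function -/

lemma deriv_formula {y G : ℝ} (h0 : 0 < y) (h1 : y < 1) (hr : 1 < r y)
    (hG : HasDerivAt (survival law) G (1 / r y)) : G * b y = r y ^ 3 - r y ^ 2 * y * b y := by
  have hr0 : 0 < r y := by linarith
  have hd := r_hasDeriv h0 h1
  have h2 : HasDerivAt (fun z => 1 / r z) (b y / r y ^ 2) y := by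
    have h3 := hd.inv hr0.ne'
    simp only [neg_neg] at h3
    have h4 : (fun z => 1 / r z) = r⁻¹ := by
      funext z; simp
    rw [h4]
    exact h3
  have h3 : HasDerivAt (fun z => survival law (1 / r z)) (G * (b y / r y ^ 2)) y :=
    HasDerivAt.comp (h₂ := survival law) (h := fun z => 1 / r z) y hG h2
  have h4 : HasDerivAt (fun z => z * r z) (1 * r y + y * (-b y)) y := (hasDerivAt_id' y).mul hd
  have h5 : (fun z => survival law (1 / r z)) =ᶠ[𝓝 y] fun z => z * r z := by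
    have h6 : ∀ᶠ z in 𝓝 y, 1 < r z := hd.continuousAt.eventually (lt_mem_nhds hr)
    have h7 : ∀ᶠ z in 𝓝 y, z ∈ Set.Ioo (0 : ℝ) 1 := Ioo_mem_nhds h0 h1
    filter_upwards [h6, h7] with z hz hz1
    exact survival_eq hz1.1 hz1.2.le hz.le
  have h6 := (h3.congr_of_eventuallyEq h5.symm).unique h4
  have h7 : G * (b y / r y ^ 2) * r y ^ 2 = (1 * r y + y * (-b y)) * r y ^ 2 := by rw [h6]
  have h8 : G * (b y / r y ^ 2) * r y ^ 2 = G * b y := by field_simp
  rw [h8] at h7
  rw [h7]; ring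

lemma r_near (δ : ℝ) (hδ : 0 < δ) : ∃ η > 0, ∀ y, 0 < y → y < η → y < 1 →
    3 / 4 * m ^ 3 < r y ^ 3 ∧ 1 < r y ∧ 1 / r y < 1 / m + δ := by
  have hm := m_ge
  have hm0 : 0 < m := by linarith
  have hT : Tendsto r (𝓝[Set.Icc 0 1] 0) (𝓝 m) := by
    have := r_cont 0 ⟨le_rfl, zero_le_one⟩
    rwa [ContinuousWithinAt, r_zero] at this
  have h1 : ∀ᶠ z in 𝓝[Set.Icc (0 : ℝ) 1] 0, 3 / 4 * m ^ 3 < r z ^ 3 := by
    apply (hT.pow 3).eventually (lt_mem_nhds _)
    have : 0 < m ^ 3 := by positivity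
    linarith
  have h2 : ∀ᶠ z in 𝓝[Set.Icc (0 : ℝ) 1] 0, 1 < r z :=
    hT.eventually (lt_mem_nhds (by linarith))
  have h3 : ∀ᶠ z in 𝓝[Set.Icc (0 : ℝ) 1] 0, 1 / r z < 1 / m + δ := by
    have h4 : Tendsto (fun z => 1 / r z) (𝓝[Set.Icc (0 : ℝ) 1] 0) (𝓝 (1 / m)) :=
      tendsto_const_nhds.div hT hm0.ne'
    exact h4.eventually (gt_mem_nhds (by linarith))
  have h4 := h1.and (h2.and h3)
  rw [Filter.Eventually, Metric.mem_nhdsWithin_iff] at h4
  obtain ⟨η, hη, hsub⟩ := h4
  refine ⟨η, hη, fun y hy0 hy1 hy2 => ?_⟩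
  have hb : y ∈ Metric.ball (0 : ℝ) η := by
    rw [Metric.mem_ball, dist_zero_right, Real.norm_eq_abs, abs_of_pos hy0]
    exact hy1
  have := hsub ⟨hb, ⟨hy0.le, hy2.le⟩⟩
  exact ⟨this.1, this.2.1, this.2.2⟩

lemma r_diff_le {x y : ℝ} (h0 : 0 < x) (hxy : x ≤ y) (h1 : y < 1) :
    r x - r y ≤ b x * (y - x) := by
  have h := Convex.norm_image_sub_le_of_norm_hasDerivWithin_le (f := r) (f' := fun z => -b z)
    (s := Set.Icc x y) (C := b x) (x := y) (y := x)
    (fun z hz => (r_hasDeriv (h0.trans_le hz.1) (hz.2.trans_lt h1)).hasDerivWithinAt)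
    (fun z hz => by
      rw [norm_neg, Real.norm_eq_abs, abs_of_nonneg]
      · exact b_anti h0 hz.1 (hz.2.trans h1.le)
      · exact le_trans (by norm_num) (b_ge (h0.trans_le hz.1) (hz.2.trans h1.le)))
    (convex_Icc x y) ⟨hxy, le_rfl⟩ ⟨le_rfl, hxy⟩
  rw [Real.norm_eq_abs, Real.norm_eq_abs, abs_sub_comm x y, abs_of_nonneg (sub_nonneg.2 hxy)] at h
  exact (le_abs_self _).trans h

/-- The survival function is not `C²` at `p_c⁺`. -/
theorem not_C2 (δ : ℝ) (hδ : 0 < δ) :
    ¬ ContDiffOn ℝ 2 (survival law) (Set.Ico (1 / m) (1 / m + δ)) := by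
  intro hC
  have hm := m_ge
  have hm0 : 0 < m := by linarith
  set S := Set.Ico (1 / m) (1 / m + δ) with hS
  have hU : UniqueDiffOn ℝ S := uniqueDiffOn_Ico _ _
  have hC2 : ContDiffOn ℝ (1 + 1) (survival law) S := by
    have : (1 : WithTop ℕ∞) + 1 = 2 := by norm_num
    rw [this]; exact hC
  rw [contDiffOn_succ_iff_derivWithin hU] at hC2
  obtain ⟨hd, -, hC1⟩ := hC2
  set g1 := derivWithin (survival law) S with hg1
  have hC1' : ContDiffOn ℝ (0 + 1) g1 S := by
    rw [zero_add]; exact hC1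
  rw [contDiffOn_succ_iff_derivWithin hU] at hC1'
  obtain ⟨hd1, -, hc2⟩ := hC1'
  have hc2' := hc2.continuousOn
  have hKS : Set.Icc (1 / m) (1 / m + δ / 2) ⊆ S := fun x hx =>
    ⟨hx.1, by have := hx.2; linarith⟩
  obtain ⟨M, hM⟩ := isCompact_Icc.exists_bound_of_continuousOn (hc2'.mono hKS)
  have hLip : ∀ x ∈ Set.Icc (1 / m) (1 / m + δ / 2), ∀ y ∈ Set.Icc (1 / m) (1 / m + δ / 2),
      ‖g1 y - g1 x‖ ≤ M * ‖y - x‖ := by
    intro x hx y hy
    exact Convex.norm_image_sub_le_of_norm_hasDerivWithin_le (f := g1)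
      (f' := derivWithin g1 S) (s := Set.Icc (1 / m) (1 / m + δ / 2))
      (fun z hz => ((hd1 z (hKS hz)).hasDerivWithinAt).mono hKS) hM (convex_Icc _ _) hx hy
  have hM0 : 0 ≤ M := (norm_nonneg _).trans (hM (1 / m) ⟨le_rfl, by linarith⟩)
  obtain ⟨η, hη, hnear⟩ := r_near (δ / 2) (by linarith)
  set η' : ℝ := min η (m ^ 3 / 4 / (64 * m ^ 2 + 2 * M)) with hη'
  have hη'0 : 0 < η' := lt_min hη (by positivity)
  obtain ⟨y, hy0, hyη, hy1, hby⟩ := exists_small η' hη'0
  have hbge := b_ge hy0 hy1.le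
  have hb0 : 0 < b y := by linarith
  obtain ⟨y', hy'0, hy'y, hy'1, hby'⟩ := exists_large (2 * b y) y hy0
  obtain ⟨x, hx, hbx⟩ : ∃ x ∈ Set.Icc y' y, b x = 2 * b y := by
    have := intermediate_value_Icc' hy'y.le
      (b_cont.mono fun z hz => ⟨hy'0.trans_le hz.1, hz.2.trans_lt hy1⟩)
    exact this ⟨by linarith, hby'⟩
  have hx0 : 0 < x := hy'0.trans_le hx.1
  have hx1 : x < 1 := hx.2.trans_lt hy1
  have hxy : x ≤ y := hx.2
  have hformula : ∀ z, 0 < z → z < η → z < 1 →
      (1 / r z ∈ Set.Icc (1 / m) (1 / m + δ / 2)) ∧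
        g1 (1 / r z) * b z = r z ^ 3 - r z ^ 2 * z * b z := by
    intro z hz0 hzη hz1
    obtain ⟨-, h2, h3⟩ := hnear z hz0 hzη hz1
    have h4 : r z < m := by
      have := r_anti le_rfl hz0 hz1.le
      rwa [r_zero] at this
    have h5 : 1 / m < 1 / r z := one_div_lt_one_div_of_lt (by linarith) h4
    refine ⟨⟨h5.le, h3.le⟩, ?_⟩
    apply deriv_formula hz0 hz1 h2
    have h6 : S ∈ 𝓝 (1 / r z) := Ico_mem_nhds h5 (by linarith)
    exact (hd _ (mem_of_mem_nhds h6)).hasDerivWithinAt.hasDerivAt h6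
  have hyη2 : y < η := hyη.trans_le (min_le_left _ _)
  obtain ⟨hy2, hy3⟩ := hformula y hy0 hyη2 hy1
  obtain ⟨hx2, hx3⟩ := hformula x hx0 (hxy.trans_lt hyη2) hx1
  obtain ⟨hr1, hr2, -⟩ := hnear y hy0 hyη2 hy1
  obtain ⟨-, hr3, -⟩ := hnear x hx0 (hxy.trans_lt hyη2) hx1
  have hrx : r x < m := by
    have := r_anti le_rfl hx0 hx1.le
    rwa [r_zero] at this
  have hry : r y < m := by
    have := r_anti le_rfl hy0 hy1.le
    rwa [r_zero] at this
  have hL := hLip _ hx2 _ hy2
  -- distance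
  have hdist : ‖1 / r y - 1 / r x‖ ≤ 2 * b y * y := by
    have h1 : 1 / r y - 1 / r x = (r x - r y) / (r x * r y) := by
      have h5 : r x ≠ 0 := by linarith
      have h6 : r y ≠ 0 := by linarith
      field_simp
    have h2 : 0 ≤ r x - r y := by
      rcases hxy.lt_or_eq with h | h
      · linarith [r_anti hx0.le h hy1.le]
      · rw [h]; linarith
    have h3 := r_diff_le hx0 hxy hy1
    have h4 : 1 ≤ r x * r y := one_le_mul_of_one_le_of_one_le hr3.le hr2.le
    rw [h1, Real.norm_eq_abs, abs_of_nonneg (div_nonneg h2 (by linarith))]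
    calc (r x - r y) / (r x * r y) ≤ r x - r y := div_le_self h2 h4
      _ ≤ b x * (y - x) := h3
      _ ≤ 2 * b y * y := by
        rw [hbx]; exact mul_le_mul_of_nonneg_left (by linarith) (by linarith)
  have hup : g1 (1 / r y) - g1 (1 / r x) ≤ M * (2 * b y * y) :=
    (le_abs_self _).trans (hL.trans (mul_le_mul_of_nonneg_left hdist hM0))
  -- lower bound
  rw [hbx] at hx3
  have hrx3 : r x ^ 3 ≤ m ^ 3 := pow_le_pow_left₀ (by linarith) hrx.le 3
  have hlow : m ^ 3 / 4 - m ^ 2 * y * b y ≤ (g1 (1 / r y) - g1 (1 / r x)) * b y := by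
    have h1 : g1 (1 / r x) * b y = r x ^ 3 / 2 - r x ^ 2 * x * b y := by
      linarith
    have h2 : r y ^ 2 * y * b y ≤ m ^ 2 * y * b y := by
      apply mul_le_mul_of_nonneg_right _ hb0.le
      apply mul_le_mul_of_nonneg_right _ hy0.le
      exact pow_le_pow_left₀ (by linarith) hry.le 2
    have h3 : 0 ≤ r x ^ 2 * x * b y := by positivity
    rw [sub_mul, hy3, h1]
    linarith
  have h1 : (g1 (1 / r y) - g1 (1 / r x)) * b y ≤ M * (2 * b y * y) * b y :=
    mul_le_mul_of_nonneg_right hup hb0.le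
  have h2 : m ^ 2 * y * b y ≤ m ^ 2 * 64 * (b y ^ 2 * y) := by
    have h3 : 1 ≤ 64 * b y := by linarith
    calc m ^ 2 * y * b y = m ^ 2 * y * b y * 1 := (mul_one _).symm
      _ ≤ m ^ 2 * y * b y * (64 * b y) := mul_le_mul_of_nonneg_left h3 (by positivity)
      _ = _ := by ring
  have h3 : m ^ 3 / 4 ≤ (64 * m ^ 2 + 2 * M) * (b y ^ 2 * y) := by nlinarith
  have h4 : b y ^ 2 * y < m ^ 3 / 4 / (64 * m ^ 2 + 2 * M) := hby.trans_le (min_le_right _ _)
  have h5 : 0 < 64 * m ^ 2 + 2 * M := by positivity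
  rw [lt_div_iff₀ h5] at h4
  linarith

end Pool.Agent.H181.GW
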