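import Mathlib

/-!
# Propagation of smallness in the unit disc (MP_459901_an)
-/

open Filter Topology Metric Set

namespace Pool.Agent.H181.PD

/-- Peeling off one point by a Blaschke factor. -/
lemma step {H : ℂ → ℂ} (hH : DifferentiableOn ℂ H (ball 0 1)) {M : ℝ}
    (hM : ∀ z ∈ ball (0 : ℂ) 1, ‖H z‖ ≤ M) {c : ℝ} (hc0 : 0 < c) (hc1 : c < 1) :
    ∃ H' : ℂ → ℂ, DifferentiableOn ℂ H' (ball 0 1) ∧
      (∀ z ∈ ball (0 : ℂ) 1, ‖H' z‖ ≤ M + ‖H c‖) ∧
      (∀ w : ℂ, w ≠ c → H' w = (H w - H c) * (1 - c * w) / (w - c)) ∧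
      H 0 = H c - c * H' 0 := by
  have hcb : (c : ℂ) ∈ ball (0 : ℂ) 1 := by
    rw [mem_ball_zero_iff, Complex.norm_real, Real.norm_eq_abs, abs_of_pos hc0]; exact hc1
  have hds : DifferentiableOn ℂ (dslope H c) (ball 0 1) :=
    (Complex.differentiableOn_dslope (isOpen_ball.mem_nhds hcb)).2 hH
  have hd : DifferentiableOn ℂ (fun z => dslope H c z * (1 - c * z)) (ball 0 1) :=
    hds.mul (by fun_prop)
  have hform : ∀ w : ℂ, w ≠ c → dslope H c w * (1 - c * w) = (H w - H c) * (1 - c * w) / (w - c) := by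
    intro w hw
    rw [dslope_of_ne _ hw, slope_def_field]
    ring
  refine ⟨fun z => dslope H c z * (1 - c * z), hd, ?_, hform, ?_⟩
  · intro z hz
    rw [mem_ball_zero_iff] at hz
    have key : ∀ r : ℝ, max ‖z‖ c < r → r < 1 →
        ‖dslope H c z * (1 - c * z)‖ ≤ (M + ‖H c‖) * ((1 - c * r) / (r - c)) := by
      intro r hr hr1
      have hzr : ‖z‖ < r := (le_max_left _ _).trans_lt hr
      have hcr : c < r := (le_max_right _ _).trans_lt hr
      have hr0 : 0 < r := hc0.trans hcr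
      have hsub : closedBall (0 : ℂ) r ⊆ ball 0 1 := closedBall_subset_ball hr1
      have hdc : DiffContOnCl ℂ (fun z => dslope H c z * (1 - c * z)) (ball 0 r) := by
        apply DifferentiableOn.diffContOnCl
        rw [closure_ball _ hr0.ne']
        exact hd.mono hsub
      have hz2 : z ∈ closure (ball (0 : ℂ) r) := subset_closure (by rw [mem_ball_zero_iff]; exact hzr)
      refine Complex.norm_le_of_forall_mem_frontier_norm_le isBounded_ball hdc ?_ hz2
      intro w hw
      rw [frontier_ball _ hr0.ne', mem_sphere_zero_iff_norm] at hw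
      have hwb : w ∈ ball (0 : ℂ) 1 := by rw [mem_ball_zero_iff, hw]; exact hr1
      have hwc : w ≠ c := by
        intro h
        rw [h, Complex.norm_real, Real.norm_eq_abs, abs_of_pos hc0] at hw
        exact hcr.ne hw
      show ‖dslope H c w * (1 - c * w)‖ ≤ _
      rw [hform w hwc, norm_div, norm_mul]
      have h1 : ‖H w - H c‖ ≤ M + ‖H c‖ := (norm_sub_le _ _).trans (by linarith [hM w hwb])
      have hwc' : 0 < ‖w - c‖ := norm_pos_iff.2 (sub_ne_zero.2 hwc)
      have h2 : ‖1 - c * w‖ * (r - c) ≤ (1 - c * r) * ‖w - c‖ := by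
        have e1 : ‖1 - c * w‖ ^ 2 = 1 - 2 * c * w.re + c ^ 2 * r ^ 2 := by
          have : r ^ 2 = w.re ^ 2 + w.im ^ 2 := by rw [← hw, Complex.sq_norm, Complex.normSq_apply]; ring
          rw [this, Complex.sq_norm, Complex.normSq_apply]
          simp
          ring
        have e2 : ‖w - c‖ ^ 2 = r ^ 2 - 2 * c * w.re + c ^ 2 := by
          have : r ^ 2 = w.re ^ 2 + w.im ^ 2 := by rw [← hw, Complex.sq_norm, Complex.normSq_apply]; ring
          rw [this, Complex.sq_norm, Complex.normSq_apply]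
          simp
          ring
        have hre : w.re ≤ r := by rw [← hw]; exact Complex.re_le_norm w
        have hcr1 : c * r < 1 := by nlinarith
        have h3 : (‖1 - c * w‖ * (r - c)) ^ 2 ≤ ((1 - c * r) * ‖w - c‖) ^ 2 := by
          rw [mul_pow, mul_pow, e1, e2]
          have h4 : 0 ≤ (r - w.re) * c * ((1 - r ^ 2) * (1 - c ^ 2)) := by
            apply mul_nonneg (mul_nonneg (by linarith) hc0.le)
            apply mul_nonneg <;> nlinarith
          nlinarith
        exact abs_le_of_sq_le_sq' h3 (mul_nonneg (by linarith) hwc'.le) |>.2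
      have h5 : ‖1 - c * w‖ / ‖w - c‖ ≤ (1 - c * r) / (r - c) := by
        rw [div_le_div_iff₀ hwc' (by linarith)]
        linarith
      calc ‖H w - H c‖ * ‖1 - c * w‖ / ‖w - c‖ = ‖H w - H c‖ * (‖1 - c * w‖ / ‖w - c‖) := by ring
        _ ≤ (M + ‖H c‖) * ((1 - c * r) / (r - c)) :=
          mul_le_mul h1 h5 (by positivity) ((norm_nonneg _).trans h1)
    have hlim : Tendsto (fun r : ℝ => (M + ‖H c‖) * ((1 - c * r) / (r - c))) (𝓝[<] 1)
        (𝓝 ((M + ‖H c‖) * ((1 - c * 1) / (1 - c)))) := by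
      apply Tendsto.mono_left _ nhdsWithin_le_nhds
      apply ContinuousAt.tendsto
      have : (1 : ℝ) - c ≠ 0 := by linarith
      fun_prop (disch := assumption)
    have he : (1 - c * 1) / (1 - c) = 1 := by rw [mul_one]; exact div_self (by linarith)
    rw [he, mul_one] at hlim
    apply ge_of_tendsto hlim
    have h6 : ∀ᶠ r : ℝ in 𝓝[<] 1, r ∈ Ioo (max ‖z‖ c) 1 :=
      Ioo_mem_nhdsLT (max_lt hz hc1)
    filter_upwards [h6] with r hr
    exact key r hr.1 hr.2
  · have h0 : (0 : ℂ) ≠ c := by exact_mod_cast hc0.ne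
    show H 0 = H c - c * (dslope H c 0 * (1 - c * 0))
    rw [hform 0 h0]
    have : (c : ℂ) ≠ 0 := by exact_mod_cast hc0.ne'
    field_simp
    ring

/-- Propagation of smallness from `N` points. -/
lemma small_points (p : ℕ → ℝ) {b σ : ℝ} (hb0 : 0 < b) (hb1 : b < 1) (hσ0 : 0 < σ) (hσ : σ ≤ 2)
    (N : ℕ) (hp0 : ∀ i < N, 0 < p i) (hpb : ∀ i < N, p i ≤ b)
    (hsep : ∀ i < N, ∀ j < N, i ≠ j → σ ≤ |p i - p j|) :
    ∀ (H : ℂ → ℂ) (M δ : ℝ), DifferentiableOn ℂ H (ball 0 1) →
      (∀ z ∈ ball (0 : ℂ) 1, ‖H z‖ ≤ M) → 0 ≤ δ → (∀ i < N, ‖H (p i)‖ ≤ δ) →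
      ‖H 0‖ ≤ b ^ N * M + 2 * N * δ * (2 / σ) ^ N := by
  induction N with
  | zero =>
    intro H M δ _ hM _ _
    simpa using hM 0 (by simp)
  | succ N ih =>
    intro H M δ hH hM hδ hs
    have hκ : 1 ≤ 2 / σ := by rw [le_div_iff₀ hσ0]; linarith
    obtain ⟨H', h1, h2, h3, h4⟩ := step hH hM (hp0 N (by omega)) ((hpb N (by omega)).trans_lt hb1)
    have hN := hs N (by omega)
    have hM0 : 0 ≤ M := (norm_nonneg _).trans (hM 0 (by simp))
    have h5 := ih (fun i hi => hp0 i (by omega)) (fun i hi => hpb i (by omega))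
      (fun i hi j hj => hsep i (by omega) j (by omega)) H' (M + δ) (2 / σ * δ) h1
      (fun z hz => (h2 z hz).trans (by linarith)) (by positivity) (by
        intro i hi
        have hne : p i ≠ p N := by
          intro h
          have := hsep i (by omega) N (by omega) (by omega)
          rw [h, sub_self, abs_zero] at this
          linarith
        have hne' : ((p i : ℝ) : ℂ) ≠ (p N : ℝ) := by exact_mod_cast hne
        rw [h3 _ hne', norm_div, norm_mul]
        have e1 : ‖H (p i) - H (p N)‖ ≤ 2 * δ :=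
          (norm_sub_le _ _).trans (by linarith [hs i (by omega)])
        have e2 : ‖1 - ((p N : ℝ) : ℂ) * (p i : ℝ)‖ ≤ 1 := by
          have : (1 - ((p N : ℝ) : ℂ) * (p i : ℝ)) = ((1 - p N * p i : ℝ) : ℂ) := by push_cast; ring
          rw [this, Complex.norm_real, Real.norm_eq_abs]
          have q1 := hp0 N (by omega)
          have q2 := hp0 i (by omega)
          have q3 := hpb N (by omega)
          have q4 := hpb i (by omega)
          rw [abs_le]
          constructor <;> nlinarith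
        have e3 : σ ≤ ‖((p i : ℝ) : ℂ) - (p N : ℝ)‖ := by
          rw [← Complex.ofReal_sub, Complex.norm_real, Real.norm_eq_abs]
          exact hsep i (by omega) N (by omega) (by omega)
        rw [div_le_iff₀ (hσ0.trans_le e3)]
        calc ‖H (p i) - H (p N)‖ * ‖1 - ((p N : ℝ) : ℂ) * (p i : ℝ)‖ ≤ 2 * δ * 1 :=
              mul_le_mul e1 e2 (norm_nonneg _) (by positivity)
          _ = 2 / σ * δ * σ := by field_simp
          _ ≤ _ := mul_le_mul_of_nonneg_left e3 (by positivity))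
    have hpN := hpb N (by omega)
    have hpN0 := hp0 N (by omega)
    have h6 : ‖H 0‖ ≤ δ + b * ‖H' 0‖ := by
      rw [h4]
      refine (norm_sub_le _ _).trans (add_le_add hN ?_)
      rw [norm_mul, Complex.norm_real, Real.norm_eq_abs, abs_of_pos hpN0]
      exact mul_le_mul_of_nonneg_right hpN (norm_nonneg _)
    have h7 : b * ‖H' 0‖ ≤ b * (b ^ N * (M + δ) + 2 * N * (2 / σ * δ) * (2 / σ) ^ N) :=
      mul_le_mul_of_nonneg_left h5 hb0.le
    have h8 : b ^ (N + 1) ≤ 1 := pow_le_one₀ hb0.le hb1.le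
    have h9 : 1 ≤ (2 / σ) ^ (N + 1) := one_le_pow₀ hκ
    have h10 : b * (2 * N * (2 / σ * δ) * (2 / σ) ^ N) ≤ 2 * N * δ * (2 / σ) ^ (N + 1) := by
      have : 0 ≤ 2 * N * (2 / σ * δ) * (2 / σ) ^ N := by positivity
      calc b * (2 * N * (2 / σ * δ) * (2 / σ) ^ N) ≤ 1 * (2 * N * (2 / σ * δ) * (2 / σ) ^ N) :=
            mul_le_mul_of_nonneg_right hb1.le this
        _ = _ := by rw [pow_succ]; ring
    push_cast
    have h11 : δ * 1 ≤ δ * (2 / σ) ^ (N + 1) := mul_le_mul_of_nonneg_left h9 hδ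
    have h12 : b ^ (N + 1) * δ ≤ δ * (2 / σ) ^ (N + 1) := by
      calc b ^ (N + 1) * δ ≤ 1 * δ := mul_le_mul_of_nonneg_right h8 hδ
        _ ≤ _ := by linarith
    have h13 : b * (b ^ N * (M + δ)) = b ^ (N + 1) * M + b ^ (N + 1) * δ := by rw [pow_succ]; ring
    linarith

/-- Double exponential smallness on a segment forces the values at `0` below every geometric
sequence. -/
lemma exists_small_value {G : ℕ → ℂ → ℂ} (hG : ∀ n, DifferentiableOn ℂ (G n) (ball 0 1))
    (hG1 : ∀ n, ∀ z ∈ ball (0 : ℂ) 1, ‖G n z‖ ≤ 1) {a b c γ u : ℝ} (ha : 0 < a) (hab : a < b)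
    (hb1 : b < 1) (hc : 0 < c) (hγ : 1 < γ) (hu : 0 < u)
    (hs : ∀ n : ℕ, 1 ≤ n → ∀ z : ℝ, a ≤ z → z ≤ b →
      ‖G n z‖ ≤ (a ^ n)⁻¹ * Real.exp (-(c * γ ^ n))) :
    ∃ n : ℕ, 1 ≤ n ∧ ‖G n 0‖ < u ^ n := by
  have hb0 : 0 < b := ha.trans hab
  obtain ⟨K, hK⟩ := exists_pow_lt_of_lt_one (show 0 < u / 4 by positivity) hb1
  set D := b - a with hD
  have hD0 : 0 < D := by rw [hD]; linarith
  set En : ℝ := 2 * (K + 1) + |Real.log a| + 2 * (K + 1) ^ 2 / D + |Real.log u| + 1 with hEn
  have hEn0 : 0 < En := by positivity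
  have hlim := tendsto_pow_const_div_const_pow_of_one_lt 2 hγ
  have hev : ∀ᶠ n : ℕ in atTop, (n : ℝ) ^ 2 / γ ^ n < c / (2 * En) :=
    hlim.eventually (gt_mem_nhds (by positivity))
  obtain ⟨n, hn, hn1⟩ := (hev.and (eventually_ge_atTop 1)).exists
  have hn1' : (1 : ℝ) ≤ n := by exact_mod_cast hn1
  have hγn : 0 < γ ^ n := by positivity
  have hmain : 2 * En * (n : ℝ) ^ 2 < c * γ ^ n := by
    rw [div_lt_div_iff₀ hγn (by positivity)] at hn
    linarith
  refine ⟨n, hn1, ?_⟩
  -- choose `N = (K + 1) n` points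
  set N : ℕ := (K + 1) * n with hN
  have hN1 : 1 ≤ N := Nat.mul_pos (by omega) hn1
  have hN0 : (0 : ℝ) < N := by exact_mod_cast hN1
  have hD1 : D < 1 := by rw [hD]; linarith
  have hσ0 : 0 < D / N := by positivity
  have hσ : D / N ≤ 2 := by
    rw [div_le_iff₀ hN0]
    have : (1 : ℝ) ≤ N := by exact_mod_cast hN1
    nlinarith
  set δ : ℝ := (a ^ n)⁻¹ * Real.exp (-(c * γ ^ n)) with hδ
  have h1 := small_points (fun i => a + D * i / N) hb0 hb1 hσ0 hσ N
    (fun i _ => by positivity)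
    (fun i hi => by
      have : (i : ℝ) ≤ N := by exact_mod_cast hi.le
      have h2 : D * i / N ≤ D := by
        rw [div_le_iff₀ hN0]; exact mul_le_mul_of_nonneg_left this hD0.le
      show a + D * i / N ≤ b
      linarith)
    (fun i _ j _ hij => by
      have e : (a + D * i / N) - (a + D * j / N) = D / N * ((i : ℝ) - j) := by ring
      show D / N ≤ |(a + D * i / N) - (a + D * j / N)|
      rw [e, abs_mul, abs_of_pos hσ0]
      have h3 : (1 : ℝ) ≤ |(i : ℝ) - j| := by
        have : (1 : ℤ) ≤ |(i : ℤ) - j| := Int.one_le_abs (by omega)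
        exact_mod_cast this
      nlinarith)
    (G n) 1 δ (hG n) (hG1 n) (by positivity) (fun i hi => by
      have : (i : ℝ) ≤ N := by exact_mod_cast hi.le
      have h2 : D * i / N ≤ D := by
        rw [div_le_iff₀ hN0]; exact mul_le_mul_of_nonneg_left this hD0.le
      have h3 : 0 ≤ D * i / N := by positivity
      exact hs n hn1 _ (by linarith) (by linarith))
  -- first term
  have hK' : b ^ (K + 1) ≤ u / 4 := (pow_le_pow_of_le_one hb0.le hb1.le (by omega)).trans hK.le
  have h2 : b ^ N ≤ u ^ n / 4 := by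
    rw [hN, pow_mul]
    calc (b ^ (K + 1)) ^ n ≤ (u / 4) ^ n := pow_le_pow_left₀ (by positivity) hK' n
      _ = u ^ n / 4 ^ n := div_pow _ _ _
      _ ≤ u ^ n / 4 := by
        apply div_le_div_of_nonneg_left (by positivity) (by norm_num)
        exact le_self_pow₀ (by norm_num) (by omega)
  -- second term
  have h3 : 2 * N * δ * (2 / (D / N)) ^ N < u ^ n / 2 := by
    have e1 : (2 * N : ℝ) ≤ Real.exp (2 * (K + 1) * n) := by
      have := Real.add_one_le_exp (2 * (K + 1) * n : ℝ)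
      rw [hN]; push_cast
      linarith
    have e2 : (a ^ n)⁻¹ ≤ Real.exp (|Real.log a| * n) := by
      have : a ^ n = Real.exp (Real.log a * n) := by
        rw [mul_comm, Real.exp_nat_mul, Real.exp_log ha]
      rw [this, ← Real.exp_neg]
      apply Real.exp_le_exp.2
      have := neg_abs_le (Real.log a)
      nlinarith
    have e3 : (2 / (D / N)) ^ N ≤ Real.exp (2 * (K + 1) ^ 2 / D * n ^ 2) := by
      have h4 : 2 / (D / N) ≤ Real.exp (2 / (D / N)) := by
        linarith [Real.add_one_le_exp (2 / (D / N) : ℝ)]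
      calc (2 / (D / N)) ^ N ≤ (Real.exp (2 / (D / N))) ^ N := pow_le_pow_left₀ (by positivity) h4 N
        _ = Real.exp (N * (2 / (D / N))) := by rw [Real.exp_nat_mul]
        _ = Real.exp (2 * (K + 1) ^ 2 / D * n ^ 2) := by
          congr 1
          rw [hN]; push_cast
          field_simp
    have e4 : Real.exp (-(|Real.log u| * n)) ≤ u ^ n := by
      have : u ^ n = Real.exp (Real.log u * n) := by
        rw [mul_comm, Real.exp_nat_mul, Real.exp_log hu]
      rw [this]
      apply Real.exp_le_exp.2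
      have := neg_abs_le (Real.log u)
      nlinarith
    have e5 : 2 * N * δ * (2 / (D / N)) ^ N ≤
        Real.exp (2 * (K + 1) * n) * (Real.exp (|Real.log a| * n) * Real.exp (-(c * γ ^ n))) *
          Real.exp (2 * (K + 1) ^ 2 / D * n ^ 2) := by
      apply mul_le_mul _ e3 (by positivity) (by positivity)
      apply mul_le_mul e1 _ (by positivity) (by positivity)
      rw [hδ]
      exact mul_le_mul_of_nonneg_right e2 (Real.exp_pos _).le
    rw [← Real.exp_add, ← Real.exp_add, ← Real.exp_add] at e5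
    refine e5.trans_lt ?_
    have e6 : Real.exp (-(|Real.log u| * n) - 1) ≤ u ^ n * Real.exp (-1) := by
      rw [sub_eq_add_neg, Real.exp_add]
      exact mul_le_mul_of_nonneg_right e4 (Real.exp_pos _).le
    have e7 : Real.exp (-1) < 1 / 2 := by
      have := Real.exp_one_gt_d9
      rw [Real.exp_neg, inv_lt_comm₀ (Real.exp_pos _) (by norm_num)]
      norm_num at this ⊢
      linarith
    have hun : 0 < u ^ n := by positivity
    calc _ < Real.exp (-(|Real.log u| * n) - 1) := by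
          apply Real.exp_lt_exp.2
          have q1 : (n : ℝ) ≤ (n : ℝ) ^ 2 := by nlinarith
          have q2 : 1 ≤ (n : ℝ) ^ 2 := by nlinarith
          have q3 : 2 * (K + 1) * (n : ℝ) ≤ 2 * (K + 1) * (n : ℝ) ^ 2 :=
            mul_le_mul_of_nonneg_left q1 (by positivity)
          have q4 : |Real.log a| * (n : ℝ) ≤ |Real.log a| * (n : ℝ) ^ 2 :=
            mul_le_mul_of_nonneg_left q1 (abs_nonneg _)
          have q5 : |Real.log u| * (n : ℝ) ≤ |Real.log u| * (n : ℝ) ^ 2 :=
            mul_le_mul_of_nonneg_left q1 (abs_nonneg _)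
          have q6 : En * (n : ℝ) ^ 2 = 2 * (K + 1) * (n : ℝ) ^ 2 + |Real.log a| * (n : ℝ) ^ 2 +
            2 * (K + 1) ^ 2 / D * (n : ℝ) ^ 2 + |Real.log u| * (n : ℝ) ^ 2 + (n : ℝ) ^ 2 := by
            rw [hEn]; ring
          have q7 : 0 < En * (n : ℝ) ^ 2 := by positivity
          linarith
      _ ≤ u ^ n * Real.exp (-1) := e6
      _ < u ^ n * (1 / 2) := mul_lt_mul_of_pos_left e7 hun
      _ = u ^ n / 2 := by ring
  have hun : 0 < u ^ n := by positivity
  calc ‖G n 0‖ ≤ b ^ N * 1 + 2 * N * δ * (2 / (D / N)) ^ N := h1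
    _ < u ^ n := by linarith

end Pool.Agent.H181.PD
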