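import Mathlib
import Pool.Agent.H181.PdA

/-!
# Abstract pulsed diffusion in a Hilbert space (MP_459901_an)
-/

open Filter Topology Metric Set

namespace Pool.Agent.H181.PD

variable {ι H : Type*} [NormedAddCommGroup H] [InnerProductSpace ℂ H] [CompleteSpace H]

lemma repr_summable_sq (b : HilbertBasis ι ℂ H) (v : H) : Summable (fun i => ‖b.repr v i‖ ^ 2) := by
  have h := (lp.memℓp (b.repr v)).summable (by norm_num)
  simpa using h

lemma norm_sq_eq_tsum (b : HilbertBasis ι ℂ H) (v : H) : ‖v‖ ^ 2 = ∑' i, ‖b.repr v i‖ ^ 2 := by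
  have h := lp.norm_rpow_eq_tsum (p := 2) (by norm_num) (b.repr v)
  rw [b.repr.norm_map] at h
  simpa using h

lemma exists_mul (b : HilbertBasis ι ℂ H) (w : ι → ℂ) (hw : ∀ i, ‖w i‖ ≤ 1) :
    ∃ T : H → H, (∀ v i, b.repr (T v) i = w i * b.repr v i) ∧ (∀ v, ‖T v‖ ≤ ‖v‖) := by
  have hle : ∀ v i, ‖w i * b.repr v i‖ ^ 2 ≤ ‖b.repr v i‖ ^ 2 := by
    intro v i
    rw [norm_mul]
    have : ‖w i‖ * ‖b.repr v i‖ ≤ ‖b.repr v i‖ := mul_le_of_le_one_left (norm_nonneg _) (hw i)
    exact pow_le_pow_left₀ (by positivity) this 2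
  have hmem : ∀ v, Memℓp (fun i => w i * b.repr v i) 2 := by
    intro v
    apply memℓp_gen
    have : Summable (fun i => ‖w i * b.repr v i‖ ^ 2) :=
      Summable.of_nonneg_of_le (fun i => by positivity) (hle v) (repr_summable_sq b v)
    simpa using this
  have hT : ∀ v : H, ∃ y : H, ∀ i, b.repr y i = w i * b.repr v i := by
    intro v
    refine ⟨b.repr.symm ⟨fun i => w i * b.repr v i, hmem v⟩, fun i => ?_⟩
    rw [LinearIsometryEquiv.apply_symm_apply]
  choose T hT using hT
  refine ⟨T, hT, fun v => ?_⟩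
  have h1 : ‖T v‖ ^ 2 ≤ ‖v‖ ^ 2 := by
    rw [norm_sq_eq_tsum b, norm_sq_eq_tsum b]
    refine (repr_summable_sq b _).tsum_le_tsum (fun i => ?_) (repr_summable_sq b _)
    rw [hT]
    exact hle v i
  exact le_of_sq_le_sq h1 (norm_nonneg _)

lemma ext_repr (b : HilbertBasis ι ℂ H) {x y : H} (h : ∀ i, b.repr x i = b.repr y i) : x = y := by
  apply b.repr.injective
  ext i
  exact h i

lemma abstract_neg (b : HilbertBasis ι ℂ H) (q : ι → ℕ) (U : H →L[ℂ] H) (hU : ∀ x, ‖U x‖ ≤ ‖x‖)
    (i₀ : ι) (hq : q i₀ = 1) (u : ℂ) (hu : u ≠ 0)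
    (hUi : ∀ i, q i = 1 → i ≠ i₀ → b.repr (U (b i₀)) i = 0)
    (hUi0 : b.repr (U (b i₀)) i₀ = u)
    (hU0 : ∀ x, (∀ i, q i = 0 → b.repr x i = 0) → (∀ i, q i = 0 → b.repr (U x) i = 0))
    {C γ ν₀ : ℝ} (hC : 0 < C) (hγ : 1 < γ) (hν₀ : 0 < ν₀) :
    ∃ ν, 0 < ν ∧ ν ≤ ν₀ ∧ ∃ n ≥ 1, ∃ θ : ℕ → H, θ 0 = b i₀ ∧
      (∀ n i, b.repr (θ (n+1)) i =
        (Real.exp (-(4 * Real.pi ^ 2 * ν * (q i : ℝ))) : ℝ) * b.repr (U (θ n)) i) ∧
      Real.exp (-(ν * γ ^ n) / C) < ‖θ n‖ := by
  classical
  -- multipliers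
  have hDex : ∀ z : ℂ, ∃ T : H → H, ‖z‖ < 1 →
      (∀ v i, b.repr (T v) i = (if q i = 0 then 0 else z ^ (q i - 1)) * b.repr v i) ∧
      (∀ v, ‖T v‖ ≤ ‖v‖) := by
    intro z
    by_cases hz : ‖z‖ < 1
    · obtain ⟨T, hT⟩ := exists_mul b (fun i => if q i = 0 then 0 else z ^ (q i - 1)) (by
        intro i
        split_ifs
        · simp
        · rw [norm_pow]
          exact pow_le_one₀ (norm_nonneg _) hz.le)
      exact ⟨T, fun _ => hT⟩
    · exact ⟨id, fun h => absurd h hz⟩
  choose D hD using hDex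
  have hPex : ∀ N : ℕ, ∃ T : H → H,
      (∀ v i, b.repr (T v) i = (if q i = N + 1 then 1 else 0) * b.repr v i) ∧
      (∀ v, ‖T v‖ ≤ ‖v‖) := by
    intro N
    exact exists_mul b (fun i => if q i = N + 1 then 1 else 0) (by
        intro i
        split_ifs <;> simp)
  choose P hP1 hP2 using hPex
  -- P as continuous linear maps
  have hPadd : ∀ N x y, P N (x + y) = P N x + P N y := by
    intro N x y
    apply ext_repr b
    intro i
    rw [map_add, lp.coeFn_add, Pi.add_apply, hP1, hP1, hP1, map_add, lp.coeFn_add, Pi.add_apply, mul_add]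
  have hPsmul : ∀ N (c : ℂ) x, P N (c • x) = c • P N x := by
    intro N c x
    apply ext_repr b
    intro i
    rw [map_smul, lp.coeFn_smul, Pi.smul_apply, hP1, hP1, map_smul, lp.coeFn_smul, Pi.smul_apply,
      smul_eq_mul, smul_eq_mul]
    ring
  let PL : ℕ → H →L[ℂ] H := fun N =>
    LinearMap.mkContinuous { toFun := P N, map_add' := hPadd N, map_smul' := hPsmul N } 1 (by
      intro x
      rw [one_mul]
      exact hP2 N x)
  have hPL : ∀ N x, PL N x = P N x := fun N x => rfl
  have hsum : ∀ z : ℂ, ‖z‖ < 1 → ∀ v, Summable (fun N : ℕ => z ^ N • PL N v) := by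
    intro z hz v
    refine Summable.of_norm_bounded (g := fun N => ‖z‖ ^ N * ‖v‖)
      ((summable_geometric_of_lt_one (norm_nonneg _) hz).mul_right _) (fun N => ?_)
    rw [norm_smul, norm_pow]
    exact mul_le_mul_of_nonneg_left (hP2 N v) (by positivity)
  have hDsum : ∀ z : ℂ, ‖z‖ < 1 → ∀ v, D z v = ∑' N : ℕ, z ^ N • PL N v := by
    intro z hz v
    apply ext_repr b
    intro i
    rw [(hD z hz).1, b.repr_apply_apply (∑' N : ℕ, z ^ N • PL N v)]
    have h1 : inner ℂ (b i) (∑' N : ℕ, z ^ N • PL N v) = ∑' N : ℕ, inner ℂ (b i) (z ^ N • PL N v) := by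
      have := (innerSL ℂ (b i)).map_tsum (hsum z hz v)
      simpa using this
    rw [h1]
    have h2 : ∀ N : ℕ, inner ℂ (b i) (z ^ N • PL N v) =
        z ^ N * ((if q i = N + 1 then 1 else 0) * b.repr v i) := by
      intro N
      rw [inner_smul_right, ← b.repr_apply_apply, hPL, hP1]
    rw [tsum_congr h2]
    by_cases h0 : q i = 0
    · rw [if_pos h0, zero_mul]
      symm
      convert tsum_zero with N
      rw [if_neg (by omega)]
      ring
    · rw [if_neg h0, tsum_eq_single (q i - 1)]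
      · rw [if_pos (by omega)]
        ring
      · intro N hN
        rw [if_neg (by omega)]
        ring
  -- the vector-valued analytic functions
  let F : ℕ → ℂ → H := fun n => Nat.rec (fun _ => b i₀) (fun _ f z => D z (U (f z))) n
  have hF0 : ∀ z, F 0 z = b i₀ := fun z => rfl
  have hFs : ∀ n z, F (n + 1) z = D z (U (F n z)) := fun n z => rfl
  have hbn : ‖b i₀‖ = 1 := b.orthonormal.1 i₀
  have hF1 : ∀ n, ∀ z ∈ ball (0 : ℂ) 1, ‖F n z‖ ≤ 1 := by
    intro n
    induction n with
    | zero => intro z _; rw [hF0, hbn]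
    | succ n ih =>
      intro z hz
      rw [hFs]
      exact (((hD z (by simpa using hz)).2 _).trans (hU _)).trans (ih z hz)
  have hFd : ∀ n, DifferentiableOn ℂ (F n) (ball 0 1) := by
    intro n
    induction n with
    | zero =>
      have : F 0 = fun _ => b i₀ := rfl
      rw [this]
      exact differentiableOn_const _
    | succ n ih =>
      intro z₀ hz₀
      rw [mem_ball_zero_iff] at hz₀
      obtain ⟨r, hr0, hr1⟩ := exists_between hz₀
      have hr : 0 < r := (norm_nonneg _).trans_lt hr0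
      have hsub : ball (0 : ℂ) r ⊆ ball 0 1 := ball_subset_ball hr1.le
      have hd : DifferentiableOn ℂ (fun z => ∑' N : ℕ, z ^ N • PL N (U (F n z))) (ball 0 r) := by
        refine Complex.differentiableOn_tsum_of_summable_norm (u := fun N => r ^ N)
          (summable_geometric_of_lt_one hr.le hr1) (fun N => ?_) isOpen_ball (fun N w hw => ?_)
        · refine DifferentiableOn.smul (by fun_prop) ?_
          exact (PL N).differentiable.comp_differentiableOn
            (U.differentiable.comp_differentiableOn (ih.mono hsub))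
        · rw [norm_smul, norm_pow]
          have hw' := hw
          rw [mem_ball_zero_iff] at hw
          have h1 : ‖PL N (U (F n w))‖ ≤ 1 := ((hP2 N _).trans (hU _)).trans (hF1 n w (hsub hw'))
          calc ‖w‖ ^ N * ‖PL N (U (F n w))‖ ≤ r ^ N * 1 := by
                apply mul_le_mul (pow_le_pow_left₀ (norm_nonneg _) hw.le N) h1 (norm_nonneg _)
                positivity
            _ = r ^ N := mul_one _
      have hz₀r : z₀ ∈ ball (0 : ℂ) r := by rwa [mem_ball_zero_iff]
      have hda := (hd z₀ hz₀r).differentiableAt (isOpen_ball.mem_nhds hz₀r)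
      apply DifferentiableAt.differentiableWithinAt
      refine hda.congr_of_eventuallyEq ?_
      filter_upwards [isOpen_ball.mem_nhds hz₀r] with w hw
      rw [hFs, hDsum w]
      rw [mem_ball_zero_iff] at hw
      exact hw.trans hr1
  -- scalar functions
  let G : ℕ → ℂ → ℂ := fun n z => inner ℂ (b i₀) (F n z)
  have hGd : ∀ n, DifferentiableOn ℂ (G n) (ball 0 1) := fun n =>
    (innerSL ℂ (b i₀)).differentiable.comp_differentiableOn (hFd n)
  have hGF : ∀ n z, ‖G n z‖ ≤ ‖F n z‖ := by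
    intro n z
    refine (norm_inner_le_norm _ _).trans ?_
    rw [hbn, one_mul]
  have hG1 : ∀ n, ∀ z ∈ ball (0 : ℂ) 1, ‖G n z‖ ≤ 1 := fun n z hz => (hGF n z).trans (hF1 n z hz)
  -- value at 0
  have hFz : ∀ n, F n 0 = u ^ n • b i₀ := by
    intro n
    induction n with
    | zero => rw [hF0, pow_zero, one_smul]
    | succ n ih =>
      rw [hFs, ih]
      apply ext_repr b
      intro i
      rw [(hD 0 (by simp)).1, map_smul, map_smul, map_smul, lp.coeFn_smul, Pi.smul_apply, smul_eq_mul,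
        lp.coeFn_smul, Pi.smul_apply, smul_eq_mul, b.repr_self, lp.single_apply, Pi.single_apply]
      by_cases h0 : q i = 0
      · rw [if_pos h0, if_neg (by rintro rfl; omega)]
        ring
      · rw [if_neg h0]
        by_cases h1 : q i = 1
        · rw [h1]
          by_cases h2 : i = i₀
          · subst h2
            rw [hUi0]
            simp
            ring
          · rw [hUi i h1 h2, if_neg h2]
            ring
        · rw [if_neg (by rintro rfl; exact h1 hq), zero_pow (by omega)]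
          ring
  have hGz : ∀ n, G n 0 = u ^ n := by
    intro n
    show inner ℂ (b i₀) (F n 0) = u ^ n
    rw [hFz, inner_smul_right, inner_self_eq_norm_sq_to_K, hbn]
    simp
  -- zero mode
  have hFzero : ∀ n, ∀ z ∈ ball (0 : ℂ) 1, ∀ i, q i = 0 → b.repr (F n z) i = 0 := by
    intro n z hz i hi
    cases n with
    | zero =>
      rw [hF0, b.repr_self, lp.single_apply, Pi.single_apply, if_neg (by rintro rfl; omega)]
    | succ n =>
      rw [hFs, (hD z (by simpa using hz)).1, if_pos hi, zero_mul]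
  by_contra hcon
  push Not at hcon
  -- the bound on the segment
  have hpi : 0 < Real.pi := Real.pi_pos
  have hseg : ∀ n ≥ 1, ∀ z : ℝ, Real.exp (-(4 * Real.pi ^ 2 * ν₀)) ≤ z →
      z ≤ Real.exp (-(4 * Real.pi ^ 2 * (ν₀ / 2))) →
      ‖G n z‖ ≤ ((Real.exp (-(4 * Real.pi ^ 2 * ν₀))) ^ n)⁻¹ *
        Real.exp (-(ν₀ / (2 * C) * γ ^ n)) := by
    intro n hn z hz1 hz2
    have hz0 : 0 < z := (Real.exp_pos _).trans_le hz1
    set ν : ℝ := -Real.log z / (4 * Real.pi ^ 2) with hν
    have hzν : Real.exp (-(4 * Real.pi ^ 2 * ν)) = z := by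
      rw [hν]
      have : -(4 * Real.pi ^ 2 * (-Real.log z / (4 * Real.pi ^ 2))) = Real.log z := by
        field_simp
      rw [this, Real.exp_log hz0]
    have hν1 : ν ≤ ν₀ := by
      rw [← hzν, Real.exp_le_exp] at hz1
      have : 4 * Real.pi ^ 2 * ν ≤ 4 * Real.pi ^ 2 * ν₀ := by linarith
      exact le_of_mul_le_mul_left this (by positivity)
    have hν2 : ν₀ / 2 ≤ ν := by
      rw [← hzν, Real.exp_le_exp] at hz2
      have : 4 * Real.pi ^ 2 * (ν₀ / 2) ≤ 4 * Real.pi ^ 2 * ν := by linarith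
      exact le_of_mul_le_mul_left this (by positivity)
    have hν0 : 0 < ν := by linarith
    have hzlt : z < 1 := by
      rw [← hzν, Real.exp_lt_one_iff]
      have : 0 < 4 * Real.pi ^ 2 * ν := by positivity
      linarith
    have hzb : (z : ℂ) ∈ ball (0 : ℂ) 1 := by
      rw [mem_ball_zero_iff, Complex.norm_real, Real.norm_eq_abs, abs_of_pos hz0]; exact hzlt
    have hpow : ∀ i, ((Real.exp (-(4 * Real.pi ^ 2 * ν * (q i : ℝ))) : ℝ) : ℂ) = (z : ℂ) ^ (q i) := by
      intro i
      rw [← Complex.ofReal_pow, ← hzν, ← Real.exp_nat_mul]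
      congr 2
      ring
    have hθ := hcon ν hν0 hν1 n hn (fun n => ((z : ℂ) ^ n) • F n z) (by simp [hF0]) (by
      intro n i
      simp only
      rw [hpow, map_smul, map_smul, map_smul, lp.coeFn_smul, Pi.smul_apply, smul_eq_mul,
        lp.coeFn_smul, Pi.smul_apply, smul_eq_mul, hFs, (hD z (by simpa using hzb)).1]
      by_cases h0 : q i = 0
      · rw [if_pos h0, hU0 _ (hFzero n z hzb) i h0]
        ring
      · rw [if_neg h0]
        have : q i = (q i - 1) + 1 := by omega
        conv_rhs => rw [this]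
        ring)
    simp only [norm_smul, norm_pow, Complex.norm_real, Real.norm_eq_abs, abs_of_pos hz0] at hθ
    have hzn : 0 < z ^ n := by positivity
    have h1 : ‖F n z‖ ≤ (z ^ n)⁻¹ * Real.exp (-(ν * γ ^ n) / C) := by
      rw [inv_mul_eq_div, le_div_iff₀ hzn]
      linarith
    refine ((hGF n z).trans h1).trans ?_
    apply mul_le_mul
    · apply inv_anti₀ (by positivity)
      exact pow_le_pow_left₀ (Real.exp_pos _).le hz1 n
    · apply Real.exp_le_exp.2
      have hgn : 0 < γ ^ n := by positivity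
      have : ν₀ / (2 * C) * γ ^ n ≤ ν * γ ^ n / C := by
        rw [div_mul_eq_mul_div, div_le_div_iff₀ (by positivity) hC]
        nlinarith [mul_pos hgn hC]
      rw [neg_div]
      linarith
    · exact (Real.exp_pos _).le
    · positivity
  obtain ⟨n, hn, hlt⟩ := exists_small_value (G := G) hGd hG1
    (a := Real.exp (-(4 * Real.pi ^ 2 * ν₀))) (b := Real.exp (-(4 * Real.pi ^ 2 * (ν₀ / 2))))
    (c := ν₀ / (2 * C)) (γ := γ) (u := ‖u‖) (Real.exp_pos _)
    (by
      apply Real.exp_lt_exp.2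
      have : 0 < 4 * Real.pi ^ 2 * (ν₀ / 2) := by positivity
      linarith)
    (by
      rw [Real.exp_lt_one_iff]
      have : 0 < 4 * Real.pi ^ 2 * (ν₀ / 2) := by positivity
      linarith)
    (by positivity) hγ (norm_pos_iff.2 hu) hseg
  rw [hGz, norm_pow] at hlt
  exact lt_irrefl _ hlt

end Pool.Agent.H181.PD
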