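import Mathlib
import Pool.Agent.H181.PdB

/-!
# Koopman operators on the flat torus (MP_459901_an)
-/

open Filter Topology Metric Set MeasureTheory UnitAddTorus
open scoped ComplexConjugate

namespace Pool.Agent.H181.PD

noncomputable section

attribute [local instance] instMeasureSpaceUnitAddCircle

local instance instHaarPd : Measure.IsAddHaarMeasure (volume : Measure UnitAddCircle) :=
  inferInstanceAs (Measure.IsAddHaarMeasure AddCircle.haarAddCircle)

local instance instProbPd : IsProbabilityMeasure (volume : Measure UnitAddCircle) :=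
  inferInstanceAs (IsProbabilityMeasure AddCircle.haarAddCircle)

abbrev T2 := UnitAddTorus (Fin 2)
abbrev L2T := Lp ℂ 2 (volume : Measure T2)

/-- Koopman operator. -/
def koop (f : T2 → T2) (hf : MeasurePreserving f volume volume) : L2T →ₗᵢ[ℂ] L2T :=
  Lp.compMeasurePreservingₗᵢ ℂ f hf

lemma koop_coe (f : T2 → T2) (hf : MeasurePreserving f volume volume) (x : L2T) :
    koop f hf x =ᵐ[volume] x ∘ f := Lp.coeFn_compMeasurePreserving x hf

lemma koop_comp {f g h : T2 → T2} (hf : MeasurePreserving f volume volume)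
    (hg : MeasurePreserving g volume volume) (hh : MeasurePreserving h volume volume)
    (hgf : g ∘ f = h) (x : L2T) :
    koop f hf (koop g hg x) = koop h hh x := by
  apply Lp.ext
  have h1 := koop_coe f hf (koop g hg x)
  have h2 := hf.quasiMeasurePreserving.ae_eq_comp (koop_coe g hg x)
  have h3 := koop_coe h hh x
  filter_upwards [h1, h2, h3] with t h1 h2 h3
  rw [h1, h2, h3, ← hgf]
  rfl

lemma koop_id {f : T2 → T2} (hf : MeasurePreserving f volume volume) (h : ∀ x, f x = x) (x : L2T) :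
    koop f hf x = x := by
  apply Lp.ext
  filter_upwards [koop_coe f hf x] with t ht
  rw [ht, Function.comp, h]

lemma koop_toLp {f : T2 → T2} (hf : MeasurePreserving f volume volume) (hc : Continuous f)
    (g : C(T2, ℂ)) :
    koop f hf (ContinuousMap.toLp (E := ℂ) 2 volume ℂ g) =
      ContinuousMap.toLp (E := ℂ) 2 volume ℂ (g.comp ⟨f, hc⟩) := by
  apply Lp.ext
  have h1 := koop_coe f hf (ContinuousMap.toLp (E := ℂ) 2 volume ℂ g)
  have h2 := hf.quasiMeasurePreserving.ae_eq_comp (ContinuousMap.coeFn_toLp (p := 2) (𝕜 := ℂ) volume g)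
  have h3 := ContinuousMap.coeFn_toLp (p := 2) (𝕜 := ℂ) volume (g.comp ⟨f, hc⟩)
  filter_upwards [h1, h2, h3] with t h1 h2 h3
  rw [h1, h2, h3]
  rfl

/-- The shear profile. -/
def sig (y : UnitAddCircle) : ℝ := (fourier 1 y : ℂ).im / (8 * Real.pi)

/-- The shear and its inverse. -/
def sh (x : T2) : T2 := ![x 0, x 1 + ((sig (x 0) : ℝ) : UnitAddCircle)]
def sh' (x : T2) : T2 := ![x 0, x 1 - ((sig (x 0) : ℝ) : UnitAddCircle)]

/-- The hyperbolic automorphism and its inverse. -/
def cat (x : T2) : T2 := ![x 0 + 3 • x 1, x 0 + 4 • x 1]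
def cat' (x : T2) : T2 := ![4 • x 0 - 3 • x 1, x 1 - x 0]

lemma sh_sh' (x : T2) : sh (sh' x) = x := by
  ext i
  fin_cases i <;> simp [sh, sh']

lemma sh'_sh (x : T2) : sh' (sh x) = x := by
  ext i
  fin_cases i <;> simp [sh, sh']

lemma cat_cat' (x : T2) : cat (cat' x) = x := by
  ext i
  fin_cases i
  · simp only [cat, cat', Fin.zero_eta, Matrix.cons_val_zero, Matrix.cons_val_one]
    abel
  · simp only [cat, cat', Fin.mk_one, Matrix.cons_val_zero, Matrix.cons_val_one]
    abel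

lemma cat'_cat (x : T2) : cat' (cat x) = x := by
  ext i
  fin_cases i
  · simp only [cat, cat', Fin.zero_eta, Matrix.cons_val_zero, Matrix.cons_val_one]
    abel
  · simp only [cat, cat', Fin.mk_one, Matrix.cons_val_zero, Matrix.cons_val_one]
    abel

lemma continuous_sig : Continuous sig := by
  unfold sig
  have : Continuous (fun y : UnitAddCircle => (fourier 1 y : ℂ).im) :=
    Complex.continuous_im.comp (map_continuous (fourier 1))
  fun_prop

lemma continuous_sigc : Continuous (fun y : UnitAddCircle => ((sig y : ℝ) : UnitAddCircle)) :=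
  (AddCircle.continuous_mk' 1).comp continuous_sig

lemma continuous_sh : Continuous sh := by
  unfold sh
  refine continuous_pi (fun i => ?_)
  fin_cases i
  · exact continuous_apply 0
  · exact (continuous_apply 1).add (continuous_sigc.comp (continuous_apply 0))

lemma continuous_sh' : Continuous sh' := by
  unfold sh'
  refine continuous_pi (fun i => ?_)
  fin_cases i
  · exact continuous_apply 0
  · exact (continuous_apply 1).sub (continuous_sigc.comp (continuous_apply 0))

lemma continuous_cat : Continuous cat := by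
  unfold cat
  refine continuous_pi (fun i => ?_)
  fin_cases i
  · exact (continuous_apply 0).add ((continuous_apply 1).nsmul 3)
  · exact (continuous_apply 0).add ((continuous_apply 1).nsmul 4)

lemma mp_cat : MeasurePreserving cat volume volume := by
  let c : T2 →+ T2 := { toFun := cat, map_zero' := by ext i; fin_cases i <;> simp [cat],
                        map_add' := by
                          intro x y
                          ext i
                          fin_cases i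
                          · simp only [cat, Fin.zero_eta, Matrix.cons_val_zero, Pi.add_apply]
                            abel
                          · simp only [cat, Fin.mk_one, Matrix.cons_val_one, Pi.add_apply,
                              Matrix.cons_val_fin_one]
                            abel }
  exact AddMonoidHom.measurePreserving (f := c) continuous_cat (fun x => ⟨cat' x, cat_cat' x⟩) rfl

lemma mp_shear (σ : UnitAddCircle → UnitAddCircle) (hσ : Continuous σ) :
    MeasurePreserving (fun x : T2 => (![x 0, x 1 + σ (x 0)] : T2)) volume volume := by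
  have h1 := volume_preserving_finTwoArrow UnitAddCircle
  have h2 : MeasurePreserving (fun p : UnitAddCircle × UnitAddCircle => (p.1, p.2 + σ p.1))
      (volume.prod volume) (volume.prod volume) := by
    refine MeasurePreserving.skew_product (f := id) (g := fun a b => b + σ a) (MeasurePreserving.id _) ?_ ?_
    · apply Continuous.measurable
      show Continuous (fun p : UnitAddCircle × UnitAddCircle => p.2 + σ p.1)
      fun_prop
    · refine Filter.Eventually.of_forall (fun a => ?_)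
      exact (measurePreserving_add_right volume (σ a)).map_eq
  have h3 := (h1.symm).comp (h2.comp h1)
  convert h3 using 1
  funext x
  ext i
  fin_cases i <;> rfl

lemma mp_sh : MeasurePreserving sh volume volume := mp_shear _ continuous_sigc

lemma mp_sh' : MeasurePreserving sh' volume volume := by
  have h := mp_shear (fun y => -((sig y : ℝ) : UnitAddCircle)) continuous_sigc.neg
  convert h using 1
  funext x
  simp only [sh', sub_eq_add_neg]

/-! ## Matrix coefficients -/

lemma fourier_apply_add (n : ℤ) (x y : UnitAddCircle) :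
    (fourier n (x + y) : ℂ) = fourier n x * fourier n y := by
  simp only [fourier_apply, smul_add, AddCircle.toCircle_add, Circle.coe_mul]

lemma fourier_apply_neg' (n : ℤ) (x : UnitAddCircle) :
    (fourier n (-x) : ℂ) = fourier (-n) x := by
  simp only [fourier_apply, smul_neg, neg_smul]

lemma fourier_norm1 (n : ℤ) (x : UnitAddCircle) : ‖(fourier n x : ℂ)‖ = 1 := by
  rw [fourier_apply]
  exact Circle.norm_coe _

lemma integral_fourier' (n : ℤ) : ∫ y : UnitAddCircle, (fourier n y : ℂ) = if n = 0 then 1 else 0 := by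
  have h := orthonormal_iff_ite.1 (orthonormal_fourier (T := (1:ℝ))) 0 n
  rw [ContinuousMap.inner_toLp] at h
  simp only [fourier_zero, map_one, mul_one] at h
  rw [show (∫ y : UnitAddCircle, (fourier n y : ℂ)) =
    ∫ y : UnitAddCircle, (fourier n y : ℂ) ∂AddCircle.haarAddCircle from rfl, h]
  simp only [eq_comm]

/-- The phase `exp(-iκ Im(e^{2πiy})/4)`. -/
def ph (κ : ℤ) (y : UnitAddCircle) : ℂ := fourier (-κ) ((sig y : ℝ) : UnitAddCircle)

lemma ph_eq (κ : ℤ) (y : UnitAddCircle) :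
    ph κ y = Complex.exp (-(((κ : ℝ) / 4 * (fourier 1 y : ℂ).im : ℝ) : ℂ) * Complex.I) := by
  rw [ph, fourier_coe_apply]
  congr 1
  rw [sig]
  push_cast
  have : (Real.pi : ℂ) ≠ 0 := by exact_mod_cast Real.pi_ne_zero
  field_simp
  ring

lemma continuous_ph (κ : ℤ) : Continuous (ph κ) := by
  unfold ph
  exact (map_continuous (fourier (-κ))).comp continuous_sigc

lemma norm_ph (κ : ℤ) (y : UnitAddCircle) : ‖ph κ y‖ = 1 := fourier_norm1 _ _

/-- The scalar coefficient. -/
def cc (κ j : ℤ) : ℂ := ∫ y : UnitAddCircle, fourier j y * ph κ y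

/-- `e_m` -/
abbrev ee (k : Fin 2 → ℤ) : L2T := mFourierLp 2 k

/-- The coefficients of `e_k ∘ h⁻¹`. -/
def uh (k m : Fin 2 → ℤ) : ℂ := inner ℂ (ee m) (koop sh' mp_sh' (ee k))

lemma uh_eq (k m : Fin 2 → ℤ) : uh k m = if m 1 = k 1 then cc (k 1) (k 0 - m 0) else 0 := by
  unfold uh ee mFourierLp
  rw [koop_toLp mp_sh' continuous_sh', ContinuousMap.inner_toLp]
  let f : Fin 2 → UnitAddCircle → ℂ := ![fun y => fourier (k 0 - m 0) y * ph (k 1) y,
    fun y => fourier (k 1 - m 1) y]
  have h1 : ∀ x : T2, ((mFourier k).comp ⟨sh', continuous_sh'⟩) x * conj (mFourier m x) =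
      ∏ i, f i (x i) := by
    intro x
    rw [← mFourier_neg]
    simp only [mFourier, ContinuousMap.comp_apply, ContinuousMap.coe_mk, Fin.prod_univ_two, sh', f,
      Matrix.cons_val_zero, Matrix.cons_val_one, Pi.neg_apply, Matrix.cons_val_fin_one]
    rw [sub_eq_add_neg (x 1), fourier_apply_add, fourier_apply_neg', sub_eq_add_neg (k 0), fourier_add,
      sub_eq_add_neg (k 1), fourier_add, ph]
    ring
  rw [integral_congr_ae (Filter.Eventually.of_forall h1),
    integral_fintype_prod_volume_eq_prod, Fin.prod_univ_two]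
  simp only [f, Matrix.cons_val_zero, Matrix.cons_val_one, Matrix.cons_val_fin_one]
  rw [integral_fourier']
  by_cases h : m 1 = k 1
  · rw [if_pos h, if_pos (by omega), mul_one, cc]
  · rw [if_neg h, if_neg (by omega), mul_zero]

lemma fourier_one_coe (x : ℝ) : (fourier 1 (x : UnitAddCircle) : ℂ) =
    Complex.exp ((2 * Real.pi * x : ℝ) * Complex.I) := by
  rw [fourier_coe_apply]
  congr 1
  push_cast
  ring

lemma fourier_one_im (x : ℝ) : (fourier 1 (x : UnitAddCircle) : ℂ).im = Real.sin (2 * Real.pi * x) := by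
  rw [fourier_one_coe, Complex.exp_ofReal_mul_I_im]

lemma cc_eq (κ j : ℤ) : cc κ j = ∫ x in (0:ℝ)..1,
    Complex.exp (((2 * Real.pi * j * x - κ / 4 * Real.sin (2 * Real.pi * x) : ℝ) : ℂ) * Complex.I) := by
  have h := fourierCoeff_eq_intervalIntegral (T := (1:ℝ)) (ph κ) (-j) 0
  have h2 : fourierCoeff (ph κ) (-j) = cc κ j := by
    unfold fourierCoeff cc
    rw [neg_neg]
    rfl
  rw [← h2, h]
  simp only [neg_neg, zero_add, div_one, one_smul, smul_eq_mul]
  apply intervalIntegral.integral_congr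
  intro x _
  simp only
  rw [ph_eq, fourier_one_im, fourier_coe_apply, ← Complex.exp_add]
  congr 1
  push_cast
  ring

lemma norm_cc_le (κ j : ℤ) : ‖cc κ j‖ ≤ 1 := by
  unfold cc
  refine (norm_integral_le_of_norm_le_const (C := 1) (Filter.Eventually.of_forall fun y => ?_)).trans ?_
  · rw [norm_mul, fourier_norm1, norm_ph, one_mul]
  · simp

lemma norm_cc_mul_le (κ j : ℤ) : ‖cc κ j‖ * |(j : ℝ)| ≤ |(κ : ℝ)| / 4 := by
  set Hf : ℝ → ℂ := fun x =>
    Complex.exp (((2 * Real.pi * j * x - κ / 4 * Real.sin (2 * Real.pi * x) : ℝ) : ℂ) * Complex.I) with hHf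
  have hHn : ∀ x, ‖Hf x‖ = 1 := fun x => Complex.norm_exp_ofReal_mul_I _
  have hHc : Continuous Hf := by rw [hHf]; fun_prop
  have hder : ∀ x : ℝ, HasDerivAt Hf
      (2 * Real.pi * Complex.I * (j * Hf x - κ / 4 * (Real.cos (2 * Real.pi * x) * Hf x))) x := by
    intro x
    have h1 : HasDerivAt (fun x : ℝ => 2 * Real.pi * j * x - κ / 4 * Real.sin (2 * Real.pi * x))
        (2 * Real.pi * j - κ / 4 * (Real.cos (2 * Real.pi * x) * (2 * Real.pi))) x := by
      have h2 : HasDerivAt (fun x : ℝ => 2 * Real.pi * x) (2 * Real.pi) x := by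
        simpa using (hasDerivAt_id x).const_mul (2 * Real.pi)
      have h3 := (h2.sin).const_mul ((κ : ℝ) / 4)
      have h4 : HasDerivAt (fun x : ℝ => 2 * Real.pi * j * x) (2 * Real.pi * j) x := by
        simpa using (hasDerivAt_id x).const_mul (2 * Real.pi * j)
      exact h4.sub h3
    have h5 := ((h1.ofReal_comp).mul_const Complex.I).cexp
    convert h5 using 1
    rw [hHf]
    push_cast
    ring
  have hFTC : ∫ x in (0:ℝ)..1,
      (2 * Real.pi * Complex.I * (j * Hf x - κ / 4 * (Real.cos (2 * Real.pi * x) * Hf x))) = 0 := by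
    rw [intervalIntegral.integral_eq_sub_of_hasDerivAt (f := Hf) (fun x _ => hder x)]
    · rw [hHf]
      simp only [mul_one, mul_zero, Real.sin_zero, Real.sin_two_pi, sub_zero, Complex.ofReal_zero,
        zero_mul, Complex.exp_zero]
      have : ((2 * Real.pi * (j : ℝ) : ℝ) : ℂ) * Complex.I = (j : ℂ) * (2 * Real.pi * Complex.I) := by
        push_cast; ring
      rw [this, Complex.exp_int_mul_two_pi_mul_I, sub_self]
    · apply Continuous.intervalIntegrable
      fun_prop
  have hi1 : IntervalIntegrable (fun x => (j : ℂ) * Hf x) volume 0 1 := by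
    apply Continuous.intervalIntegrable; fun_prop
  have hi2 : IntervalIntegrable (fun x => (κ : ℂ) / 4 * (Real.cos (2 * Real.pi * x) * Hf x)) volume 0 1 := by
    apply Continuous.intervalIntegrable; fun_prop
  rw [intervalIntegral.integral_const_mul, intervalIntegral.integral_sub hi1 hi2,
    intervalIntegral.integral_const_mul, intervalIntegral.integral_const_mul, ← cc_eq] at hFTC
  have hpi : (2 * Real.pi * Complex.I : ℂ) ≠ 0 := by
    have := Real.pi_ne_zero
    simp [this]
  have h6 := (mul_eq_zero.1 hFTC).resolve_left hpi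
  have h7 : (j : ℂ) * cc κ j = κ / 4 * ∫ x in (0:ℝ)..1, (Real.cos (2 * Real.pi * x) * Hf x) :=
    sub_eq_zero.1 h6
  have h8 : ‖∫ x in (0:ℝ)..1, (Real.cos (2 * Real.pi * x) * Hf x : ℂ)‖ ≤ 1 := by
    refine (intervalIntegral.norm_integral_le_of_norm_le_const (C := 1) (fun x _ => ?_)).trans (by simp)
    rw [norm_mul, hHn, mul_one, Complex.norm_real]
    exact Real.abs_cos_le_one _
  have h9 := congrArg norm h7
  rw [norm_mul, norm_mul, norm_div] at h9
  simp only [Complex.norm_intCast, Complex.norm_ofNat] at h9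
  calc ‖cc κ j‖ * |(j : ℝ)| = |(j:ℝ)| * ‖cc κ j‖ := mul_comm _ _
    _ = _ := h9
    _ ≤ |(κ : ℝ)| / 4 * 1 := mul_le_mul_of_nonneg_left h8 (by positivity)
    _ = _ := mul_one _

/-- `|k|₁` -/
def n1 (k : Fin 2 → ℤ) : ℝ := |(k 0 : ℝ)| + |(k 1 : ℝ)|

lemma n1_nonneg (k : Fin 2 → ℤ) : 0 ≤ n1 k := by unfold n1; positivity

lemma norm_uh_le (k m : Fin 2 → ℤ) : ‖uh k m‖ ≤ 1 := by
  rw [uh_eq]
  split_ifs
  · exact norm_cc_le _ _
  · simp

lemma norm_uh_mul_le (k m : Fin 2 → ℤ) : ‖uh k m‖ * n1 m ≤ 2 * n1 k := by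
  rw [uh_eq]
  split_ifs with h
  · have h1 := norm_cc_mul_le (k 1) (k 0 - m 0)
    have h2 := norm_cc_le (k 1) (k 0 - m 0)
    unfold n1
    rw [h]
    push_cast at h1
    have h3 : |(m 0 : ℝ)| ≤ |(k 0 : ℝ)| + |(k 0 : ℝ) - m 0| := by
      have : (m 0 : ℝ) = k 0 - (k 0 - m 0) := by ring
      calc |(m 0 : ℝ)| = |(k 0 : ℝ) - (k 0 - m 0)| := by rw [← this]
        _ ≤ _ := abs_sub _ _
    have hn := norm_nonneg (cc (k 1) (k 0 - m 0))
    have a0 := abs_nonneg (k 0 : ℝ)
    have a1 := abs_nonneg (k 1 : ℝ)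
    nlinarith [mul_le_mul_of_nonneg_left h3 hn, mul_le_mul_of_nonneg_right h2 a0,
      mul_le_mul_of_nonneg_right h2 a1]
  · rw [norm_zero, zero_mul]
    have := n1_nonneg k
    positivity

lemma uh_zero {k : Fin 2 → ℤ} (hk : k ≠ 0) : uh k 0 = 0 := by
  have h1 : uh k 0 = 0 ∨ k 1 = 0 := by
    rw [uh_eq]
    by_cases h : (0 : Fin 2 → ℤ) 1 = k 1
    · right; exact h.symm
    · left; rw [if_neg h]
  rcases h1 with h1 | h1
  · exact h1
  · rw [uh_eq, if_pos (show (0 : Fin 2 → ℤ) 1 = k 1 from h1.symm)]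
    have h2 := norm_cc_mul_le (k 1) (k 0 - (0 : Fin 2 → ℤ) 0)
    rw [h1] at h2 ⊢
    have h3 : k 0 ≠ 0 := by
      intro h0
      apply hk
      ext i
      fin_cases i
      · exact h0
      · exact h1
    have h4 : 0 < |((k 0 - (0 : Fin 2 → ℤ) 0 : ℤ) : ℝ)| := by
      rw [abs_pos]
      simpa using h3
    have h5 : ‖cc 0 (k 0 - (0 : Fin 2 → ℤ) 0)‖ ≤ 0 := by
      simp only [Int.cast_zero, abs_zero, zero_div] at h2
      by_contra hc
      push Not at hc
      have := mul_pos hc h4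
      linarith
    exact norm_le_zero_iff.1 h5

/-! ## The lattice dynamics -/

def BB (m : Fin 2 → ℤ) : Fin 2 → ℤ := ![m 0 + m 1, 3 * m 0 + 4 * m 1]

lemma BB0 (m : Fin 2 → ℤ) : BB m 0 = m 0 + m 1 := rfl
lemma BB1 (m : Fin 2 → ℤ) : BB m 1 = 3 * m 0 + 4 * m 1 := rfl

lemma koop_cat_ee (m : Fin 2 → ℤ) : koop cat mp_cat (ee m) = ee (BB m) := by
  unfold ee mFourierLp
  rw [koop_toLp mp_cat continuous_cat]
  congr 1
  ext x
  simp only [mFourier, ContinuousMap.comp_apply, ContinuousMap.coe_mk, Fin.prod_univ_two, cat,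
      Matrix.cons_val_zero, Matrix.cons_val_one, Matrix.cons_val_fin_one, BB]
  have e3 : (3 : ℕ) • x 1 = x 1 + x 1 + x 1 := by abel
  have e4 : (4 : ℕ) • x 1 = x 1 + x 1 + x 1 + x 1 := by abel
  rw [e3, e4]
  have e5 : 3 * m 0 + 4 * m 1 = m 0 + m 0 + m 0 + m 1 + m 1 + m 1 + m 1 := by ring
  rw [e5]
  simp only [fourier_apply_add, fourier_add]
  ring

lemma BB_iter (n : ℕ) : ∃ a b c d : ℤ, (1 ≤ n → 0 < c) ∧ 0 ≤ c ∧ 0 < a ∧
    ∀ m, (BB^[n] m) 0 = a * m 0 + b * m 1 ∧ (BB^[n] m) 1 = c * m 0 + d * m 1 := by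
  induction n with
  | zero => exact ⟨1, 0, 0, 1, by simp, le_refl _, one_pos, fun m => by simp⟩
  | succ n ih =>
    obtain ⟨a, b, c, d, h1, h2, h3, h4⟩ := ih
    refine ⟨a + c, b + d, 3 * a + 4 * c, 3 * b + 4 * d, fun _ => by omega, by omega, by omega,
      fun m => ?_⟩
    rw [Function.iterate_succ_apply', BB0, BB1, (h4 m).1, (h4 m).2]
    constructor <;> ring

lemma BB_iter_inj {n : ℕ} (hn : 1 ≤ n) {m m' : Fin 2 → ℤ} (h1 : m 1 = m' 1)
    (h2 : (BB^[n] m) 1 = (BB^[n] m') 1) : m = m' := by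
  obtain ⟨a, b, c, d, hc, _, _, h4⟩ := BB_iter n
  have hc := hc hn
  rw [(h4 m).2, (h4 m').2, h1] at h2
  have h3 : c * m 0 = c * m' 0 := by linarith
  have h5 : m 0 = m' 0 := mul_left_cancel₀ hc.ne' h3
  ext i
  fin_cases i
  · exact h5
  · exact h1

lemma Q_ne_zero {m : Fin 2 → ℤ} (hm : m ≠ 0) : (m 1) ^ 2 - 3 * m 0 * m 1 - 3 * (m 0) ^ 2 ≠ 0 := by
  intro h
  have h0 : m 0 ≠ 0 := by
    intro h0
    rw [h0] at h
    apply hm
    have h1 : m 1 = 0 := by
      have : m 1 ^ 2 = 0 := by linarith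
      exact pow_eq_zero_iff (two_ne_zero) |>.1 this
    ext i
    fin_cases i
    · exact h0
    · exact h1
  have h2 : (2 * m 1 - 3 * m 0) ^ 2 = 21 * (m 0) ^ 2 := by linarith
  have hirr : Irrational (√(21 : ℝ)) := by
    have : ¬ IsSquare (21 : ℕ) := by
      rintro ⟨r, hr⟩
      have : r < 5 := by nlinarith
      interval_cases r <;> omega
    exact irrational_sqrt_ofNat_iff.2 this
  apply hirr
  refine ⟨|(2 * m 1 - 3 * m 0 : ℚ)| / |(m 0 : ℚ)|, ?_⟩
  push_cast
  symm
  rw [Real.sqrt_eq_iff_mul_self_eq (by norm_num) (by positivity), div_mul_div_comm,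
    abs_mul_abs_self, abs_mul_abs_self]
  have h3 : ((2 * m 1 - 3 * m 0 : ℝ)) ^ 2 = 21 * (m 0 : ℝ) ^ 2 := by exact_mod_cast h2
  have h4 : (m 0 : ℝ) ≠ 0 := by exact_mod_cast h0
  field_simp
  linarith

lemma hyp {m : Fin 2 → ℤ} (hm : m ≠ 0) (n : ℕ) : (4 : ℝ) ^ n ≤ 4 * n1 m * n1 (BB^[n] m) := by
  set s : ℝ := √21 with hs
  have hs2 : s ^ 2 = 21 := Real.sq_sqrt (by norm_num)
  have hs0 : 0 ≤ s := Real.sqrt_nonneg _
  have hs1 : 4.5 ≤ s := by nlinarith
  have hs3 : s ≤ 4.6 := by nlinarith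
  have hL : ∀ t : ℝ, t ^ 2 + 3 * t - 3 = 0 → ∀ n : ℕ,
      ((BB^[n] m) 1 : ℝ) + t * ((BB^[n] m) 0 : ℝ) = (4 + t) ^ n * ((m 1 : ℝ) + t * m 0) := by
    intro t ht n
    induction n with
    | zero => simp
    | succ n ih =>
      rw [Function.iterate_succ_apply', BB0, BB1, pow_succ]
      push_cast
      have : (4 + t) ^ n * (4 + t) * ((m 1 : ℝ) + t * m 0) =
        (4 + t) * (((BB^[n] m) 1 : ℝ) + t * ((BB^[n] m) 0 : ℝ)) := by rw [ih]; ring
      rw [this]
      linear_combination (-(((BB^[n] m) 0 : ℝ))) * ht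
  have h1 := hL ((-3 + s) / 2) (by nlinarith) n
  have hbd : ∀ (t : ℝ) (c : ℝ), |t| ≤ c → 1 ≤ c → ∀ k : Fin 2 → ℤ, |(k 1 : ℝ) + t * k 0| ≤ c * n1 k := by
    intro t c ht hc k
    unfold n1
    calc |(k 1 : ℝ) + t * k 0| ≤ |(k 1 : ℝ)| + |t * k 0| := abs_add_le _ _
      _ = |(k 1 : ℝ)| + |t| * |(k 0 : ℝ)| := by rw [abs_mul]
      _ ≤ c * |(k 1 : ℝ)| + c * |(k 0 : ℝ)| := by
          have a0 := abs_nonneg (k 0 : ℝ)
          have a1 := abs_nonneg (k 1 : ℝ)
          nlinarith [mul_le_mul_of_nonneg_right ht a0]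
      _ = _ := by ring
  have h2 : |((BB^[n] m) 1 : ℝ) + (-3 + s) / 2 * ((BB^[n] m) 0 : ℝ)| ≤ 1 * n1 (BB^[n] m) :=
    hbd _ 1 (by rw [abs_le]; constructor <;> linarith) le_rfl _
  have h3 : |(m 1 : ℝ) + (-3 - s) / 2 * (m 0 : ℝ)| ≤ 4 * n1 m :=
    hbd _ 4 (by rw [abs_le]; constructor <;> linarith) (by norm_num) _
  have h4 : ((m 1 : ℝ) + (-3 + s) / 2 * m 0) * ((m 1 : ℝ) + (-3 - s) / 2 * m 0) =
      (((m 1) ^ 2 - 3 * m 0 * m 1 - 3 * (m 0) ^ 2 : ℤ) : ℝ) := by
    push_cast
    linear_combination (-(m 0 : ℝ) ^ 2 / 4) * hs2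
  have h5 : 1 ≤ |(m 1 : ℝ) + (-3 + s) / 2 * m 0| * |(m 1 : ℝ) + (-3 - s) / 2 * m 0| := by
    rw [← abs_mul, h4]
    exact_mod_cast Int.one_le_abs (Q_ne_zero hm)
  rw [h1, abs_mul, abs_pow, abs_of_nonneg (by linarith : 0 ≤ 4 + (-3 + s) / 2)] at h2
  have h6 : (4 : ℝ) ^ n ≤ (4 + (-3 + s) / 2) ^ n := pow_le_pow_left₀ (by norm_num) (by linarith) n
  have hn1 := n1_nonneg m
  have hn2 := n1_nonneg (BB^[n] m)
  set X := |(m 1 : ℝ) + (-3 + s) / 2 * m 0| with hX
  set Y := |(m 1 : ℝ) + (-3 - s) / 2 * m 0| with hY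
  have hX0 : 0 ≤ X := abs_nonneg _
  have hY0 : 0 ≤ Y := abs_nonneg _
  have h4n : (0 : ℝ) < 4 ^ n := by positivity
  calc (4 : ℝ) ^ n ≤ 4 ^ n * (X * Y) := le_mul_of_one_le_right h4n.le h5
    _ ≤ (4 + (-3 + s) / 2) ^ n * (X * Y) := mul_le_mul_of_nonneg_right h6 (by positivity)
    _ = ((4 + (-3 + s) / 2) ^ n * X) * Y := by ring
    _ ≤ (1 * n1 (BB^[n] m)) * (4 * n1 m) := mul_le_mul h2 h3 hY0 (by positivity)
    _ = _ := by ring

lemma uh_mul_le {k l : Fin 2 → ℤ} (hk : k ≠ 0) (n : ℕ) (m : Fin 2 → ℤ) :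
    ‖uh k m * conj (uh l (BB^[n] m))‖ ≤ 16 * n1 k * n1 l / 4 ^ n := by
  have h4n : (0 : ℝ) < 4 ^ n := by positivity
  have hk0 := n1_nonneg k
  have hl0 := n1_nonneg l
  by_cases hm : m = 0
  · rw [hm, uh_zero hk, zero_mul, norm_zero]
    positivity
  · rw [norm_mul, RCLike.norm_conj, le_div_iff₀ h4n]
    have h1 := hyp hm n
    have h2 := norm_uh_mul_le k m
    have h3 := norm_uh_mul_le l (BB^[n] m)
    have hm0 := n1_nonneg m
    have hm1 := n1_nonneg (BB^[n] m)
    have a := norm_nonneg (uh k m)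
    have b := norm_nonneg (uh l (BB^[n] m))
    calc ‖uh k m‖ * ‖uh l (BB^[n] m)‖ * 4 ^ n
        ≤ ‖uh k m‖ * ‖uh l (BB^[n] m)‖ * (4 * n1 m * n1 (BB^[n] m)) :=
          mul_le_mul_of_nonneg_left h1 (by positivity)
      _ = 4 * ((‖uh k m‖ * n1 m) * (‖uh l (BB^[n] m)‖ * n1 (BB^[n] m))) := by ring
      _ ≤ 4 * ((2 * n1 k) * (2 * n1 l)) := by
          apply mul_le_mul_of_nonneg_left _ (by norm_num)
          exact mul_le_mul h2 h3 (by positivity) (by positivity)
      _ = 16 * n1 k * n1 l := by ring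

/-! ## The conjugated cat map -/

def phi (x : T2) : T2 := sh' (cat (sh x))

lemma mp_phi : MeasurePreserving phi volume volume := mp_sh'.comp (mp_cat.comp mp_sh)

/-- The Koopman operator of `phi`. -/
def UU : L2T →ₗᵢ[ℂ] L2T := koop phi mp_phi

lemma UU_eq (x : L2T) : UU x = koop sh mp_sh (koop cat mp_cat (koop sh' mp_sh' x)) := by
  rw [UU, koop_comp mp_cat mp_sh' (mp_sh'.comp mp_cat) rfl, koop_comp mp_sh (mp_sh'.comp mp_cat) mp_phi rfl]

lemma W'W (x : L2T) : koop sh' mp_sh' (koop sh mp_sh x) = x := by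
  rw [koop_comp mp_sh' mp_sh (mp_sh.comp mp_sh') rfl]
  exact koop_id _ sh_sh' x

lemma WW' (x : L2T) : koop sh mp_sh (koop sh' mp_sh' x) = x := by
  rw [koop_comp mp_sh mp_sh' (mp_sh'.comp mp_sh) rfl]
  exact koop_id _ sh'_sh x

lemma UU_iter (n : ℕ) (x : L2T) :
    UU^[n] x = koop sh mp_sh ((koop cat mp_cat)^[n] (koop sh' mp_sh' x)) := by
  induction n with
  | zero => simp [WW']
  | succ n ih => rw [Function.iterate_succ_apply', ih, UU_eq, W'W, Function.iterate_succ_apply']

lemma cat_iter_map_sum (n : ℕ) {ι : Type*} {f : ι → L2T} {x : L2T} (h : HasSum f x) :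
    HasSum (fun i => (koop cat mp_cat)^[n] (f i)) ((koop cat mp_cat)^[n] x) := by
  induction n with
  | zero => simpa using h
  | succ n ih =>
    simp only [Function.iterate_succ_apply']
    exact ((koop cat mp_cat).toContinuousLinearMap).hasSum ih

lemma cat_iter_smul (n : ℕ) (c : ℂ) (x : L2T) :
    (koop cat mp_cat)^[n] (c • x) = c • (koop cat mp_cat)^[n] x := by
  induction n with
  | zero => rfl
  | succ n ih => rw [Function.iterate_succ_apply', ih, map_smul, ← Function.iterate_succ_apply' (⇑(koop cat mp_cat))]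

lemma cat_iter_ee (n : ℕ) (m : Fin 2 → ℤ) : (koop cat mp_cat)^[n] (ee m) = ee (BB^[n] m) := by
  induction n with
  | zero => rfl
  | succ n ih => rw [Function.iterate_succ_apply', ih, koop_cat_ee, Function.iterate_succ_apply']

lemma hasSum_matrix (n : ℕ) (k l : Fin 2 → ℤ) :
    HasSum (fun m => uh k m * conj (uh l (BB^[n] m))) (inner ℂ (ee l) (UU^[n] (ee k))) := by
  rw [UU_iter]
  have h1 : inner ℂ (ee l) (koop sh mp_sh ((koop cat mp_cat)^[n] (koop sh' mp_sh' (ee k)))) =
      inner ℂ (koop sh' mp_sh' (ee l)) ((koop cat mp_cat)^[n] (koop sh' mp_sh' (ee k))) := by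
    conv_lhs => rw [← WW' (ee l)]
    exact LinearIsometry.inner_map_map _ _ _
  rw [h1]
  have h2 := (mFourierBasis (d := Fin 2)).hasSum_repr (koop sh' mp_sh' (ee k))
  have h3 := cat_iter_map_sum n h2
  have h4 := (innerSL ℂ (koop sh' mp_sh' (ee l))).hasSum h3
  simp only [innerSL_apply_apply] at h4
  refine HasSum.congr_fun h4 fun m => ?_
  simp only [coe_mFourierBasis]
  rw [cat_iter_smul, inner_smul_right, cat_iter_ee, HilbertBasis.repr_apply_apply, coe_mFourierBasis]
  rw [← inner_conj_symm (koop sh' mp_sh' (ee l)) (ee (BB^[n] m))]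
  rfl

lemma matrix_bound (n : ℕ) {k l : Fin 2 → ℤ} (hk : k ≠ 0) (hl : l ≠ 0) :
    ‖(inner ℂ (ee l) (UU^[n] (ee k)) : ℂ)‖ ≤ 16 / 4 ^ n * n1 k * n1 l := by
  have hk0 := n1_nonneg k
  have hl0 := n1_nonneg l
  have h16 : 16 / 4 ^ n * n1 k * n1 l = 16 * n1 k * n1 l / 4 ^ n := by ring
  rw [h16]
  have hge : ∀ m : Fin 2 → ℤ, m ≠ 0 → 1 ≤ n1 m := by
    intro m hm
    have h3 : m 0 ≠ 0 ∨ m 1 ≠ 0 := by
      by_contra hc
      push Not at hc
      apply hm
      ext i
      fin_cases i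
      · exact hc.1
      · exact hc.2
    have habs : ∀ z : ℤ, z ≠ 0 → (1 : ℝ) ≤ |(z : ℝ)| := by
      intro z hz
      exact_mod_cast Int.one_le_abs hz
    unfold n1
    rcases h3 with h3 | h3
    · have := habs _ h3
      have := abs_nonneg (m 1 : ℝ)
      linarith
    · have := habs _ h3
      have := abs_nonneg (m 0 : ℝ)
      linarith
  rcases Nat.eq_zero_or_pos n with hn | hn
  · subst hn
    simp only [Function.iterate_zero, id, pow_zero, div_one]
    have h1 : ‖(inner ℂ (ee l) (ee k) : ℂ)‖ ≤ 1 := by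
      refine (norm_inner_le_norm _ _).trans ?_
      rw [show ‖ee l‖ = 1 from orthonormal_mFourier.1 l, show ‖ee k‖ = 1 from orthonormal_mFourier.1 k,
        one_mul]
    have h2 := hge k hk
    have h3 := hge l hl
    nlinarith
  · have hs := hasSum_matrix n k l
    by_cases hex : ∃ m₀, uh k m₀ * conj (uh l (BB^[n] m₀)) ≠ 0
    · obtain ⟨m₀, hm₀⟩ := hex
      have huniq : ∀ m, m ≠ m₀ → uh k m * conj (uh l (BB^[n] m)) = 0 := by
        intro m hm
        by_contra hne
        apply hm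
        have aux : ∀ m, uh k m * conj (uh l (BB^[n] m)) ≠ 0 → m 1 = k 1 ∧ (BB^[n] m) 1 = l 1 := by
          intro m hm
          constructor
          · by_contra hc
            apply hm
            rw [uh_eq k, if_neg hc, zero_mul]
          · by_contra hc
            apply hm
            rw [uh_eq l, if_neg hc, map_zero, mul_zero]
        have a1 := aux m hne
        have a2 := aux m₀ hm₀
        exact BB_iter_inj hn (a1.1.trans a2.1.symm) (a1.2.trans a2.2.symm)
      have := hs.unique (hasSum_single m₀ huniq)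
      rw [this]
      exact uh_mul_le hk n m₀
    · push Not at hex
      have : (inner ℂ (ee l) (UU^[n] (ee k)) : ℂ) = 0 := by
        rw [← hs.tsum_eq, tsum_congr hex, tsum_zero]
      rw [this, norm_zero]
      positivity

/-- Abstract: from matrix coefficients to correlations. -/
lemma corr_bound {ι H : Type*} [NormedAddCommGroup H] [InnerProductSpace ℂ H]
    (b : HilbertBasis ι ℂ H) (S : H →L[ℂ] H) (i₀ : ι) (w : ι → ℝ) (hw : ∀ i, 0 ≤ w i) (M : ℝ)
    (hS : ∀ k l, k ≠ i₀ → l ≠ i₀ → ‖(inner ℂ (b l) (S (b k)) : ℂ)‖ ≤ M * w k * w l)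
    (f g : H) (hf0 : b.repr f i₀ = 0) (hg0 : b.repr g i₀ = 0)
    (hf : Summable (fun i => w i * ‖b.repr f i‖)) (hg : Summable (fun i => w i * ‖b.repr g i‖)) :
    ‖(inner ℂ g (S f) : ℂ)‖ ≤ M * (∑' i, w i * ‖b.repr f i‖) * (∑' i, w i * ‖b.repr g i‖) := by
  set Gs := ∑' i, w i * ‖b.repr g i‖ with hGs
  have hGs0 : 0 ≤ Gs := tsum_nonneg (fun i => mul_nonneg (hw i) (norm_nonneg _))
  -- inner bound
  have h1 : ∀ k, k ≠ i₀ → ‖(inner ℂ g (S (b k)) : ℂ)‖ ≤ M * w k * Gs := by
    intro k hk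
    have hs := b.hasSum_inner_mul_inner g (S (b k))
    have hb : ∀ l, ‖(inner ℂ g (b l) : ℂ) * inner ℂ (b l) (S (b k))‖ ≤ M * w k * (w l * ‖b.repr g l‖) := by
      intro l
      have e1 : ‖(inner ℂ g (b l) : ℂ)‖ = ‖b.repr g l‖ := by
        rw [b.repr_apply_apply, ← inner_conj_symm, RCLike.norm_conj]
      rw [norm_mul, e1]
      by_cases hl : l = i₀
      · rw [hl, hg0, norm_zero, zero_mul, mul_zero, mul_zero]
      · have := hS k l hk hl
        have hn := norm_nonneg (b.repr g l)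
        calc ‖b.repr g l‖ * ‖(inner ℂ (b l) (S (b k)) : ℂ)‖ ≤ ‖b.repr g l‖ * (M * w k * w l) :=
              mul_le_mul_of_nonneg_left this hn
          _ = _ := by ring
    have := tsum_of_norm_bounded (hg.hasSum.mul_left (M * w k)) hb
    rw [hs.tsum_eq] at this
    exact this
  have h2 := (innerSL ℂ g).hasSum (S.hasSum (b.hasSum_repr f))
  simp only [innerSL_apply_apply] at h2
  have hb2 : ∀ k, ‖(inner ℂ g (S (b.repr f k • b k)) : ℂ)‖ ≤ M * Gs * (w k * ‖b.repr f k‖) := by
    intro k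
    rw [map_smul, inner_smul_right, norm_mul]
    by_cases hk : k = i₀
    · rw [hk, hf0, norm_zero, zero_mul, mul_zero, mul_zero]
    · have := h1 k hk
      have hn := norm_nonneg (b.repr f k)
      calc ‖b.repr f k‖ * ‖(inner ℂ g (S (b k)) : ℂ)‖ ≤ ‖b.repr f k‖ * (M * w k * Gs) :=
              mul_le_mul_of_nonneg_left this hn
          _ = _ := by ring
  have h3 := tsum_of_norm_bounded (hf.hasSum.mul_left (M * Gs)) hb2
  rw [h2.tsum_eq] at h3
  calc _ ≤ _ := h3
    _ = _ := by ring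

end

end Pool.Agent.H181.PD
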