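import Mathlib
import Pool.Agent.H181.PdC

/-!
# The first mode, the mean and the Sobolev weights (MP_459901_an)
-/

open Filter Topology Metric Set MeasureTheory UnitAddTorus
open scoped ComplexConjugate

namespace Pool.Agent.H181.PD

noncomputable section

attribute [local instance] instMeasureSpaceUnitAddCircle instHaarPd instProbPd

lemma integrable_circle {f : UnitAddCircle → ℂ} (hf : Continuous f) : Integrable f volume :=
  hf.integrable_of_hasCompactSupport (HasCompactSupport.of_compactSpace f)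

/-- The linear part of the phase. -/
def lp1 (y : UnitAddCircle) : ℂ := -((((1 : ℤ) : ℝ) / 4 * (fourier 1 y : ℂ).im : ℝ) : ℂ) * Complex.I

lemma norm_lp1 (y : UnitAddCircle) : ‖lp1 y‖ ≤ 1 / 4 := by
  have h1 : |(fourier 1 y : ℂ).im| ≤ 1 := (Complex.abs_im_le_norm _).trans (fourier_norm1 1 y).le
  rw [lp1, norm_mul, Complex.norm_I, mul_one, norm_neg, Complex.norm_real, Real.norm_eq_abs, abs_mul]
  have : |(((1 : ℤ) : ℝ) / 4)| = 1 / 4 := by norm_num
  rw [this]
  linarith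

lemma ph_sub (y : UnitAddCircle) : ‖ph 1 y - 1 - lp1 y‖ ≤ 1 / 16 := by
  have h := norm_lp1 y
  have h2 : ph 1 y = Complex.exp (lp1 y) := by rw [ph_eq, lp1]
  rw [h2]
  refine (Complex.norm_exp_sub_one_sub_id_le (by linarith)).trans ?_
  have h0 := norm_nonneg (lp1 y)
  nlinarith

lemma cc10 : cc 1 0 ≠ 0 := by
  have h1 : ‖cc 1 0 - 1‖ ≤ 5 / 16 := by
    have e1 : cc 1 0 - 1 = ∫ y : UnitAddCircle, (ph 1 y - 1) := by
      rw [integral_sub (integrable_circle (continuous_ph 1)) (integrable_circle continuous_const)]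
      simp [cc]
    rw [e1]
    refine (norm_integral_le_of_norm_le_const (C := 5 / 16) (Filter.Eventually.of_forall fun y => ?_)).trans ?_
    · have := ph_sub y
      have := norm_lp1 y
      calc ‖ph 1 y - 1‖ = ‖(ph 1 y - 1 - lp1 y) + lp1 y‖ := by ring_nf
        _ ≤ _ := norm_add_le _ _
        _ ≤ _ := by linarith
    · simp
  intro h
  rw [h] at h1
  norm_num at h1

lemma four_lp1 (y : UnitAddCircle) :
    (fourier 1 y : ℂ) * (1 + lp1 y) = fourier 1 y - (1/8 : ℂ) * (fourier 2 y - 1) := by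
  have h1 : ((fourier 1 y : ℂ).im : ℂ) = ((fourier 1 y : ℂ) - conj (fourier 1 y : ℂ)) / (2 * Complex.I) := by
    rw [Complex.sub_conj]
    field_simp
    push_cast
    ring
  have h2 : (fourier 1 y : ℂ) * conj (fourier 1 y : ℂ) = 1 := by
    rw [Complex.mul_conj, Complex.normSq_eq_norm_sq, fourier_norm1]
    simp
  have h3 : (fourier 2 y : ℂ) = fourier 1 y * fourier 1 y := by
    rw [← fourier_add]
    rfl
  rw [lp1, h3]
  push_cast
  rw [h1]
  have hI : Complex.I ≠ 0 := Complex.I_ne_zero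
  field_simp
  ring_nf
  ring_nf at h2
  linear_combination 8 * h2

lemma cc11 : cc 1 1 ≠ 0 := by
  have c1 : Continuous (fun y : UnitAddCircle => (fourier 1 y : ℂ)) := map_continuous (fourier 1)
  have c2 : Continuous (fun y : UnitAddCircle => (fourier 2 y : ℂ)) := map_continuous (fourier 2)
  have c3 : Continuous (fun y : UnitAddCircle => fourier 1 y - (1/8 : ℂ) * (fourier 2 y - 1)) := by fun_prop
  have e0 : ∫ y : UnitAddCircle, (fourier 1 y - (1/8 : ℂ) * (fourier 2 y - 1)) = 1 / 8 := by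
    rw [integral_sub (integrable_circle c1) (integrable_circle (by fun_prop)), integral_const_mul,
      integral_sub (integrable_circle c2) (integrable_circle (by fun_prop)), integral_fourier',
      integral_fourier']
    simp
  have h1 : ‖cc 1 1 - 1 / 8‖ ≤ 1 / 16 := by
    have e1 : cc 1 1 - 1 / 8 = ∫ y : UnitAddCircle, (fourier 1 y * ph 1 y -
        (fourier 1 y - (1/8 : ℂ) * (fourier 2 y - 1))) := by
      have c4 : Continuous (fun y : UnitAddCircle => (fourier 1 y : ℂ) * ph 1 y) := c1.mul (continuous_ph 1)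
      rw [integral_sub (integrable_circle c4) (integrable_circle c3), e0, cc]
    rw [e1]
    refine (norm_integral_le_of_norm_le_const (C := 1 / 16) (Filter.Eventually.of_forall fun y => ?_)).trans ?_
    · rw [← four_lp1]
      have : (fourier 1 y : ℂ) * ph 1 y - fourier 1 y * (1 + lp1 y) = fourier 1 y * (ph 1 y - 1 - lp1 y) := by
        ring
      rw [this, norm_mul, fourier_norm1, one_mul]
      exact ph_sub y
    · simp
  intro h
  rw [h] at h1
  norm_num at h1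

/-! ## The image of the first mode -/

abbrev k0 : Fin 2 → ℤ := ![0, 1]

lemma UU_k0 (l : Fin 2 → ℤ) :
    inner ℂ (ee l) (UU (ee k0)) =
      if 3 ∣ (l 1 - 4) then uh k0 ![(l 1 - 4) / 3, 1] * conj (uh l (BB ![(l 1 - 4) / 3, 1])) else 0 := by
  have h := hasSum_matrix 1 k0 l
  simp only [Function.iterate_one] at h
  have aux : ∀ m, uh k0 m * conj (uh l (BB m)) ≠ 0 → m 1 = 1 ∧ 3 * m 0 + 4 = l 1 := by
    intro m hm
    have a1 : m 1 = 1 := by
      by_contra hc
      apply hm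
      rw [uh_eq k0, if_neg (by simpa [k0] using hc), zero_mul]
    refine ⟨a1, ?_⟩
    by_contra hc
    apply hm
    rw [uh_eq l, if_neg (by rw [BB1, a1]; omega), map_zero, mul_zero]
  split_ifs with hd
  · refine h.unique (hasSum_single ![(l 1 - 4) / 3, 1] ?_)
    intro m hm
    by_contra hne
    apply hm
    have := aux m hne
    ext i
    fin_cases i
    · simp only [Fin.zero_eta, Matrix.cons_val_zero]
      omega
    · simp only [Fin.mk_one, Matrix.cons_val_one, Matrix.cons_val_fin_one]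
      exact this.1
  · rw [← h.tsum_eq]
    convert tsum_zero with m
    by_contra hne
    have := aux m hne
    omega

/-- The value `u`. -/
def uval : ℂ := cc 1 1 * conj (cc 1 0)

lemma uval_ne : uval ≠ 0 := by
  unfold uval
  exact mul_ne_zero cc11 (by simpa using cc10)

lemma UU_k0_k0 : inner ℂ (ee k0) (UU (ee k0)) = uval := by
  rw [UU_k0, if_pos (by simp [k0])]
  have e1 : (![((k0 : Fin 2 → ℤ) 1 - 4) / 3, 1] : Fin 2 → ℤ) = ![-1, 1] := by
    simp [k0]
  rw [e1, uh_eq, uh_eq, BB1, BB0]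
  simp [k0, uval]

lemma UU_k0_other {l : Fin 2 → ℤ} (hl : (l 0).natAbs ^ 2 + (l 1).natAbs ^ 2 = 1) (hne : l ≠ k0) :
    (inner ℂ (ee l) (UU (ee k0)) : ℂ) = 0 := by
  rw [UU_k0, if_neg]
  intro hd
  have h1 : (l 1).natAbs ≤ 1 := by nlinarith
  have h2 : l 1 = 1 := by omega
  apply hne
  rw [h2] at hl
  have h3 : l 0 = 0 := by
    simp at hl
    exact hl
  ext i
  fin_cases i
  · simpa [k0] using h3
  · simpa [k0] using h2

lemma UU_ee0 : UU (ee 0) = ee 0 := by
  have hc : Continuous phi := continuous_sh'.comp (continuous_cat.comp continuous_sh)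
  unfold UU ee mFourierLp
  rw [koop_toLp mp_phi hc, mFourier_zero]
  rfl

lemma mean_UU (x : L2T) : (inner ℂ (ee 0) (UU x) : ℂ) = inner ℂ (ee 0) x := by
  conv_lhs => rw [← UU_ee0]
  exact LinearIsometry.inner_map_map _ _ _

/-- The eigenvalue `|2πk|²` of `-Δ`. -/
def eigv (k : Fin 2 → ℤ) : ℝ := (2 * Real.pi) ^ 2 * ((k 0 : ℝ) ^ 2 + (k 1 : ℝ) ^ 2)

lemma eigv_nonneg (k : Fin 2 → ℤ) : 0 ≤ eigv k := by unfold eigv; positivity

lemma norm_sq_le_eigv (k : Fin 2 → ℤ) : ‖k‖ ^ 2 ≤ eigv k := by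
  have h1 : ‖k‖ ≤ √((k 0 : ℝ) ^ 2 + (k 1 : ℝ) ^ 2) := by
    rw [pi_norm_le_iff_of_nonneg (Real.sqrt_nonneg _)]
    intro i
    apply Real.le_sqrt_of_sq_le
    rw [Int.norm_eq_abs, sq_abs]
    fin_cases i
    · simp only [Fin.zero_eta]; nlinarith [sq_nonneg (k 1 : ℝ)]
    · simp only [Fin.mk_one]; nlinarith [sq_nonneg (k 0 : ℝ)]
  have h2 : ‖k‖ ^ 2 ≤ (k 0 : ℝ) ^ 2 + (k 1 : ℝ) ^ 2 := by
    have := pow_le_pow_left₀ (norm_nonneg k) h1 2
    rwa [Real.sq_sqrt (by positivity)] at this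
  have h3 : 1 ≤ (2 * Real.pi) ^ 2 := by nlinarith [Real.pi_gt_three]
  unfold eigv
  nlinarith [sq_nonneg (k 0 : ℝ), sq_nonneg (k 1 : ℝ)]

lemma n1_le (k : Fin 2 → ℤ) : n1 k ≤ 2 * ‖k‖ := by
  have h0 := norm_le_pi_norm k 0
  have h1 := norm_le_pi_norm k 1
  rw [Int.norm_eq_abs] at h0 h1
  unfold n1
  linarith

lemma weight_sum : ∃ K : ℝ, 0 ≤ K ∧ ∀ a : (Fin 2 → ℤ) → ℝ, (∀ k, 0 ≤ a k) →
    Summable (fun k => eigv k ^ (3:ℝ) * a k ^ 2) →
    Summable (fun k => n1 k * a k) ∧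
      ∑' k, n1 k * a k ≤ K * √(∑' k, eigv k ^ (3:ℝ) * a k ^ 2) := by
  set c : (Fin 2 → ℤ) → ℝ := fun k => n1 k / √(eigv k ^ (3:ℝ)) with hc
  have hc0 : ∀ k, 0 ≤ c k := fun k => div_nonneg (n1_nonneg k) (Real.sqrt_nonneg _)
  have hcs : Summable (fun k => c k ^ (2:ℝ)) := by
    have hE := (EisensteinSeries.summable_one_div_norm_rpow (k := 4) (by norm_num)).mul_left 4
    refine Summable.of_nonneg_of_le (fun k => Real.rpow_nonneg (hc0 k) _) (fun k => ?_) hE
    by_cases hk : k = 0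
    · have : c k = 0 := by rw [hc, hk]; simp [n1]
      rw [this, Real.zero_rpow two_ne_zero]
      positivity
    · have hk0 : 0 < ‖k‖ := norm_pos_iff.2 hk
      have h1 := norm_sq_le_eigv k
      have h2 := n1_le k
      have h3 := n1_nonneg k
      have he : 0 < eigv k := lt_of_lt_of_le (by positivity) h1
      have h4 : ‖k‖ ^ (-(4:ℝ)) = (‖k‖ ^ 4)⁻¹ := by
        rw [Real.rpow_neg hk0.le]
        norm_cast
      rw [h4, hc]
      simp only
      rw [Real.rpow_two, div_pow, Real.sq_sqrt (Real.rpow_nonneg he.le _)]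
      have h5 : eigv k ^ (3:ℝ) = eigv k ^ 3 := by norm_cast
      rw [h5, div_le_iff₀ (by positivity)]
      have h6 : ‖k‖ ^ 6 ≤ eigv k ^ 3 := by
        calc ‖k‖ ^ 6 = (‖k‖ ^ 2) ^ 3 := by ring
          _ ≤ _ := pow_le_pow_left₀ (by positivity) h1 3
      have h7 : n1 k ^ 2 ≤ 4 * ‖k‖ ^ 2 := by nlinarith
      calc n1 k ^ 2 ≤ 4 * ‖k‖ ^ 2 := h7
        _ = 4 * (‖k‖ ^ 4)⁻¹ * ‖k‖ ^ 6 := by field_simp
        _ ≤ 4 * (‖k‖ ^ 4)⁻¹ * eigv k ^ 3 := mul_le_mul_of_nonneg_left h6 (by positivity)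
  refine ⟨(∑' k, c k ^ (2:ℝ)) ^ (1 / (2:ℝ)), by
    apply Real.rpow_nonneg
    exact tsum_nonneg fun k => Real.rpow_nonneg (hc0 k) _, fun a ha hsum => ?_⟩
  set d : (Fin 2 → ℤ) → ℝ := fun k => √(eigv k ^ (3:ℝ)) * a k with hd
  have hd0 : ∀ k, 0 ≤ d k := fun k => mul_nonneg (Real.sqrt_nonneg _) (ha k)
  have hd2 : ∀ k, d k ^ (2:ℝ) = eigv k ^ (3:ℝ) * a k ^ 2 := by
    intro k
    rw [Real.rpow_two, hd]
    simp only
    rw [mul_pow, Real.sq_sqrt (Real.rpow_nonneg (eigv_nonneg k) _)]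
  have hcd : ∀ k, c k * d k = n1 k * a k := by
    intro k
    by_cases hk : k = 0
    · rw [hc, hk]; simp [n1]
    · have hk0 : 0 < ‖k‖ := norm_pos_iff.2 hk
      have he : 0 < eigv k := lt_of_lt_of_le (by positivity) (norm_sq_le_eigv k)
      have hs : 0 < √(eigv k ^ (3:ℝ)) := Real.sqrt_pos.2 (Real.rpow_pos_of_pos he _)
      rw [hc, hd]
      simp only
      field_simp
  have hds : Summable (fun k => d k ^ (2:ℝ)) := by simpa only [hd2] using hsum
  have h := Real.summable_and_inner_le_Lp_mul_Lq_tsum_of_nonneg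
    (p := 2) (q := 2) (by constructor <;> norm_num) hc0 hd0 hcs hds
  simp only [hcd, hd2] at h
  refine ⟨h.1, ?_⟩
  have h2 := h.2
  rwa [Real.sqrt_eq_rpow]

end

end Pool.Agent.H181.PD
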