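import Mathlib
import Pool.Agent.H181.PdD

/-!
# MP_459901_an, Q1: the answer is no

There is a smooth area-preserving, exponentially mixing diffeomorphism of the flat torus
`T² = ℝ²/ℤ²` (a cat map conjugated by a smooth shear) for which the decay exponent of the pulsed
diffusion does not grow exponentially in `n` at a rate uniform as `ν → 0`.
-/

open Set MeasureTheory UnitAddTorus
open scoped ComplexConjugate ContDiff

namespace Pool.Agent.H181.PDE

noncomputable section

/- `volume` on `ℝ/ℤ` is Mathlib's Haar measure of total mass one, as in Mathlib's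
`UnitAddTorus.mFourier`; on the torus it is the Riemannian area of the flat metric. -/
attribute [local instance] instMeasureSpaceUnitAddCircle
  Pool.Agent.H181.PD.instHaarPd Pool.Agent.H181.PD.instProbPd

/-- The flat torus `T² = ℝ²/ℤ²`. -/
abbrev Torus : Type := UnitAddTorus (Fin 2)

/-- Complex-valued `L²(T²)`. -/
abbrev L2 : Type := Lp ℂ 2 (volume : Measure Torus)

/-- The covering map `ℝ² → T²`. -/
def proj (x : Fin 2 → ℝ) : Torus := fun i => (x i : UnitAddCircle)

/-- `f : T² → T²` is smooth: it lifts to a `C^∞` map `ℝ² → ℝ²`. -/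
def IsSmooth (f : Torus → Torus) : Prop :=
  ∃ F : (Fin 2 → ℝ) → (Fin 2 → ℝ), ContDiff ℝ ∞ F ∧ ∀ x, f (proj x) = proj (F x)

/-- Smooth volume-preserving diffeomorphisms of `T²`. -/
structure VolDiffeo where
  /-- the map -/
  toFun : Torus → Torus
  /-- its inverse -/
  invFun : Torus → Torus
  left_inv : ∀ x, invFun (toFun x) = x
  right_inv : ∀ x, toFun (invFun x) = x
  smooth : IsSmooth toFun
  smooth_inv : IsSmooth invFun
  measurePreserving : MeasurePreserving toFun volume volume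

/-- `U f = f ∘ φ` on `L²(T²)`. -/
def U (φ : VolDiffeo) (f : L2) : L2 := Lp.compMeasurePreserving φ.toFun φ.measurePreserving f

/-- `eig k = |2πk|²`, the eigenvalue of `-Δ` on the mode `e^{2πi k·x}`. -/
def eig (k : Fin 2 → ℤ) : ℝ := (2 * Real.pi) ^ 2 * ((k 0 : ℝ) ^ 2 + (k 1 : ℝ) ^ 2)

/-- `f` lies in the homogeneous Sobolev space `Ḣ^s` (mean zero and `(-Δ)^{s/2} f ∈ L²`). -/
def InSobolev (s : ℝ) (f : L2) : Prop :=
  mFourierCoeff f 0 = 0 ∧ Summable fun k => eig k ^ s * ‖mFourierCoeff f k‖ ^ 2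

/-- `‖f‖_s = ‖(-Δ)^{s/2} f‖`. -/
def sobNorm (s : ℝ) (f : L2) : ℝ := √(∑' k, eig k ^ s * ‖mFourierCoeff f k‖ ^ 2)

/-- Exponential mixing: `|⟨f∘φⁿ, g⟩| ≤ c₁ e^{-c₂ n} ‖f‖_α ‖g‖_β` for some `α, β, c₁, c₂ > 0`. -/
def ExpMixing (φ : VolDiffeo) : Prop :=
  ∃ α > (0 : ℝ), ∃ β > (0 : ℝ), ∃ c₁ > (0 : ℝ), ∃ c₂ > (0 : ℝ),
    ∀ (n : ℕ) (f g : L2), InSobolev α f → InSobolev β g →
      ‖inner ℂ g ((U φ)^[n] f)‖ ≤ c₁ * Real.exp (-(c₂ * n)) * sobNorm α f * sobNorm β g

/-- The heat semigroup `e^{νΔ}` on `L²(T²)`. -/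
def heat (ν : ℝ) (f : L2) : L2 :=
  ∑' k, (((Real.exp (-(ν * eig k)) : ℝ) : ℂ) * mFourierCoeff f k) • mFourierLp 2 k

/-- The pulsed diffusion `θ_n = (e^{νΔ} U)^n θ₀`. -/
def pulsed (φ : VolDiffeo) (ν : ℝ) (n : ℕ) (θ₀ : L2) : L2 := (fun θ => heat ν (U φ θ))^[n] θ₀

open Pool.Agent.H181.PD in
theorem heat_repr {ν : ℝ} (hν : 0 ≤ ν) (f : L2) (k : Fin 2 → ℤ) :
    (mFourierBasis (d := Fin 2)).repr (heat ν f) k =
      ((Real.exp (-(ν * eig k)) : ℝ) : ℂ) * (mFourierBasis (d := Fin 2)).repr f k := by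
  obtain ⟨T, hT, -⟩ := exists_mul (mFourierBasis (d := Fin 2))
    (fun k => ((Real.exp (-(ν * eig k)) : ℝ) : ℂ)) (by
      intro k
      rw [Complex.norm_real, Real.norm_eq_abs, abs_of_pos (Real.exp_pos _), Real.exp_le_one_iff]
      have : 0 ≤ eig k := eigv_nonneg k
      have := mul_nonneg hν this
      linarith)
  have h1 : heat ν f = T f := by
    unfold heat
    have h2 := (mFourierBasis (d := Fin 2)).hasSum_repr (T f)
    rw [← h2.tsum_eq]
    apply tsum_congr
    intro k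
    rw [hT, mFourierBasis_repr, coe_mFourierBasis]
  rw [h1, hT]

/-! ### Linearity and complex conjugation -/

open Pool.Agent.H181.PD in
theorem pulsed_zero (φ : VolDiffeo) (ν : ℝ) (f : L2) : pulsed φ ν 0 f = f := rfl

theorem pulsed_succ (φ : VolDiffeo) (ν : ℝ) (n : ℕ) (f : L2) :
    pulsed φ ν (n + 1) f = heat ν (U φ (pulsed φ ν n f)) := by
  unfold pulsed
  rw [Function.iterate_succ_apply']

open Pool.Agent.H181.PD in
theorem heat_add {ν : ℝ} (hν : 0 ≤ ν) (f g : L2) : heat ν (f + g) = heat ν f + heat ν g := by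
  apply ext_repr (mFourierBasis (d := Fin 2))
  intro k
  rw [map_add, lp.coeFn_add, Pi.add_apply, heat_repr hν, heat_repr hν, heat_repr hν, map_add,
    lp.coeFn_add, Pi.add_apply, mul_add]

open Pool.Agent.H181.PD in
theorem heat_smul {ν : ℝ} (hν : 0 ≤ ν) (c : ℂ) (f : L2) : heat ν (c • f) = c • heat ν f := by
  apply ext_repr (mFourierBasis (d := Fin 2))
  intro k
  rw [map_smul, lp.coeFn_smul, Pi.smul_apply, heat_repr hν, heat_repr hν, map_smul,
    lp.coeFn_smul, Pi.smul_apply, smul_eq_mul, smul_eq_mul]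
  ring

theorem U_eq (φ : VolDiffeo) (f : L2) :
    U φ f = Lp.compMeasurePreservingₗᵢ ℂ φ.toFun φ.measurePreserving f := rfl

theorem pulsed_add {ν : ℝ} (hν : 0 ≤ ν) (φ : VolDiffeo) (n : ℕ) (f g : L2) :
    pulsed φ ν n (f + g) = pulsed φ ν n f + pulsed φ ν n g := by
  induction n with
  | zero => rfl
  | succ n ih => rw [pulsed_succ, pulsed_succ, pulsed_succ, ih, U_eq, map_add, heat_add hν]; rfl

theorem pulsed_smul {ν : ℝ} (hν : 0 ≤ ν) (φ : VolDiffeo) (n : ℕ) (c : ℂ) (f : L2) :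
    pulsed φ ν n (c • f) = c • pulsed φ ν n f := by
  induction n with
  | zero => rfl
  | succ n ih => rw [pulsed_succ, pulsed_succ, ih, U_eq, map_smul, heat_smul hν]; rfl

theorem repr_star (f : L2) (k : Fin 2 → ℤ) :
    (mFourierBasis (d := Fin 2)).repr (star f) k =
      conj ((mFourierBasis (d := Fin 2)).repr f (-k)) := by
  rw [mFourierBasis_repr, mFourierBasis_repr, mFourierCoeff, mFourierCoeff, ← integral_conj]
  apply integral_congr_ae
  filter_upwards [Lp.coeFn_star f] with x hx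
  rw [hx, smul_eq_mul, smul_eq_mul, map_mul, ← mFourier_neg, neg_neg]
  rfl

open Pool.Agent.H181.PD in
theorem star_add' (f g : L2) : star (f + g) = star f + star g := by
  apply ext_repr (mFourierBasis (d := Fin 2))
  intro k
  rw [map_add, lp.coeFn_add, Pi.add_apply, repr_star, repr_star, repr_star, map_add,
    lp.coeFn_add, Pi.add_apply, map_add]

open Pool.Agent.H181.PD in
theorem star_smul' (c : ℂ) (f : L2) : star (c • f) = conj c • star f := by
  apply ext_repr (mFourierBasis (d := Fin 2))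
  intro k
  rw [map_smul, lp.coeFn_smul, Pi.smul_apply, repr_star, repr_star, map_smul, lp.coeFn_smul,
    Pi.smul_apply, smul_eq_mul, smul_eq_mul, map_mul]

theorem norm_star' (f : L2) : ‖star f‖ = ‖f‖ := by
  rw [Lp.norm_def, Lp.norm_def]
  congr 1
  apply eLpNorm_congr_norm_ae
  filter_upwards [Lp.coeFn_star f] with x hx
  rw [hx, Pi.star_apply, norm_star]

open Pool.Agent.H181.PD in
theorem heat_star {ν : ℝ} (hν : 0 ≤ ν) (f : L2) : heat ν (star f) = star (heat ν f) := by
  apply ext_repr (mFourierBasis (d := Fin 2))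
  intro k
  rw [heat_repr hν, repr_star, repr_star, heat_repr hν, map_mul, Complex.conj_ofReal]
  have : eig (-k) = eig k := by simp [eig]
  rw [this]

theorem U_star (φ : VolDiffeo) (f : L2) : U φ (star f) = star (U φ f) := by
  apply Lp.ext
  have h1 := Lp.coeFn_compMeasurePreserving (star f) φ.measurePreserving
  have h2 := φ.measurePreserving.quasiMeasurePreserving.ae_eq_comp (Lp.coeFn_star f)
  have h3 := Lp.coeFn_star (U φ f)
  have h4 := Lp.coeFn_compMeasurePreserving f φ.measurePreserving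
  filter_upwards [h1, h2, h3, h4] with x h1 h2 h3 h4
  rw [h3, Pi.star_apply]
  unfold U
  rw [h1, h2, h4]
  rfl

theorem pulsed_star {ν : ℝ} (hν : 0 ≤ ν) (φ : VolDiffeo) (n : ℕ) (f : L2) :
    pulsed φ ν n (star f) = star (pulsed φ ν n f) := by
  induction n with
  | zero => rfl
  | succ n ih => rw [pulsed_succ, pulsed_succ, ih, U_star, heat_star hν]

/-- If a complex mean-zero `θ` violates the bound, then so does a real-valued one. -/
theorem real_reduction {ν : ℝ} (hν : 0 ≤ ν) (φ : VolDiffeo) (n : ℕ) (θ : L2) (hθ : mFourierCoeff θ 0 = 0)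
    {ε : ℝ} (hε : 0 ≤ ε) (h : ε * ‖θ‖ < ‖pulsed φ ν n θ‖) :
    ∃ θ₀ : L2, (∀ᵐ x, (θ₀ x).im = 0) ∧ mFourierCoeff θ₀ 0 = 0 ∧ ε * ‖θ₀‖ < ‖pulsed φ ν n θ₀‖ := by
  have hrepr : ∀ f : L2, mFourierCoeff f 0 = (mFourierBasis (d := Fin 2)).repr f 0 := fun f =>
    (mFourierBasis_repr f 0).symm
  have hreal : ∀ f : L2, star f = f → ∀ᵐ x, (f x).im = 0 := by
    intro f hf
    have h1 := Lp.coeFn_star f
    rw [hf] at h1
    filter_upwards [h1] with x hx
    rw [Pi.star_apply] at hx
    exact Complex.conj_eq_iff_im.1 hx.symm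
  set g : L2 := (1 / 2 : ℂ) • (θ + star θ) with hg
  set k : L2 := (-Complex.I / 2 : ℂ) • (θ + (-1 : ℂ) • star θ) with hk
  have hc2 : conj (2 : ℂ) = 2 := by rw [Complex.conj_eq_iff_im]; simp
  have hgs : star g = g := by
    rw [hg, star_smul', star_add', star_star, add_comm (star θ)]
    congr 1
    simp [hc2]
  have hks : star k = k := by
    rw [hk, star_smul', star_add', star_smul', star_star]
    have e1 : conj (-Complex.I / 2 : ℂ) = Complex.I / 2 := by simp [hc2]
    have e2 : conj (-1 : ℂ) = -1 := by simp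
    rw [e1, e2]
    module
  have hg0 : mFourierCoeff g 0 = 0 := by
    rw [hrepr, hg, map_smul, map_add, lp.coeFn_smul, Pi.smul_apply, lp.coeFn_add, Pi.add_apply,
      repr_star, neg_zero, ← hrepr, hθ]
    simp
  have hk0 : mFourierCoeff k 0 = 0 := by
    rw [hrepr, hk, map_smul, map_add, map_smul, lp.coeFn_smul, Pi.smul_apply, lp.coeFn_add, Pi.add_apply,
      lp.coeFn_smul, Pi.smul_apply, repr_star, neg_zero, ← hrepr, hθ]
    simp
  have hnorm : ∀ f : L2, ‖(1 / 2 : ℂ) • (f + star f)‖ ^ 2 +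
      ‖(-Complex.I / 2 : ℂ) • (f + (-1 : ℂ) • star f)‖ ^ 2 = ‖f‖ ^ 2 := by
    intro f
    have hp := parallelogram_law_with_norm ℂ f (star f)
    rw [norm_star' f] at hp
    rw [norm_smul, norm_smul, neg_one_smul, ← sub_eq_add_neg]
    simp only [norm_div, norm_neg, Complex.norm_I, norm_one, Complex.norm_ofNat]
    ring_nf
    ring_nf at hp
    linarith
  by_contra hcon
  push Not at hcon
  have h1 := hcon g (hreal g hgs) hg0
  have h2 := hcon k (hreal k hks) hk0
  rw [hg, pulsed_smul hν, pulsed_add hν, pulsed_star hν] at h1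
  rw [hk, pulsed_smul hν, pulsed_add hν, pulsed_smul hν, pulsed_star hν] at h2
  have h3 := hnorm θ
  have h4 := hnorm (pulsed φ ν n θ)
  have h5 : ‖pulsed φ ν n θ‖ ^ 2 ≤ (ε * ‖θ‖) ^ 2 := by
    rw [← h4, mul_pow, ← h3]
    have a1 := pow_le_pow_left₀ (norm_nonneg _) h1 2
    have a2 := pow_le_pow_left₀ (norm_nonneg _) h2 2
    rw [mul_pow] at a1 a2
    linarith
  have h6 := pow_lt_pow_left₀ h (by positivity) two_ne_zero
  linarith

/-! ### The diffeomorphism -/

theorem IsSmooth.comp {f g : Torus → Torus} (hf : IsSmooth f) (hg : IsSmooth g) :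
    IsSmooth (fun x => f (g x)) := by
  obtain ⟨F, hF, hF2⟩ := hf
  obtain ⟨G, hG, hG2⟩ := hg
  exact ⟨F ∘ G, hF.comp hG, fun x => by simp only [hG2, hF2, Function.comp]⟩

open Pool.Agent.H181.PD

theorem smooth_sh : IsSmooth sh := by
  refine ⟨fun x => ![x 0, x 1 + Real.sin (2 * Real.pi * x 0) / (8 * Real.pi)], ?_, ?_⟩
  · rw [contDiff_pi]
    intro i
    fin_cases i
    · simp only [Fin.zero_eta, Matrix.cons_val_zero]; fun_prop
    · simp only [Fin.mk_one, Matrix.cons_val_one, Matrix.cons_val_fin_one]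
      fun_prop
  · intro x
    ext i
    fin_cases i
    · rfl
    · simp only [sh, proj, Fin.mk_one, Matrix.cons_val_one, Matrix.cons_val_fin_one, sig,
        fourier_one_im, AddCircle.coe_add]

theorem smooth_sh' : IsSmooth sh' := by
  refine ⟨fun x => ![x 0, x 1 - Real.sin (2 * Real.pi * x 0) / (8 * Real.pi)], ?_, ?_⟩
  · rw [contDiff_pi]
    intro i
    fin_cases i
    · simp only [Fin.zero_eta, Matrix.cons_val_zero]; fun_prop
    · simp only [Fin.mk_one, Matrix.cons_val_one, Matrix.cons_val_fin_one]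
      fun_prop
  · intro x
    ext i
    fin_cases i
    · rfl
    · simp only [sh', proj, Fin.mk_one, Matrix.cons_val_one, Matrix.cons_val_fin_one, sig,
        fourier_one_im, AddCircle.coe_sub]

theorem smooth_cat : IsSmooth cat := by
  refine ⟨fun x => ![x 0 + 3 • x 1, x 0 + 4 • x 1], ?_, ?_⟩
  · rw [contDiff_pi]
    intro i
    fin_cases i
    · simp only [Fin.zero_eta, Matrix.cons_val_zero]; fun_prop
    · simp only [Fin.mk_one, Matrix.cons_val_one, Matrix.cons_val_fin_one]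
      fun_prop
  · intro x
    ext i
    fin_cases i
    · simp only [cat, proj, Fin.zero_eta, Matrix.cons_val_zero, AddCircle.coe_add, AddCircle.coe_nsmul]
    · simp only [cat, proj, Fin.mk_one, Matrix.cons_val_one, Matrix.cons_val_fin_one,
        AddCircle.coe_add, AddCircle.coe_nsmul]

theorem smooth_cat' : IsSmooth cat' := by
  refine ⟨fun x => ![4 • x 0 - 3 • x 1, x 1 - x 0], ?_, ?_⟩
  · rw [contDiff_pi]
    intro i
    fin_cases i
    · simp only [Fin.zero_eta, Matrix.cons_val_zero]; fun_prop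
    · simp only [Fin.mk_one, Matrix.cons_val_one, Matrix.cons_val_fin_one]
      fun_prop
  · intro x
    ext i
    fin_cases i
    · simp only [cat', proj, Fin.zero_eta, Matrix.cons_val_zero, AddCircle.coe_sub, AddCircle.coe_nsmul]
    · simp only [cat', proj, Fin.mk_one, Matrix.cons_val_one, Matrix.cons_val_fin_one,
        AddCircle.coe_sub]

/-- The cat map `(x, y) ↦ (x + 3y, x + 4y)` conjugated by the shear
`(x, y) ↦ (x, y + sin(2πx)/(8π))`. -/
def diffeo : VolDiffeo where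
  toFun := fun x => sh' (cat (sh x))
  invFun := fun x => sh' (cat' (sh x))
  left_inv := fun x => by simp only [sh_sh', cat'_cat, sh'_sh]
  right_inv := fun x => by simp only [sh_sh', cat_cat', sh'_sh]
  smooth := smooth_sh'.comp (smooth_cat.comp smooth_sh)
  smooth_inv := smooth_sh'.comp (smooth_cat'.comp smooth_sh)
  measurePreserving := mp_phi

theorem U_diffeo (f : L2) : U diffeo f = UU f := rfl

theorem expMixing : ExpMixing diffeo := by
  obtain ⟨K, hK, hW⟩ := weight_sum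
  refine ⟨3, by norm_num, 3, by norm_num, 16 * K ^ 2 + 1, by positivity, Real.log 4,
    Real.log_pos (by norm_num), ?_⟩
  intro n f g hf hg
  have hpow : ∀ x : L2, (UU.toContinuousLinearMap ^ n) x = UU^[n] x := by
    intro x
    induction n with
    | zero => rfl
    | succ n ih =>
      rw [pow_succ', mul_apply_eq_comp, ih, Function.iterate_succ_apply']
      rfl
  have e1 : (U diffeo)^[n] f = (UU.toContinuousLinearMap ^ n) f := by
    rw [hpow]
    rfl
  have hexp : Real.exp (-(Real.log 4 * n)) = 1 / 4 ^ n := by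
    rw [Real.exp_neg, mul_comm, Real.exp_nat_mul, Real.exp_log (by norm_num), one_div]
  have hcoef : ∀ f : L2, ∀ k, mFourierCoeff f k = (mFourierBasis (d := Fin 2)).repr f k := fun f k =>
    (mFourierBasis_repr f k).symm
  have h1 : Summable (fun k => eigv k ^ (3:ℝ) * ‖(mFourierBasis (d := Fin 2)).repr f k‖ ^ 2) := by
    have := hf.2
    simp only [hcoef] at this
    exact this
  have h2 : Summable (fun k => eigv k ^ (3:ℝ) * ‖(mFourierBasis (d := Fin 2)).repr g k‖ ^ 2) := by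
    have := hg.2
    simp only [hcoef] at this
    exact this
  have h3 := hW _ (fun k => norm_nonneg _) h1
  have h4 := hW _ (fun k => norm_nonneg _) h2
  have h5 := corr_bound (mFourierBasis (d := Fin 2)) (UU.toContinuousLinearMap ^ n) 0 n1 n1_nonneg
    (16 / 4 ^ n) (by
      intro k l hk hl
      have := matrix_bound n hk hl
      rw [coe_mFourierBasis, hpow]
      exact this) f g (by rw [← hcoef]; exact hf.1) (by rw [← hcoef]; exact hg.1) h3.1 h4.1
  have h6 : sobNorm 3 f = √(∑' k, eigv k ^ (3:ℝ) * ‖(mFourierBasis (d := Fin 2)).repr f k‖ ^ 2) := by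
    unfold sobNorm
    simp only [hcoef]
    rfl
  have h7 : sobNorm 3 g = √(∑' k, eigv k ^ (3:ℝ) * ‖(mFourierBasis (d := Fin 2)).repr g k‖ ^ 2) := by
    unfold sobNorm
    simp only [hcoef]
    rfl
  rw [e1, h6, h7, hexp]
  set Sf := √(∑' k, eigv k ^ (3:ℝ) * ‖(mFourierBasis (d := Fin 2)).repr f k‖ ^ 2) with hSf
  set Sg := √(∑' k, eigv k ^ (3:ℝ) * ‖(mFourierBasis (d := Fin 2)).repr g k‖ ^ 2) with hSg
  have hSf0 : 0 ≤ Sf := Real.sqrt_nonneg _
  have hSg0 : 0 ≤ Sg := Real.sqrt_nonneg _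
  have h8 : 0 ≤ ∑' k, n1 k * ‖(mFourierBasis (d := Fin 2)).repr g k‖ :=
    tsum_nonneg fun k => mul_nonneg (n1_nonneg k) (norm_nonneg _)
  calc _ ≤ _ := h5
    _ ≤ 16 / 4 ^ n * (K * Sf) * (K * Sg) := by
        apply mul_le_mul _ h4.2 h8 (by positivity)
        exact mul_le_mul_of_nonneg_left h3.2 (by positivity)
    _ = 16 * K ^ 2 * (1 / 4 ^ n) * Sf * Sg := by ring
    _ ≤ (16 * K ^ 2 + 1) * (1 / 4 ^ n) * Sf * Sg := by
        have : 16 * K ^ 2 ≤ 16 * K ^ 2 + 1 := by linarith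
        gcongr

theorem lpResult :
    ∀ C > (0 : ℝ), ∀ γ > (1 : ℝ), ∀ ν₀ > (0 : ℝ),
      ∃ ν : ℝ, 0 < ν ∧ ν ≤ ν₀ ∧ ∃ n : ℕ, 1 ≤ n ∧ ∃ θ₀ : L2,
        (∀ᵐ x, (θ₀ x).im = 0) ∧ mFourierCoeff θ₀ 0 = 0 ∧
        Real.exp (-(ν * γ ^ n) / C) * ‖θ₀‖ < ‖pulsed diffeo ν n θ₀‖ := by
  intro C hC γ hγ ν₀ hν₀
  set q : (Fin 2 → ℤ) → ℕ := fun k => (k 0).natAbs ^ 2 + (k 1).natAbs ^ 2 with hq
  have hqr : ∀ k, (q k : ℝ) = (k 0 : ℝ) ^ 2 + (k 1 : ℝ) ^ 2 := by
    intro k
    rw [hq]
    push_cast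
    rw [Nat.cast_natAbs, Nat.cast_natAbs]
    push_cast
    rw [sq_abs, sq_abs]
  have hq0 : ∀ k, q k = 0 → k = 0 := by
    intro k hk
    simp only [hq] at hk
    have h1 : (k 0).natAbs = 0 := by nlinarith
    have h2 : (k 1).natAbs = 0 := by nlinarith
    ext i
    fin_cases i
    · simpa using h1
    · simpa using h2
  obtain ⟨ν, hν, hνν, n, hn, θ, hθ0, hθ, hθn⟩ := abstract_neg (mFourierBasis (d := Fin 2)) q
    UU.toContinuousLinearMap (fun x => (UU.norm_map x).le) k0 (by simp [hq, k0]) uval uval_ne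
    (by
      intro l hl hne
      rw [HilbertBasis.repr_apply_apply, coe_mFourierBasis]
      exact UU_k0_other hl hne)
    (by
      rw [HilbertBasis.repr_apply_apply, coe_mFourierBasis]
      exact UU_k0_k0)
    (by
      intro x hx i hi
      rw [hq0 i hi, HilbertBasis.repr_apply_apply, coe_mFourierBasis]
      refine (mean_UU x).trans ?_
      have := hx 0 (by simp [hq])
      rwa [HilbertBasis.repr_apply_apply, coe_mFourierBasis] at this)
    hC hγ hν₀
  refine ⟨ν, hν, hνν, n, hn, ?_⟩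
  have hp : ∀ n, pulsed diffeo ν n (θ 0) = θ n := by
    intro n
    induction n with
    | zero => rfl
    | succ n ih =>
      rw [pulsed_succ, ih]
      apply ext_repr (mFourierBasis (d := Fin 2))
      intro k
      rw [heat_repr hν.le, hθ, hqr]
      congr 3
      unfold eig
      ring_nf
  apply real_reduction hν.le diffeo n (θ 0) _ (Real.exp_pos _).le
  · rw [hp, hθ0]
    have : ‖(mFourierBasis (d := Fin 2)) k0‖ = 1 := (mFourierBasis (d := Fin 2)).orthonormal.1 k0
    rw [this, mul_one]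
    exact hθn
  · rw [← mFourierBasis_repr, hθ0, HilbertBasis.repr_apply_apply]
    have h := orthonormal_iff_ite.1 (mFourierBasis (d := Fin 2)).orthonormal 0 k0
    rw [h, if_neg]
    intro h0
    have := congrFun h0 1
    simp [k0] at this

end

end Pool.Agent.H181.PDE
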