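import Pool.Agent.H181.RwD

/-!
# Non-uniqueness of infinite-step stationary measures: dynamics and measure part (MP_c09afc_pr)
-/

open Finset MeasureTheory Filter Topology ProbabilityTheory
open scoped ENNReal

namespace Pool.Agent.H181.RU

open Pool.Agent.H181.RW

variable {V : Type*} [DecidableEq V] {G : SimpleGraph V} [G.LocallyFinite] {τ : V → V → V} {a : V}

lemma sum_orbit (hτ : Mech G τ) {x z : V} (hz : G.Adj x z) (f : V → ℝ) :
    ∑ i ∈ range (G.degree x), f ((τ x)^[i] z) = ∑ y ∈ G.neighborFinset x, f y := by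
  have hpos : 0 < Function.minimalPeriod (τ x) z := by
    rw [hτ.minPer hz, ← G.card_neighborFinset_eq_degree]
    exact Finset.card_pos.2 ⟨z, by rwa [SimpleGraph.mem_neighborFinset]⟩
  have himg : (Finset.range (Function.minimalPeriod (τ x) z)).image (fun i => (τ x)^[i] z) =
      G.neighborFinset x := by
    ext y
    rw [Finset.mem_image, SimpleGraph.mem_neighborFinset]
    constructor
    · rintro ⟨i, _, rfl⟩
      exact hτ.iter hz i
    · intro hy
      obtain ⟨j, hj⟩ := hτ.orb x z y hz hy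
      refine ⟨j % Function.minimalPeriod (τ x) z, Finset.mem_range.2 (Nat.mod_lt _ hpos), ?_⟩
      rw [Function.iterate_mod_minimalPeriod_eq]
      exact hj
  rw [← himg, Finset.sum_image, hτ.minPer hz]
  intro i hi j hj hij
  rw [Finset.coe_range] at hi hj
  exact Function.iterate_injOn_Iio_minimalPeriod hi hj hij

lemma exists_phi (hτ : Mech G τ) (F : V → ℝ)
    (hlap : ∀ x, ∃ k : ℤ, ∑ y ∈ G.neighborFinset x, (F y - F x) = k) (x : V) :
    ∃ φ : V → ℝ, (∀ r, |φ r| ≤ ∑ y ∈ G.neighborFinset x, |F y - F x|) ∧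
      ∀ r, G.Adj x r → ∃ k : ℤ, φ (τ x r) - φ r = -(F (τ x r) - F x) + k := by
  classical
  by_cases hex : ∃ z, G.Adj x z
  · obtain ⟨z, hz⟩ := hex
    obtain ⟨h, h1, h2⟩ := hτ.exists_h hz
    refine ⟨fun r => if G.Adj x r then ∑ i ∈ range (h r), (F ((τ x)^[i + 1] r) - F x) else 0, ?_, ?_⟩
    · intro r
      by_cases hr : G.Adj x r
      · simp only [hr, if_true]
        calc |∑ i ∈ range (h r), (F ((τ x)^[i + 1] r) - F x)|
            ≤ ∑ i ∈ range (h r), |F ((τ x)^[i + 1] r) - F x| := Finset.abs_sum_le_sum_abs _ _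
          _ ≤ ∑ i ∈ range (G.degree x), |F ((τ x)^[i + 1] r) - F x| := by
              apply Finset.sum_le_sum_of_subset_of_nonneg
              · exact Finset.range_subset_range.2 (h1 r hr).2
              · intro _ _ _; exact abs_nonneg _
          _ = ∑ i ∈ range (G.degree x), |F ((τ x)^[i] (τ x r)) - F x| := by
              simp only [Function.iterate_succ_apply]
          _ = _ := sum_orbit hτ (hτ.adj _ _ hr) (fun y => |F y - F x|)
      · simp only [hr, if_false, abs_zero]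
        exact Finset.sum_nonneg fun _ _ => abs_nonneg _
    · intro r hr
      have hr' := hτ.adj _ _ hr
      simp only [hr, hr', if_true]
      have h3 := h2 r hr
      have h4 := h1 r hr
      have h5 := h1 _ hr'
      split_ifs at h3 with hrz
      · have h6 : h r = 1 := by omega
        have h7 : h (τ x r) = G.degree x := by omega
        obtain ⟨k, hk⟩ := hlap x
        refine ⟨k, ?_⟩
        rw [h6, h7]
        have h8 : ∑ i ∈ range (G.degree x), (F ((τ x)^[i + 1] (τ x r)) - F x) = k := by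
          rw [← hk]
          simp only [Function.iterate_succ_apply]
          exact sum_orbit hτ (hτ.adj _ _ hr') (fun y => F y - F x)
        rw [h8]
        simp
        ring
      · have h6 : h r = h (τ x r) + 1 := by omega
        refine ⟨0, ?_⟩
        rw [h6, Finset.sum_range_succ']
        simp only [Function.iterate_succ_apply, Function.iterate_zero, id_eq]
        push_cast
        ring
  · push Not at hex
    refine ⟨fun _ => 0, fun r => ?_, fun r hr => absurd hr (hex r)⟩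
    rw [abs_zero]
    exact Finset.sum_nonneg fun _ _ => abs_nonneg _

variable (G τ a) in
/-- `μ` is infinite-step stationary for the rotor walk with mechanism `τ` started at `a`. -/
def Stat [MeasurableSpace V] (μ : Measure (V → V)) : Prop :=
  (∀ᵐ ρ ∂μ, ∀ x, G.Adj x (ρ x)) ∧ (∀ᵐ ρ ∂μ, Transient τ a ρ) ∧ μ.map (final τ a) = μ

section dyn

variable {F : V → ℝ} {φ : V → V → ℝ} {g : V → ℝ}

/-- The potential. -/
noncomputable def Phi (φ : V → V → ℝ) (ρ : V → V) : ℝ := ∑' x, φ x (ρ x)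

lemma phi_summable (hg : Summable g) (hφ : ∀ x r, |φ x r| ≤ g x) (ρ : V → V) :
    Summable (fun x => φ x (ρ x)) :=
  Summable.of_norm_bounded hg (fun x => by rw [Real.norm_eq_abs]; exact hφ x _)

lemma conserved (hτ : Mech G τ) (hg : Summable g) (hφ : ∀ x r, |φ x r| ≤ g x)
    (hφ2 : ∀ x r, G.Adj x r → ∃ k : ℤ, φ x (τ x r) - φ x r = -(F (τ x r) - F x) + k)
    {ρ : V → V} (hv : ∀ x, G.Adj x (ρ x)) (t : ℕ) :
    ∃ k : ℤ, F (walk τ a ρ t).1 + Phi φ (walk τ a ρ t).2 = F a + Phi φ ρ + k := by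
  induction t with
  | zero => exact ⟨0, by show F a + Phi φ ρ = _; simp⟩
  | succ t ih =>
    obtain ⟨k, hk⟩ := ih
    set X := (walk τ a ρ t).1 with hX
    set η := (walk τ a ρ t).2 with hη
    have hadj : G.Adj X (η X) := by rw [hη, rotor_eq]; exact hτ.iter (hv X) _
    have h1 : walk τ a ρ (t + 1) = (τ X (η X), Function.update η X (τ X (η X))) := walk_succ ρ t
    rw [h1]
    obtain ⟨k', hk'⟩ := hφ2 X (η X) hadj
    have h2 : Phi φ (Function.update η X (τ X (η X))) - Phi φ η = φ X (τ X (η X)) - φ X (η X) := by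
      unfold Phi
      rw [← (phi_summable hg hφ _).tsum_sub (phi_summable hg hφ _), tsum_eq_single X]
      · rw [Function.update_self]
      · intro x hx
        rw [Function.update_of_ne hx, sub_self]
    refine ⟨k + k', ?_⟩
    push_cast
    show F (τ X (η X)) + Phi φ (Function.update η X (τ X (η X))) = _
    linarith

lemma Theta_final (hτ : Mech G τ) (hF : Summable F) (hg : Summable g)
    (hφ : ∀ x r, |φ x r| ≤ g x)
    (hφ2 : ∀ x r, G.Adj x r → ∃ k : ℤ, φ x (τ x r) - φ x r = -(F (τ x r) - F x) + k)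
    {ρ : V → V} (hv : ∀ x, G.Adj x (ρ x)) (htr : Transient τ a ρ) :
    Complex.exp (2 * Real.pi * Complex.I * (Phi φ (final τ a ρ) : ℝ)) =
      Complex.exp (2 * Real.pi * Complex.I * (F a : ℝ)) *
        Complex.exp (2 * Real.pi * Complex.I * (Phi φ ρ : ℝ)) := by
  have hF0 : Tendsto (fun t => F (walk τ a ρ t).1) atTop (𝓝 0) := by
    rw [Metric.tendsto_atTop']
    intro ε hε
    have h1 := hF.tendsto_cofinite_zero.eventually (Metric.ball_mem_nhds (0 : ℝ) hε)
    rw [Filter.eventually_cofinite] at h1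
    have h2 : (⋃ x ∈ {x | ¬ F x ∈ Metric.ball (0 : ℝ) ε}, {t : ℕ | (walk τ a ρ t).1 = x}).Finite :=
      h1.biUnion fun x _ => htr x
    obtain ⟨N, hN⟩ := h2.bddAbove
    refine ⟨N, fun n hn => ?_⟩
    by_contra hcon
    have : n ∈ ⋃ x ∈ {x | ¬ F x ∈ Metric.ball (0 : ℝ) ε}, {t : ℕ | (walk τ a ρ t).1 = x} := by
      simp only [Set.mem_iUnion]
      exact ⟨(walk τ a ρ n).1, hcon, rfl⟩
    have := hN this
    omega
  have hev : ∀ x, ∀ᶠ t in atTop, (walk τ a ρ t).2 x = final τ a ρ x := by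
    intro x
    filter_upwards [cnt_eventually htr x] with t ht
    rw [rotor_eq, ht.1, final_eq htr]
  have hPhi : Tendsto (fun t => Phi φ (walk τ a ρ t).2) atTop (𝓝 (Phi φ (final τ a ρ))) := by
    unfold Phi
    apply tendsto_tsum_of_dominated_convergence hg
    · intro x
      apply tendsto_const_nhds.congr'
      filter_upwards [hev x] with t ht
      rw [ht]
    · exact Eventually.of_forall fun t x => by rw [Real.norm_eq_abs]; exact hφ x _
  have hsum := hF0.add hPhi
  rw [zero_add] at hsum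
  have hcont : Continuous (fun r : ℝ => Complex.exp (2 * Real.pi * Complex.I * (r : ℝ))) := by
    fun_prop
  have h1 := (hcont.tendsto _).comp hsum
  have h2 : ∀ t, Complex.exp (2 * Real.pi * Complex.I *
      ((F (walk τ a ρ t).1 + Phi φ (walk τ a ρ t).2 : ℝ) : ℂ)) =
      Complex.exp (2 * Real.pi * Complex.I * (F a : ℝ)) *
        Complex.exp (2 * Real.pi * Complex.I * (Phi φ ρ : ℝ)) := by
    intro t
    obtain ⟨k, hk⟩ := conserved (a := a) hτ hg hφ hφ2 hv t
    rw [hk, ← Complex.exp_add, Complex.exp_eq_exp_iff_exists_int]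
    refine ⟨k, ?_⟩
    push_cast
    ring
  have h3 : Tendsto (fun _ : ℕ => Complex.exp (2 * Real.pi * Complex.I * (F a : ℝ)) *
        Complex.exp (2 * Real.pi * Complex.I * (Phi φ ρ : ℝ))) atTop
      (𝓝 (Complex.exp (2 * Real.pi * Complex.I * (Phi φ (final τ a ρ) : ℝ)))) := by
    refine h1.congr fun t => ?_
    exact h2 t
  exact (tendsto_nhds_unique h3 tendsto_const_nhds)

end dyn

theorem exists_other [Countable V] [MeasurableSpace V] [DiscreteMeasurableSpace V]
    (hτ : Mech G τ) {F : V → ℝ} (hF : Summable F)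
    (hg : Summable (fun x => ∑ y ∈ G.neighborFinset x, |F y - F x|))
    (hlap : ∀ x, ∃ k : ℤ, ∑ y ∈ G.neighborFinset x, (F y - F x) = k) {a a' : V}
    (hFa : ∃ k : ℤ, F a = k) (hFa' : ∀ k : ℤ, F a' ≠ k)
    {μ : Measure (V → V)} [IsProbabilityMeasure μ] (hμ : Stat G τ a μ) (hμ' : Stat G τ a' μ) :
    ∃ μ' : Measure (V → V), IsProbabilityMeasure μ' ∧ Stat G τ a μ' ∧ μ' ≠ μ := by
  choose φ hφ hφ2 using exists_phi hτ F hlap
  set Θ : (V → V) → ℂ := fun ρ => Complex.exp (2 * Real.pi * Complex.I * (Phi φ ρ : ℝ)) with hΘ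
  have hPhim : Measurable (Phi φ) := by
    apply measurable_of_tendsto_metrizable' (atTop : Filter (Finset V))
      (f := fun s ρ => ∑ x ∈ s, φ x (ρ x))
    · intro s
      exact Finset.measurable_fun_sum s fun x _ =>
        (Measurable.of_discrete (f := φ x)).comp (measurable_pi_apply x)
    · rw [tendsto_pi_nhds]
      intro ρ
      exact (phi_summable hg hφ ρ).hasSum
  have hcont : Continuous (fun r : ℝ => Complex.exp (2 * Real.pi * Complex.I * (r : ℝ))) := by
    fun_prop
  have hΘm : Measurable Θ := hcont.measurable.comp hPhim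
  have hΘnorm : ∀ ρ, ‖Θ ρ‖ = 1 := by
    intro ρ
    simp only [hΘ]
    rw [Complex.norm_exp]
    simp
  have hΘint : Integrable Θ μ := Integrable.of_bound hΘm.aestronglyMeasurable 1
    (Eventually.of_forall fun ρ => (hΘnorm ρ).le)
  have haem : ∀ b, Stat G τ b μ → AEMeasurable (final τ b) μ := by
    intro b hb
    by_contra hcon
    have h1 := hb.2.2
    rw [Measure.map_of_not_aemeasurable hcon] at h1
    exact IsProbabilityMeasure.ne_zero μ h1.symm
  have htrans : ∀ b, Stat G τ b μ → ∀ᵐ ρ ∂μ, Θ (final τ b ρ) =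
      Complex.exp (2 * Real.pi * Complex.I * (F b : ℝ)) * Θ ρ := by
    intro b hb
    filter_upwards [hb.1, hb.2.1] with ρ h1 h2
    exact Theta_final hτ hF hg hφ hφ2 h1 h2
  -- the mean of Θ vanishes
  have hmean : ∫ ρ, Θ ρ ∂μ = 0 := by
    have h1 : ∫ ρ, Θ ρ ∂μ = ∫ ρ, Θ (final τ a' ρ) ∂μ := by
      conv_lhs => rw [← hμ'.2.2]
      exact integral_map (haem a' hμ') hΘm.aestronglyMeasurable
    have h2 : ∫ ρ, Θ (final τ a' ρ) ∂μ =
        Complex.exp (2 * Real.pi * Complex.I * (F a' : ℝ)) * ∫ ρ, Θ ρ ∂μ := by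
      rw [integral_congr_ae (htrans a' hμ'), integral_const_mul]
    rw [h2] at h1
    have h3 : Complex.exp (2 * Real.pi * Complex.I * (F a' : ℝ)) ≠ 1 := by
      intro h4
      rw [Complex.exp_eq_one_iff] at h4
      obtain ⟨k, hk⟩ := h4
      apply hFa' k
      have h5 : (2 * Real.pi * Complex.I : ℂ) ≠ 0 := Complex.two_pi_I_ne_zero
      have h6 : ((F a' : ℝ) : ℂ) = k := by
        apply mul_left_cancel₀ h5
        rw [hk]; ring
      exact_mod_cast h6
    have h4 : (1 - Complex.exp (2 * Real.pi * Complex.I * (F a' : ℝ))) * ∫ ρ, Θ ρ ∂μ = 0 := by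
      rw [sub_mul, one_mul, ← h1, sub_self]
    rcases mul_eq_zero.1 h4 with h5 | h5
    · exact absurd (sub_eq_zero.1 h5).symm h3
    · exact h5
  have hinv : ∀ᵐ ρ ∂μ, Θ (final τ a ρ) = Θ ρ := by
    filter_upwards [htrans a hμ] with ρ h
    rw [h]
    obtain ⟨k, hk⟩ := hFa
    have : Complex.exp (2 * Real.pi * Complex.I * (F a : ℝ)) = 1 := by
      rw [Complex.exp_eq_one_iff]
      exact ⟨k, by rw [hk]; push_cast; ring⟩
    rw [this, one_mul]
  -- a real functional with mean zero that is not a.s. zero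
  obtain ⟨L, hL, hLne⟩ : ∃ L : ℂ →L[ℝ] ℝ, ∫ ρ, L (Θ ρ) ∂μ = 0 ∧ ¬ (∀ᵐ ρ ∂μ, L (Θ ρ) = 0) := by
    have hre : ∫ ρ, Complex.reCLM (Θ ρ) ∂μ = 0 := by
      rw [ContinuousLinearMap.integral_comp_comm _ hΘint, hmean]; simp
    have him : ∫ ρ, Complex.imCLM (Θ ρ) ∂μ = 0 := by
      rw [ContinuousLinearMap.integral_comp_comm _ hΘint, hmean]; simp
    by_cases h0 : ∀ᵐ ρ ∂μ, Complex.reCLM (Θ ρ) = 0
    · refine ⟨Complex.imCLM, him, fun h1 => ?_⟩
      obtain ⟨ρ, h2, h3⟩ := (h0.and h1).exists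
      have h4 := hΘnorm ρ
      have h5 : Θ ρ = 0 := Complex.ext h2 h3
      rw [h5] at h4
      simp at h4
    · exact ⟨Complex.reCLM, hre, h0⟩
  set X : (V → V) → ℝ := fun ρ => L (Θ ρ) with hX
  have hXm : Measurable X := L.continuous.measurable.comp hΘm
  have hXint : Integrable X μ := L.integrable_comp hΘint
  set E : Set (V → V) := {ρ | 0 < X ρ} with hE
  have hEm : MeasurableSet E := measurableSet_lt measurable_const hXm
  have hE0 : μ E ≠ 0 := by
    intro h0
    have h1 : ∀ᵐ ρ ∂μ, 0 ≤ -X ρ := by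
      have : ∀ᵐ ρ ∂μ, ρ ∉ E := measure_eq_zero_iff_ae_notMem.1 h0
      filter_upwards [this] with ρ hρ
      have : ¬ 0 < X ρ := hρ
      linarith
    have h2 : ∫ ρ, -X ρ ∂μ = 0 := by rw [integral_neg, hL, neg_zero]
    rw [integral_eq_zero_iff_of_nonneg_ae h1 hXint.neg] at h2
    apply hLne
    filter_upwards [h2] with ρ hρ
    have : -X ρ = 0 := hρ
    have h3 : X ρ = 0 := by linarith
    exact h3
  have hE1 : μ E ≠ 1 := by
    intro h1
    have h2 : ∀ᵐ ρ ∂μ, ρ ∈ E := (mem_ae_iff_prob_eq_one hEm).2 h1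
    have h3 : ∀ᵐ ρ ∂μ, 0 ≤ X ρ := by
      filter_upwards [h2] with ρ hρ
      exact le_of_lt hρ
    have h4 := hL
    change ∫ ρ, X ρ ∂μ = 0 at h4
    rw [integral_eq_zero_iff_of_nonneg_ae h3 hXint] at h4
    obtain ⟨ρ, h5, h6⟩ := (h2.and h4).exists
    have h7 : 0 < X ρ := h5
    have h8 : X ρ = 0 := h6
    linarith
  have hprob : IsProbabilityMeasure (cond μ E) := cond_isProbabilityMeasure hE0
  have hac : cond μ E ≪ μ := cond_absolutelyContinuous
  refine ⟨cond μ E, hprob, ⟨hac.ae_le hμ.1, hac.ae_le hμ.2.1, ?_⟩, ?_⟩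
  · ext B hB
    have hm := haem a hμ
    rw [Measure.map_apply_of_aemeasurable (hm.mono_ac hac) hB, cond_apply hEm, cond_apply hEm]
    congr 1
    have h1 : μ (E ∩ final τ a ⁻¹' B) = μ (final τ a ⁻¹' (E ∩ B)) := by
      apply measure_congr
      filter_upwards [hinv] with ρ hρ
      apply propext
      show (0 < L (Θ ρ) ∧ final τ a ρ ∈ B) ↔ (0 < L (Θ (final τ a ρ)) ∧ final τ a ρ ∈ B)
      rw [hρ]
    rw [h1, ← Measure.map_apply_of_aemeasurable hm (hEm.inter hB), hμ.2.2]
  · intro heq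
    apply hE1
    have h1 : (cond μ E) E = 1 := by
      rw [cond_apply hEm, Set.inter_self, ENNReal.inv_mul_cancel hE0 (measure_ne_top _ _)]
    rwa [heq] at h1

end Pool.Agent.H181.RU
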