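import Mathlib

/-!
# Operator bounds on Z^d (MP_c09afc_pr)
-/

open Finset Filter Topology

namespace Pool.Agent.H181.RU

/-! ### The binomial estimate -/

lemma binom_var (n : ℕ) : ∑ i ∈ range (n + 1), ((n : ℝ) - 2 * i) ^ 2 * (n.choose i : ℝ) =
    (n : ℝ) * 2 ^ n := by
  have h := congrArg (Polynomial.eval (1 / 2 : ℝ)) (bernsteinPolynomial.variance ℝ n)
  simp only [Polynomial.eval_finsetSum, bernsteinPolynomial, Polynomial.eval_mul,
    Polynomial.eval_pow, Polynomial.eval_sub, Polynomial.eval_X, Polynomial.eval_natCast,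
    Polynomial.eval_one, nsmul_eq_mul] at h
  have h1 : ∀ i ∈ range (n + 1), ((n : ℝ) * (1 / 2) - i) ^ 2 *
      ((n.choose i : ℝ) * (1 / 2) ^ i * (1 - 1 / 2) ^ (n - i)) =
      (1 / (4 * 2 ^ n)) * (((n : ℝ) - 2 * i) ^ 2 * (n.choose i : ℝ)) := by
    intro i hi
    have hi' : i ≤ n := Nat.lt_succ_iff.1 (Finset.mem_range.1 hi)
    have h2 : ((1 : ℝ) / 2) ^ i * (1 - 1 / 2) ^ (n - i) = 1 / 2 ^ n := by
      rw [show (1 : ℝ) - 1 / 2 = 1 / 2 by norm_num, ← pow_add, Nat.add_sub_cancel' hi', one_div_pow]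
    rw [mul_assoc (n.choose i : ℝ), h2]
    field_simp
    ring
  rw [Finset.sum_congr rfl h1, ← Finset.mul_sum] at h
  have h3 : (0 : ℝ) < 2 ^ n := by positivity
  field_simp at h
  linarith

/-- `∑ |C(m,i-1) - C(m,i)| ≤ 2^(m+1) / √(m+1)` in the form used below. -/
lemma binom_diff (m : ℕ) : ∑ i ∈ range (m + 2),
    |((m.choose (i - 1) : ℝ) * (if i = 0 then 0 else 1)) - (m.choose i : ℝ)| ≤
      2 ^ (m + 1) / √((m : ℝ) + 1) := by
  have hm : (0 : ℝ) < (m : ℝ) + 1 := by positivity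
  have h1 : ∀ i ∈ range (m + 2),
      |((m.choose (i - 1) : ℝ) * (if i = 0 then 0 else 1)) - (m.choose i : ℝ)| =
      (1 / ((m : ℝ) + 1)) * (|((m + 1 : ℕ) : ℝ) - 2 * i| * ((m + 1).choose i : ℝ)) := by
    intro i hi
    rw [Finset.mem_range] at hi
    cases i with
    | zero =>
      simp only [if_true, mul_zero, zero_sub, abs_neg, Nat.choose_zero_right, Nat.cast_one,
        Nat.cast_zero, sub_zero]
      rw [abs_one, abs_of_nonneg (by positivity)]
      push_cast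
      field_simp
    | succ i =>
      rw [if_neg (Nat.succ_ne_zero i), mul_one, Nat.add_sub_cancel]
      have h2 : ((m : ℝ) + 1) * (m.choose i : ℝ) = ((m + 1).choose (i + 1) : ℝ) * ((i : ℝ) + 1) := by
        exact_mod_cast Nat.add_one_mul_choose_eq m i
      have h3 : ((m + 1).choose (i + 1) : ℝ) = (m.choose i : ℝ) + (m.choose (i + 1) : ℝ) := by
        exact_mod_cast Nat.choose_succ_succ m i
      have h4 : ((m : ℝ) + 1) * ((m.choose i : ℝ) - (m.choose (i + 1) : ℝ)) =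
          -((((m + 1 : ℕ) : ℝ) - 2 * ((i + 1 : ℕ) : ℝ)) * ((m + 1).choose (i + 1) : ℝ)) := by
        push_cast
        have h5 : (m.choose (i + 1) : ℝ) = ((m + 1).choose (i + 1) : ℝ) - (m.choose i : ℝ) := by linarith
        rw [h5]
        linarith
      have h6 : (m.choose i : ℝ) - (m.choose (i + 1) : ℝ) = (1 / ((m : ℝ) + 1)) *
          -((((m + 1 : ℕ) : ℝ) - 2 * ((i + 1 : ℕ) : ℝ)) * ((m + 1).choose (i + 1) : ℝ)) := by
        rw [← h4]; field_simp
      rw [h6, abs_mul, abs_neg, abs_mul, abs_of_pos (by positivity : (0 : ℝ) < 1 / ((m : ℝ) + 1)),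
        abs_of_nonneg (by positivity : (0 : ℝ) ≤ ((m + 1).choose (i + 1) : ℝ))]
  rw [Finset.sum_congr rfl h1, ← Finset.mul_sum]
  -- Cauchy-Schwarz
  set n := m + 1 with hn
  have hcs : (∑ i ∈ range (n + 1), |(n : ℝ) - 2 * i| * (n.choose i : ℝ)) ^ 2 ≤
      ((n : ℝ) * 2 ^ n) * 2 ^ n := by
    have h2 := Finset.sum_mul_sq_le_sq_mul_sq (range (n + 1))
      (fun i => |(n : ℝ) - 2 * i| * √(n.choose i : ℝ)) (fun i => √(n.choose i : ℝ))
    have h3 : ∀ i ∈ range (n + 1), (|(n : ℝ) - 2 * i| * √(n.choose i : ℝ)) * √(n.choose i : ℝ) =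
        |(n : ℝ) - 2 * i| * (n.choose i : ℝ) := by
      intro i _
      rw [mul_assoc, Real.mul_self_sqrt (by positivity)]
    have h4 : ∀ i ∈ range (n + 1), (|(n : ℝ) - 2 * i| * √(n.choose i : ℝ)) ^ 2 =
        ((n : ℝ) - 2 * i) ^ 2 * (n.choose i : ℝ) := by
      intro i _
      rw [mul_pow, sq_abs, Real.sq_sqrt (by positivity)]
    have h5 : ∀ i ∈ range (n + 1), (√(n.choose i : ℝ)) ^ 2 = (n.choose i : ℝ) := by
      intro i _
      rw [Real.sq_sqrt (by positivity)]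
    rw [Finset.sum_congr rfl h3, Finset.sum_congr rfl h4, Finset.sum_congr rfl h5, binom_var] at h2
    have h6 : ∑ i ∈ range (n + 1), (n.choose i : ℝ) = 2 ^ n := by
      exact_mod_cast Nat.sum_range_choose n
    rwa [h6] at h2
  have hle : ∑ i ∈ range (n + 1), |(n : ℝ) - 2 * i| * (n.choose i : ℝ) ≤ √(n : ℝ) * 2 ^ n := by
    apply le_of_sq_le_sq _ (by positivity)
    rw [mul_pow, Real.sq_sqrt (by positivity)]
    calc _ ≤ ((n : ℝ) * 2 ^ n) * 2 ^ n := hcs
      _ = _ := by ring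
  have hnR : (n : ℝ) = (m : ℝ) + 1 := by rw [hn]; push_cast; ring
  calc (1 / ((m : ℝ) + 1)) * ∑ i ∈ range (m + 2), |((n : ℕ) : ℝ) - 2 * i| * (n.choose i : ℝ)
      ≤ (1 / ((m : ℝ) + 1)) * (√(n : ℝ) * 2 ^ n) :=
        mul_le_mul_of_nonneg_left hle (by positivity)
    _ = 2 ^ (m + 1) / √((m : ℝ) + 1) := by
        rw [hnR, hn]
        have h7 : √((m : ℝ) + 1) * √((m : ℝ) + 1) = (m : ℝ) + 1 := Real.mul_self_sqrt (by positivity)
        have h8 : 0 < √((m : ℝ) + 1) := Real.sqrt_pos.2 hm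
        rw [eq_div_iff h8.ne']
        calc 1 / ((m : ℝ) + 1) * (√((m : ℝ) + 1) * 2 ^ (m + 1)) * √((m : ℝ) + 1)
            = 1 / ((m : ℝ) + 1) * (√((m : ℝ) + 1) * √((m : ℝ) + 1)) * 2 ^ (m + 1) := by ring
          _ = _ := by rw [h7]; field_simp

/-! ### Bounded operators on summable functions -/

variable {V : Type*} [AddCommGroup V]

/-- Translation. -/
def sh (v : V) : Module.End ℝ (V → ℝ) where
  toFun f := fun x => f (x + v)
  map_add' _ _ := rfl
  map_smul' _ _ := rfl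

lemma sh_apply (v : V) (f : V → ℝ) (x : V) : sh v f x = f (x + v) := rfl

lemma sh_mul (v w : V) : sh v * sh w = (sh (v + w) : Module.End ℝ (V → ℝ)) := by
  ext f x
  show f (x + v + w) = f (x + (v + w))
  rw [add_assoc]

lemma sh_comm (v w : V) : Commute (sh v) (sh w : Module.End ℝ (V → ℝ)) := by
  show sh v * sh w = sh w * sh v
  rw [sh_mul, sh_mul, add_comm]

/-- The `ℓ¹` norm. -/
noncomputable def Nm (f : V → ℝ) : ℝ := ∑' x, |f x|

lemma Nm_nonneg (f : V → ℝ) : 0 ≤ Nm f := tsum_nonneg fun _ => abs_nonneg _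

/-- `T` maps `ℓ¹` to `ℓ¹` with norm at most `c`. -/
def Bd (T : Module.End ℝ (V → ℝ)) (c : ℝ) : Prop :=
  ∀ f, Summable f → Summable (T f) ∧ Nm (T f) ≤ c * Nm f

lemma Bd_mono {T : Module.End ℝ (V → ℝ)} {c c' : ℝ} (h : Bd T c) (hc : c ≤ c') : Bd T c' :=
  fun f hf => ⟨(h f hf).1, (h f hf).2.trans (mul_le_mul_of_nonneg_right hc (Nm_nonneg f))⟩

lemma Bd_sh (v : V) : Bd (sh v) 1 := by
  intro f hf
  refine ⟨(Equiv.addRight v).summable_iff.2 hf, ?_⟩
  rw [one_mul]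
  exact ((Equiv.addRight v).tsum_eq (fun x => |f x|)).le

lemma Bd_add {T S : Module.End ℝ (V → ℝ)} {c c' : ℝ} (hT : Bd T c) (hS : Bd S c') :
    Bd (T + S) (c + c') := by
  intro f hf
  obtain ⟨h1, h2⟩ := hT f hf
  obtain ⟨h3, h4⟩ := hS f hf
  refine ⟨h1.add h3, ?_⟩
  calc Nm ((T + S) f) ≤ ∑' x, (|T f x| + |S f x|) := by
        apply Summable.tsum_le_tsum (fun x => abs_add_le _ _) (h1.add h3).abs (h1.abs.add h3.abs)
    _ = Nm (T f) + Nm (S f) := h1.abs.tsum_add h3.abs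
    _ ≤ _ := by rw [add_mul]; exact add_le_add h2 h4

lemma Bd_smul {T : Module.End ℝ (V → ℝ)} {c : ℝ} (hT : Bd T c) (r : ℝ) : Bd (r • T) (|r| * c) := by
  intro f hf
  obtain ⟨h1, h2⟩ := hT f hf
  refine ⟨h1.mul_left r, ?_⟩
  have : Nm ((r • T) f) = |r| * Nm (T f) := by
    unfold Nm
    rw [← tsum_mul_left]
    apply tsum_congr
    intro x
    rw [← abs_mul]
    rfl
  rw [this, mul_assoc]
  exact mul_le_mul_of_nonneg_left h2 (abs_nonneg r)

lemma Bd_mul {T S : Module.End ℝ (V → ℝ)} {c c' : ℝ} (hc : 0 ≤ c) (hT : Bd T c) (hS : Bd S c') :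
    Bd (T * S) (c * c') := by
  intro f hf
  obtain ⟨h3, h4⟩ := hS f hf
  obtain ⟨h1, h2⟩ := hT (S f) h3
  refine ⟨h1, ?_⟩
  rw [mul_assoc]
  exact h2.trans (mul_le_mul_of_nonneg_left h4 hc)

lemma Bd_one : Bd (1 : Module.End ℝ (V → ℝ)) 1 := fun f hf => ⟨hf, by rw [one_mul]; exact le_rfl⟩

lemma Bd_pow {T : Module.End ℝ (V → ℝ)} {c : ℝ} (hc : 0 ≤ c) (hT : Bd T c) (n : ℕ) :
    Bd (T ^ n) (c ^ n) := by
  induction n with
  | zero => rw [pow_zero, pow_zero]; exact Bd_one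
  | succ n ih => rw [pow_succ, pow_succ]; exact Bd_mul (by positivity) ih hT

lemma Bd_zero : Bd (0 : Module.End ℝ (V → ℝ)) 0 := by
  intro f _
  refine ⟨summable_zero, ?_⟩
  have : Nm ((0 : Module.End ℝ (V → ℝ)) f) = 0 := by
    unfold Nm
    simp
  rw [this, zero_mul]

lemma Bd_sum {ι : Type*} (s : Finset ι) {T : ι → Module.End ℝ (V → ℝ)} {c : ι → ℝ}
    (h : ∀ i ∈ s, Bd (T i) (c i)) : Bd (∑ i ∈ s, T i) (∑ i ∈ s, c i) := by
  classical
  induction s using Finset.induction_on with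
  | empty => simpa using Bd_zero
  | insert i s hi ih =>
    rw [Finset.sum_insert hi, Finset.sum_insert hi]
    exact Bd_add (h i (Finset.mem_insert_self _ _)) (ih fun j hj => h j (Finset.mem_insert_of_mem hj))

/-- One-dimensional average. -/
noncomputable def a1 (e : V) : Module.End ℝ (V → ℝ) := (1 / 2 : ℝ) • (sh e + sh (-e))
/-- One-dimensional difference. -/
noncomputable def D1 (e : V) : Module.End ℝ (V → ℝ) := sh e - sh (-e)

lemma Bd_a1 (e : V) : Bd (a1 e) 1 := by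
  have h := Bd_smul (Bd_add (Bd_sh e) (Bd_sh (-e))) (1 / 2)
  exact Bd_mono h (by rw [abs_of_pos (by norm_num)]; norm_num)

lemma Bd_D1 (e : V) : Bd (D1 e) 2 := by
  have h := Bd_add (Bd_sh e) (Bd_smul (Bd_sh (-e)) (-1))
  have h2 : sh e + (-1 : ℝ) • sh (-e) = (D1 e : Module.End ℝ (V → ℝ)) := by
    refine LinearMap.ext fun f => funext fun x => ?_
    show f (x + e) + (-1 : ℝ) * f (x + -e) = f (x + e) - f (x + -e)
    ring
  rw [h2] at h
  exact Bd_mono h (by rw [abs_neg, abs_one]; norm_num)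

lemma comm_a1_D1 (e : V) : Commute (a1 e) (D1 e) := by
  unfold a1 D1
  apply Commute.smul_left
  apply Commute.add_left
  · exact Commute.sub_right (Commute.refl _) (sh_comm _ _)
  · exact Commute.sub_right (sh_comm _ _) (Commute.refl _)

/-- The key estimate: `‖a₁^m D₁‖ ≤ 2/√(m+1)`. -/
lemma Bd_a1_pow_D1 (e : V) (m : ℕ) : Bd (a1 e ^ m * D1 e) (2 / √((m : ℝ) + 1)) := by
  set s : Module.End ℝ (V → ℝ) := sh e with hs
  set s' : Module.End ℝ (V → ℝ) := sh (-e) with hs'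
  have hcomm : Commute s s' := sh_comm _ _
  have h1 : (s + s') ^ m * (s - s') = ∑ i ∈ range (m + 2),
      (((m.choose (i - 1) : ℝ) * (if i = 0 then 0 else 1)) - (m.choose i : ℝ)) •
        (s ^ i * s' ^ (m + 1 - i)) := by
    rw [mul_sub, hcomm.add_pow, Finset.sum_mul, Finset.sum_mul]
    have h2 : ∑ i ∈ range (m + 1), s ^ i * s' ^ (m - i) * (m.choose i : Module.End ℝ (V → ℝ)) * s =
        ∑ i ∈ range (m + 2), ((m.choose (i - 1) : ℝ) * (if i = 0 then 0 else 1)) •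
          (s ^ i * s' ^ (m + 1 - i)) := by
      rw [Finset.sum_range_succ' _ (m + 1)]
      simp only [if_true, mul_zero, zero_smul, add_zero]
      apply Finset.sum_congr rfl
      intro i hi
      rw [if_neg (Nat.succ_ne_zero i), mul_one, Nat.add_sub_cancel,
        show m + 1 - (i + 1) = m - i by omega]
      have h3 : s ^ i * s' ^ (m - i) * (m.choose i : Module.End ℝ (V → ℝ)) * s =
          (m.choose i : Module.End ℝ (V → ℝ)) * (s ^ (i + 1) * s' ^ (m - i)) := by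
        rw [← (Nat.cast_commute (m.choose i) (s ^ i * s' ^ (m - i))).eq, mul_assoc, mul_assoc,
          ((hcomm.symm.pow_left (m - i))).eq, ← mul_assoc (s ^ i), ← pow_succ]
      rw [h3]
      have h4 : (m.choose i : Module.End ℝ (V → ℝ)) * (s ^ (i + 1) * s' ^ (m - i)) =
          (m.choose i : ℝ) • (s ^ (i + 1) * s' ^ (m - i)) := by
        rw [← nsmul_eq_mul, Nat.cast_smul_eq_nsmul]
      rw [h4]
    have h5 : ∑ i ∈ range (m + 1), s ^ i * s' ^ (m - i) * (m.choose i : Module.End ℝ (V → ℝ)) * s' =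
        ∑ i ∈ range (m + 2), (m.choose i : ℝ) • (s ^ i * s' ^ (m + 1 - i)) := by
      rw [Finset.sum_range_succ _ (m + 1), Nat.choose_succ_self]
      simp only [Nat.cast_zero, zero_smul, add_zero]
      apply Finset.sum_congr rfl
      intro i hi
      rw [Finset.mem_range] at hi
      have h3 : s ^ i * s' ^ (m - i) * (m.choose i : Module.End ℝ (V → ℝ)) * s' =
          (m.choose i : Module.End ℝ (V → ℝ)) * (s ^ i * s' ^ (m + 1 - i)) := by
        rw [← (Nat.cast_commute (m.choose i) (s ^ i * s' ^ (m - i))).eq, mul_assoc, mul_assoc,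
          ← pow_succ, show m - i + 1 = m + 1 - i by omega]
      rw [h3, ← nsmul_eq_mul, Nat.cast_smul_eq_nsmul]
    rw [h2, h5, ← Finset.sum_sub_distrib]
    apply Finset.sum_congr rfl
    intro i _
    refine LinearMap.ext fun f => funext fun x => ?_
    show ((m.choose (i - 1) : ℝ) * (if i = 0 then 0 else 1)) * ((s ^ i * s' ^ (m + 1 - i)) f x) -
      (m.choose i : ℝ) * ((s ^ i * s' ^ (m + 1 - i)) f x) =
      (((m.choose (i - 1) : ℝ) * (if i = 0 then 0 else 1)) - (m.choose i : ℝ)) *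
        ((s ^ i * s' ^ (m + 1 - i)) f x)
    ring
  have h2 : a1 e ^ m * D1 e = ((1 / 2 : ℝ) ^ m) • ((s + s') ^ m * (s - s')) := by
    unfold a1 D1
    rw [smul_pow, smul_mul_assoc]
  have hmon : ∀ i j : ℕ, Bd (s ^ i * s' ^ j) 1 := by
    intro i j
    have h := Bd_mul (by positivity) (Bd_pow zero_le_one (Bd_sh e) i) (Bd_pow zero_le_one (Bd_sh (-e)) j)
    simpa using h
  have h3 := Bd_sum (range (m + 2)) (T := fun i =>
    (((m.choose (i - 1) : ℝ) * (if i = 0 then 0 else 1)) - (m.choose i : ℝ)) •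
        (s ^ i * s' ^ (m + 1 - i)))
    (c := fun i => |((m.choose (i - 1) : ℝ) * (if i = 0 then 0 else 1)) - (m.choose i : ℝ)| * 1)
    (fun i _ => Bd_smul (hmon _ _) _)
  rw [← h1] at h3
  rw [h2]
  refine Bd_mono (Bd_smul h3 ((1 / 2) ^ m)) ?_
  simp only [mul_one]
  rw [abs_of_pos (by positivity)]
  calc (1 / 2 : ℝ) ^ m * ∑ i ∈ range (m + 2),
        |((m.choose (i - 1) : ℝ) * (if i = 0 then 0 else 1)) - (m.choose i : ℝ)|
      ≤ (1 / 2 : ℝ) ^ m * (2 ^ (m + 1) / √((m : ℝ) + 1)) :=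
        mul_le_mul_of_nonneg_left (binom_diff m) (by positivity)
    _ = 2 / √((m : ℝ) + 1) := by
        rw [one_div, inv_pow, pow_succ]
        have : (0 : ℝ) < 2 ^ m := by positivity
        field_simp

/-- Five differences decay like `k^{-2}`. -/
lemma Bd_a1_pow_D1_five (e : V) (k : ℕ) :
    Bd (a1 e ^ k * D1 e ^ 5) (1024 / (((k : ℝ) + 1) * (k + 2))) := by
  set m := k / 4 with hm
  have hk : k = (k - 4 * m) + 4 * m := by omega
  have hcomm := comm_a1_D1 e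
  have h1 : a1 e ^ k * D1 e ^ 5 = a1 e ^ (k - 4 * m) * (a1 e ^ m * D1 e) ^ 4 * D1 e := by
    have h2 : (a1 e ^ m * D1 e) ^ 4 = a1 e ^ (4 * m) * D1 e ^ 4 := by
      rw [(hcomm.pow_left m).mul_pow, ← pow_mul, mul_comm m 4]
    rw [h2, ← mul_assoc, ← pow_add, ← hk, mul_assoc, ← pow_succ]
  rw [h1]
  have h3 := Bd_mul (by positivity) (Bd_mul (by positivity) (Bd_pow zero_le_one (Bd_a1 e) (k - 4 * m))
    (Bd_pow (by positivity) (Bd_a1_pow_D1 e m) 4)) (Bd_D1 e)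
  refine Bd_mono h3 ?_
  have hm0 : (0 : ℝ) < (m : ℝ) + 1 := by positivity
  have h4 : (√((m : ℝ) + 1)) ^ 4 = ((m : ℝ) + 1) ^ 2 := by
    rw [show (√((m : ℝ) + 1)) ^ 4 = ((√((m : ℝ) + 1)) ^ 2) ^ 2 by ring, Real.sq_sqrt hm0.le]
  rw [one_pow, one_mul, div_pow, h4]
  have h5 : (k : ℝ) + 1 ≤ 4 * ((m : ℝ) + 1) := by
    have : k + 1 ≤ 4 * (m + 1) := by omega
    exact_mod_cast this
  have hk0 : (0 : ℝ) ≤ k := by positivity
  rw [div_mul_eq_mul_div, div_le_div_iff₀ (by positivity) (by positivity)]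
  have h6 : ((k : ℝ) + 1) * (k + 2) ≤ 2 * ((k : ℝ) + 1) ^ 2 := by nlinarith
  have h7 : ((k : ℝ) + 1) ^ 2 ≤ 16 * ((m : ℝ) + 1) ^ 2 := by nlinarith
  nlinarith

/-- Mixing with a commuting operator. -/
lemma Bd_mix (e : V) {p q : ℝ} (hp : 0 < p) (hq : 0 ≤ q) (hpq : p + q = 1)
    {b : Module.End ℝ (V → ℝ)} (hb : Bd b q) (hcb : Commute (a1 e) b) (t : ℕ) :
    Bd ((p • a1 e + b) ^ t * D1 e ^ 5) (1024 / p ^ 2 / (((t : ℝ) + 1) * (t + 2))) := by
  have hcomm : Commute (p • a1 e) b := hcb.smul_left p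
  have h1 : (p • a1 e + b) ^ t * D1 e ^ 5 = ∑ k ∈ range (t + 1),
      ((t.choose k : ℝ) * p ^ k) • (b ^ (t - k) * (a1 e ^ k * D1 e ^ 5)) := by
    rw [hcomm.add_pow, Finset.sum_mul]
    apply Finset.sum_congr rfl
    intro k _
    rw [smul_pow, ← (Nat.cast_commute (t.choose k) ((p ^ k • a1 e ^ k) * b ^ (t - k))).eq,
      ← nsmul_eq_mul, ← Nat.cast_smul_eq_nsmul ℝ, smul_mul_assoc, smul_mul_assoc, smul_mul_assoc,
      smul_smul, ((hcb.pow_pow k (t - k))).eq, mul_assoc]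
  rw [h1]
  have h2 := Bd_sum (range (t + 1)) (T := fun k =>
      ((t.choose k : ℝ) * p ^ k) • (b ^ (t - k) * (a1 e ^ k * D1 e ^ 5)))
    (c := fun k => |(t.choose k : ℝ) * p ^ k| * (q ^ (t - k) * (1024 / (((k : ℝ) + 1) * (k + 2)))))
    (fun k _ => Bd_smul (Bd_mul (by positivity) (Bd_pow hq hb _) (Bd_a1_pow_D1_five e k)) _)
  refine Bd_mono h2 ?_
  have h3 : ∀ k ∈ range (t + 1), |(t.choose k : ℝ) * p ^ k| *
      (q ^ (t - k) * (1024 / (((k : ℝ) + 1) * (k + 2)))) =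
      (1024 / p ^ 2 / (((t : ℝ) + 1) * (t + 2))) *
        (p ^ (k + 2) * q ^ (t + 2 - (k + 2)) * ((t + 2).choose (k + 2) : ℝ)) := by
    intro k hk
    rw [Finset.mem_range] at hk
    rw [abs_of_nonneg (by positivity), show t + 2 - (k + 2) = t - k by omega]
    have h4 : ((t : ℝ) + 1) * (t.choose k : ℝ) = ((t + 1).choose (k + 1) : ℝ) * ((k : ℝ) + 1) := by
      exact_mod_cast Nat.add_one_mul_choose_eq t k
    have h5 : ((t : ℝ) + 2) * ((t + 1).choose (k + 1) : ℝ) =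
        ((t + 2).choose (k + 2) : ℝ) * ((k : ℝ) + 2) := by
      have := Nat.add_one_mul_choose_eq (t + 1) (k + 1)
      have h6 : (((t + 1 + 1) * (t + 1).choose (k + 1) : ℕ) : ℝ) =
        (((t + 1 + 1).choose (k + 1 + 1) * (k + 1 + 1) : ℕ) : ℝ) := by exact_mod_cast this
      push_cast at h6
      linarith
    have h6 : (t.choose k : ℝ) / (((k : ℝ) + 1) * (k + 2)) =
        ((t + 2).choose (k + 2) : ℝ) / (((t : ℝ) + 1) * (t + 2)) := by
      rw [div_eq_div_iff (by positivity) (by positivity)]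
      calc (t.choose k : ℝ) * (((t : ℝ) + 1) * (t + 2))
          = (((t : ℝ) + 1) * (t.choose k : ℝ)) * (t + 2) := by ring
        _ = (((t : ℝ) + 2) * ((t + 1).choose (k + 1) : ℝ)) * ((k : ℝ) + 1) := by rw [h4]; ring
        _ = _ := by rw [h5]; ring
    calc (t.choose k : ℝ) * p ^ k * (q ^ (t - k) * (1024 / (((k : ℝ) + 1) * (k + 2))))
        = 1024 * p ^ k * q ^ (t - k) * ((t.choose k : ℝ) / (((k : ℝ) + 1) * (k + 2))) := by ring
      _ = 1024 * p ^ k * q ^ (t - k) * (((t + 2).choose (k + 2) : ℝ) / (((t : ℝ) + 1) * (t + 2))) := by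
          rw [h6]
      _ = _ := by
          field_simp
          ring
  rw [Finset.sum_congr rfl h3, ← Finset.mul_sum]
  have h4 : ∑ k ∈ range (t + 1), p ^ (k + 2) * q ^ (t + 2 - (k + 2)) * ((t + 2).choose (k + 2) : ℝ) ≤ 1 := by
    have h5 := add_pow p q (t + 2)
    rw [hpq, one_pow, Finset.sum_range_succ' _ (t + 2), Finset.sum_range_succ' _ (t + 1)] at h5
    have h6 : 0 ≤ p ^ (0 + 1) * q ^ (t + 2 - (0 + 1)) * ((t + 2).choose (0 + 1) : ℝ) := by positivity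
    have h7 : 0 ≤ p ^ 0 * q ^ (t + 2 - 0) * ((t + 2).choose 0 : ℝ) := by positivity
    linarith
  calc _ ≤ (1024 / p ^ 2 / (((t : ℝ) + 1) * (t + 2))) * 1 :=
        mul_le_mul_of_nonneg_left h4 (by positivity)
    _ = _ := mul_one _

end Pool.Agent.H181.RU
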