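import Pool.Agent.H181.RuA
import Pool.Agent.H181.RuB

/-!
# The function F on Z^d (MP_c09afc_pr)
-/

open Finset Filter Topology MeasureTheory

namespace Pool.Agent.H181.RU

open Pool.Agent.H181.RW

/-- Unit vector. -/
def ev {d : ℕ} (j : Fin d) : Fin d → ℤ := Pi.single j 1

/-- The nearest-neighbour graph of `ℤ^d`. -/
def Zd (d : ℕ) : SimpleGraph (Fin d → ℤ) where
  Adj x y := ∃ j, y = x + ev j ∨ x = y + ev j
  symm := ⟨fun x y h => by
    obtain ⟨j, h | h⟩ := h
    · exact ⟨j, Or.inr h⟩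
    · exact ⟨j, Or.inl h⟩⟩
  loopless := ⟨fun x h => by
    obtain ⟨j, h | h⟩ := h <;>
    · have h1 := congrFun h j
      simp [ev] at h1⟩

variable {d : ℕ}

/-- Signed unit vector. -/
def sv (p : Fin d × Bool) : Fin d → ℤ := if p.2 then ev p.1 else -ev p.1

lemma sv_inj : Function.Injective (sv : Fin d × Bool → Fin d → ℤ) := by
  rintro ⟨j, b⟩ ⟨j', b'⟩ h
  have h1 := congrFun h j
  have h2 := congrFun h j'
  by_cases hj : j = j'
  · subst hj
    cases b <;> cases b' <;> simp [sv, ev] at h1 ⊢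
  · exfalso
    cases b <;> cases b' <;> simp [sv, ev, hj] at h1

lemma adj_iff (x y : Fin d → ℤ) : (Zd d).Adj x y ↔ ∃ p : Fin d × Bool, y = x + sv p := by
  constructor
  · rintro ⟨j, h | h⟩
    · exact ⟨(j, true), by simpa [sv] using h⟩
    · refine ⟨(j, false), ?_⟩
      rw [h]; simp [sv]
  · rintro ⟨⟨j, b⟩, h⟩
    cases b
    · exact ⟨j, Or.inr (by rw [h]; simp [sv])⟩
    · exact ⟨j, Or.inl (by rw [h]; simp [sv])⟩

noncomputable instance (d : ℕ) : (Zd d).LocallyFinite := fun x =>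
  (Set.Finite.subset (Set.finite_range (fun p : Fin d × Bool => x + sv p)) (by
    intro y hy
    rw [SimpleGraph.mem_neighborSet, adj_iff] at hy
    obtain ⟨p, hp⟩ := hy
    exact ⟨p, hp.symm⟩)).fintype

lemma nbr_eq (x : Fin d → ℤ) :
    (Zd d).neighborFinset x = (Finset.univ : Finset (Fin d × Bool)).image (fun p => x + sv p) := by
  ext y
  rw [SimpleGraph.mem_neighborFinset, adj_iff, Finset.mem_image]
  constructor
  · rintro ⟨p, hp⟩; exact ⟨p, Finset.mem_univ _, hp.symm⟩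
  · rintro ⟨p, _, hp⟩; exact ⟨p, hp.symm⟩

lemma nbr_sum (x : Fin d → ℤ) (f : (Fin d → ℤ) → ℝ) :
    ∑ y ∈ (Zd d).neighborFinset x, f y = ∑ j : Fin d, (f (x + ev j) + f (x + -ev j)) := by
  rw [nbr_eq, Finset.sum_image (fun p _ q _ h => sv_inj (add_left_cancel h)), Fintype.sum_prod_type]
  apply Finset.sum_congr rfl
  intro j _
  rw [Fintype.sum_bool]
  simp [sv]

/-- The averaging operator. -/
noncomputable def av (d : ℕ) : Module.End ℝ ((Fin d → ℤ) → ℝ) := (1 / d : ℝ) • ∑ j : Fin d, a1 (ev j)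

lemma av_apply (f : (Fin d → ℤ) → ℝ) (x : Fin d → ℤ) :
    av d f x = (1 / (2 * d)) * ∑ j : Fin d, (f (x + ev j) + f (x + -ev j)) := by
  unfold av
  have h1 : ((1 / d : ℝ) • ∑ j : Fin d, a1 (ev j)) f x = (1 / d : ℝ) * ((∑ j : Fin d, a1 (ev j)) f x) := rfl
  rw [h1, LinearMap.sum_apply, Finset.sum_apply]
  have h2 : ∀ j : Fin d, a1 (ev j) f x = (1 / 2) * (f (x + ev j) + f (x + -ev j)) := fun _ => rfl
  simp only [h2]
  rw [← Finset.mul_sum]
  ring

lemma comm_a1 (v w : Fin d → ℤ) : Commute (a1 v) (a1 w) := by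
  unfold a1
  apply Commute.smul_left
  apply Commute.smul_right
  apply Commute.add_left <;> apply Commute.add_right <;> exact sh_comm _ _

lemma av_bound (hd : 2 ≤ d) (i0 : Fin d) (t : ℕ) :
    Bd (av d ^ t * D1 (ev i0) ^ 5) (1024 * d ^ 2 / (((t : ℝ) + 1) * (t + 2))) := by
  have hdR : (2 : ℝ) ≤ d := by exact_mod_cast hd
  have hd0 : (0 : ℝ) < d := by linarith
  have h1 : av d = (1 / d : ℝ) • a1 (ev i0) + (1 / d : ℝ) • ∑ j ∈ Finset.univ.erase i0, a1 (ev j) := by
    unfold av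
    rw [← Finset.add_sum_erase _ _ (Finset.mem_univ i0), smul_add]
  have hb : Bd ((1 / d : ℝ) • ∑ j ∈ (Finset.univ : Finset (Fin d)).erase i0, a1 (ev j))
      (1 - 1 / d) := by
    have h2 := Bd_smul (Bd_sum ((Finset.univ : Finset (Fin d)).erase i0)
      (T := fun j => a1 (ev j)) (c := fun _ => 1) (fun j _ => Bd_a1 _)) (1 / d : ℝ)
    refine Bd_mono h2 ?_
    rw [Finset.sum_const, Finset.card_erase_of_mem (Finset.mem_univ _), Finset.card_univ,
      Fintype.card_fin, nsmul_eq_mul, mul_one, abs_of_pos (by positivity), Nat.cast_sub (by omega)]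
    rw [Nat.cast_one]
    field_simp
    exact le_rfl
  have hc : Commute (a1 (ev i0)) ((1 / d : ℝ) • ∑ j ∈ (Finset.univ : Finset (Fin d)).erase i0, a1 (ev j)) := by
    apply Commute.smul_right
    exact Commute.sum_right _ _ _ fun j _ => comm_a1 _ _
  have h3 := Bd_mix (ev i0) (p := 1 / d) (q := 1 - 1 / d) (by positivity)
    (by rw [sub_nonneg, div_le_one hd0]; linarith) (by ring) hb hc t
  rw [← h1] at h3
  refine Bd_mono h3 (le_of_eq ?_)
  field_simp

/-- Indicator of the origin. -/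
noncomputable def dl : (Fin d → ℤ) → ℝ := Pi.single 0 1

lemma dl_summable : Summable (dl : (Fin d → ℤ) → ℝ) := by
  apply summable_of_hasFiniteSupport
  apply (Set.finite_singleton (0 : Fin d → ℤ)).subset
  intro x hx
  by_contra hne
  apply hx
  exact Pi.single_eq_of_ne hne _

lemma dl_Nm : Nm (dl : (Fin d → ℤ) → ℝ) = 1 := by
  unfold Nm
  rw [tsum_eq_single 0]
  · simp [dl]
  · intro x hx
    unfold dl
    rw [Pi.single_eq_of_ne hx, abs_zero]

/-- The `t`-th term. -/
noncomputable def ft (i0 : Fin d) (t : ℕ) : (Fin d → ℤ) → ℝ := (av d ^ t * D1 (ev i0) ^ 5) dl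

lemma ft_bound (hd : 2 ≤ d) (i0 : Fin d) (t : ℕ) : Summable (ft i0 t) ∧
    Nm (ft i0 t) ≤ 1024 * d ^ 2 / (((t : ℝ) + 1) * (t + 2)) := by
  have h := av_bound hd i0 t dl dl_summable
  rw [dl_Nm, mul_one] at h
  exact h

lemma bd_summable (C : ℝ) : Summable (fun t : ℕ => C / (((t : ℝ) + 1) * (t + 2))) := by
  have h1 : Summable (fun t : ℕ => |C| * (1 / (t : ℝ) ^ 2)) :=
    (Real.summable_one_div_nat_pow.2 (by norm_num)).mul_left _
  have h2 := (summable_nat_add_iff 1).2 h1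
  apply Summable.of_norm_bounded h2
  intro t
  rw [Real.norm_eq_abs, abs_div, abs_of_pos (by positivity : (0 : ℝ) < ((t : ℝ) + 1) * (t + 2)),
    div_eq_mul_one_div]
  apply mul_le_mul_of_nonneg_left _ (abs_nonneg C)
  apply one_div_le_one_div_of_le (by positivity)
  push_cast
  nlinarith

lemma abs_le_Nm {f : (Fin d → ℤ) → ℝ} (hf : Summable f) (x : Fin d → ℤ) : |f x| ≤ Nm f :=
  hf.abs.le_tsum x (fun _ _ => abs_nonneg _)

lemma ft_summable (hd : 2 ≤ d) (i0 : Fin d) (x : Fin d → ℤ) : Summable (fun t => ft i0 t x) := by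
  apply Summable.of_norm_bounded (bd_summable (1024 * d ^ 2))
  intro t
  rw [Real.norm_eq_abs]
  exact (abs_le_Nm (ft_bound hd i0 t).1 x).trans (ft_bound hd i0 t).2

/-- The function `F`. -/
noncomputable def FF (i0 : Fin d) (x : Fin d → ℤ) : ℝ := (1 / (2 * d)) * ∑' t, ft i0 t x

lemma FF_summable (hd : 2 ≤ d) (i0 : Fin d) : Summable (FF i0) := by
  apply Summable.mul_left
  rw [← summable_abs_iff]
  apply summable_of_sum_le (c := ∑' t : ℕ, (1024 * (d : ℝ) ^ 2 / (((t : ℝ) + 1) * (t + 2))))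
  · intro x; exact abs_nonneg _
  · intro s
    calc ∑ x ∈ s, |∑' t, ft i0 t x| ≤ ∑ x ∈ s, ∑' t, |ft i0 t x| := by
          apply Finset.sum_le_sum
          intro x _
          have h := (ft_summable hd i0 x).abs
          have := norm_tsum_le_tsum_norm (f := fun t => ft i0 t x) (by simpa [Real.norm_eq_abs] using h)
          simpa [Real.norm_eq_abs] using this
      _ = ∑' t, ∑ x ∈ s, |ft i0 t x| :=
          (Summable.tsum_finsetSum fun x _ => (ft_summable hd i0 x).abs).symm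
      _ ≤ _ := by
          apply Summable.tsum_le_tsum _ (summable_sum fun x _ => (ft_summable hd i0 x).abs)
            (bd_summable _)
          intro t
          exact ((ft_bound hd i0 t).1.abs.sum_le_tsum s fun _ _ => abs_nonneg _).trans
            (ft_bound hd i0 t).2

lemma ft_succ (i0 : Fin d) (t : ℕ) : ft i0 (t + 1) = av d (ft i0 t) := by
  unfold ft
  rw [pow_succ', mul_assoc]
  rfl

lemma FF_lap (hd : 2 ≤ d) (i0 : Fin d) (x : Fin d → ℤ) :
    2 * d * FF i0 x - ∑ j : Fin d, (FF i0 (x + ev j) + FF i0 (x + -ev j)) = ft i0 0 x := by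
  have hdR : (2 : ℝ) ≤ d := by exact_mod_cast hd
  have hd0 : (0 : ℝ) < d := by linarith
  have h1 : ∑' t, ft i0 t x = ft i0 0 x + ∑' t, ft i0 (t + 1) x :=
    (ft_summable hd i0 x).tsum_eq_zero_add
  have h2 : ∑' t, ft i0 (t + 1) x = (1 / (2 * d)) * ∑ j : Fin d,
      (∑' t, ft i0 t (x + ev j) + ∑' t, ft i0 t (x + -ev j)) := by
    simp only [ft_succ, av_apply]
    rw [tsum_mul_left, Summable.tsum_finsetSum fun j _ =>
      (ft_summable hd i0 _).add (ft_summable hd i0 _)]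
    congr 1
    apply Finset.sum_congr rfl
    intro j _
    exact (ft_summable hd i0 _).tsum_add (ft_summable hd i0 _)
  unfold FF
  simp only [← mul_add]
  rw [← Finset.mul_sum]
  rw [h2] at h1
  have h3 : 2 * (d : ℝ) * (1 / (2 * d) * ∑' t, ft i0 t x) = ∑' t, ft i0 t x := by
    field_simp
  rw [h3, h1]
  ring

/-- Integer-valued functions. -/
def IntV (f : (Fin d → ℤ) → ℝ) : Prop := ∀ x, ∃ k : ℤ, f x = k

lemma IntV_D1 {f : (Fin d → ℤ) → ℝ} (hf : IntV f) (e : Fin d → ℤ) : IntV (D1 e f) := by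
  intro x
  obtain ⟨k, hk⟩ := hf (x + e)
  obtain ⟨l, hl⟩ := hf (x + -e)
  refine ⟨k - l, ?_⟩
  show f (x + e) - f (x + -e) = _
  rw [hk, hl]; push_cast; ring

lemma IntV_dl : IntV (dl : (Fin d → ℤ) → ℝ) := by
  intro x
  by_cases hx : x = 0
  · exact ⟨1, by rw [hx]; simp [dl]⟩
  · exact ⟨0, by unfold dl; rw [Pi.single_eq_of_ne hx]; simp⟩

lemma IntV_ft0 (i0 : Fin d) : IntV (ft i0 0) := by
  have h : ft i0 0 = (D1 (ev i0) ^ 5) dl := by unfold ft; rw [pow_zero, one_mul]
  rw [h]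
  have : ∀ n : ℕ, IntV ((D1 (ev i0) ^ n) (dl : (Fin d → ℤ) → ℝ)) := by
    intro n
    induction n with
    | zero => exact IntV_dl
    | succ n ih => rw [pow_succ']; exact IntV_D1 ih _
  exact this 5

/-- Reflection. -/
def rfl0 (i0 : Fin d) (x : Fin d → ℤ) : Fin d → ℤ := Function.update x i0 (-x i0)

lemma rfl0_add_self (i0 : Fin d) (x : Fin d → ℤ) : rfl0 i0 x + ev i0 = rfl0 i0 (x + -ev i0) := by
  funext k
  by_cases hk : k = i0
  · subst hk; simp [rfl0, ev]; ring
  · simp [rfl0, ev, hk]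

lemma rfl0_sub_self (i0 : Fin d) (x : Fin d → ℤ) : rfl0 i0 x + -ev i0 = rfl0 i0 (x + ev i0) := by
  funext k
  by_cases hk : k = i0
  · subst hk; simp [rfl0, ev]; ring
  · simp [rfl0, ev, hk]

lemma rfl0_add (i0 j : Fin d) (hj : j ≠ i0) (x : Fin d → ℤ) :
    rfl0 i0 x + ev j = rfl0 i0 (x + ev j) ∧ rfl0 i0 x + -ev j = rfl0 i0 (x + -ev j) := by
  constructor
  · funext k
    by_cases hk : k = i0
    · subst hk; simp [rfl0, ev, hj.symm]
    · simp [rfl0, ev, hk]
  · funext k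
    by_cases hk : k = i0
    · subst hk; simp [rfl0, ev, hj.symm]
    · simp [rfl0, ev, hk]

/-- Parity. -/
def Par (i0 : Fin d) (ε : ℝ) (f : (Fin d → ℤ) → ℝ) : Prop := ∀ x, f (rfl0 i0 x) = ε * f x

lemma Par_D1 {i0 : Fin d} {ε : ℝ} {f : (Fin d → ℤ) → ℝ} (hf : Par i0 ε f) :
    Par i0 (-ε) (D1 (ev i0) f) := by
  intro x
  show f (rfl0 i0 x + ev i0) - f (rfl0 i0 x + -ev i0) = -ε * (f (x + ev i0) - f (x + -ev i0))
  rw [rfl0_add_self, rfl0_sub_self, hf, hf]
  ring

lemma Par_av {i0 : Fin d} {ε : ℝ} {f : (Fin d → ℤ) → ℝ} (hf : Par i0 ε f) :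
    Par i0 ε (av d f) := by
  intro x
  rw [av_apply, av_apply]
  have h : ∀ j : Fin d, f (rfl0 i0 x + ev j) + f (rfl0 i0 x + -ev j) =
      ε * (f (x + ev j) + f (x + -ev j)) := by
    intro j
    by_cases hj : j = i0
    · subst hj
      rw [rfl0_add_self, rfl0_sub_self, hf, hf]
      ring
    · rw [(rfl0_add i0 j hj x).1, (rfl0_add i0 j hj x).2, hf, hf]
      ring
  simp only [h]
  rw [← Finset.mul_sum]
  ring

lemma Par_dl (i0 : Fin d) : Par i0 1 (dl : (Fin d → ℤ) → ℝ) := by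
  intro x
  rw [one_mul]
  by_cases hx : x = 0
  · subst hx
    congr 1
    funext k
    by_cases hk : k = i0
    · subst hk; simp [rfl0]
    · simp [rfl0, hk]
  · have h2 : rfl0 i0 x ≠ 0 := by
      intro h0
      apply hx
      funext k
      have h3 := congrFun h0 k
      by_cases hk : k = i0
      · subst hk; simp [rfl0] at h3; simpa using h3
      · simp [rfl0, hk] at h3; simpa using h3
    unfold dl
    rw [Pi.single_eq_of_ne hx, Pi.single_eq_of_ne h2]

lemma FF_zero (i0 : Fin d) : FF i0 0 = 0 := by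
  have hD : ∀ n : ℕ, Par i0 ((-1) ^ n) ((D1 (ev i0) ^ n) (dl : (Fin d → ℤ) → ℝ)) := by
    intro n
    induction n with
    | zero => rw [pow_zero]; exact Par_dl i0
    | succ n ih =>
      have h := Par_D1 ih
      rw [pow_succ' (D1 (ev i0)) n, pow_succ (-1 : ℝ) n, mul_neg_one]
      exact h
  have hft : ∀ t, Par i0 (-1) (ft i0 t) := by
    intro t
    induction t with
    | zero =>
      have h := hD 5
      have h2 : ft i0 0 = (D1 (ev i0) ^ 5) dl := by unfold ft; rw [pow_zero, one_mul]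
      rw [h2]
      have h3 : ((-1 : ℝ)) ^ 5 = -1 := by norm_num
      rwa [h3] at h
    | succ t ih => rw [ft_succ]; exact Par_av ih
  have h0 : ∀ t, ft i0 t 0 = 0 := by
    intro t
    have h := hft t 0
    have h1 : rfl0 i0 (0 : Fin d → ℤ) = 0 := by
      funext k
      by_cases hk : k = i0
      · subst hk; simp [rfl0]
      · simp [rfl0, hk]
    rw [h1] at h
    linarith
  unfold FF
  simp [h0]

/-- The harmonic character. -/
noncomputable def ww (i0 i1 : Fin d) (x : Fin d → ℤ) : ℝ :=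
  (3 + 2 * √2) ^ (x i0) * (-1 : ℝ) ^ (x i1)

lemma ww_add (i0 i1 : Fin d) (x y : Fin d → ℤ) : ww i0 i1 (x + y) = ww i0 i1 x * ww i0 i1 y := by
  unfold ww
  have h1 : (3 + 2 * √2 : ℝ) ≠ 0 := by positivity
  rw [Pi.add_apply, Pi.add_apply, zpow_add₀ h1, zpow_add₀ (by norm_num : (-1 : ℝ) ≠ 0)]
  ring

lemma lam_inv : (3 + 2 * √2 : ℝ)⁻¹ = 3 - 2 * √2 := by
  have h : √2 * √2 = 2 := Real.mul_self_sqrt (by norm_num)
  rw [inv_eq_one_div, div_eq_iff (by positivity)]
  linear_combination 4 * h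

lemma ww_ev (i0 i1 : Fin d) (hne : i1 ≠ i0) (j : Fin d) :
    ww i0 i1 (ev j) + ww i0 i1 (-ev j) = if j = i0 then 6 else if j = i1 then -2 else 2 := by
  unfold ww ev
  by_cases h0 : j = i0
  · subst h0
    simp only [Pi.single_eq_same, Pi.neg_apply, Pi.single_eq_of_ne hne, if_true, neg_zero, zpow_zero,
      zpow_one, zpow_neg, lam_inv]
    ring
  · rw [if_neg h0]
    by_cases h1 : j = i1
    · subst h1
      simp only [Pi.single_eq_same, Pi.neg_apply, Pi.single_eq_of_ne (Ne.symm h0), if_true, neg_zero,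
        zpow_zero, zpow_one, zpow_neg]
      norm_num
    · rw [if_neg h1]
      simp only [Pi.neg_apply, Pi.single_eq_of_ne (Ne.symm h0), Pi.single_eq_of_ne (Ne.symm h1), neg_zero,
        zpow_zero]
      norm_num

lemma ww_harm (i0 i1 : Fin d) (hne : i1 ≠ i0) :
    ∑ j : Fin d, (ww i0 i1 (ev j) + ww i0 i1 (-ev j)) = 2 * d := by
  simp only [ww_ev i0 i1 hne]
  have h : ∀ j : Fin d, (if j = i0 then (6 : ℝ) else if j = i1 then -2 else 2) =
      2 + (if j = i0 then 4 else 0) + (if j = i1 then -4 else 0) := by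
    intro j
    by_cases h0 : j = i0
    · rw [if_pos h0, if_pos h0, if_neg (fun h => hne (h.symm.trans h0))]; norm_num
    · rw [if_neg h0, if_neg h0]
      by_cases h1 : j = i1
      · rw [if_pos h1, if_pos h1]; norm_num
      · rw [if_neg h1, if_neg h1]; norm_num
  simp only [h]
  rw [Finset.sum_add_distrib, Finset.sum_add_distrib, Finset.sum_ite_eq', Finset.sum_ite_eq']
  simp
  ring

/-- The functional. -/
noncomputable def ell (i0 i1 : Fin d) (f : (Fin d → ℤ) → ℝ) : ℝ := ∑' x, ww i0 i1 x * f x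

lemma ell_shift (i0 i1 : Fin d) (f : (Fin d → ℤ) → ℝ) (v : Fin d → ℤ) :
    ∑' x, ww i0 i1 x * f (x + v) = ww i0 i1 (-v) * ell i0 i1 f := by
  unfold ell
  rw [← (Equiv.addRight (-v)).tsum_eq (fun x => ww i0 i1 x * f (x + v)), ← tsum_mul_left]
  apply tsum_congr
  intro x
  simp only [Equiv.coe_addRight]
  rw [ww_add, neg_add_cancel_right]
  ring

lemma fs_summable (w : (Fin d → ℤ) → ℝ) {f : (Fin d → ℤ) → ℝ} (hf : (Function.support f).Finite) :
    Summable (fun x => w x * f x) := by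
  apply summable_of_hasFiniteSupport
  apply hf.subset
  intro x hx h
  apply hx
  simp [h]

lemma fs_shift {f : (Fin d → ℤ) → ℝ} (hf : (Function.support f).Finite) (v : Fin d → ℤ) :
    (Function.support (fun x => f (x + v))).Finite :=
  hf.preimage (fun x _ y _ h => add_right_cancel h)

lemma ell_D1 (i0 i1 : Fin d) (e : Fin d → ℤ) {f : (Fin d → ℤ) → ℝ} (hf : (Function.support f).Finite) :
    ell i0 i1 (D1 e f) = (ww i0 i1 (-e) - ww i0 i1 e) * ell i0 i1 f := by
  have h1 : ell i0 i1 (D1 e f) = ∑' x, (ww i0 i1 x * f (x + e) - ww i0 i1 x * f (x + -e)) := by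
    unfold ell
    apply tsum_congr
    intro x
    show ww i0 i1 x * (f (x + e) - f (x + -e)) = _
    ring
  rw [h1, (fs_summable _ (fs_shift hf e)).tsum_sub (fs_summable _ (fs_shift hf (-e))), ell_shift,
    ell_shift, neg_neg]
  ring

lemma fs_D1 {f : (Fin d → ℤ) → ℝ} (hf : (Function.support f).Finite) (e : Fin d → ℤ) :
    (Function.support (D1 e f)).Finite := by
  apply ((fs_shift hf e).union (fs_shift hf (-e))).subset
  intro x hx
  by_contra hcon
  rw [Set.mem_union, not_or] at hcon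
  apply hx
  have h1 : f (x + e) = 0 := by
    by_contra h; exact hcon.1 h
  have h2 : f (x + -e) = 0 := by
    by_contra h; exact hcon.2 h
  show f (x + e) - f (x + -e) = 0
  rw [h1, h2, sub_zero]

lemma fs_dl : (Function.support (dl : (Fin d → ℤ) → ℝ)).Finite := by
  apply (Set.finite_singleton (0 : Fin d → ℤ)).subset
  intro x hx
  by_contra hne
  apply hx
  exact Pi.single_eq_of_ne hne _

lemma ell_ft0 (i0 i1 : Fin d) (hne : i1 ≠ i0) : ell i0 i1 (ft i0 0) ≠ 0 := by
  have h2 : ft i0 0 = (D1 (ev i0) ^ 5) dl := by unfold ft; rw [pow_zero, one_mul]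
  rw [h2]
  have hc : ww i0 i1 (-ev i0) - ww i0 i1 (ev i0) ≠ 0 := by
    unfold ww ev
    simp only [Pi.single_eq_same, Pi.neg_apply, Pi.single_eq_of_ne hne, neg_zero, zpow_zero,
      zpow_one, zpow_neg, lam_inv]
    have : 0 < √2 := by positivity
    intro h
    linarith
  have hn : ∀ n : ℕ, (Function.support ((D1 (ev i0) ^ n) (dl : (Fin d → ℤ) → ℝ))).Finite ∧
      ell i0 i1 ((D1 (ev i0) ^ n) dl) ≠ 0 := by
    intro n
    induction n with
    | zero =>
      refine ⟨fs_dl, ?_⟩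
      show ell i0 i1 dl ≠ 0
      unfold ell
      rw [tsum_eq_single 0]
      · simp [dl, ww]
      · intro x hx
        unfold dl
        rw [Pi.single_eq_of_ne hx, mul_zero]
    | succ n ih =>
      rw [pow_succ']
      refine ⟨fs_D1 ih.1 _, ?_⟩
      show ell i0 i1 (D1 (ev i0) ((D1 (ev i0) ^ n) dl)) ≠ 0
      rw [ell_D1 _ _ _ ih.1]
      exact mul_ne_zero hc ih.2
  exact (hn 5).2

lemma FF_not_int (hd : 2 ≤ d) (i0 i1 : Fin d) (hne : i1 ≠ i0) : ¬ IntV (FF i0) := by
  intro hint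
  have hfs : (Function.support (FF i0)).Finite := by
    have h1 := (FF_summable hd i0).tendsto_cofinite_zero.eventually
      (Metric.ball_mem_nhds (0 : ℝ) one_pos)
    rw [Filter.eventually_cofinite] at h1
    apply h1.subset
    intro x hx hball
    apply hx
    change dist (FF i0 x) 0 < 1 at hball
    rw [dist_zero_right, Real.norm_eq_abs] at hball
    obtain ⟨k, hk⟩ := hint x
    rw [hk] at hball ⊢
    have h2 : |k| < 1 := by exact_mod_cast hball
    have h3 : k = 0 := Int.abs_lt_one_iff.1 h2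
    rw [h3]; simp
  apply ell_ft0 i0 i1 hne
  have h1 : ell i0 i1 (ft i0 0) = ∑' x, (2 * d * (ww i0 i1 x * FF i0 x) -
      ∑ j : Fin d, (ww i0 i1 x * FF i0 (x + ev j) + ww i0 i1 x * FF i0 (x + -ev j))) := by
    unfold ell
    apply tsum_congr
    intro x
    rw [← FF_lap hd i0 x]
    simp only [← mul_add]
    rw [← Finset.mul_sum]
    ring
  have hs0 := (fs_summable (ww i0 i1) hfs).mul_left (2 * (d : ℝ))
  have hsj : ∀ j : Fin d, Summable (fun x => ww i0 i1 x * FF i0 (x + ev j) +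
      ww i0 i1 x * FF i0 (x + -ev j)) := fun j =>
    (fs_summable _ (fs_shift hfs _)).add (fs_summable _ (fs_shift hfs _))
  rw [h1, hs0.tsum_sub (summable_sum fun j _ => hsj j), tsum_mul_left,
    Summable.tsum_finsetSum fun j _ => hsj j]
  have h2 : ∀ j : Fin d, ∑' x, (ww i0 i1 x * FF i0 (x + ev j) + ww i0 i1 x * FF i0 (x + -ev j)) =
      (ww i0 i1 (ev j) + ww i0 i1 (-ev j)) * ell i0 i1 (FF i0) := by
    intro j
    rw [(fs_summable _ (fs_shift hfs _)).tsum_add (fs_summable _ (fs_shift hfs _)), ell_shift,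
      ell_shift, neg_neg]
    ring
  simp only [h2]
  rw [← Finset.sum_mul, ww_harm i0 i1 hne]
  show 2 * (d : ℝ) * ell i0 i1 (FF i0) - 2 * d * ell i0 i1 (FF i0) = 0
  ring

/-- Main theorem. -/
theorem zd_nonunique (hd : 2 ≤ d) {τ : (Fin d → ℤ) → (Fin d → ℤ) → (Fin d → ℤ)}
    (hτ : Mech (Zd d) τ) {μ : Measure ((Fin d → ℤ) → (Fin d → ℤ))} [IsProbabilityMeasure μ]
    (hμ : ∀ a, Stat (Zd d) τ a μ) (a : Fin d → ℤ) :
    ∃ μ' : Measure ((Fin d → ℤ) → (Fin d → ℤ)), IsProbabilityMeasure μ' ∧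
      Stat (Zd d) τ a μ' ∧ μ' ≠ μ := by
  set i0 : Fin d := ⟨0, by omega⟩ with hi0
  set i1 : Fin d := ⟨1, by omega⟩ with hi1
  have hne : i1 ≠ i0 := by
    intro h
    have := congrArg Fin.val h
    simp [hi0, hi1] at this
  have hnot := FF_not_int hd i0 i1 hne
  unfold IntV at hnot
  push Not at hnot
  obtain ⟨b, hb⟩ := hnot
  set F : (Fin d → ℤ) → ℝ := fun x => FF i0 (x + -a) with hF
  have hFs : Summable F := (Equiv.addRight (-a)).summable_iff.2 (FF_summable hd i0)
  have hshift : ∀ v : Fin d → ℤ, Summable (fun x => F (x + v)) := fun v =>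
    (Equiv.addRight v).summable_iff.2 hFs
  have hg : Summable (fun x => ∑ y ∈ (Zd d).neighborFinset x, |F y - F x|) := by
    simp only [nbr_sum]
    apply summable_sum
    intro j _
    exact ((hshift _).sub hFs).abs.add ((hshift _).sub hFs).abs
  have hlap : ∀ x, ∃ k : ℤ, ∑ y ∈ (Zd d).neighborFinset x, (F y - F x) = k := by
    intro x
    obtain ⟨k, hk⟩ := IntV_ft0 i0 (x + -a)
    refine ⟨-k, ?_⟩
    rw [nbr_sum]
    have h := FF_lap hd i0 (x + -a)
    rw [hk] at h
    have h2 : ∑ j : Fin d, ((F (x + ev j) - F x) + (F (x + -ev j) - F x)) =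
        ∑ j : Fin d, (FF i0 (x + -a + ev j) + FF i0 (x + -a + -ev j)) - 2 * d * FF i0 (x + -a) := by
      have h3 : ∀ j : Fin d, (F (x + ev j) - F x) + (F (x + -ev j) - F x) =
          (FF i0 (x + -a + ev j) + FF i0 (x + -a + -ev j)) - 2 * FF i0 (x + -a) := by
        intro j
        simp only [hF]
        rw [add_right_comm x (ev j) (-a), add_right_comm x (-ev j) (-a)]
        ring
      simp only [h3]
      rw [Finset.sum_sub_distrib, Finset.sum_const, Finset.card_univ, Fintype.card_fin, nsmul_eq_mul]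
      ring
    rw [h2]
    push_cast
    linarith
  have hFa : ∃ k : ℤ, F a = k := ⟨0, by simp only [hF, add_neg_cancel, FF_zero]; simp⟩
  have hFa' : ∀ k : ℤ, F (b + a) ≠ k := by
    intro k
    simp only [hF, add_neg_cancel_right]
    exact hb k
  exact exists_other hτ hFs hg hlap hFa hFa' (hμ a) (hμ (b + a))

end Pool.Agent.H181.RU
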