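import Mathlib

/-!
# Rotor walks: least action principle in finite volume (MP_42a48c_pr)
-/

open Finset

namespace Pool.Agent.H181.RW

variable {V : Type*} [DecidableEq V]

/-- Number of `k ∈ {1,…,n}` with `f^[k] r = z`. -/
def ex (f : V → V) (r : V) : ℕ → V → ℕ
  | 0, _ => 0
  | n + 1, z => ex f r n z + if f^[n + 1] r = z then 1 else 0

lemma ex_mono (f : V → V) (r z : V) {m n : ℕ} (h : m ≤ n) : ex f r m z ≤ ex f r n z := by
  induction n, h using Nat.le_induction with
  | base => exact le_rfl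
  | succ n _ ih => exact ih.trans (Nat.le_add_right _ _)

lemma ex_add (f : V → V) (r z : V) (m n : ℕ) :
    ex f r (m + n) z = ex f r m z + ex f (f^[m] r) n z := by
  induction n with
  | zero => rfl
  | succ n ih =>
    have h1 : ex f r (m + (n + 1)) z = ex f r (m + n) z + if f^[m + n + 1] r = z then 1 else 0 := rfl
    have h2 : ex f (f^[m] r) (n + 1) z =
      ex f (f^[m] r) n z + if f^[n + 1] (f^[m] r) = z then 1 else 0 := rfl
    have h3 : f^[m + n + 1] r = f^[n + 1] (f^[m] r) := by
      rw [← Function.iterate_add_apply, show n + 1 + m = m + n + 1 by omega]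
    rw [h1, h2, ih, h3]
    omega

lemma ex_sum_le (f : V → V) (r : V) (D : Finset V) (n : ℕ) : ∑ y ∈ D, ex f r n y ≤ n := by
  induction n with
  | zero => simp [ex]
  | succ n ih =>
    have : ∑ y ∈ D, ex f r (n + 1) y = ∑ y ∈ D, ex f r n y +
        ∑ y ∈ D, (if f^[n + 1] r = y then 1 else 0) := by
      rw [← Finset.sum_add_distrib]; rfl
    rw [this, Finset.sum_ite_eq]
    split_ifs <;> omega

lemma ex_sum_lt (f : V → V) (r : V) (D : Finset V) {n : ℕ} (hn : 0 < n) (h : f^[n] r ∉ D) :
    ∑ y ∈ D, ex f r n y < n := by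
  obtain ⟨n, rfl⟩ : ∃ k, n = k + 1 := ⟨n - 1, by omega⟩
  have : ∑ y ∈ D, ex f r (n + 1) y = ∑ y ∈ D, ex f r n y +
      ∑ y ∈ D, (if f^[n + 1] r = y then 1 else 0) := by
    rw [← Finset.sum_add_distrib]; rfl
  rw [this, Finset.sum_ite_eq, if_neg h]
  have := ex_sum_le f r D n
  omega

lemma ex_pos (f : V → V) (r : V) {n : ℕ} (hn : 0 < n) : 0 < ex f r n (f^[n] r) := by
  obtain ⟨n, rfl⟩ : ∃ k, n = k + 1 := ⟨n - 1, by omega⟩
  have : ex f r (n + 1) (f^[n + 1] r) = ex f r n (f^[n + 1] r) + if f^[n + 1] r = f^[n + 1] r then 1 else 0 := rfl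
  rw [this, if_pos rfl]
  omega

variable (G : SimpleGraph V) [G.LocallyFinite]

/-- `τ x` is a cyclic order of the neighbours of `x`: a self-map with a single orbit. -/
structure Mech (τ : V → V → V) : Prop where
  adj : ∀ x y, G.Adj x y → G.Adj x (τ x y)
  orb : ∀ x y z, G.Adj x y → G.Adj x z → ∃ k : ℕ, (τ x)^[k] y = z

variable {G} {τ : V → V → V}

lemma Mech.iter (hτ : Mech G τ) {x y : V} (h : G.Adj x y) (k : ℕ) : G.Adj x ((τ x)^[k] y) := by
  induction k with
  | zero => exact h
  | succ k ih => rw [Function.iterate_succ_apply']; exact hτ.adj _ _ ih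

lemma Mech.minPer (hτ : Mech G τ) {x z : V} (hz : G.Adj x z) :
    Function.minimalPeriod (τ x) z = G.degree x := by
  obtain ⟨k, hk⟩ := hτ.orb x (τ x z) z (hτ.adj _ _ hz) hz
  have hper : Function.IsPeriodicPt (τ x) (k + 1) z := by
    rw [Function.IsPeriodicPt, Function.IsFixedPt, Function.iterate_succ_apply]
    exact hk
  have hpos : 0 < Function.minimalPeriod (τ x) z :=
    Function.minimalPeriod_pos_of_mem_periodicPts ⟨k + 1, Nat.succ_pos k, hper⟩
  have himg : (Finset.range (Function.minimalPeriod (τ x) z)).image (fun i => (τ x)^[i] z) =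
      G.neighborFinset x := by
    ext y
    rw [Finset.mem_image, SimpleGraph.mem_neighborFinset]
    constructor
    · rintro ⟨i, _, rfl⟩
      exact hτ.iter hz i
    · intro hy
      obtain ⟨j, hj⟩ := hτ.orb x z y hz hy
      refine ⟨j % Function.minimalPeriod (τ x) z, Finset.mem_range.2 (Nat.mod_lt _ hpos), ?_⟩
      rw [Function.iterate_mod_minimalPeriod_eq]
      exact hj
  rw [← G.card_neighborFinset_eq_degree, ← himg, Finset.card_image_of_injOn, Finset.card_range]
  intro i hi j hj hij
  rw [Finset.coe_range] at hi hj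
  exact Function.iterate_injOn_Iio_minimalPeriod hi hj hij

lemma Mech.per (hτ : Mech G τ) {x z : V} (hz : G.Adj x z) : (τ x)^[G.degree x] z = z := by
  rw [← hτ.minPer hz]
  exact Function.isPeriodicPt_minimalPeriod (τ x) z

lemma Mech.per_mul (hτ : Mech G τ) {x z : V} (hz : G.Adj x z) (g : ℕ) :
    (τ x)^[G.degree x * g] z = z := by
  induction g with
  | zero => rfl
  | succ g ih => rw [Nat.mul_succ, Function.iterate_add_apply, hτ.per hz, ih]

lemma Mech.exists_h (hτ : Mech G τ) {x z : V} (hz : G.Adj x z) : ∃ h : V → ℕ,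
    (∀ r, G.Adj x r → 1 ≤ h r ∧ h r ≤ G.degree x) ∧
    ∀ r, G.Adj x r → (h (τ x r) : ℤ) - h r + 1 = if τ x r = z then (G.degree x : ℤ) else 0 := by
  classical
  have hex : ∀ r, G.Adj x r → ∃ k, (τ x)^[k + 1] r = z := by
    intro r hr
    obtain ⟨k, hk⟩ := hτ.orb x (τ x r) z (hτ.adj _ _ hr) hz
    exact ⟨k, by rw [Function.iterate_succ_apply]; exact hk⟩
  set h : V → ℕ := fun r => if hr : G.Adj x r then Nat.find (hex r hr) + 1 else 0 with hh
  have hval : ∀ r (hr : G.Adj x r), h r = Nat.find (hex r hr) + 1 := fun r hr => by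
    simp only [hh, dif_pos hr]
  have hone : ∀ r, G.Adj x r → τ x r = z → h r = 1 := by
    intro r hr hrz
    rw [hval r hr]
    have : Nat.find (hex r hr) = 0 := by
      rw [Nat.find_eq_zero]
      exact hrz
    omega
  have hsucc : ∀ r, G.Adj x r → τ x r ≠ z → h r = h (τ x r) + 1 := by
    intro r hr hrz
    have hr' := hτ.adj _ _ hr
    rw [hval r hr, hval _ hr']
    have h1 : Nat.find (hex r hr) ≠ 0 := by
      intro h0
      rw [Nat.find_eq_zero] at h0
      exact hrz h0
    apply congrArg (· + 1)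
    apply le_antisymm
    · apply Nat.find_min'
      have := Nat.find_spec (hex _ hr')
      rw [Function.iterate_succ_apply]
      exact this
    · obtain ⟨j, hj⟩ : ∃ j, Nat.find (hex r hr) = j + 1 := ⟨Nat.find (hex r hr) - 1, by omega⟩
      have h2 := Nat.find_spec (hex r hr)
      rw [hj, Function.iterate_succ_apply] at h2
      have h3 : Nat.find (hex _ hr') ≤ j := Nat.find_min' _ h2
      omega
  have hz1 : h z = G.degree x := by
    rw [hval z hz, ← hτ.minPer hz]
    apply le_antisymm
    · have h1 : 0 < Function.minimalPeriod (τ x) z := by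
        rw [hτ.minPer hz, ← G.card_neighborFinset_eq_degree]
        exact Finset.card_pos.2 ⟨z, by rwa [SimpleGraph.mem_neighborFinset]⟩
      have h2 : Nat.find (hex z hz) ≤ Function.minimalPeriod (τ x) z - 1 := by
        apply Nat.find_min'
        rw [Nat.sub_add_cancel h1]
        exact Function.isPeriodicPt_minimalPeriod (τ x) z
      omega
    · apply Function.IsPeriodicPt.minimalPeriod_le (Nat.succ_pos _)
      exact Nat.find_spec (hex z hz)
  refine ⟨h, ?_, ?_⟩
  · intro r hr
    refine ⟨by rw [hval r hr]; omega, ?_⟩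
    rw [hval r hr]
    have h1 : G.degree x = Function.minimalPeriod (τ x) r := (hτ.minPer hr).symm
    obtain ⟨k, hk⟩ := hex r hr
    have hp : 0 < G.degree x := by
      rw [← G.card_neighborFinset_eq_degree]
      exact Finset.card_pos.2 ⟨z, by rwa [SimpleGraph.mem_neighborFinset]⟩
    -- k + 1 mod d
    have h2 : (τ x)^[(k + 1) % G.degree x] r = z := by
      rw [h1, Function.iterate_mod_minimalPeriod_eq]
      exact hk
    by_cases h0 : (k + 1) % G.degree x = 0
    · rw [h0] at h2
      have h3 : (τ x)^[G.degree x - 1 + 1] r = z := by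
        rw [Nat.sub_add_cancel hp, hτ.per hr]; exact h2
      have := Nat.find_min' (hex r hr) h3
      omega
    · have h3 : (τ x)^[(k + 1) % G.degree x - 1 + 1] r = z := by
        rw [Nat.sub_add_cancel (by omega)]; exact h2
      have h4 := Nat.find_min' (hex r hr) h3
      have h5 := Nat.mod_lt (k + 1) hp
      omega
  · intro r hr
    split_ifs with hrz
    · rw [hone r hr hrz, hrz, hz1]; ring
    · rw [hsucc r hr hrz]; push_cast; ring

lemma Mech.ex_formula (hτ : Mech G τ) {x z : V} (hz : G.Adj x z) : ∃ h : V → ℕ,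
    (∀ r, G.Adj x r → 1 ≤ h r ∧ h r ≤ G.degree x) ∧
    ∀ r, G.Adj x r → ∀ n : ℕ, (G.degree x : ℤ) * ex (τ x) r n z = n + h ((τ x)^[n] r) - h r := by
  obtain ⟨h, h1, h2⟩ := hτ.exists_h hz
  refine ⟨h, h1, ?_⟩
  intro r hr n
  induction n with
  | zero => simp [ex]
  | succ n ih =>
    have h3 := h2 _ (hτ.iter hr n)
    rw [show τ x ((τ x)^[n] r) = (τ x)^[n + 1] r from (Function.iterate_succ_apply' _ _ _).symm] at h3
    have h4 : ex (τ x) r (n + 1) z = ex (τ x) r n z + if (τ x)^[n + 1] r = z then 1 else 0 := rfl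
    rw [h4]
    push_cast
    rw [mul_add, ih]
    split_ifs at h3 ⊢ <;> linarith

variable (G) (τ) (a : V)

/-- Inflow at `y` when `n` chips start at `a` and `e x` exits are made at each `x`. -/
def Inn (ρ : V → V) (n : ℕ) (e : V → ℕ) (y : V) : ℕ :=
  (if y = a then n else 0) + ∑ x ∈ G.neighborFinset y, ex (τ x) (ρ x) (e x) y

/-- Super-solutions in the finite volume `W`. -/
def SupS (W : Finset V) (ρ : V → V) (n : ℕ) : Set (V → ℕ) :=
  {e | (∀ x ∉ W, e x = 0) ∧ ∀ y ∈ W, Inn G τ a ρ n e y ≤ e y}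

/-- The odometer of `n` chips in the finite volume `W`. -/
noncomputable def S (W : Finset V) (ρ : V → V) (n : ℕ) (x : V) : ℕ :=
  sInf {k | ∃ e ∈ SupS G τ a W ρ n, e x = k}

/-- The final rotor configuration. -/
noncomputable def T (W : Finset V) (n : ℕ) (ρ : V → V) (x : V) : V := (τ x)^[S G τ a W ρ n x] (ρ x)

variable {G τ a}

lemma Inn_mono {ρ : V → V} {n n' : ℕ} {e e' : V → ℕ} (hn : n ≤ n') (he : ∀ x, e x ≤ e' x) (y : V) :
    Inn G τ a ρ n e y ≤ Inn G τ a ρ n' e' y := by
  unfold Inn
  apply add_le_add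
  · split_ifs
    · exact hn
    · exact le_rfl
  · exact Finset.sum_le_sum fun x _ => ex_mono _ _ _ (he x)

lemma Inn_add (ρ : V → V) (m n : ℕ) (e e' : V → ℕ) (y : V) :
    Inn G τ a ρ (m + n) (fun x => e x + e' x) y =
      Inn G τ a ρ m e y + Inn G τ a (fun x => (τ x)^[e x] (ρ x)) n e' y := by
  unfold Inn
  simp only [ex_add, Finset.sum_add_distrib]
  split_ifs <;> omega

lemma S_le {W : Finset V} {ρ : V → V} {n : ℕ} {e : V → ℕ} (he : e ∈ SupS G τ a W ρ n) (x : V) :
    S G τ a W ρ n x ≤ e x := Nat.sInf_le ⟨e, he, rfl⟩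

lemma S_mem {W : Finset V} {ρ : V → V} {n : ℕ} (h : (SupS G τ a W ρ n).Nonempty) :
    S G τ a W ρ n ∈ SupS G τ a W ρ n := by
  have hx : ∀ x, ∃ e ∈ SupS G τ a W ρ n, e x = S G τ a W ρ n x := by
    intro x
    obtain ⟨e, he⟩ := h
    exact Nat.sInf_mem (s := {k | ∃ e ∈ SupS G τ a W ρ n, e x = k}) ⟨e x, e, he, rfl⟩
  constructor
  · intro x hxW
    obtain ⟨e, he, hex⟩ := hx x
    rw [← hex]; exact he.1 x hxW
  · intro y hy
    obtain ⟨e, he, hey⟩ := hx y
    calc Inn G τ a ρ n (S G τ a W ρ n) y ≤ Inn G τ a ρ n e y := Inn_mono le_rfl (S_le he) y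
      _ ≤ e y := he.2 y hy
      _ = _ := hey

lemma S_eq {W : Finset V} {ρ : V → V} {n : ℕ} (h : (SupS G τ a W ρ n).Nonempty) {y : V}
    (hy : y ∈ W) : Inn G τ a ρ n (S G τ a W ρ n) y = S G τ a W ρ n y := by
  have hm := S_mem h
  by_contra hne
  have hlt : Inn G τ a ρ n (S G τ a W ρ n) y < S G τ a W ρ n y := lt_of_le_of_ne (hm.2 y hy) hne
  set e' : V → ℕ := Function.update (S G τ a W ρ n) y (S G τ a W ρ n y - 1) with he'
  have hle : ∀ x, e' x ≤ S G τ a W ρ n x := by
    intro x
    by_cases hx : x = y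
    · subst hx; rw [he', Function.update_self]; omega
    · rw [he', Function.update_of_ne hx]
  have hmem : e' ∈ SupS G τ a W ρ n := by
    constructor
    · intro x hx
      have := hm.1 x hx
      have := hle x
      omega
    · intro y' hy'
      have h1 := Inn_mono (G := G) (τ := τ) (a := a) (ρ := ρ) (n := n) le_rfl hle y'
      by_cases hyy : y' = y
      · subst hyy
        rw [he', Function.update_self] at *
        omega
      · have h2 : e' y' = S G τ a W ρ n y' := by rw [he', Function.update_of_ne hyy]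
        rw [h2]
        exact h1.trans (hm.2 y' hy')
  have := S_le hmem y
  rw [he', Function.update_self] at this
  omega

lemma SupS_anti {W : Finset V} {ρ : V → V} {n n' : ℕ} (h : n ≤ n') :
    SupS G τ a W ρ n' ⊆ SupS G τ a W ρ n := fun _ he =>
  ⟨he.1, fun y hy => (Inn_mono h (fun _ => le_rfl) y).trans (he.2 y hy)⟩

lemma S_mono_n {W : Finset V} {ρ : V → V} {n n' : ℕ} (h : n ≤ n')
    (hne : (SupS G τ a W ρ n').Nonempty) (x : V) : S G τ a W ρ n x ≤ S G τ a W ρ n' x :=
  S_le (SupS_anti h (S_mem hne)) x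

lemma S_mono_W {W W' : Finset V} {ρ : V → V} {n : ℕ} (h : W ⊆ W')
    (hne : (SupS G τ a W' ρ n).Nonempty) (x : V) : S G τ a W ρ n x ≤ S G τ a W' ρ n x := by
  have hm := S_mem hne
  have hmem : (fun x => if x ∈ W then S G τ a W' ρ n x else 0) ∈ SupS G τ a W ρ n := by
    constructor
    · intro x hx; simp [hx]
    · intro y hy
      simp only [hy, if_true]
      refine (Inn_mono le_rfl (fun x => ?_) y).trans (hm.2 y (h hy))
      split_ifs
      · exact le_rfl
      · exact Nat.zero_le _
  refine (S_le hmem x).trans ?_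
  show (if x ∈ W then S G τ a W' ρ n x else 0) ≤ _
  split_ifs
  · exact le_rfl
  · exact Nat.zero_le _

lemma SupS_congr {W : Finset V} {ρ ρ' : V → V} {n : ℕ} (h : ∀ x ∈ W, ρ x = ρ' x) :
    SupS G τ a W ρ n = SupS G τ a W ρ' n := by
  ext e
  have h1 : (∀ x ∉ W, e x = 0) → ∀ y, Inn G τ a ρ n e y = Inn G τ a ρ' n e y := by
    intro h0 y
    unfold Inn
    congr 1
    apply Finset.sum_congr rfl
    intro x _
    by_cases hx : x ∈ W
    · rw [h x hx]
    · rw [h0 x hx]; rfl
  constructor
  · rintro ⟨h0, h2⟩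
    exact ⟨h0, fun y hy => by rw [← h1 h0 y]; exact h2 y hy⟩
  · rintro ⟨h0, h2⟩
    exact ⟨h0, fun y hy => by rw [h1 h0 y]; exact h2 y hy⟩

lemma S_congr {W : Finset V} {ρ ρ' : V → V} {n : ℕ} (h : ∀ x ∈ W, ρ x = ρ' x) :
    S G τ a W ρ n = S G τ a W ρ' n := by
  funext x
  unfold S
  rw [SupS_congr h]

lemma S_cocycle {W : Finset V} {ρ : V → V} {m n : ℕ}
    (h1 : (SupS G τ a W ρ m).Nonempty) (h2 : (SupS G τ a W (T G τ a W m ρ) n).Nonempty)
    (h3 : (SupS G τ a W ρ (m + n)).Nonempty) (x : V) :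
    S G τ a W ρ (m + n) x = S G τ a W ρ m x + S G τ a W (T G τ a W m ρ) n x := by
  have hT : (fun x => (τ x)^[S G τ a W ρ m x] (ρ x)) = T G τ a W m ρ := rfl
  apply le_antisymm
  · apply S_le (e := fun x => S G τ a W ρ m x + S G τ a W (T G τ a W m ρ) n x)
    constructor
    · intro x hx
      show S G τ a W ρ m x + S G τ a W (T G τ a W m ρ) n x = 0
      rw [(S_mem h1).1 x hx, (S_mem h2).1 x hx]
    · intro y hy
      rw [Inn_add, hT, S_eq h1 hy, S_eq h2 hy]
  · have hle : ∀ x, S G τ a W ρ m x ≤ S G τ a W ρ (m + n) x := S_mono_n (Nat.le_add_right m n) h3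
    have hmem : (fun x => S G τ a W ρ (m + n) x - S G τ a W ρ m x) ∈ SupS G τ a W (T G τ a W m ρ) n := by
      constructor
      · intro x hx
        show S G τ a W ρ (m + n) x - S G τ a W ρ m x = 0
        rw [(S_mem h3).1 x hx]; omega
      · intro y hy
        have h4 := Inn_add (G := G) (a := a) (τ := τ) ρ m n (S G τ a W ρ m)
          (fun x => S G τ a W ρ (m + n) x - S G τ a W ρ m x) y
        have h5 : (fun x => S G τ a W ρ m x + (S G τ a W ρ (m + n) x - S G τ a W ρ m x)) =
            S G τ a W ρ (m + n) := by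
          funext x
          have := hle x
          omega
        rw [hT, h5, S_eq h3 hy, S_eq h1 hy] at h4
        have := hle y
        show Inn G τ a (T G τ a W m ρ) n (fun x => S G τ a W ρ (m + n) x - S G τ a W ρ m x) y ≤
          S G τ a W ρ (m + n) y - S G τ a W ρ m y
        omega
    have h6 := S_le hmem x
    have h7 := hle x
    have h8 : S G τ a W (T G τ a W m ρ) n x ≤ S G τ a W ρ (m + n) x - S G τ a W ρ m x := h6
    omega

/-- No invariant subset of `W`. -/
def Acyc (W : Finset V) (ρ : V → V) : Prop := ∀ D ⊆ W, (∀ x ∈ D, ρ x ∈ D) → D = ∅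

/-- Final configurations stay acyclic. -/
lemma acyc_T (hτ : Mech G τ) {W : Finset V} {ρ : V → V} (hv : ∀ x ∈ W, G.Adj x (ρ x))
    (hac : Acyc W ρ) {n : ℕ} (h : (SupS G τ a W ρ n).Nonempty) : Acyc W (T G τ a W n ρ) := by
  by_contra hcon
  unfold Acyc at hcon
  push Not at hcon
  have hP : ∃ k, ∃ D : Finset V, D ⊆ W ∧ (∀ x ∈ D, T G τ a W n ρ x ∈ D) ∧ D ≠ ∅ ∧ D.card = k := by
    obtain ⟨D, h1, h2, h3⟩ := hcon
    exact ⟨D.card, D, h1, h2, Finset.nonempty_iff_ne_empty.1 h3, rfl⟩
  classical
  obtain ⟨D, hDW, hDinv, hDne, hDcard⟩ := Nat.find_spec hP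
  have hmin : ∀ D' : Finset V, D' ⊆ D → (∀ x ∈ D', T G τ a W n ρ x ∈ D') → D' ≠ ∅ → D' = D := by
    intro D' h1 h2 h3
    apply Finset.eq_of_subset_of_card_le h1
    rw [hDcard]
    exact Nat.find_min' hP ⟨D', h1.trans hDW, h2, h3, rfl⟩
  have hTadj : ∀ x ∈ W, G.Adj x (T G τ a W n ρ x) := fun x hx => hτ.iter (hv x hx) _
  set D0 := D.filter (fun x => 0 < S G τ a W ρ n x) with hD0
  have hD0inv : ∀ x ∈ D0, T G τ a W n ρ x ∈ D0 := by
    intro x hx
    rw [hD0, Finset.mem_filter] at hx
    rw [hD0, Finset.mem_filter]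
    refine ⟨hDinv x hx.1, ?_⟩
    rw [← S_eq h (hDW (hDinv x hx.1))]
    unfold Inn
    have h1 : 0 < ex (τ x) (ρ x) (S G τ a W ρ n x) (T G τ a W n ρ x) := ex_pos _ _ hx.2
    have h2 : ex (τ x) (ρ x) (S G τ a W ρ n x) (T G τ a W n ρ x) ≤
        ∑ x' ∈ G.neighborFinset (T G τ a W n ρ x),
          ex (τ x') (ρ x') (S G τ a W ρ n x') (T G τ a W n ρ x) :=
      Finset.single_le_sum (f := fun x' => ex (τ x') (ρ x') (S G τ a W ρ n x') (T G τ a W n ρ x))
        (fun _ _ => Nat.zero_le _) (by
          rw [SimpleGraph.mem_neighborFinset]; exact (hTadj x (hDW hx.1)).symm)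
    omega
  by_cases h0 : D0 = ∅
  · apply hDne
    apply hac D hDW
    intro x hx
    have h1 : S G τ a W ρ n x = 0 := by
      by_contra hne
      have : x ∈ D0 := by rw [hD0, Finset.mem_filter]; exact ⟨hx, Nat.pos_of_ne_zero hne⟩
      rw [h0] at this
      exact absurd this (Finset.notMem_empty x)
    have h2 := hDinv x hx
    unfold T at h2
    rw [h1] at h2
    exact h2
  · have hD0D : D0 = D := hmin D0 (Finset.filter_subset _ _) hD0inv h0
    have hSpos : ∀ x ∈ D, 0 < S G τ a W ρ n x := by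
      intro x hx
      rw [← hD0D, hD0, Finset.mem_filter] at hx
      exact hx.2
    have hsurj : ∀ y ∈ D, ∃ x ∈ D, T G τ a W n ρ x = y := by
      have himg : D.image (T G τ a W n ρ) = D := by
        apply hmin
        · intro y hy
          rw [Finset.mem_image] at hy
          obtain ⟨x, hx, rfl⟩ := hy
          exact hDinv x hx
        · intro y hy
          rw [Finset.mem_image] at hy
          obtain ⟨x, hx, rfl⟩ := hy
          exact Finset.mem_image_of_mem _ (hDinv x hx)
        · rw [Ne, Finset.image_eq_empty]; exact hDne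
      intro y hy
      rw [← himg, Finset.mem_image] at hy
      exact hy
    set e : V → ℕ := fun x => S G τ a W ρ n x - (if x ∈ D then 1 else 0) with he
    have hle : ∀ x, e x ≤ S G τ a W ρ n x := fun x => Nat.sub_le _ _
    have hmem : e ∈ SupS G τ a W ρ n := by
      constructor
      · intro x hx
        have := (S_mem h).1 x hx
        have := hle x
        omega
      · intro y hy
        by_cases hyD : y ∈ D
        · obtain ⟨x0, hx0, hx0y⟩ := hsurj y hyD
          have hadj : x0 ∈ G.neighborFinset y := by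
            rw [SimpleGraph.mem_neighborFinset, ← hx0y]
            exact (hTadj x0 (hDW hx0)).symm
          have h1 : ex (τ x0) (ρ x0) (e x0) y + 1 ≤ ex (τ x0) (ρ x0) (S G τ a W ρ n x0) y := by
            have h2 : S G τ a W ρ n x0 = e x0 + 1 := by
              have := hSpos x0 hx0
              simp only [he, if_pos hx0]
              omega
            have h3 : (τ x0)^[e x0 + 1] (ρ x0) = y := by rw [← h2]; exact hx0y
            rw [h2]
            show _ ≤ ex (τ x0) (ρ x0) (e x0) y + if (τ x0)^[e x0 + 1] (ρ x0) = y then 1 else 0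
            rw [if_pos h3]
          have h4 : ∑ x ∈ G.neighborFinset y, ex (τ x) (ρ x) (e x) y <
              ∑ x ∈ G.neighborFinset y, ex (τ x) (ρ x) (S G τ a W ρ n x) y :=
            Finset.sum_lt_sum (fun x _ => ex_mono _ _ _ (hle x)) ⟨x0, hadj, by omega⟩
          have h5 := S_eq h hy
          unfold Inn at h5 ⊢
          have h6 : e y = S G τ a W ρ n y - 1 := by simp only [he, if_pos hyD]
          rw [h6]
          omega
        · have h6 : e y = S G τ a W ρ n y := by simp only [he, if_neg hyD]; omega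
          rw [h6]
          exact (Inn_mono le_rfl hle y).trans (S_mem h |>.2 y hy)
    obtain ⟨x, hx⟩ := Finset.nonempty_iff_ne_empty.2 hDne
    have h7 := S_le hmem x
    have h8 : e x = S G τ a W ρ n x - 1 := by simp only [he, if_pos hx]
    have := hSpos x hx
    omega

/-- Uniqueness: an exact solution with acyclic final configuration is the odometer. -/
lemma eq_S_of_acyc {W : Finset V} {ρ : V → V} {n : ℕ} {e : V → ℕ} (h0 : ∀ x ∉ W, e x = 0)
    (heq : ∀ y ∈ W, Inn G τ a ρ n e y = e y) (hac : Acyc W (fun x => (τ x)^[e x] (ρ x))) :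
    S G τ a W ρ n = e := by
  have hmem : e ∈ SupS G τ a W ρ n := ⟨h0, fun y hy => (heq y hy).le⟩
  have hle := S_le hmem
  have hne : (SupS G τ a W ρ n).Nonempty := ⟨e, hmem⟩
  set D := W.filter (fun x => S G τ a W ρ n x < e x) with hD
  have hDempty : D = ∅ := by
    apply hac D (Finset.filter_subset _ _)
    intro x1 hx1
    by_contra hx1D
    set κ : V → ℕ := fun x => e x - S G τ a W ρ n x with hκ
    set q : V → V → ℕ := fun x y => ex (τ x) ((τ x)^[S G τ a W ρ n x] (ρ x)) (κ x) y with hq
    have hadd : ∀ x y, ex (τ x) (ρ x) (e x) y = ex (τ x) (ρ x) (S G τ a W ρ n x) y + q x y := by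
      intro x y
      rw [hq, ← ex_add]
      congr 1
      have := hle x
      simp only [hκ]
      omega
    have hflow : ∀ y ∈ D, κ y ≤ ∑ x ∈ D, q x y := by
      intro y hy
      have hyW : y ∈ W := Finset.filter_subset _ _ hy
      have h1 := heq y hyW
      have h2 := S_eq hne hyW
      unfold Inn at h1 h2
      simp only [hadd, Finset.sum_add_distrib] at h1
      have h3 : κ y = ∑ x ∈ G.neighborFinset y, q x y := by
        simp only [hκ]
        have := hle y
        omega
      rw [h3]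
      have h4 : ∑ x ∈ G.neighborFinset y, q x y =
          ∑ x ∈ (G.neighborFinset y).filter (fun x => x ∈ D), q x y := by
        symm
        apply Finset.sum_subset (Finset.filter_subset _ _)
        intro x _ hx
        have hxD : x ∉ D := fun hxD => hx (Finset.mem_filter.2 ⟨by assumption, hxD⟩)
        have hκ0 : κ x = 0 := by
          by_cases hxW : x ∈ W
          · have : ¬ S G τ a W ρ n x < e x := fun hlt => hxD (Finset.mem_filter.2 ⟨hxW, hlt⟩)
            simp only [hκ]; omega
          · simp only [hκ]; rw [h0 x hxW]; omega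
        simp only [hq]
        rw [hκ0]; rfl
      rw [h4]
      apply Finset.sum_le_sum_of_subset
      intro x hx
      exact (Finset.mem_filter.1 hx).2
    have hsum : ∑ y ∈ D, κ y ≤ ∑ x ∈ D, ∑ y ∈ D, q x y := by
      rw [Finset.sum_comm]
      exact Finset.sum_le_sum hflow
    have hlt : ∑ x ∈ D, ∑ y ∈ D, q x y < ∑ x ∈ D, κ x := by
      apply Finset.sum_lt_sum
      · intro x _
        exact ex_sum_le _ _ _ _
      · refine ⟨x1, hx1, ?_⟩
        apply ex_sum_lt
        · have := (Finset.mem_filter.1 hx1).2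
          simp only [hκ]; omega
        · rw [← Function.iterate_add_apply]
          have h5 : κ x1 + S G τ a W ρ n x1 = e x1 := by
            have := hle x1
            simp only [hκ]; omega
          rw [h5]
          exact hx1D
    omega
  funext x
  by_cases hx : x ∈ W
  · have : ¬ S G τ a W ρ n x < e x := fun hlt => by
      have : x ∈ D := Finset.mem_filter.2 ⟨hx, hlt⟩
      rw [hDempty] at this
      exact absurd this (Finset.notMem_empty x)
    have := hle x
    omega
  · have := hle x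
    rw [h0 x hx] at this ⊢
    omega

end Pool.Agent.H181.RW
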