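import Pool.Agent.H181.RwA

/-!
# Rotor walks: finite volume estimate (MP_42a48c_pr)
-/

open Finset

namespace Pool.Agent.H181.RW

variable {V : Type*} [DecidableEq V] {G : SimpleGraph V} [G.LocallyFinite] {τ : V → V → V} {a : V}

omit [DecidableEq V] in
/-- Maximum principle -/
lemma max_principle [Infinite V] (hc : G.Connected) {K : Type*} [Field K] [LinearOrder K]
    [IsStrictOrderedRing K] {W : Finset V} {w : V → K} (h0 : ∀ x ∉ W, w x ≤ 0)
    (h1 : ∀ y ∈ W, (G.degree y : K) * w y ≤ ∑ x ∈ G.neighborFinset y, w x) : ∀ y, w y ≤ 0 := by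
  by_contra hcon
  push Not at hcon
  obtain ⟨y0, hy0⟩ := hcon
  have hy0W : y0 ∈ W := by
    by_contra h
    exact absurd (h0 y0 h) (not_le.2 hy0)
  obtain ⟨m, hmW, hmax⟩ := W.exists_max_image w ⟨y0, hy0W⟩
  have hm0 : 0 < w m := hy0.trans_le (hmax y0 hy0W)
  have hall : ∀ y, w y ≤ w m := fun y => by
    by_cases hy : y ∈ W
    · exact hmax y hy
    · exact (h0 y hy).trans hm0.le
  have hprop : ∀ y, w y = w m → ∀ x, G.Adj y x → w x = w m := by
    intro y hy x hyx
    have hyW : y ∈ W := by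
      by_contra h
      have := h0 y h
      rw [hy] at this
      exact absurd this (not_le.2 hm0)
    by_contra hne
    have hlt : w x < w m := lt_of_le_of_ne (hall x) hne
    have h2 : ∑ x ∈ G.neighborFinset y, w x < ∑ x ∈ G.neighborFinset y, w m :=
      Finset.sum_lt_sum (fun x _ => hall x) ⟨x, by rwa [SimpleGraph.mem_neighborFinset], hlt⟩
    rw [Finset.sum_const, G.card_neighborFinset_eq_degree, nsmul_eq_mul] at h2
    have h3 := h1 y hyW
    rw [hy] at h3
    exact absurd h3 (not_le.2 h2)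
  have hwalk : ∀ (u v : V) (p : G.Walk u v), w u = w m → w v = w m := by
    intro u v p
    induction p with
    | nil => exact id
    | cons h p ih => intro hu; exact ih (hprop _ hu _ h)
  obtain ⟨z, hz⟩ := Infinite.exists_notMem_finset W
  obtain ⟨p⟩ := hc.preconnected m z
  have h2 := hwalk m z p rfl
  have h3 := h0 z hz
  rw [h2] at h3
  exact absurd h3 (not_le.2 hm0)

lemma exists_green [Infinite V] (hc : G.Connected) (W : Finset V) (a : V) :
    ∃ (c : ℕ) (g : V → ℕ), 0 < c ∧ (∀ x ∉ W, g x = 0) ∧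
    ∀ y ∈ W, G.degree y * g y = (if y = a then c else 0) + ∑ x ∈ G.neighborFinset y, g x := by
  classical
  set ext : (W → ℚ) → V → ℚ := fun g x => if h : x ∈ W then g ⟨x, h⟩ else 0 with hext
  have hextin : ∀ g (x : W), ext g x = g x := fun g x => by simp [hext]
  have hextout : ∀ g x, x ∉ W → ext g x = 0 := fun g x hx => by simp [hext, hx]
  have hextadd : ∀ g g' x, ext (g + g') x = ext g x + ext g' x := by
    intro g g' x
    by_cases h : x ∈ W <;> simp [hext, h]
  have hextsmul : ∀ (r : ℚ) g x, ext (r • g) x = r * ext g x := by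
    intro r g x
    by_cases h : x ∈ W <;> simp [hext, h]
  let L : (W → ℚ) →ₗ[ℚ] (W → ℚ) :=
    { toFun := fun g y => (G.degree (y : V) : ℚ) * g y - ∑ x ∈ G.neighborFinset (y : V), ext g x
      map_add' := by
        intro g g'
        funext y
        simp only [Pi.add_apply, hextadd, Finset.sum_add_distrib]
        ring
      map_smul' := by
        intro r g
        funext y
        simp only [Pi.smul_apply, smul_eq_mul, hextsmul, ← Finset.mul_sum, RingHom.id_apply]
        ring }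
  have hL : ∀ g (y : W), L g y = (G.degree (y : V) : ℚ) * g y - ∑ x ∈ G.neighborFinset (y : V), ext g x :=
    fun _ _ => rfl
  have hneg : ∀ g : W → ℚ, (∀ y : W, L g y ≤ 0) → ∀ y : W, g y ≤ 0 := by
    intro g hg y
    rw [← hextin g y]
    apply max_principle hc (W := W) (w := ext g)
    · intro x hx; rw [hextout g x hx]
    · intro z hz
      have h1 := hg ⟨z, hz⟩
      rw [hL] at h1
      have h2 := hextin g ⟨z, hz⟩
      simp only at h1 h2
      rw [h2]
      linarith
  have hinj : Function.Injective L := by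
    rw [← LinearMap.ker_eq_bot, LinearMap.ker_eq_bot']
    intro g hg
    have h1 := hneg g (fun y => by rw [hg]; exact le_rfl)
    have h2 := hneg (-g) (fun y => by rw [map_neg, hg, neg_zero]; exact le_rfl)
    funext y
    have h3 := h1 y
    have h4 := h2 y
    simp only [Pi.neg_apply] at h4
    have : g y = 0 := by linarith
    exact this
  obtain ⟨g, hg⟩ := (LinearMap.injective_iff_surjective.1 hinj) (fun y => if (y : V) = a then 1 else 0)
  have hg0 : ∀ y : W, 0 ≤ g y := by
    intro y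
    have h2 := hneg (-g) (fun y => by
      rw [map_neg, hg]
      simp only [Pi.neg_apply]
      split_ifs <;> norm_num) y
    simp only [Pi.neg_apply] at h2
    linarith
  set c : ℕ := ∏ x : W, (g x).den with hcdef
  have hcpos : 0 < c := Finset.prod_pos fun x _ => (g x).den_pos
  have hk : ∀ x : V, ∃ k : ℕ, (k : ℚ) = c * ext g x := by
    intro x
    by_cases hx : x ∈ W
    · obtain ⟨c', hc'⟩ : (g ⟨x, hx⟩).den ∣ c := Finset.dvd_prod_of_mem _ (Finset.mem_univ _)
      refine ⟨c' * (g ⟨x, hx⟩).num.toNat, ?_⟩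
      have h1 : ((g ⟨x, hx⟩).num.toNat : ℤ) = (g ⟨x, hx⟩).num :=
        Int.toNat_of_nonneg (Rat.num_nonneg.2 (hg0 _))
      have h2 : (((g ⟨x, hx⟩).num.toNat : ℕ) : ℚ) = ((g ⟨x, hx⟩).num : ℚ) := by exact_mod_cast h1
      have h3 := hextin g ⟨x, hx⟩
      simp only at h3
      rw [h3, hc']
      push_cast
      rw [h2, ← Rat.mul_den_eq_num]
      ring
    · exact ⟨0, by rw [hextout g x hx]; simp⟩
  choose k hk using hk
  refine ⟨c, k, hcpos, ?_, ?_⟩
  · intro x hx
    have := hk x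
    rw [hextout g x hx, mul_zero] at this
    exact_mod_cast this
  · intro y hy
    have h1 : L g ⟨y, hy⟩ = if y = a then 1 else 0 := by rw [hg]
    rw [hL] at h1
    have h2 := hextin g ⟨y, hy⟩
    simp only at h1 h2
    have h3 : (G.degree y : ℚ) * k y = (if y = a then (c : ℚ) else 0) +
        ∑ x ∈ G.neighborFinset y, (k x : ℚ) := by
      simp only [hk, ← Finset.mul_sum]
      rw [h2]
      have h4 : (G.degree y : ℚ) * g ⟨y, hy⟩ = (if y = a then 1 else 0) +
        ∑ x ∈ G.neighborFinset y, ext g x := by linarith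
      calc (G.degree y : ℚ) * (c * g ⟨y, hy⟩) = c * ((G.degree y : ℚ) * g ⟨y, hy⟩) := by ring
        _ = _ := by rw [h4]; split_ifs <;> ring
    exact_mod_cast h3

lemma Inn_green (hτ : Mech G τ) {W : Finset V} {ρ : V → V} (hv : ∀ x ∈ W, G.Adj x (ρ x))
    {c : ℕ} {g : V → ℕ} (hg0 : ∀ x ∉ W, g x = 0)
    (hg : ∀ y ∈ W, G.degree y * g y = (if y = a then c else 0) + ∑ x ∈ G.neighborFinset y, g x)
    (k : ℕ) : ∀ y ∈ W, Inn G τ a ρ (k * c) (fun x => G.degree x * (k * g x)) y =
      G.degree y * (k * g y) := by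
  intro y hy
  unfold Inn
  have h1 : ∀ x ∈ G.neighborFinset y, ex (τ x) (ρ x) (G.degree x * (k * g x)) y = k * g x := by
    intro x hx
    rw [SimpleGraph.mem_neighborFinset] at hx
    by_cases hxW : x ∈ W
    · obtain ⟨h, _, h2⟩ := hτ.ex_formula hx.symm
      have h3 := h2 (ρ x) (hv x hxW) (G.degree x * (k * g x))
      rw [hτ.per_mul (hv x hxW)] at h3
      have hd : 0 < G.degree x := by
        rw [← G.card_neighborFinset_eq_degree]
        exact Finset.card_pos.2 ⟨y, by rw [SimpleGraph.mem_neighborFinset]; exact hx.symm⟩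
      have h4 : (G.degree x : ℤ) * ex (τ x) (ρ x) (G.degree x * (k * g x)) y =
          (G.degree x : ℤ) * ((k * g x : ℕ) : ℤ) := by
        rw [h3]; push_cast; ring
      have h5 := mul_left_cancel₀ (by exact_mod_cast hd.ne' : (G.degree x : ℤ) ≠ 0) h4
      exact_mod_cast h5
    · rw [hg0 x hxW]; rfl
  rw [Finset.sum_congr rfl h1, ← Finset.mul_sum]
  have h2 := hg y hy
  calc (if y = a then k * c else 0) + k * ∑ x ∈ G.neighborFinset y, g x
      = k * ((if y = a then c else 0) + ∑ x ∈ G.neighborFinset y, g x) := by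
        split_ifs <;> ring
    _ = _ := by rw [← h2]; ring

lemma SupS_nonempty [Infinite V] (hc : G.Connected) (hτ : Mech G τ) {W : Finset V} {ρ : V → V}
    (hv : ∀ x ∈ W, G.Adj x (ρ x)) (n : ℕ) : (SupS G τ a W ρ n).Nonempty := by
  obtain ⟨c, g, hc0, hg0, hg⟩ := exists_green hc W a
  refine ⟨fun x => G.degree x * (n * g x), SupS_anti (n' := n * c) (Nat.le_mul_of_pos_right n hc0)
    ⟨fun x hx => by simp [hg0 x hx], fun y hy => (Inn_green hτ hv hg0 hg n y hy).le⟩⟩

omit [DecidableEq V] in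
lemma acyc_iff {W : Finset V} {ρ : V → V} : (∀ x ∈ W, ∃ k : ℕ, ρ^[k] x ∉ W) ↔ Acyc W ρ := by
  classical
  constructor
  · intro h D hD hinv
    by_contra hne
    obtain ⟨x, hx⟩ := Finset.nonempty_iff_ne_empty.2 hne
    obtain ⟨k, hk⟩ := h x (hD hx)
    have : ∀ k, ρ^[k] x ∈ D := by
      intro k
      induction k with
      | zero => exact hx
      | succ k ih => rw [Function.iterate_succ_apply']; exact hinv _ ih
    exact hk (hD (this k))
  · intro h x hx
    by_contra hcon
    push Not at hcon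
    have h1 := h (W.filter (fun x => ∀ k : ℕ, ρ^[k] x ∈ W)) (Finset.filter_subset _ _) (by
      intro y hy
      rw [Finset.mem_filter] at hy ⊢
      exact ⟨hy.2 1, fun k => by have := hy.2 (k + 1); rwa [Function.iterate_succ_apply] at this⟩)
    have h2 : x ∈ W.filter (fun x => ∀ k : ℕ, ρ^[k] x ∈ W) := Finset.mem_filter.2 ⟨hx, hcon⟩
    rw [h1] at h2
    exact absurd h2 (Finset.notMem_empty x)

variable (G)

omit [DecidableEq V] [G.LocallyFinite] in
/-- The spanning forests oriented to the complement of `W` (identity off `W`). -/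
def Forests (W : Finset V) : Set (V → V) :=
  {ρ | (∀ x ∈ W, G.Adj x (ρ x)) ∧ (∀ x ∉ W, ρ x = x) ∧ ∀ x ∈ W, ∃ k : ℕ, ρ^[k] x ∉ W}

omit [DecidableEq V] in
lemma conf_finite (W : Finset V) :
    {ρ : V → V | (∀ x ∈ W, G.Adj x (ρ x)) ∧ ∀ x ∉ W, ρ x = x}.Finite := by
  classical
  have hinj : Set.InjOn (fun (ρ : V → V) (x : W) => ρ x)
      {ρ : V → V | (∀ x ∈ W, G.Adj x (ρ x)) ∧ ∀ x ∉ W, ρ x = x} := by
    intro ρ h1 ρ' h2 h
    funext x
    by_cases hx : x ∈ W
    · exact congrFun h ⟨x, hx⟩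
    · rw [h1.2 x hx, h2.2 x hx]
  apply Set.Finite.of_finite_image _ hinj
  apply Set.Finite.subset (Fintype.piFinset (fun x : W => G.neighborFinset (x : V))).finite_toSet
  rintro _ ⟨ρ, h, rfl⟩
  rw [Finset.mem_coe, Fintype.mem_piFinset]
  intro x
  rw [SimpleGraph.mem_neighborFinset]
  exact h.1 x x.2

omit [DecidableEq V] in
lemma forests_finite (W : Finset V) : (Forests G W).Finite :=
  (conf_finite G W).subset fun _ h => ⟨h.1, h.2.1⟩

variable {G}

lemma T_forest [Infinite V] (hc : G.Connected) (hτ : Mech G τ) {W : Finset V} {ρ : V → V}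
    (hρ : ρ ∈ Forests G W) (n : ℕ) : T G τ a W n ρ ∈ Forests G W := by
  have hne := SupS_nonempty (a := a) hc hτ hρ.1 n
  refine ⟨fun x hx => hτ.iter (hρ.1 x hx) _, ?_, ?_⟩
  · intro x hx
    unfold T
    rw [(S_mem hne).1 x hx]
    exact hρ.2.1 x hx
  · rw [acyc_iff]
    exact acyc_T hτ hρ.1 (acyc_iff.1 hρ.2.2) hne

lemma S_add [Infinite V] (hc : G.Connected) (hτ : Mech G τ) {W : Finset V} {ρ : V → V}
    (hρ : ρ ∈ Forests G W) (m n : ℕ) (x : V) :
    S G τ a W ρ (m + n) x = S G τ a W ρ m x + S G τ a W (T G τ a W m ρ) n x :=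
  S_cocycle (SupS_nonempty hc hτ hρ.1 m) (SupS_nonempty hc hτ (T_forest hc hτ hρ m).1 n)
    (SupS_nonempty hc hτ hρ.1 (m + n)) x

lemma T_add [Infinite V] (hc : G.Connected) (hτ : Mech G τ) {W : Finset V} {ρ : V → V}
    (hρ : ρ ∈ Forests G W) (m n : ℕ) :
    T G τ a W (m + n) ρ = T G τ a W n (T G τ a W m ρ) := by
  funext x
  show (τ x)^[S G τ a W ρ (m + n) x] (ρ x) =
    (τ x)^[S G τ a W (T G τ a W m ρ) n x] ((τ x)^[S G τ a W ρ m x] (ρ x))
  rw [S_add hc hτ hρ, ← Function.iterate_add_apply, add_comm]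

lemma S_green [Infinite V] (hτ : Mech G τ) {W : Finset V} {ρ : V → V}
    (hρ : ρ ∈ Forests G W) {c : ℕ} {g : V → ℕ} (hg0 : ∀ x ∉ W, g x = 0)
    (hg : ∀ y ∈ W, G.degree y * g y = (if y = a then c else 0) + ∑ x ∈ G.neighborFinset y, g x)
    (k : ℕ) : S G τ a W ρ (k * c) = (fun x => G.degree x * (k * g x)) ∧ T G τ a W (k * c) ρ = ρ := by
  have hfix : (fun x => (τ x)^[G.degree x * (k * g x)] (ρ x)) = ρ := by
    funext x
    by_cases hx : x ∈ W
    · exact hτ.per_mul (hρ.1 x hx) _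
    · rw [hg0 x hx]; rfl
  have hS : S G τ a W ρ (k * c) = (fun x => G.degree x * (k * g x)) := by
    apply eq_S_of_acyc
    · intro x hx; simp [hg0 x hx]
    · exact Inn_green hτ hρ.1 hg0 hg k
    · rw [hfix]; exact acyc_iff.1 hρ.2.2
  refine ⟨hS, ?_⟩
  show (fun x => (τ x)^[S G τ a W ρ (k * c) x] (ρ x)) = ρ
  rw [hS]
  exact hfix

lemma T_iter [Infinite V] (hc : G.Connected) (hτ : Mech G τ) {W : Finset V} {ρ : V → V}
    (hρ : ρ ∈ Forests G W) (n k : ℕ) : (T G τ a W n)^[k] ρ = T G τ a W (k * n) ρ := by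
  induction k with
  | zero =>
    have h0 : S G τ a W ρ 0 = fun _ => 0 := by
      funext x
      have : (fun _ => 0 : V → ℕ) ∈ SupS G τ a W ρ 0 := by
        refine ⟨fun _ _ => rfl, fun y _ => ?_⟩
        unfold Inn
        simp [ex]
      exact Nat.le_zero.1 (S_le this x)
    rw [zero_mul]
    show ρ = fun x => (τ x)^[S G τ a W ρ 0 x] (ρ x)
    rw [h0]
    rfl
  | succ k ih => rw [Function.iterate_succ_apply', ih, Nat.succ_mul, T_add hc hτ hρ]

lemma T_sum [Infinite V] (hc : G.Connected) (hτ : Mech G τ) (W : Finset V) (n : ℕ)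
    (φ : (V → V) → ℝ) : ∑ ρ ∈ (forests_finite G W).toFinset, φ (T G τ a W n ρ) =
      ∑ ρ ∈ (forests_finite G W).toFinset, φ ρ := by
  obtain ⟨c, g, hc0, hg0, hg⟩ := exists_green hc W a
  have hret : ∀ ρ ∈ Forests G W, (T G τ a W n)^[c] ρ = ρ := by
    intro ρ hρ
    rw [T_iter hc hτ hρ, mul_comm]
    exact (S_green hτ hρ hg0 hg n).2
  obtain ⟨c', rfl⟩ : ∃ c', c = c' + 1 := ⟨c - 1, by omega⟩
  apply Finset.sum_nbij (T G τ a W n)
  · intro ρ hρ
    rw [Set.Finite.mem_toFinset] at hρ ⊢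
    exact T_forest hc hτ hρ n
  · intro ρ hρ ρ' hρ' h
    rw [Finset.mem_coe, Set.Finite.mem_toFinset] at hρ hρ'
    have h1 := hret ρ hρ
    have h2 := hret ρ' hρ'
    rw [Function.iterate_succ_apply] at h1 h2
    rw [← h1, ← h2, h]
  · intro ρ hρ
    rw [Finset.mem_coe, Set.Finite.mem_toFinset] at hρ
    refine ⟨(T G τ a W n)^[c'] ρ, ?_, ?_⟩
    · rw [Finset.mem_coe, Set.Finite.mem_toFinset, T_iter hc hτ hρ]
      exact T_forest hc hτ hρ _
    · have h1 := hret ρ hρ
      rw [Function.iterate_succ_apply'] at h1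
      exact h1
  · intro ρ _; rfl

/-! ### Green function -/

variable (G) (a)

/-- Law of the simple random walk from `a` at time `t`. -/
noncomputable def pf : ℕ → V → ℝ
  | 0 => fun y => if y = a then 1 else 0
  | t + 1 => fun y => ∑ x ∈ G.neighborFinset y, pf t x / G.degree x

/-- The Green function. -/
noncomputable def Gr (y : V) : ℝ := ∑' t, pf G a t y

/-- Error terms. -/
noncomputable def cf : ℕ → V → ℝ
  | 0 => fun _ => 0
  | t + 1 => fun y => G.degree y + ∑ x ∈ G.neighborFinset y, cf t x / G.degree x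

/-- `y` is at depth at least `t` in `W`. -/
def Deep (W : Finset V) : ℕ → V → Prop
  | 0 => fun _ => True
  | t + 1 => fun y => y ∈ W ∧ ∀ x, G.Adj y x → Deep W t x

variable {G} {a}

lemma pf_nonneg (t : ℕ) : ∀ y, 0 ≤ pf G a t y := by
  induction t with
  | zero => intro y; unfold pf; split_ifs <;> norm_num
  | succ t ih => intro y; exact Finset.sum_nonneg fun x _ => div_nonneg (ih x) (by positivity)

lemma Gr_eq (hs : ∀ y, Summable (fun t => pf G a t y)) (y : V) :
    Gr G a y = (if y = a then 1 else 0) + ∑ x ∈ G.neighborFinset y, Gr G a x / G.degree x := by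
  unfold Gr
  rw [(hs y).tsum_eq_zero_add]
  congr 1
  have : ∀ t, pf G a (t + 1) y = ∑ x ∈ G.neighborFinset y, pf G a t x / G.degree x := fun _ => rfl
  simp only [this]
  rw [Summable.tsum_finsetSum fun x _ => (hs x).div_const _]
  exact Finset.sum_congr rfl fun x _ => tsum_div_const

lemma green_le [Infinite V] (hc : G.Connected) (hs : ∀ y, Summable (fun t => pf G a t y))
    {W : Finset V} {c : ℕ} {g : V → ℕ} (hg0 : ∀ x ∉ W, g x = 0)
    (hg : ∀ y ∈ W, G.degree y * g y = (if y = a then c else 0) + ∑ x ∈ G.neighborFinset y, g x)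
    (x : V) : ((G.degree x * g x : ℕ) : ℝ) ≤ c * Gr G a x := by
  have hd : ∀ v, 0 < G.degree v := fun v => hc.preconnected.degree_pos_of_nontrivial v
  have hGr0 : ∀ y, 0 ≤ Gr G a y := fun y => tsum_nonneg fun t => pf_nonneg t y
  have h := max_principle hc (K := ℝ) (W := W) (w := fun x => (g x : ℝ) - c * (Gr G a x / G.degree x))
    (by
      intro x hx
      rw [hg0 x hx]
      have := hGr0 x
      simp only [Nat.cast_zero, zero_sub, Left.neg_nonpos_iff]
      positivity)
    (by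
      intro y hy
      have hdy : (0 : ℝ) < G.degree y := by exact_mod_cast hd y
      have h1 : ((G.degree y : ℕ) : ℝ) * g y = (if y = a then (c : ℝ) else 0) +
          ∑ x ∈ G.neighborFinset y, (g x : ℝ) := by exact_mod_cast hg y hy
      have h2 := Gr_eq hs y
      rw [Finset.sum_sub_distrib, ← Finset.mul_sum]
      have h3 : (G.degree y : ℝ) * ((g y : ℝ) - c * (Gr G a y / G.degree y)) =
          G.degree y * g y - c * Gr G a y := by field_simp
      rw [h3, h1, h2]
      split_ifs <;> linarith) x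
  have hdx : (0 : ℝ) < G.degree x := by exact_mod_cast hd x
  have h' : (g x : ℝ) - c * (Gr G a x / G.degree x) ≤ 0 := h
  push_cast
  have h4 : (g x : ℝ) ≤ c * Gr G a x / G.degree x := by
    rw [mul_div_assoc]; linarith
  rw [le_div_iff₀ hdx] at h4
  linarith

lemma S_zero {W : Finset V} {ρ : V → V} (x : V) : S G τ a W ρ 0 x = 0 := by
  have : (fun _ => 0 : V → ℕ) ∈ SupS G τ a W ρ 0 := by
    refine ⟨fun _ _ => rfl, fun y _ => ?_⟩
    unfold Inn
    simp [ex]
  exact Nat.le_zero.1 (S_le this x)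

lemma sum_S [Infinite V] (hc : G.Connected) (hτ : Mech G τ) (W : Finset V) (n : ℕ) (x : V) :
    ∑ ρ ∈ (forests_finite G W).toFinset, (S G τ a W ρ n x : ℝ) =
      n * ∑ ρ ∈ (forests_finite G W).toFinset, (S G τ a W ρ 1 x : ℝ) := by
  induction n with
  | zero => simp [S_zero]
  | succ n ih =>
    have h1 : ∀ ρ ∈ (forests_finite G W).toFinset, (S G τ a W ρ (n + 1) x : ℝ) =
        (S G τ a W ρ n x : ℝ) + (S G τ a W (T G τ a W n ρ) 1 x : ℝ) := by
      intro ρ hρ
      rw [Set.Finite.mem_toFinset] at hρ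
      rw [S_add hc hτ hρ]
      push_cast
      rfl
    rw [Finset.sum_congr rfl h1, Finset.sum_add_distrib, ih,
      T_sum hc hτ W n (fun ρ => (S G τ a W ρ 1 x : ℝ))]
    push_cast
    ring

lemma mean_S [Infinite V] (hc : G.Connected) (hτ : Mech G τ)
    (hs : ∀ y, Summable (fun t => pf G a t y)) (W : Finset V) (n : ℕ) (x : V) :
    ∑ ρ ∈ (forests_finite G W).toFinset, (S G τ a W ρ n x : ℝ) ≤
      n * Gr G a x * (forests_finite G W).toFinset.card := by
  obtain ⟨c, g, hc0, hg0, hg⟩ := exists_green hc W a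
  have h1 : ∑ ρ ∈ (forests_finite G W).toFinset, (S G τ a W ρ c x : ℝ) ≤
      c * Gr G a x * (forests_finite G W).toFinset.card := by
    calc _ = ∑ ρ ∈ (forests_finite G W).toFinset, ((G.degree x * g x : ℕ) : ℝ) := by
          apply Finset.sum_congr rfl
          intro ρ hρ
          rw [Set.Finite.mem_toFinset] at hρ
          have := (S_green (a := a) hτ hρ hg0 hg 1).1
          rw [one_mul] at this
          rw [this]
          simp
      _ ≤ ∑ ρ ∈ (forests_finite G W).toFinset, c * Gr G a x :=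
          Finset.sum_le_sum fun _ _ => green_le hc hs hg0 hg x
      _ = _ := by rw [Finset.sum_const, nsmul_eq_mul]; ring
  rw [sum_S hc hτ W c x] at h1
  rw [sum_S hc hτ W n x]
  have hcR : (0 : ℝ) < c := by exact_mod_cast hc0
  have h2 : ∑ ρ ∈ (forests_finite G W).toFinset, (S G τ a W ρ 1 x : ℝ) ≤
      Gr G a x * (forests_finite G W).toFinset.card := by
    have h3 : (c : ℝ) * ∑ ρ ∈ (forests_finite G W).toFinset, (S G τ a W ρ 1 x : ℝ) ≤
      c * (Gr G a x * (forests_finite G W).toFinset.card) := by linarith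
    exact le_of_mul_le_mul_left h3 hcR
  calc _ ≤ (n : ℝ) * (Gr G a x * (forests_finite G W).toFinset.card) :=
        mul_le_mul_of_nonneg_left h2 (by positivity)
    _ = _ := by ring

lemma S_lower [Infinite V] (hc : G.Connected) (hτ : Mech G τ) {W : Finset V} {ρ : V → V}
    (hv : ∀ x ∈ W, G.Adj x (ρ x)) (n t : ℕ) : ∀ y, Deep G W t y →
    n * ∑ i ∈ range t, pf G a i y - cf G t y ≤ S G τ a W ρ n y := by
  have hd : ∀ v, 0 < G.degree v := fun v => hc.preconnected.degree_pos_of_nontrivial v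
  have hne := SupS_nonempty (a := a) hc hτ hv n
  induction t with
  | zero => intro y _; simp [cf]
  | succ t ih =>
    intro y hy
    have h1 : ((S G τ a W ρ n y : ℕ) : ℝ) = (if y = a then (n : ℝ) else 0) +
        ∑ x ∈ G.neighborFinset y, (ex (τ x) (ρ x) (S G τ a W ρ n x) y : ℝ) := by
      have := S_eq hne hy.1
      unfold Inn at this
      exact_mod_cast this.symm
    have h2 : ∀ x ∈ G.neighborFinset y,
        (n * ∑ i ∈ range t, pf G a i x - cf G t x) / G.degree x - 1 ≤
          (ex (τ x) (ρ x) (S G τ a W ρ n x) y : ℝ) := by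
      intro x hx
      rw [SimpleGraph.mem_neighborFinset] at hx
      have hdx : (0 : ℝ) < G.degree x := by exact_mod_cast hd x
      have h3 := ih x (hy.2 x hx)
      have h4 : (S G τ a W ρ n x : ℝ) / G.degree x - 1 ≤ (ex (τ x) (ρ x) (S G τ a W ρ n x) y : ℝ) := by
        by_cases hxW : x ∈ W
        · obtain ⟨h, hb, h5⟩ := hτ.ex_formula hx.symm
          have h6 := h5 (ρ x) (hv x hxW) (S G τ a W ρ n x)
          have h7 := (hb _ (hτ.iter (hv x hxW) (S G τ a W ρ n x))).1
          have h8 := (hb _ (hv x hxW)).2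
          have h9 : (S G τ a W ρ n x : ℤ) - G.degree x ≤
              (G.degree x : ℤ) * ex (τ x) (ρ x) (S G τ a W ρ n x) y := by
            rw [h6]
            omega
          have h10 : (S G τ a W ρ n x : ℝ) - G.degree x ≤
              (G.degree x : ℝ) * ex (τ x) (ρ x) (S G τ a W ρ n x) y := by exact_mod_cast h9
          rw [sub_le_iff_le_add, div_le_iff₀ hdx]
          linarith
        · rw [(S_mem hne).1 x hxW]
          have : (0 : ℝ) ≤ (ex (τ x) (ρ x) 0 y : ℝ) := by positivity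
          simp only [Nat.cast_zero, zero_div]
          linarith
      have h11 := div_le_div_of_nonneg_right h3 hdx.le
      linarith
    have h3 := Finset.sum_le_sum h2
    rw [h1]
    have h4 : ∑ x ∈ G.neighborFinset y, ((n * ∑ i ∈ range t, pf G a i x - cf G t x) / G.degree x - 1)
        = n * ∑ i ∈ range t, pf G a (i + 1) y - ∑ x ∈ G.neighborFinset y, cf G t x / G.degree x
          - G.degree y := by
      have h5 : ∀ i, pf G a (i + 1) y = ∑ x ∈ G.neighborFinset y, pf G a i x / G.degree x := fun _ => rfl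
      simp only [h5]
      rw [Finset.sum_comm, Finset.mul_sum, ← Finset.sum_sub_distrib,
        show (G.degree y : ℝ) = ∑ x ∈ G.neighborFinset y, 1 by
          rw [Finset.sum_const, G.card_neighborFinset_eq_degree, nsmul_eq_mul, mul_one],
        ← Finset.sum_sub_distrib]
      apply Finset.sum_congr rfl
      intro x _
      rw [sub_div, ← Finset.sum_div, mul_div_assoc]
    rw [h4] at h3
    have h5 : cf G (t + 1) y = G.degree y + ∑ x ∈ G.neighborFinset y, cf G t x / G.degree x := rfl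
    rw [Finset.sum_range_succ', h5]
    have h6 : pf G a 0 y = if y = a then 1 else 0 := rfl
    rw [h6]
    split_ifs <;> linarith

/-! ### Maximal inequality -/

/-- Running maxima. -/
noncomputable def MM {α : Type*} (h : α → ℝ) (Θ : α → α) : ℕ → α → ℝ
  | 0 => fun _ => 0
  | k + 1 => fun ρ => max 0 (h ρ + MM h Θ k (Θ ρ))

lemma MM_nonneg {α : Type*} (h : α → ℝ) (Θ : α → α) (k : ℕ) (ρ : α) : 0 ≤ MM h Θ k ρ := by
  cases k with
  | zero => exact le_rfl
  | succ k => exact le_max_left _ _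

lemma MM_mono {α : Type*} (h : α → ℝ) (Θ : α → α) (k : ℕ) : ∀ ρ, MM h Θ k ρ ≤ MM h Θ (k + 1) ρ := by
  induction k with
  | zero => intro ρ; exact le_max_left _ _
  | succ k ih =>
    intro ρ
    exact max_le_max le_rfl (by have := ih (Θ ρ); linarith)

lemma maximal {α : Type*} (s : Finset α) (h : α → ℝ) (Θ : α → α) (k : ℕ)
    (hinv : ∑ ρ ∈ s, MM h Θ k (Θ ρ) = ∑ ρ ∈ s, MM h Θ k ρ) :
    0 ≤ ∑ ρ ∈ s.filter (fun ρ => 0 < MM h Θ k ρ), h ρ := by
  classical
  have h1 : ∀ ρ, 0 < MM h Θ k ρ → MM h Θ k ρ - MM h Θ k (Θ ρ) ≤ h ρ := by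
    intro ρ hρ
    cases k with
    | zero => exact absurd hρ (lt_irrefl _)
    | succ k =>
      have h2 : MM h Θ (k + 1) ρ = max 0 (h ρ + MM h Θ k (Θ ρ)) := rfl
      rw [h2] at hρ ⊢
      have h3 : 0 < h ρ + MM h Θ k (Θ ρ) := by
        rcases lt_max_iff.1 hρ with h | h
        · exact absurd h (lt_irrefl _)
        · exact h
      rw [max_eq_right h3.le]
      have := MM_mono h Θ k (Θ ρ)
      linarith
  calc (0 : ℝ) = ∑ ρ ∈ s, (MM h Θ k ρ - MM h Θ k (Θ ρ)) := by
        rw [Finset.sum_sub_distrib, hinv, sub_self]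
    _ ≤ ∑ ρ ∈ s, (if 0 < MM h Θ k ρ then h ρ else 0) := by
        apply Finset.sum_le_sum
        intro ρ _
        split_ifs with hρ
        · exact h1 ρ hρ
        · have h4 := MM_nonneg h Θ k ρ
          have h5 := MM_nonneg h Θ k (Θ ρ)
          push Not at hρ
          linarith
    _ = _ := by rw [Finset.sum_filter]

theorem fv_estimate [Infinite V] (hc : G.Connected) (hτ : Mech G τ)
    (hs : ∀ y, Summable (fun t => pf G a t y)) (W : Finset V) (x : V) {n0 : ℕ} (hn0 : 0 < n0)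
    {δ lam : ℝ}
    (hlow : ∀ ρ ∈ Forests G W, n0 * (Gr G a x - δ) ≤ S G τ a W ρ n0 x) (M : ℕ) :
    lam * ((forests_finite G W).toFinset.filter
      (fun ρ => ∃ m ≤ M, (m * n0 : ℕ) * (Gr G a x + lam) < S G τ a W ρ (m * n0) x)).card ≤
      δ * (forests_finite G W).toFinset.card := by
  classical
  set F := (forests_finite G W).toFinset with hF
  set h : (V → V) → ℝ := fun ρ => S G τ a W ρ n0 x - n0 * (Gr G a x + lam) with hh
  set Θ : (V → V) → (V → V) := T G τ a W n0 with hΘ
  have hn0R : (0 : ℝ) < n0 := by exact_mod_cast hn0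
  have hmax := maximal F h Θ M (T_sum hc hτ W n0 (MM h Θ M))
  have hMM : ∀ k m, m ≤ k → ∀ ρ ∈ Forests G W,
      (S G τ a W ρ (m * n0) x : ℝ) - (m * n0 : ℕ) * (Gr G a x + lam) ≤ MM h Θ k ρ := by
    intro k
    induction k with
    | zero =>
      intro m hm ρ _
      obtain rfl : m = 0 := by omega
      simp [S_zero, MM]
    | succ k ih =>
      intro m hm ρ hρ
      cases m with
      | zero =>
        have := MM_nonneg h Θ (k + 1) ρ
        simpa [S_zero] using this
      | succ m =>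
        have h1 := ih m (by omega) (Θ ρ) (T_forest hc hτ hρ n0)
        have h2 : MM h Θ (k + 1) ρ = max 0 (h ρ + MM h Θ k (Θ ρ)) := rfl
        rw [h2]
        refine le_trans ?_ (le_max_right _ _)
        rw [show (m + 1) * n0 = n0 + m * n0 by ring, S_add hc hτ hρ]
        simp only [hh]
        push_cast at h1 ⊢
        linarith
  set A := F.filter (fun ρ => 0 < MM h Θ M ρ) with hA
  have hsub : F.filter
      (fun ρ => ∃ m ≤ M, (m * n0 : ℕ) * (Gr G a x + lam) < S G τ a W ρ (m * n0) x) ⊆ A := by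
    intro ρ hρ
    rw [Finset.mem_filter] at hρ ⊢
    refine ⟨hρ.1, ?_⟩
    obtain ⟨m, hm, hlt⟩ := hρ.2
    have := hMM M m hm ρ ((forests_finite G W).mem_toFinset.1 hρ.1)
    linarith
  rcases le_or_gt lam 0 with hlam | hlam
  · have h1 : lam * ((F.filter
      (fun ρ => ∃ m ≤ M, (m * n0 : ℕ) * (Gr G a x + lam) < S G τ a W ρ (m * n0) x)).card : ℝ) ≤ 0 :=
      mul_nonpos_of_nonpos_of_nonneg hlam (by positivity)
    have h2 : 0 ≤ δ * (F.card : ℝ) := by
      have h3 : ∑ ρ ∈ F, n0 * (Gr G a x - δ) ≤ ∑ ρ ∈ F, (S G τ a W ρ n0 x : ℝ) :=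
        Finset.sum_le_sum fun ρ hρ => hlow ρ ((forests_finite G W).mem_toFinset.1 hρ)
      have h4 := mean_S (a := a) hc hτ hs W n0 x
      rw [Finset.sum_const, nsmul_eq_mul] at h3
      have h5 : (n0 : ℝ) * (δ * F.card) ≥ 0 := by
        have := h3.trans h4
        rw [← hF] at this
        nlinarith
      exact nonneg_of_mul_nonneg_right h5 hn0R
    linarith
  have hcard : (F.filter
      (fun ρ => ∃ m ≤ M, (m * n0 : ℕ) * (Gr G a x + lam) < S G τ a W ρ (m * n0) x)).card ≤ A.card :=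
    Finset.card_le_card hsub
  have hcardR : ((F.filter
      (fun ρ => ∃ m ≤ M, (m * n0 : ℕ) * (Gr G a x + lam) < S G τ a W ρ (m * n0) x)).card : ℝ) ≤
      A.card := by exact_mod_cast hcard
  have h1 : ∑ ρ ∈ A, h ρ = ∑ ρ ∈ A, ((S G τ a W ρ n0 x : ℝ) - n0 * (Gr G a x - δ)) -
      A.card * (n0 * (lam + δ)) := by
    have h1' : (A.card : ℝ) * (n0 * (lam + δ)) = ∑ ρ ∈ A, (n0 * (lam + δ) : ℝ) := by
      rw [Finset.sum_const, nsmul_eq_mul]
    rw [h1', ← Finset.sum_sub_distrib]
    apply Finset.sum_congr rfl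
    intro ρ _
    simp only [hh]
    ring
  have h2 : ∑ ρ ∈ A, ((S G τ a W ρ n0 x : ℝ) - n0 * (Gr G a x - δ)) +
      0 ≤ ∑ ρ ∈ F, ((S G τ a W ρ n0 x : ℝ) - n0 * (Gr G a x - δ)) := by
    rw [add_zero]
    apply Finset.sum_le_sum_of_subset_of_nonneg (Finset.filter_subset _ _)
    intro ρ hρ _
    have := hlow ρ ((forests_finite G W).mem_toFinset.1 hρ)
    linarith
  have h3 : ∑ ρ ∈ F, ((S G τ a W ρ n0 x : ℝ) - n0 * (Gr G a x - δ)) ≤ n0 * δ * F.card := by
    rw [Finset.sum_sub_distrib, Finset.sum_const, nsmul_eq_mul]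
    have h4 := mean_S (a := a) hc hτ hs W n0 x
    rw [← hF] at h4
    linarith
  rw [h1] at hmax
  -- n0 (lam + δ) #A ≤ n0 δ #F
  have h5 : (n0 : ℝ) * ((lam + δ) * A.card) ≤ n0 * (δ * F.card) := by linarith
  have h6 : (lam + δ) * A.card ≤ δ * F.card := le_of_mul_le_mul_left h5 hn0R
  -- δ ≥ 0 or F empty
  rcases F.card.eq_zero_or_pos with hF0 | hFpos
  · have : (F.filter
      (fun ρ => ∃ m ≤ M, (m * n0 : ℕ) * (Gr G a x + lam) < S G τ a W ρ (m * n0) x)).card = 0 := by
      have := Finset.card_le_card (Finset.filter_subset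
        (fun ρ => ∃ m ≤ M, (m * n0 : ℕ) * (Gr G a x + lam) < S G τ a W ρ (m * n0) x) F)
      omega
    rw [this, hF0]; simp
  have hδ : 0 ≤ δ := by
    have h7 : ∑ ρ ∈ F, n0 * (Gr G a x - δ) ≤ ∑ ρ ∈ F, (S G τ a W ρ n0 x : ℝ) :=
      Finset.sum_le_sum fun ρ hρ => hlow ρ ((forests_finite G W).mem_toFinset.1 hρ)
    have h4 := mean_S (a := a) hc hτ hs W n0 x
    rw [Finset.sum_const, nsmul_eq_mul] at h7
    rw [← hF] at h4
    have hFR : (0 : ℝ) < F.card := by exact_mod_cast hFpos
    have h8 : 0 ≤ ((n0 : ℝ) * F.card) * δ := by nlinarith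
    exact nonneg_of_mul_nonneg_right h8 (by positivity)
  have hA0 : (0 : ℝ) ≤ A.card := by positivity
  nlinarith

end Pool.Agent.H181.RW
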