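import Pool.Agent.H181.RwB
import Pool.Agent.H181.DsE

/-!
# Rotor walks: passage to the weak limit (MP_42a48c_pr)
-/

open Finset MeasureTheory Filter Topology
open scoped ENNReal
open Pool.Agent.H181.DS (bl bl_mono mem_bl_succ getVert_mem_bl countable_of_connected)

namespace Pool.Agent.H181.RW

variable {V : Type*} [DecidableEq V] {G : SimpleGraph V} [G.LocallyFinite] {τ : V → V → V} {a : V}

lemma exists_mem_bl (hc : G.Connected) (a x : V) : ∃ R, x ∈ bl G a R := by
  obtain ⟨p⟩ := hc.preconnected a x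
  refine ⟨p.length, ?_⟩
  have := getVert_mem_bl G p p.length le_rfl
  rwa [p.getVert_length] at this

lemma deep_bl (t : ℕ) : ∀ (k R : ℕ) (y : V), y ∈ bl G a k → k + t ≤ R → Deep G (bl G a R) t y := by
  induction t with
  | zero => intro k R y _ _; trivial
  | succ t ih =>
    intro k R y hy hR
    exact ⟨bl_mono G a (by omega) hy, fun x hx => ih (k + 1) R x (mem_bl_succ G hy hx) (by omega)⟩

omit [DecidableEq V] in
/-- Cylinder. -/
def cyl (B : Finset V) (η : V → V) : Set (V → V) := {ρ | ∀ x ∈ B, ρ x = η x}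

variable [MeasurableSpace V]

variable (G) (a) in
/-- `μ` is the weak limit of the uniform measures on forests. -/
def IsLim (μ : Measure (V → V)) : Prop := ∀ (B : Finset V) (η : V → V),
  Tendsto (fun R => ((Forests G (bl G a R) ∩ cyl B η).ncard : ℝ) /
    ((Forests G (bl G a R)).ncard : ℝ)) atTop (𝓝 (μ (cyl B η)).toReal)

lemma ae_valid (hc : G.Connected) {μ : Measure (V → V)} [IsProbabilityMeasure μ]
    (hμ : IsLim G a μ) : ∀ᵐ ρ ∂μ, ∀ x, G.Adj x (ρ x) := by
  have := countable_of_connected G hc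
  have h : ∀ x z, ¬ G.Adj x z → μ (cyl {x} (fun _ => z)) = 0 := by
    intro x z hxz
    obtain ⟨R0, hR0⟩ := exists_mem_bl hc a x
    have h1 := hμ {x} (fun _ => z)
    have h2 : (fun R => ((Forests G (bl G a R) ∩ cyl {x} (fun _ => z)).ncard : ℝ) /
        ((Forests G (bl G a R)).ncard : ℝ)) =ᶠ[atTop] fun _ => 0 := by
      filter_upwards [eventually_ge_atTop R0] with R hR
      have : Forests G (bl G a R) ∩ cyl {x} (fun _ => z) = ∅ := by
        rw [Set.eq_empty_iff_forall_notMem]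
        rintro ρ ⟨h3, h4⟩
        have h5 := h3.1 x (bl_mono G a hR hR0)
        have h6 := h4 x (Finset.mem_singleton_self x)
        rw [h6] at h5
        exact hxz h5
      rw [this]; simp
    have h3 := tendsto_nhds_unique (h1.congr' h2) tendsto_const_nhds
    rw [ENNReal.toReal_eq_zero_iff] at h3
    exact h3.resolve_right (measure_ne_top _ _)
  have h2 : ∀ᵐ ρ ∂μ, ∀ x z, ¬ G.Adj x z → ρ x ≠ z := by
    rw [ae_all_iff]
    intro x
    rw [ae_all_iff]
    intro z
    by_cases hxz : G.Adj x z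
    · exact Eventually.of_forall fun ρ h => absurd hxz h
    · rw [ae_iff]
      refine measure_mono_null ?_ (h x z hxz)
      intro ρ hρ
      simp only [Set.mem_setOf_eq, Classical.not_imp, not_not] at hρ
      intro y hy
      rw [Finset.mem_singleton] at hy
      rw [hy]
      exact hρ.2
  filter_upwards [h2] with ρ hρ x
  by_contra hcon
  exact hρ x (ρ x) hcon rfl

lemma key [Infinite V] (hc : G.Connected) (hτ : Mech G τ)
    (hs : ∀ y, Summable (fun t => pf G a t y)) {μ : Measure (V → V)} [IsProbabilityMeasure μ]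
    (hμ : IsLim G a μ) (x : V) {δ lam : ℝ} (hδ : 0 < δ) (hlam : 0 < lam) :
    ∃ n0 : ℕ, 0 < n0 ∧ ∀ k, μ {ρ | (∀ x, G.Adj x (ρ x)) ∧
      ∃ m ≤ k, ((m * n0 : ℕ) : ℝ) * (Gr G a x + lam) < S G τ a (bl G a k) ρ (m * n0) x} ≤
      ENNReal.ofReal (δ / lam) := by
  classical
  obtain ⟨t, ht⟩ : ∃ t, Gr G a x - δ / 2 < ∑ i ∈ range t, pf G a i x := by
    have h1 := (hs x).hasSum.tendsto_sum_nat
    have h2 : Gr G a x - δ / 2 < ∑' i, pf G a i x := by
      show ∑' i, pf G a i x - δ / 2 < _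
      linarith
    exact (h1.eventually (lt_mem_nhds h2)).exists
  obtain ⟨n0, hn0⟩ := exists_nat_gt (max 0 (cf G t x / (δ / 2)))
  have hn0pos : (0 : ℝ) < n0 := (le_max_left _ _).trans_lt hn0
  have hn0c : cf G t x ≤ n0 * (δ / 2) := by
    have := (le_max_right _ _).trans hn0.le
    rwa [div_le_iff₀ (by positivity)] at this
  obtain ⟨k0, hk0⟩ := exists_mem_bl hc a x
  have hlow : ∀ R, k0 + t ≤ R → ∀ ρ ∈ Forests G (bl G a R),
      n0 * (Gr G a x - δ) ≤ S G τ a (bl G a R) ρ n0 x := by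
    intro R hR ρ hρ
    have h1 := S_lower (a := a) hc hτ hρ.1 n0 t x (deep_bl t k0 R x hk0 hR)
    refine le_trans ?_ h1
    nlinarith
  refine ⟨n0, by exact_mod_cast hn0pos, fun k => ?_⟩
  set W' := bl G a k with hW'
  set Pr : (V → V) → Prop := fun η => ∃ m ≤ k, ((m * n0 : ℕ) : ℝ) * (Gr G a x + lam) <
    S G τ a W' η (m * n0) x with hPr
  set Pi' := (conf_finite G W').toFinset.filter Pr with hPi
  have h1 : {ρ | (∀ x, G.Adj x (ρ x)) ∧
      ∃ m ≤ k, ((m * n0 : ℕ) : ℝ) * (Gr G a x + lam) < S G τ a W' ρ (m * n0) x} ⊆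
      ⋃ η ∈ Pi', cyl W' η := by
    rintro ρ ⟨hv, m, hm, hlt⟩
    rw [Set.mem_iUnion₂]
    refine ⟨fun y => if y ∈ W' then ρ y else y, ?_, ?_⟩
    · rw [hPi, Finset.mem_filter, Set.Finite.mem_toFinset]
      refine ⟨⟨fun y hy => by simp only [hy, if_true]; exact hv y, fun y hy => by simp [hy]⟩,
        m, hm, ?_⟩
      rwa [S_congr (ρ' := ρ) (fun y hy => by simp [hy])]
    · intro y hy
      simp [hy]
  have h2 : ∀ᶠ R in atTop, ∑ η ∈ Pi', ((Forests G (bl G a R) ∩ cyl W' η).ncard : ℝ) /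
      ((Forests G (bl G a R)).ncard : ℝ) ≤ δ / lam := by
    filter_upwards [eventually_ge_atTop (max k (k0 + t))] with R hR
    set F := (forests_finite G (bl G a R)).toFinset with hF
    have hFcard : (Forests G (bl G a R)).ncard = F.card :=
      Set.ncard_eq_toFinset_card _ (forests_finite G (bl G a R))
    have hint : ∀ η, (Forests G (bl G a R) ∩ cyl W' η).ncard =
        (F.filter (fun ρ => ∀ x ∈ W', ρ x = η x)).card := by
      intro η
      rw [← Set.ncard_coe_finset]
      congr 1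
      ext ρ
      rw [Finset.mem_coe, Finset.mem_filter, hF, Set.Finite.mem_toFinset]
      rfl
    have hfv := fv_estimate (a := a) hc hτ hs (bl G a R) x (by exact_mod_cast hn0pos : 0 < n0)
      (lam := lam) (hlow R ((le_max_right _ _).trans hR)) k
    rw [← hF] at hfv
    have hle : ∑ η ∈ Pi', (F.filter (fun ρ => ∀ x ∈ W', ρ x = η x)).card ≤
        (F.filter (fun ρ => ∃ m ≤ k, ((m * n0 : ℕ) : ℝ) * (Gr G a x + lam) <
          S G τ a (bl G a R) ρ (m * n0) x)).card := by
      rw [← Finset.card_biUnion]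
      · apply Finset.card_le_card
        intro ρ hρ
        rw [Finset.mem_biUnion] at hρ
        obtain ⟨η, hη, hρη⟩ := hρ
        rw [Finset.mem_filter] at hρη ⊢
        rw [hPi, Finset.mem_filter] at hη
        refine ⟨hρη.1, ?_⟩
        obtain ⟨m, hm, hlt⟩ := hη.2
        refine ⟨m, hm, hlt.trans_le ?_⟩
        rw [S_congr (ρ := η) (ρ' := ρ) (fun y hy => (hρη.2 y hy).symm)]
        have hρF : ρ ∈ Forests G (bl G a R) := (forests_finite G (bl G a R)).mem_toFinset.1 hρη.1
        exact_mod_cast S_mono_W (bl_mono G a ((le_max_left _ _).trans hR))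
          (SupS_nonempty hc hτ hρF.1 (m * n0)) x
      · intro η hη η' hη' hne
        rw [Function.onFun, Finset.disjoint_left]
        intro ρ h3 h4
        rw [Finset.mem_filter] at h3 h4
        apply hne
        rw [hPi, Finset.mem_coe, Finset.mem_filter, Set.Finite.mem_toFinset] at hη hη'
        funext y
        by_cases hy : y ∈ W'
        · rw [← h3.2 y hy, ← h4.2 y hy]
        · rw [hη.1.2 y hy, hη'.1.2 y hy]
    simp only [hint, hFcard]
    rw [← Finset.sum_div]
    rcases F.card.eq_zero_or_pos with h0 | h0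
    · rw [h0]; simp; positivity
    · have h0R : (0 : ℝ) < F.card := by exact_mod_cast h0
      rw [div_le_div_iff₀ h0R hlam]
      have hleR : ∑ η ∈ Pi', ((F.filter (fun ρ => ∀ x ∈ W', ρ x = η x)).card : ℝ) ≤
        ((F.filter (fun ρ => ∃ m ≤ k, ((m * n0 : ℕ) : ℝ) * (Gr G a x + lam) <
          S G τ a (bl G a R) ρ (m * n0) x)).card : ℝ) := by exact_mod_cast hle
      have := mul_le_mul_of_nonneg_right hleR hlam.le
      linarith
  have h3 : Tendsto (fun R => ∑ η ∈ Pi', ((Forests G (bl G a R) ∩ cyl W' η).ncard : ℝ) /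
      ((Forests G (bl G a R)).ncard : ℝ)) atTop (𝓝 (∑ η ∈ Pi', (μ (cyl W' η)).toReal)) :=
    tendsto_finsetSum _ fun η _ => hμ W' η
  have h4 : ∑ η ∈ Pi', (μ (cyl W' η)).toReal ≤ δ / lam := le_of_tendsto h3 h2
  calc μ _ ≤ μ (⋃ η ∈ Pi', cyl W' η) := measure_mono h1
    _ ≤ ∑ η ∈ Pi', μ (cyl W' η) := measure_biUnion_finset_le _ _
    _ = ENNReal.ofReal (∑ η ∈ Pi', (μ (cyl W' η)).toReal) := by
        rw [ENNReal.ofReal_sum_of_nonneg fun _ _ => ENNReal.toReal_nonneg]
        exact Finset.sum_congr rfl fun η _ => (ENNReal.ofReal_toReal (measure_ne_top _ _)).symm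
    _ ≤ _ := ENNReal.ofReal_le_ofReal h4

theorem ae_bound [Infinite V] (hc : G.Connected) (hτ : Mech G τ)
    (hs : ∀ y, Summable (fun t => pf G a t y)) {μ : Measure (V → V)} [IsProbabilityMeasure μ]
    (hμ : IsLim G a μ) : ∀ᵐ ρ ∂μ, (∀ x, G.Adj x (ρ x)) ∧
      ∀ (x : V) (j : ℕ), ∃ K : ℕ, ∀ n R : ℕ,
        (S G τ a (bl G a R) ρ n x : ℝ) ≤ (n + K) * (Gr G a x + 1 / (j + 1)) := by
  have := countable_of_connected G hc
  have hval := ae_valid hc hμ
  have hGr0 : ∀ y, 0 ≤ Gr G a y := fun y => tsum_nonneg fun t => pf_nonneg t y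
  have h : ∀ᵐ ρ ∂μ, ∀ (x : V) (j : ℕ), (∀ x, G.Adj x (ρ x)) → ∃ K : ℕ, ∀ n R : ℕ,
        (S G τ a (bl G a R) ρ n x : ℝ) ≤ (n + K) * (Gr G a x + 1 / (j + 1)) := by
    rw [ae_all_iff]
    intro x
    rw [ae_all_iff]
    intro j
    rw [ae_iff]
    set lam : ℝ := 1 / (j + 1) with hlam
    have hlampos : 0 < lam := by rw [hlam]; positivity
    apply le_antisymm _ (zero_le (α := ℝ≥0∞))
    apply ENNReal.le_of_forall_pos_le_add
    intro e he _
    rw [zero_add]
    have heR : (0 : ℝ) < e := by exact_mod_cast he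
    obtain ⟨n0, hn0, hkey⟩ := key (τ := τ) hc hτ hs hμ x (δ := e * lam) (lam := lam) (by positivity) hlampos
    set A : ℕ → Set (V → V) := fun k => {ρ | (∀ x, G.Adj x (ρ x)) ∧
      ∃ m ≤ k, ((m * n0 : ℕ) : ℝ) * (Gr G a x + lam) < S G τ a (bl G a k) ρ (m * n0) x} with hA
    have hmono : Monotone A := by
      apply monotone_nat_of_le_succ
      rintro k ρ ⟨hv, m, hm, hlt⟩
      refine ⟨hv, m, by omega, hlt.trans_le ?_⟩
      exact_mod_cast S_mono_W (bl_mono G a (Nat.le_succ k))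
        (SupS_nonempty hc hτ (fun x _ => hv x) (m * n0)) x
    have hbound : μ (⋃ k, A k) ≤ e := by
      rw [hmono.measure_iUnion]
      apply iSup_le
      intro k
      refine (hkey k).trans ?_
      rw [mul_div_assoc, div_self hlampos.ne', mul_one, ENNReal.ofReal_coe_nnreal]
    refine (measure_mono ?_).trans hbound
    intro ρ hρ
    simp only [Set.mem_setOf_eq, Classical.not_imp] at hρ
    obtain ⟨hv, hρ⟩ := hρ
    by_contra hcon
    apply hρ
    refine ⟨n0, fun n R => ?_⟩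
    rw [Set.mem_iUnion] at hcon
    push Not at hcon
    set m := n / n0 + 1 with hm
    have hmn : n ≤ m * n0 := by
      have := Nat.lt_div_mul_add hn0 (a := n)
      rw [hm, Nat.succ_mul]
      omega
    have hmn2 : m * n0 ≤ n + n0 := by
      rw [hm, Nat.succ_mul]
      have := Nat.div_mul_le_self n n0
      omega
    set k := max R m with hk
    have h1 := hcon k
    have h2 : (S G τ a (bl G a k) ρ (m * n0) x : ℝ) ≤ ((m * n0 : ℕ) : ℝ) * (Gr G a x + lam) := by
      by_contra hlt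
      push Not at hlt
      exact h1 ⟨hv, m, le_max_right _ _, hlt⟩
    have h3 : S G τ a (bl G a R) ρ n x ≤ S G τ a (bl G a k) ρ (m * n0) x :=
      (S_mono_n hmn (SupS_nonempty hc hτ (fun x _ => hv x) _) x).trans
        (S_mono_W (bl_mono G a (le_max_left _ _)) (SupS_nonempty hc hτ (fun x _ => hv x) _) x)
    have h3R : (S G τ a (bl G a R) ρ n x : ℝ) ≤ S G τ a (bl G a k) ρ (m * n0) x := by exact_mod_cast h3
    have h4 : ((m * n0 : ℕ) : ℝ) ≤ n + n0 := by exact_mod_cast hmn2
    have h5 : 0 ≤ Gr G a x + lam := by have := hGr0 x; linarith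
    exact (h3R.trans h2).trans (mul_le_mul_of_nonneg_right h4 h5)
  filter_upwards [hval, h] with ρ h1 h2
  exact ⟨h1, fun x j => h2 x j h1⟩

end Pool.Agent.H181.RW
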