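import Pool.Agent.H181.RwC

/-!
# Rotor walks: the infinite walks and the final theorem (MP_42a48c_pr)
-/

open Finset MeasureTheory Filter Topology
open scoped ENNReal
open Pool.Agent.H181.DS (bl bl_mono mem_bl_succ getVert_mem_bl countable_of_connected)

namespace Pool.Agent.H181.RW

variable {V : Type*} [DecidableEq V]

/-- One step of the rotor walk: the rotor at the current vertex is advanced, and the walker
follows it. -/
def step (τ : V → V → V) (s : V × (V → V)) : V × (V → V) :=
  (τ s.1 (s.2 s.1), Function.update s.2 s.1 (τ s.1 (s.2 s.1)))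

/-- Position and rotor configuration at time `t` of the walk from `a` with initial rotors `ρ`. -/
def walk (τ : V → V → V) (a : V) (ρ : V → V) (t : ℕ) : V × (V → V) := (step τ)^[t] (a, ρ)

/-- The walk visits every vertex finitely often. -/
def Transient (τ : V → V → V) (a : V) (ρ : V → V) : Prop :=
  ∀ x, {t : ℕ | (walk τ a ρ t).1 = x}.Finite

/-- The number of visits to `x`. -/
noncomputable def visits (τ : V → V → V) (a : V) (ρ : V → V) (x : V) : ℕ∞ :=
  {t : ℕ | (walk τ a ρ t).1 = x}.encard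

open Classical in
/-- The final rotor configuration: the eventual value of the rotor at `x` (if there is one). -/
noncomputable def final (τ : V → V → V) (a : V) (ρ : V → V) (x : V) : V :=
  if h : ∃ y, ∀ᶠ t in atTop, (walk τ a ρ t).2 x = y then h.choose else ρ x

open Classical in
/-- The total number of visits to `x` of `n` successive walks from `a` (`∞` unless all of them are
transient). -/
noncomputable def SS (τ : V → V → V) (a : V) (ρ : V → V) (n : ℕ) (x : V) : ℕ∞ :=
  if ∀ i < n, Transient τ a ((final τ a)^[i] ρ) then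
    ∑ i ∈ range n, visits τ a ((final τ a)^[i] ρ) x else ⊤

variable {τ : V → V → V} {a : V}

lemma walk_succ (ρ : V → V) (t : ℕ) : walk τ a ρ (t + 1) = step τ (walk τ a ρ t) :=
  Function.iterate_succ_apply' _ _ _

/-- The number of `s < t` with `X_s = x`. -/
def cnt (τ : V → V → V) (a : V) (ρ : V → V) (t : ℕ) (x : V) : ℕ :=
  ((range t).filter (fun s => (walk τ a ρ s).1 = x)).card

lemma cnt_succ (ρ : V → V) (t : ℕ) (x : V) :
    cnt τ a ρ (t + 1) x = cnt τ a ρ t x + if (walk τ a ρ t).1 = x then 1 else 0 := by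
  unfold cnt
  rw [Finset.range_add_one, Finset.filter_insert]
  split_ifs
  · rw [Finset.card_insert_of_notMem (by simp)]
  · rfl

lemma rotor_eq (ρ : V → V) (t : ℕ) (x : V) :
    (walk τ a ρ t).2 x = (τ x)^[cnt τ a ρ t x] (ρ x) := by
  induction t with
  | zero => rfl
  | succ t ih =>
    rw [walk_succ, cnt_succ]
    unfold step
    simp only
    by_cases h : (walk τ a ρ t).1 = x
    · rw [if_pos h, h, Function.update_self, Function.iterate_succ_apply', ih]
    · rw [if_neg h, Function.update_of_ne (fun h' => h h'.symm), ih, add_zero]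

lemma pos_succ (ρ : V → V) (t : ℕ) : (walk τ a ρ (t + 1)).1 =
    (τ (walk τ a ρ t).1)^[cnt τ a ρ t (walk τ a ρ t).1 + 1] (ρ (walk τ a ρ t).1) := by
  rw [walk_succ, Function.iterate_succ_apply', ← rotor_eq]
  rfl

variable {G : SimpleGraph V} [G.LocallyFinite]

lemma flow (hτ : Mech G τ) {ρ : V → V} (hv : ∀ x, G.Adj x (ρ x)) (t : ℕ) (y : V) :
    Inn G τ a ρ 1 (cnt τ a ρ t) y = cnt τ a ρ t y + if (walk τ a ρ t).1 = y then 1 else 0 := by
  induction t with
  | zero =>
    unfold Inn
    have h1 : (walk τ a ρ 0).1 = a := rfl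
    have h2 : ∀ x, cnt τ a ρ 0 x = 0 := fun x => by simp [cnt]
    simp only [h1, h2, ex, Finset.sum_const_zero, add_zero, zero_add]
    by_cases h : y = a
    · rw [if_pos h, if_pos h.symm]
    · rw [if_neg h, if_neg (fun h' => h h'.symm)]
  | succ t ih =>
    have hpos := pos_succ (τ := τ) (a := a) ρ t
    set x0 := (walk τ a ρ t).1 with hx0
    set z := (walk τ a ρ (t + 1)).1 with hz
    have hadj : G.Adj x0 z := by rw [hpos]; exact hτ.iter (hv x0) _
    have h1 : ∀ x ∈ G.neighborFinset y, ex (τ x) (ρ x) (cnt τ a ρ (t + 1) x) y =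
        ex (τ x) (ρ x) (cnt τ a ρ t x) y + (if x0 = x then (if z = y then 1 else 0) else 0) := by
      intro x _
      rw [cnt_succ, ← hx0]
      by_cases h : x0 = x
      · rw [if_pos h, if_pos h]
        subst h
        have : ex (τ x0) (ρ x0) (cnt τ a ρ t x0 + 1) y = ex (τ x0) (ρ x0) (cnt τ a ρ t x0) y +
          if (τ x0)^[cnt τ a ρ t x0 + 1] (ρ x0) = y then 1 else 0 := rfl
        rw [this, ← hpos]
      · rw [if_neg h, if_neg h]; rfl
    have h2 : Inn G τ a ρ 1 (cnt τ a ρ (t + 1)) y = Inn G τ a ρ 1 (cnt τ a ρ t) y +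
        if z = y then 1 else 0 := by
      unfold Inn
      rw [Finset.sum_congr rfl h1, Finset.sum_add_distrib, Finset.sum_ite_eq, add_assoc]
      congr 2
      by_cases hzy : z = y
      · rw [if_pos hzy, if_pos]
        rw [SimpleGraph.mem_neighborFinset, ← hzy]
        exact hadj.symm
      · simp [hzy]
    rw [h2, ih, cnt_succ, ← hx0]

lemma cnt_le (hτ : Mech G τ) {ρ : V → V} (hv : ∀ x, G.Adj x (ρ x)) {e : V → ℕ}
    (he : ∀ y, Inn G τ a ρ 1 e y ≤ e y) (t : ℕ) : ∀ x, cnt τ a ρ t x ≤ e x := by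
  induction t with
  | zero => intro x; simp [cnt]
  | succ t ih =>
    intro x
    rw [cnt_succ]
    have h1 := flow (a := a) hτ hv t x
    have h2 : Inn G τ a ρ 1 (cnt τ a ρ t) x ≤ Inn G τ a ρ 1 e x := Inn_mono le_rfl ih x
    have h3 := he x
    omega

lemma transient_of_bound {ρ : V → V} {e : V → ℕ} (h : ∀ t x, cnt τ a ρ t x ≤ e x) :
    Transient τ a ρ := by
  intro x
  by_contra hinf
  obtain ⟨s, hs, hcard⟩ := (show {t : ℕ | (walk τ a ρ t).1 = x}.Infinite from hinf).exists_subset_card_eq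
    (e x + 1)
  have h1 : s ⊆ (range (s.sup id + 1)).filter (fun s => (walk τ a ρ s).1 = x) := by
    intro t ht
    rw [Finset.mem_filter, Finset.mem_range]
    exact ⟨Nat.lt_succ_of_le (Finset.le_sup (f := id) ht), hs ht⟩
  have h2 := Finset.card_le_card h1
  have h3 := h (s.sup id + 1) x
  unfold cnt at h3
  omega

lemma cnt_eventually {ρ : V → V} (h : Transient τ a ρ) (x : V) :
    ∀ᶠ t in atTop, cnt τ a ρ t x = (h x).toFinset.card ∧ (walk τ a ρ t).1 ≠ x := by
  filter_upwards [eventually_ge_atTop ((h x).toFinset.sup id + 1)] with t ht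
  have hmem : ∀ s, (walk τ a ρ s).1 = x → s < t := by
    intro s hs
    have : s ∈ (h x).toFinset := (h x).mem_toFinset.2 hs
    exact (Nat.lt_succ_of_le (Finset.le_sup (f := id) this)).trans_le ht
  constructor
  · unfold cnt
    congr 1
    ext s
    rw [Finset.mem_filter, Finset.mem_range, Set.Finite.mem_toFinset]
    exact ⟨fun h => h.2, fun h => ⟨hmem s h, h⟩⟩
  · intro h1
    exact lt_irrefl _ (hmem t h1)

lemma final_eq {ρ : V → V} (h : Transient τ a ρ) (x : V) :
    final τ a ρ x = (τ x)^[(h x).toFinset.card] (ρ x) := by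
  have h1 : ∀ᶠ t in atTop, (walk τ a ρ t).2 x = (τ x)^[(h x).toFinset.card] (ρ x) := by
    filter_upwards [cnt_eventually h x] with t ht
    rw [rotor_eq, ht.1]
  have hex : ∃ y, ∀ᶠ t in atTop, (walk τ a ρ t).2 x = y := ⟨_, h1⟩
  unfold final
  rw [dif_pos hex]
  obtain ⟨t, ht1, ht2⟩ := (h1.and hex.choose_spec).exists
  rw [← ht1, ← ht2]

lemma Inn_u (hτ : Mech G τ) {ρ : V → V} (hv : ∀ x, G.Adj x (ρ x)) (h : Transient τ a ρ) (y : V) :
    Inn G τ a ρ 1 (fun x => (h x).toFinset.card) y = (h y).toFinset.card := by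
  have h1 : ∀ᶠ t in atTop, ∀ x ∈ insert y (G.neighborFinset y),
      cnt τ a ρ t x = (h x).toFinset.card ∧ (walk τ a ρ t).1 ≠ x := by
    rw [Filter.eventually_all_finset]
    intro x _
    exact cnt_eventually h x
  obtain ⟨t, ht⟩ := h1.exists
  have h2 := flow (a := a) hτ hv t y
  have h3 := ht y (Finset.mem_insert_self _ _)
  rw [if_neg h3.2, h3.1, add_zero] at h2
  rw [← h2]
  unfold Inn
  congr 1
  apply Finset.sum_congr rfl
  intro x hx
  rw [(ht x (Finset.mem_insert_of_mem hx)).1]

theorem dyn (hτ : Mech G τ) (n : ℕ) : ∀ (ρ : V → V), (∀ x, G.Adj x (ρ x)) → ∀ e : V → ℕ,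
    (∀ y, Inn G τ a ρ n e y ≤ e y) → (∀ i < n, Transient τ a ((final τ a)^[i] ρ)) ∧
      ∀ x, ∑ i ∈ range n, visits τ a ((final τ a)^[i] ρ) x ≤ e x := by
  induction n with
  | zero => intro ρ _ e _; exact ⟨fun i hi => absurd hi (Nat.not_lt_zero i), fun x => by simp⟩
  | succ n ih =>
    intro ρ hv e he
    have he1 : ∀ y, Inn G τ a ρ 1 e y ≤ e y := fun y =>
      (Inn_mono (by omega) (fun _ => le_rfl) y).trans (he y)
    have hcnt := cnt_le (a := a) hτ hv he1
    have htr : Transient τ a ρ := transient_of_bound hcnt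
    set u : V → ℕ := fun x => (htr x).toFinset.card with hu
    have hue : ∀ x, u x ≤ e x := by
      intro x
      obtain ⟨t, ht⟩ := (cnt_eventually htr x).exists
      have := hcnt t x
      rw [ht.1] at this
      exact this
    have hfin : final τ a ρ = fun x => (τ x)^[u x] (ρ x) := funext fun x => final_eq htr x
    have hv' : ∀ x, G.Adj x (final τ a ρ x) := fun x => by rw [hfin]; exact hτ.iter (hv x) _
    have he' : ∀ y, Inn G τ a (final τ a ρ) n (fun x => e x - u x) y ≤ e y - u y := by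
      intro y
      have h1 := Inn_add (G := G) (τ := τ) (a := a) ρ 1 n u (fun x => e x - u x) y
      have h2 : (fun x => u x + (e x - u x)) = e := by
        funext x
        have := hue x
        omega
      rw [h2, ← hfin, Inn_u hτ hv htr y] at h1
      have h3 := he y
      rw [add_comm n 1] at h3
      have h4 := hue y
      have h5 : u y = (htr y).toFinset.card := rfl
      omega
    obtain ⟨h1, h2⟩ := ih (final τ a ρ) hv' (fun x => e x - u x) he'
    constructor
    · intro i hi
      cases i with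
      | zero => exact htr
      | succ i => rw [Function.iterate_succ_apply]; exact h1 i (by omega)
    · intro x
      rw [Finset.sum_range_succ']
      simp only [Function.iterate_succ_apply, Function.iterate_zero, id_eq]
      have h3 : visits τ a ρ x = (u x : ℕ∞) := by
        unfold visits
        rw [(htr x).encard_eq_coe_toFinset_card]
      rw [h3]
      refine (add_le_add (h2 x) le_rfl).trans ?_
      have h4 := hue x
      have h5 : e x - u x + u x = e x := by omega
      exact_mod_cast h5.le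

lemma nat_stab {f : ℕ → ℕ} (hf : Monotone f) {B : ℕ} (hB : ∀ R, f R ≤ B) :
    ∃ v R0, ∀ R ≥ R0, f R = v := by
  have hbdd : BddAbove (Set.range f) := ⟨B, by rintro _ ⟨R, rfl⟩; exact hB R⟩
  obtain ⟨R0, hR0⟩ := Nat.sSup_mem (Set.range_nonempty f) hbdd
  exact ⟨sSup (Set.range f), R0, fun R hR => le_antisymm (le_csSup hbdd ⟨R, rfl⟩)
    (hR0 ▸ hf hR)⟩

lemma super_of_bound [Infinite V] (hc : G.Connected) (hτ : Mech G τ) {ρ : V → V}
    (hv : ∀ x, G.Adj x (ρ x)) {n : ℕ} (hb : ∀ x, ∃ B, ∀ R, S G τ a (bl G a R) ρ n x ≤ B) :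
    ∃ e : V → ℕ, (∀ y, Inn G τ a ρ n e y ≤ e y) ∧ ∀ x, ∃ R, e x = S G τ a (bl G a R) ρ n x := by
  have hmono : ∀ x, Monotone (fun R => S G τ a (bl G a R) ρ n x) := fun x R R' hRR =>
    S_mono_W (bl_mono G a hRR) (SupS_nonempty hc hτ (fun x _ => hv x) n) x
  have h : ∀ x, ∃ v R0, ∀ R ≥ R0, S G τ a (bl G a R) ρ n x = v := fun x => by
    obtain ⟨B, hB⟩ := hb x
    exact nat_stab (hmono x) hB
  choose e R0 he using h
  refine ⟨e, ?_, fun x => ⟨R0 x, (he x _ le_rfl).symm⟩⟩
  intro y
  obtain ⟨k, hk⟩ := exists_mem_bl hc a y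
  set R := max k ((insert y (G.neighborFinset y)).sup R0) with hR
  have hR0 : ∀ x ∈ insert y (G.neighborFinset y), S G τ a (bl G a R) ρ n x = e x := fun x hx =>
    he x R ((Finset.le_sup (f := R0) hx).trans (le_max_right _ _))
  have h1 := S_eq (SupS_nonempty (a := a) hc hτ (W := bl G a R) (fun x _ => hv x) n)
    (bl_mono G a (le_max_left _ _) hk)
  rw [hR0 y (Finset.mem_insert_self _ _)] at h1
  rw [← h1]
  apply le_of_eq
  unfold Inn
  congr 1
  apply Finset.sum_congr rfl
  intro x hx
  rw [hR0 x (Finset.mem_insert_of_mem hx)]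

theorem limsup_le [Infinite V] (hc : G.Connected) (hτ : Mech G τ)
    (hGr0 : ∀ y, 0 ≤ Gr G a y) {ρ : V → V}
    (hv : ∀ x, G.Adj x (ρ x)) (hb : ∀ (x : V) (j : ℕ), ∃ K : ℕ, ∀ n R : ℕ,
        (S G τ a (bl G a R) ρ n x : ℝ) ≤ (n + K) * (Gr G a x + 1 / (j + 1))) (x : V) :
    limsup (fun n : ℕ => ((SS τ a ρ n x : ℕ∞) : ℝ≥0∞) / n) atTop ≤ ENNReal.ofReal (Gr G a x) := by
  have hSS : ∀ n, ∃ R, ((SS τ a ρ n x : ℕ∞) : ℝ≥0∞) ≤
      ENNReal.ofReal (S G τ a (bl G a R) ρ n x : ℝ) := by
    intro n
    obtain ⟨e, he, heR⟩ := super_of_bound (a := a) hc hτ hv (n := n) (fun y => by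
      obtain ⟨K, hK⟩ := hb y 0
      obtain ⟨B, hB⟩ := exists_nat_ge ((n + K) * (Gr G a y + 1 / ((0 : ℕ) + 1)) : ℝ)
      exact ⟨B, fun R => by exact_mod_cast (hK n R).trans hB⟩)
    obtain ⟨h1, h2⟩ := dyn hτ n ρ hv e he
    obtain ⟨R, hR⟩ := heR x
    refine ⟨R, ?_⟩
    unfold SS
    rw [if_pos h1, ← hR, ENNReal.ofReal_natCast]
    exact_mod_cast h2 x
  have hj : ∀ j : ℕ, limsup (fun n : ℕ => ((SS τ a ρ n x : ℕ∞) : ℝ≥0∞) / n) atTop ≤
      ENNReal.ofReal (Gr G a x + 1 / (j + 1)) := by
    intro j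
    obtain ⟨K, hK⟩ := hb x j
    have hpos : 0 ≤ Gr G a x + 1 / ((j : ℝ) + 1) := by
      have := hGr0 x
      positivity
    have hlim : Tendsto (fun n : ℕ => ENNReal.ofReal ((1 + K / n) * (Gr G a x + 1 / (j + 1)))) atTop
        (𝓝 (ENNReal.ofReal (Gr G a x + 1 / (j + 1)))) := by
      apply ENNReal.tendsto_ofReal
      have h1 : Tendsto (fun n : ℕ => (1 + (K : ℝ) / n) * (Gr G a x + 1 / (j + 1))) atTop
          (𝓝 ((1 + 0) * (Gr G a x + 1 / (j + 1)))) :=
        (tendsto_const_nhds.add (tendsto_const_div_atTop_nhds_zero_nat (K : ℝ))).mul_const _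
      simpa using h1
    rw [← hlim.limsup_eq]
    refine Filter.limsup_le_limsup ?_
    filter_upwards [eventually_gt_atTop 0] with n hn
    have hnR : (0 : ℝ) < n := by exact_mod_cast hn
    obtain ⟨R, hR⟩ := hSS n
    apply ENNReal.div_le_of_le_mul
    refine hR.trans ?_
    rw [← ENNReal.ofReal_natCast n, ← ENNReal.ofReal_mul (by positivity)]
    apply ENNReal.ofReal_le_ofReal
    refine (hK n R).trans (le_of_eq ?_)
    field_simp
  have hlim2 : Tendsto (fun j : ℕ => ENNReal.ofReal (Gr G a x + 1 / (j + 1))) atTop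
      (𝓝 (ENNReal.ofReal (Gr G a x))) := by
    apply ENNReal.tendsto_ofReal
    have h1 : Tendsto (fun j : ℕ => Gr G a x + 1 / ((j : ℝ) + 1)) atTop (𝓝 (Gr G a x + 0)) :=
      tendsto_const_nhds.add tendsto_one_div_add_atTop_nhds_zero_nat
    simpa using h1
  exact ge_of_tendsto' hlim2 hj

/-! ### The statement -/

omit [DecidableEq V] [G.LocallyFinite] in
variable (G) in
/-- The spanning forests of the ball of radius `R` about `a` oriented to the sphere of radius `R`,
read as rotor configurations: a vertex at distance `< R` has out-neighbour `ρ x`, the others have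
outdegree `0` (written `ρ x = x`), and there is no directed cycle. -/
def SpForests (a : V) (R : ℕ) : Set (V → V) :=
  {ρ | (∀ x, G.dist a x < R → G.Adj x (ρ x)) ∧ (∀ x, R ≤ G.dist a x → ρ x = x) ∧
    ∀ x, G.dist a x < R → ∀ k : ℕ, 0 < k → ρ^[k] x ≠ x}

variable (G) in
/-- `μ` is the oriented wired uniform spanning forest of `G`: the weak limit of the uniform measures
on `SpForests G a R` (convergence of all cylinder probabilities). -/
def IsOWUSF [MeasurableSpace V] (a : V) (μ : Measure (V → V)) : Prop :=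
  ∀ (B : Finset V) (η : V → V),
    Tendsto (fun R => ((SpForests G a R ∩ {ρ | ∀ x ∈ B, ρ x = η x}).ncard : ℝ) /
      ((SpForests G a R).ncard : ℝ)) atTop (𝓝 (μ {ρ | ∀ x ∈ B, ρ x = η x}).toReal)

lemma mem_bl_iff (hc : G.Connected) (a x : V) (t : ℕ) : x ∈ bl G a t ↔ G.dist a x ≤ t := by
  constructor
  · induction t generalizing x with
    | zero =>
      intro h
      have : x = a := Finset.mem_singleton.1 h
      rw [this]; simp
    | succ t ih =>
      intro h
      rcases Finset.mem_union.1 h with h | h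
      · exact (ih x h).trans (Nat.le_succ t)
      · rw [Finset.mem_biUnion] at h
        obtain ⟨y, hy, hyx⟩ := h
        rw [SimpleGraph.mem_neighborFinset] at hyx
        have h1 := ih y hy
        have h2 : G.dist y x = 1 := SimpleGraph.dist_eq_one_iff_adj.2 hyx
        have h3 := hc.dist_triangle (u := a) (v := y) (w := x)
        omega
  · intro h
    obtain ⟨p, hp⟩ := hc.exists_walk_length_eq_dist a x
    have h1 := getVert_mem_bl G p p.length le_rfl
    rw [p.getVert_length] at h1
    exact bl_mono G a (by omega) h1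

lemma forests_eq (hc : G.Connected) (a : V) (t : ℕ) :
    SpForests G a (t + 1) = Forests G (bl G a t) := by
  have hin : ∀ x, G.dist a x < t + 1 ↔ x ∈ bl G a t := fun x => by
    rw [mem_bl_iff hc]; omega
  have hout : ∀ x, t + 1 ≤ G.dist a x ↔ x ∉ bl G a t := fun x => by
    rw [mem_bl_iff hc]; omega
  ext ρ
  unfold SpForests Forests
  constructor
  · rintro ⟨h1, h2, h3⟩
    refine ⟨fun x hx => h1 x ((hin x).2 hx), fun x hx => h2 x ((hout x).2 hx), ?_⟩
    intro x hx
    by_contra hcon
    push Not at hcon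
    have hninj : ¬ Function.Injective (fun k : ℕ => (⟨ρ^[k] x, hcon k⟩ : bl G a t)) :=
      not_injective_infinite_finite _
    rw [Function.Injective] at hninj
    push Not at hninj
    obtain ⟨i, j, hij, hne⟩ := hninj
    have hij' : ρ^[i] x = ρ^[j] x := congrArg Subtype.val hij
    have hwl : ∀ i j : ℕ, i < j → ρ^[i] x ≠ ρ^[j] x := by
      intro i j hlt heq
      apply h3 (ρ^[i] x) ((hin _).2 (hcon i)) (j - i) (by omega)
      rw [← Function.iterate_add_apply, Nat.sub_add_cancel hlt.le]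
      exact heq.symm
    rcases lt_or_gt_of_ne hne with h | h
    · exact hwl i j h hij'
    · exact hwl j i h hij'.symm
  · rintro ⟨h1, h2, h3⟩
    refine ⟨fun x hx => h1 x ((hin x).1 hx), fun x hx => h2 x ((hout x).1 hx), ?_⟩
    intro x hx k hk hkx
    obtain ⟨m, hm⟩ := h3 x ((hin x).1 hx)
    have hstay : ∀ i, ρ^[m + i] x = ρ^[m] x := by
      intro i
      induction i with
      | zero => rfl
      | succ i ih =>
        rw [← add_assoc, Function.iterate_succ_apply', ih]
        exact h2 _ hm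
    have hper : ∀ i, ρ^[k * i] x = x := by
      intro i
      induction i with
      | zero => rfl
      | succ i ih => rw [Nat.mul_succ, Function.iterate_add_apply, hkx, ih]
    have h4 := hstay (k * m - m)
    rw [Nat.add_sub_cancel' (Nat.le_mul_of_pos_left m hk), hper] at h4
    rw [← h4] at hm
    exact hm ((hin x).1 hx)

theorem schramm_bound [Infinite V] [MeasurableSpace V] (hc : G.Connected) (hτ : Mech G τ)
    (hs : ∀ y, Summable (fun t => pf G a t y)) {μ : Measure (V → V)} [IsProbabilityMeasure μ]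
    (hμ : IsOWUSF G a μ) : ∀ᵐ ρ ∂μ, ∀ x,
      limsup (fun n : ℕ => ((SS τ a ρ n x : ℕ∞) : ℝ≥0∞) / n) atTop ≤ ENNReal.ofReal (Gr G a x) := by
  have hμ' : IsLim G a μ := by
    intro B η
    have h := (tendsto_add_atTop_iff_nat 1).2 (hμ B η)
    simp only [forests_eq hc] at h
    exact h
  have hGr0 : ∀ y, 0 ≤ Gr G a y := fun y => tsum_nonneg fun t => pf_nonneg t y
  filter_upwards [ae_bound hc hτ hs hμ'] with ρ hρ x
  exact limsup_le hc hτ hGr0 hρ.1 hρ.2 x

end Pool.Agent.H181.RW
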